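import Mathlib

/-!
# General d, block BETA, module Fib: an injection with prescribed classes

PROOF: for every `k` embed `{y | g y = k ∧ D y = some b}` into `{x | f x = k ∧ cl x = b}` (`b = false, true`), and
the other `x` with `f x = k` into the `y` with `g y = k`, `D y = none` (their number is at most the number of these
`y`).
-/

set_option autoImplicit false

namespace Pool.Agent.GD.BE

/-- An embedding over a base, from the numbers of elements of the fibers. -/
private theorem fib_emb1 {X Y K : Type} [Finite X] [Finite Y] (f : X → K) (g : Y → K)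
    (h : ∀ k, Nat.card {x // f x = k} ≤ Nat.card {y // g y = k}) :
    ∃ e : X → Y, Function.Injective e ∧ ∀ x, g (e x) = f x := by
  classical
  have _ := Fintype.ofFinite X
  have _ := Fintype.ofFinite Y
  have h1 : ∀ k, Nonempty ({x // f x = k} ↪ {y // g y = k}) := by
    intro k
    refine Function.Embedding.nonempty_of_card_le ?_
    have := h k
    rwa [Nat.card_eq_fintype_card, Nat.card_eq_fintype_card] at this
  let E : ∀ k, {x // f x = k} ↪ {y // g y = k} := fun k => (h1 k).some
  refine ⟨fun x => (E (f x) ⟨x, rfl⟩).1, ?_, fun x => (E (f x) ⟨x, rfl⟩).2⟩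
  intro x x' hxx
  have h2 : f x = f x' := by
    have h3 := (E (f x) ⟨x, rfl⟩).2
    have h4 := (E (f x') ⟨x', rfl⟩).2
    rw [← h3, ← h4]
    exact congrArg g hxx
  have h3 : ∀ (k : K) (hk : f x = k) (hk' : f x' = k),
      ((E k ⟨x, hk⟩).1 = (E k ⟨x', hk'⟩).1) → x = x' := by
    intro k hk hk' h4
    have h5 := (E k).injective (Subtype.ext h4)
    exact congrArg Subtype.val h5
  refine h3 (f x) rfl h2.symm ?_
  have h4 : ∀ (k k' : K) (hkk : k = k') (hk : f x' = k) (hk' : f x' = k'),
      (E k ⟨x', hk⟩).1 = (E k' ⟨x', hk'⟩).1 := by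
    rintro k _ rfl hk hk'
    rfl
  exact hxx.trans (h4 (f x') (f x) h2.symm rfl h2.symm)

private theorem fib_cnt {X : Type} [Fintype X] (P Q : X → Prop) [DecidablePred P]
    [DecidablePred Q] : Nat.card {x : {x // P x} // Q x.1} =
      (Finset.univ.filter fun x => Q x ∧ P x).card := by
  rw [Nat.card_congr (Equiv.subtypeSubtypeEquivSubtypeInter P Q), Nat.card_eq_fintype_card,
    Fintype.card_subtype]
  congr 1
  exact Finset.filter_congr fun x _ => and_comm

theorem fib_emb2 {X Y K : Type} [Finite X] [Finite Y] (f : X → K) (g : Y → K) (cl : X → Bool)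
    (D : Y → Option Bool)
    (h1 : ∀ k b, Nat.card {y // g y = k ∧ D y = some b} ≤ Nat.card {x // f x = k ∧ cl x = b})
    (h2 : ∀ k, Nat.card {x // f x = k} ≤ Nat.card {y // g y = k}) :
    ∃ i : X → Y, Function.Injective i ∧ (∀ x, g (i x) = f x) ∧
      ∀ y b, D y = some b → ∃ x, i x = y ∧ cl x = b := by
  classical
  have _ := Fintype.ofFinite X
  have _ := Fintype.ofFinite Y
  -- the prescribed points
  obtain ⟨e, he, hfe⟩ := fib_emb1 (X := {y // D y ≠ none}) (Y := X) (K := K × Bool)
    (fun y => (g y.1, (D y.1).getD false)) (fun x => (f x, cl x)) (by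
      rintro ⟨k, b⟩
      have h3 : ∀ y : {y : {y // D y ≠ none} // (g y.1, (D y.1).getD false) = (k, b)},
          g y.1.1 = k ∧ D y.1.1 = some b := by
        rintro ⟨⟨y, hy⟩, h⟩
        have h4 := (Prod.ext_iff.1 h)
        refine ⟨h4.1, ?_⟩
        obtain ⟨b', hb'⟩ := Option.ne_none_iff_exists'.1 hy
        have h5 : (D y).getD false = b := h4.2
        rw [hb', Option.getD_some] at h5
        show D y = some b
        rw [hb', h5]
      refine le_trans ?_ ((h1 k b).trans ?_)
      · exact Nat.card_le_card_of_injective
          (fun y : {y : {y // D y ≠ none} // (g y.1, (D y.1).getD false) = (k, b)} =>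
            (⟨y.1.1, h3 y⟩ : {y // g y = k ∧ D y = some b}))
          fun y y' h => by
            have h' := Subtype.ext_iff.1 h
            exact Subtype.ext (Subtype.ext h')
      · exact Nat.card_le_card_of_injective
          (fun x : {x // f x = k ∧ cl x = b} =>
            (⟨x.1, Prod.ext x.2.1 x.2.2⟩ : {x // (f x, cl x) = (k, b)}))
          fun x x' h => by
            have h' := Subtype.ext_iff.1 h
            exact Subtype.ext h')
  have hfe1 : ∀ y, f (e y) = g y.1 := fun y => congrArg Prod.fst (hfe y)
  have hfe2 : ∀ y, cl (e y) = (D y.1).getD false := fun y => congrArg Prod.snd (hfe y)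
  -- the other points
  obtain ⟨j, hj, hgj⟩ := fib_emb1 (X := {x // x ∉ Set.range e}) (Y := {y // D y = none}) (K := K)
    (fun x => f x.1) (fun y => g y.1) (by
      intro k
      have a1 := fib_cnt (fun x : X => x ∉ Set.range e) (fun x => f x = k)
      have a2 := fib_cnt (fun y : Y => D y = none) (fun y => g y = k)
      have a3 : (Finset.univ.filter fun y => g y = k ∧ D y ≠ none).card ≤
          (Finset.univ.filter fun x => f x = k ∧ x ∈ Set.range e).card := by
        rw [← fib_cnt (fun y : Y => D y ≠ none) (fun y => g y = k),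
          ← fib_cnt (fun x : X => x ∈ Set.range e) (fun x => f x = k)]
        exact Nat.card_le_card_of_injective
          (fun y : {y : {y // D y ≠ none} // g y.1 = k} =>
            (⟨⟨e y.1, ⟨y.1, rfl⟩⟩, (hfe1 y.1).trans y.2⟩ :
              {x : {x // x ∈ Set.range e} // f x.1 = k}))
          fun y y' h => Subtype.ext (he (congrArg Subtype.val (Subtype.ext_iff.1 h)))
      have a4 : Nat.card {x // f x = k} =
          (Finset.univ.filter fun x => f x = k ∧ x ∈ Set.range e).card +
          (Finset.univ.filter fun x => f x = k ∧ x ∉ Set.range e).card := by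
        rw [Nat.card_eq_fintype_card, Fintype.card_subtype,
          ← Finset.card_filter_add_card_filter_not (fun x => x ∈ Set.range e),
          Finset.filter_filter, Finset.filter_filter]
      have a5 : Nat.card {y // g y = k} =
          (Finset.univ.filter fun y => g y = k ∧ D y ≠ none).card +
          (Finset.univ.filter fun y => g y = k ∧ D y = none).card := by
        rw [Nat.card_eq_fintype_card, Fintype.card_subtype,
          ← Finset.card_filter_add_card_filter_not (fun y => D y ≠ none),
          Finset.filter_filter, Finset.filter_filter]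
        simp only [ne_eq, not_not]
      have a6 := h2 k
      rw [a1, a2]
      omega)
  refine ⟨fun x => if h : x ∈ Set.range e then h.choose.1 else (j ⟨x, h⟩).1, ?_, ?_, ?_⟩
  · intro x x' hxx
    by_cases hx : x ∈ Set.range e
    · by_cases hx' : x' ∈ Set.range e
      · simp only [dif_pos hx, dif_pos hx'] at hxx
        rw [← hx.choose_spec, ← hx'.choose_spec, Subtype.ext hxx]
      · simp only [dif_pos hx, dif_neg hx'] at hxx
        exact absurd ((congrArg D hxx).trans (j ⟨x', hx'⟩).2) hx.choose.2
    · by_cases hx' : x' ∈ Set.range e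
      · simp only [dif_neg hx, dif_pos hx'] at hxx
        exact absurd ((congrArg D hxx.symm).trans (j ⟨x, hx⟩).2) hx'.choose.2
      · simp only [dif_neg hx, dif_neg hx'] at hxx
        exact congrArg Subtype.val (hj (Subtype.ext hxx))
  · intro x
    by_cases hx : x ∈ Set.range e
    · simp only [dif_pos hx]
      have h3 := hfe1 hx.choose
      rw [hx.choose_spec] at h3
      exact h3.symm
    · simp only [dif_neg hx]
      exact hgj ⟨x, hx⟩
  · intro y b hy
    have hne : D y ≠ none := by
      rw [hy]
      exact Option.some_ne_none b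
    refine ⟨e ⟨y, hne⟩, ?_, ?_⟩
    · have hx : e ⟨y, hne⟩ ∈ Set.range e := ⟨_, rfl⟩
      simp only [dif_pos hx]
      exact congrArg Subtype.val (he hx.choose_spec)
    · rw [hfe2, hy, Option.getD_some]

end Pool.Agent.GD.BE
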