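import Pool.Agent.GD.BE.Lab
import Pool.Agent.GD.Top.Gam
import Pool.Agent.V7.BE.Geo

/-!
# General d, block BETA, module Frm: forms and tensors

`vz : Fin q × Fin cz → Fin m` numbers the variables of `q` blocks of the variables `W`.  `vv φ vz S ω` is
the vector with the coordinates `ω` on the blocks of `S ⊆ Fin J ⊕ Fin q` and `0` elsewhere.  `frm`: if the
objects of `rest` have, at the position `p₁`, points `vv S ω` of exponent `#S` for all base points
(`S ⊆ Fin J`) and all additional points of `PB ν q`, then the forms with coefficient vectors in `F` are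
bounded by the junk exponents (not of the form: one variable in every block `i < J` and one in each of `e`
different blocks of `W`), and the tensor spaces of the `α ∉ Bad`.  PROOF: as `V7/BE/Geo.lean`
(`sum_tcr`) and `V7/BE/Form.lean` (`fin_bound`).
-/

set_option autoImplicit false
set_option linter.unusedSectionVars false

namespace Pool.Agent.GD.BE

open Finset MvPolynomial Module Pool.Agent.H51.TB Topology
open Pool.Agent.GD.Top (Bl TI Gam IsB SF)

variable {c : ℕ → ℕ} {cz J e q m n d : ℕ}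

/-- The vector with the coordinates `ω` on the blocks of `S`. -/
noncomputable def vv (φ : Bl c J ⊕ Fin m ≃ Fin n) (vz : Fin q × Fin cz → Fin m)
    (S : Finset (Fin J ⊕ Fin q)) (ω : RC c cz J q → ℂ) : Fin n → ℂ := fun s =>
  Sum.elim (fun x : Bl c J => if Sum.inl x.1 ∈ S then ω (Sum.inl x) else 0)
    (fun t => ∑ y : Fin q × Fin cz, if vz y = t ∧ Sum.inr y.1 ∈ S then ω (Sum.inr y) else 0)
    (φ.symm s)

/-- The tensors of the base slots as tensors on all slots. -/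
noncomputable def ext (e cz : ℕ) (F : Submodule ℂ (TI c J → ℂ)) :
    Submodule ℂ ((∀ i : Fin J ⊕ Fin e, Fin (cd c cz i)) → ℂ) :=
  F.map (LinearMap.funLeft ℂ ℂ fun (w : ∀ i : Fin J ⊕ Fin e, Fin (cd c cz i)) =>
    (fun i => w (Sum.inl i) : TI c J))

private theorem map_finrank {A B : Type} (f : (A → ℂ) →ₗ[ℂ] (B → ℂ)) (hf : Function.Injective f)
    (F : Submodule ℂ (A → ℂ)) : finrank ℂ (F.map f) = finrank ℂ F := by
  rw [← LinearMap.range_domRestrict]
  exact LinearMap.finrank_range_of_inj fun x y h => Subtype.ext (hf h)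

theorem finrank_ext (hz : 0 < cz) (F : Submodule ℂ (TI c J → ℂ)) :
    finrank ℂ (ext e cz F) = finrank ℂ F := by
  have hsurj : Function.Surjective (fun (w : ∀ i : Fin J ⊕ Fin e, Fin (cd c cz i)) =>
      (fun i => w (Sum.inl i) : TI c J)) := by
    intro a
    refine ⟨fun i => match i with
      | Sum.inl j => a j
      | Sum.inr _ => ⟨0, hz⟩, rfl⟩
  have hinj : Function.Injective (LinearMap.funLeft ℂ ℂ
      fun (w : ∀ i : Fin J ⊕ Fin e, Fin (cd c cz i)) => (fun i => w (Sum.inl i) : TI c J)) :=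
    LinearMap.funLeft_injective_of_surjective ℂ ℂ _ hsurj
  exact map_finrank (A := TI c J) _ hinj F

theorem ext_le (F : Submodule ℂ (TI c J → ℂ)) :
    ext e cz F ≤ Dep (cd c cz) (tb J e) := by
  rintro _ ⟨g, -, rfl⟩
  intro w w' h
  show g (fun i => w (Sum.inl i)) = g (fun i => w' (Sum.inl i))
  congr 1
  funext i
  exact h (Sum.inl i) (mem_filter.2 ⟨mem_univ _, rfl⟩)

/-- The number of the exponents which are not of the form used. -/
noncomputable def jk (c : ℕ → ℕ) (cz J e q n d : ℕ) : ℕ :=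
  (Ex (blk c n) d (range J)).card - (∏ i ∈ range J, c i) * cz ^ e * q.choose e

section conditions

variable {ν : Type} [Fintype ν] [DecidableEq ν]

private theorem eval_pt' (β : ν → ℕ) (k : Kd) (x : Fin (d + 1)) (q : ν × Fin (d + 1) → ℂ) (s : ν) :
    eval q (pt β k x (fun s => (X s : MvPolynomial (ν × Fin (d + 1)) ℂ)) s) = pt β k x q s := by
  rcases k with ⟨e, A⟩ | ⟨e, dl, i, As⟩
  · simp only [pt, Pool.Agent.V7.msk]
    split_ifs
    · rw [map_zero]
    · rw [eval_X]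
  · simp only [pt, Pool.Agent.V7.msk]
    split_ifs
    · rw [map_zero]
    · rw [map_neg, map_sum]
      congr 1
      refine sum_congr rfl fun y _ => ?_
      split_ifs
      · rw [eval_X]
      · rw [map_zero]
    · rw [eval_X]

private theorem V_pt' {D : ℕ} {β : ν → ℕ} {I : Finset ℕ} {A : Finset (ν → ℕ)} {κ : Type}
    {rest : κ → Kd} {p : κ → ν × Fin (d + 1) → ℂ} {f : {a // a ∈ A} → ℂ}
    (hf : f ∈ (LSA d D β I A).V rest p) (i : κ)
    (x : Fin (d + 1)) (hx : x.1 < (rest i).nm) (b : ν → ℕ) (hb : ∑ s, b s + (rest i).ex ≤ D) :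
    ∑ a : {a // a ∈ A}, f a * Pool.Agent.H18.Ex.tcr (pt β (rest i) x (p i)) a.1 b = 0 := by
  have h1 := (Sys.mem_V _ rest p f).1 hf i (Sum.inl ⟨(x, b), hx, hb⟩)
  rw [← h1]
  refine sum_congr rfl fun a _ => ?_
  rw [mul_comm]
  congr 1
  symm
  show eval (p i) (Pool.Agent.H18.Ex.tcr (pt β (rest i) x fun s =>
    (X s : MvPolynomial (ν × Fin (d + 1)) ℂ)) a.1 b) = _
  unfold Pool.Agent.H18.Ex.tcr
  rw [map_prod]
  refine prod_congr rfl fun s _ => ?_
  rw [map_mul, map_pow, map_natCast, eval_pt']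

end conditions

/-! ### The squarefree exponents -/

open Pool.Agent.V7.BE (ind sum_ind ind_inj tcr_ind tcr_ind_ne range_eq)
open Pool.Agent.H18.Ex (tcr)

namespace FrmP

/-- The coordinates of the slots. -/
def sr (α : Fin e ↪o Fin q) : (Σ i : Fin J ⊕ Fin e, Fin (cd c cz i)) → RC c cz J q
  | ⟨Sum.inl j, z⟩ => Sum.inl ⟨j, z⟩
  | ⟨Sum.inr h, z⟩ => Sum.inr (α h, z)

/-- The block of a coordinate. -/
def bk : RC c cz J q → Fin J ⊕ Fin q
  | Sum.inl y => Sum.inl y.1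
  | Sum.inr y => Sum.inr y.1

theorem bk_sr (α : Fin e ↪o Fin q) (x : Fin J ⊕ Fin e) (t : Fin (cd c cz x)) :
    bk (sr α ⟨x, t⟩ : RC c cz J q) = emb J α x := by
  rcases x with j | h <;> rfl

theorem pull_sr (α : Fin e ↪o Fin q) (ω : RC c cz J q → ℂ)
    (x : Σ i : Fin J ⊕ Fin e, Fin (cd c cz i)) : pull α ω x = ω (sr α x) := by
  rcases x with ⟨j | h, t⟩ <;> rfl

theorem sr_inj (α : Fin e ↪o Fin q) : Function.Injective (sr α :
    (Σ i : Fin J ⊕ Fin e, Fin (cd c cz i)) → RC c cz J q) := by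
  rintro ⟨j | h, t⟩ ⟨j' | h', t'⟩ hh
  · have h1 : (⟨j, t⟩ : Σ j : Fin J, Fin (c j)) = ⟨j', t'⟩ := Sum.inl_injective hh
    cases h1
    rfl
  · exact absurd hh Sum.inl_ne_inr
  · exact absurd hh Sum.inr_ne_inl
  · have h1 : (α h, t) = (α h', t') := Sum.inr_injective hh
    have h2 : h = h' := α.injective (congrArg Prod.fst h1)
    subst h2
    have h3 : t = t' := congrArg Prod.snd h1
    subst h3
    rfl

theorem exists_sr (α : Fin e ↪o Fin q) (y : RC c cz J q) (x : Fin J ⊕ Fin e)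
    (h : bk y = emb J α x) : ∃ t : Fin (cd c cz x), y = sr α ⟨x, t⟩ := by
  rcases y with ⟨j, t⟩ | ⟨b, t⟩ <;> rcases x with j' | h'
  · have h1 : j = j' := Sum.inl_injective h
    subst h1
    exact ⟨t, rfl⟩
  · exact absurd h Sum.inl_ne_inr
  · exact absurd h Sum.inr_ne_inl
  · have h1 : b = α h' := Sum.inr_injective h
    subst h1
    exact ⟨t, rfl⟩

/-- The numbering of the variables. -/
def vn (φ : Bl c J ⊕ Fin m ≃ Fin n) (vz : Fin q × Fin cz → Fin m) (y : RC c cz J q) : Fin n :=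
  φ (Sum.map id vz y)

theorem vn_inj (φ : Bl c J ⊕ Fin m ≃ Fin n) {vz : Fin q × Fin cz → Fin m}
    (hvz : Function.Injective vz) : Function.Injective (vn φ vz) :=
  φ.injective.comp (Sum.map_injective.2 ⟨Function.injective_id, hvz⟩)

theorem vv_vn (φ : Bl c J ⊕ Fin m ≃ Fin n) {vz : Fin q × Fin cz → Fin m}
    (hvz : Function.Injective vz) (S : Finset (Fin J ⊕ Fin q)) (ω : RC c cz J q → ℂ)
    (y : RC c cz J q) : vv φ vz S ω (vn φ vz y) = if bk y ∈ S then ω y else 0 := by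
  unfold vv vn
  rw [Equiv.symm_apply_apply]
  rcases y with y | y
  · rfl
  · show ∑ y' : Fin q × Fin cz, (if vz y' = vz y ∧ Sum.inr y'.1 ∈ S then ω (Sum.inr y') else 0) = _
    rw [sum_eq_single y]
    · have h1 : (vz y = vz y ∧ (Sum.inr y.1 : Fin J ⊕ Fin q) ∈ S) ↔
          bk (Sum.inr y : RC c cz J q) ∈ S := ⟨fun h => h.2, fun h => ⟨rfl, h⟩⟩
      by_cases h2 : bk (Sum.inr y : RC c cz J q) ∈ S
      · rw [if_pos (h1.2 h2), if_pos h2]
      · rw [if_neg fun h => h2 (h1.1 h), if_neg h2]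
    · intro y' _ hy'
      rw [if_neg]
      rintro ⟨h1, -⟩
      exact hy' (hvz h1)
    · intro h
      exact absurd (mem_univ y) h

theorem vv_ne (φ : Bl c J ⊕ Fin m ≃ Fin n) {vz : Fin q × Fin cz → Fin m}
    {S : Finset (Fin J ⊕ Fin q)} {ω : RC c cz J q → ℂ} {s : Fin n} (h : vv φ vz S ω s ≠ 0) :
    ∃ y : RC c cz J q, bk y ∈ S ∧ vn φ vz y = s := by
  obtain ⟨x, rfl⟩ := φ.surjective s
  unfold vv at h
  rw [Equiv.symm_apply_apply] at h
  rcases x with y | t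
  · have h1 : (if Sum.inl y.1 ∈ S then ω (Sum.inl y) else 0) ≠ 0 := h
    refine ⟨Sum.inl y, ?_, rfl⟩
    by_contra h2
    exact h1 (if_neg h2)
  · have h1 : ∑ y : Fin q × Fin cz, (if vz y = t ∧ Sum.inr y.1 ∈ S then ω (Sum.inr y) else 0) ≠ 0 := h
    obtain ⟨y, -, hy⟩ := exists_ne_zero_of_sum_ne_zero h1
    have h2 : vz y = t ∧ (Sum.inr y.1 : Fin J ⊕ Fin q) ∈ S := by
      by_contra h2
      exact hy (if_neg h2)
    refine ⟨Sum.inr y, h2.2, ?_⟩
    show φ (Sum.inr (vz y)) = φ (Sum.inr t)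
    rw [h2.1]

/-- The variable of a slot. -/
def sv (φ : Bl c J ⊕ Fin m ≃ Fin n) (vz : Fin q × Fin cz → Fin m) (α : Fin e ↪o Fin q)
    (x : Σ i : Fin J ⊕ Fin e, Fin (cd c cz i)) : Fin n := vn φ vz (sr α x)

theorem sv_inj (φ : Bl c J ⊕ Fin m ≃ Fin n) {vz : Fin q × Fin cz → Fin m}
    (hvz : Function.Injective vz) (α : Fin e ↪o Fin q) : Function.Injective (sv φ vz α :
      (Σ i : Fin J ⊕ Fin e, Fin (cd c cz i)) → Fin n) := (vn_inj φ hvz).comp (sr_inj α)

/-- The variables `w x`, `x ∈ S`. -/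
def pS (φ : Bl c J ⊕ Fin m ≃ Fin n) (vz : Fin q × Fin cz → Fin m) (α : Fin e ↪o Fin q)
    (S : Finset (Fin J ⊕ Fin e)) (w : ∀ i : Fin J ⊕ Fin e, Fin (cd c cz i)) : Finset (Fin n) :=
  S.image fun x => sv φ vz α ⟨x, w x⟩

/-- The squarefree exponents. -/
def mn (φ : Bl c J ⊕ Fin m ≃ Fin n) (vz : Fin q × Fin cz → Fin m) (α : Fin e ↪o Fin q)
    (w : ∀ i : Fin J ⊕ Fin e, Fin (cd c cz i)) : Fin n → ℕ := ind (pS φ vz α univ w)

theorem mem_pS {φ : Bl c J ⊕ Fin m ≃ Fin n} {vz : Fin q × Fin cz → Fin m} {α : Fin e ↪o Fin q}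
    {S : Finset (Fin J ⊕ Fin e)} {w : ∀ i : Fin J ⊕ Fin e, Fin (cd c cz i)} {s : Fin n} :
    s ∈ pS φ vz α S w ↔ ∃ x ∈ S, sv φ vz α ⟨x, w x⟩ = s := by
  unfold pS
  rw [mem_image]

variable {φ : Bl c J ⊕ Fin m ≃ Fin n} {vz : Fin q × Fin cz → Fin m}

theorem sv_slot (hvz : Function.Injective vz) {α α' : Fin e ↪o Fin q}
    {x x' : Σ i : Fin J ⊕ Fin e, Fin (cd c cz i)} (h : sv φ vz α x = sv φ vz α' x') :
    emb J α x.1 = emb J α' x'.1 := by
  rw [← bk_sr (c := c) (cz := cz) α x.1 x.2, ← bk_sr (c := c) (cz := cz) α' x'.1 x'.2]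
  exact congrArg bk (vn_inj φ hvz h)

theorem pS_inj (hvz : Function.Injective vz) (α : Fin e ↪o Fin q)
    (w : ∀ i : Fin J ⊕ Fin e, Fin (cd c cz i)) :
    Function.Injective fun x => sv φ vz α ⟨x, w x⟩ := by
  intro x x' h
  exact congrArg Sigma.fst (sv_inj φ hvz α h)

theorem card_pS (hvz : Function.Injective vz) (α : Fin e ↪o Fin q)
    (S : Finset (Fin J ⊕ Fin e)) (w : ∀ i : Fin J ⊕ Fin e, Fin (cd c cz i)) :
    (pS φ vz α S w).card = S.card := card_image_of_injective _ (pS_inj hvz α w)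

theorem emb_eq {α α' : Fin e ↪o Fin q} (h : ∀ z, ∃ x, emb J α x = emb J α' z) : α' = α := by
  refine range_eq fun z => ?_
  obtain ⟨x, hx⟩ := h (Sum.inr z)
  rcases x with i | x
  · exact absurd hx Sum.inl_ne_inr
  · exact ⟨x, Sum.inr_injective hx⟩

theorem pS_sub (hvz : Function.Injective vz) (α : Fin e ↪o Fin q)
    (S : Finset (Fin J ⊕ Fin e)) (w w' : ∀ i : Fin J ⊕ Fin e, Fin (cd c cz i)) :
    pS φ vz α S w ⊆ pS φ vz α univ w' ↔ ∀ j ∈ S, w' j = w j := by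
  constructor
  · intro h j hj
    obtain ⟨x, -, hx⟩ := mem_pS.1 (h (mem_pS.2 ⟨j, hj, rfl⟩))
    have h1 := sv_inj φ hvz α hx
    have h2 : x = j := congrArg Sigma.fst h1
    subst h2
    exact eq_of_heq (Sigma.mk.inj_iff.1 h1).2
  · intro h s hs
    obtain ⟨x, hx, rfl⟩ := mem_pS.1 hs
    exact mem_pS.2 ⟨x, mem_univ x, by rw [h x hx]⟩

theorem mn_inj (hvz : Function.Injective vz) {α α' : Fin e ↪o Fin q}
    {w w' : ∀ i : Fin J ⊕ Fin e, Fin (cd c cz i)}
    (h : mn φ vz α w = mn φ vz α' w') : α' = α ∧ w' = w := by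
  have h1 : pS φ vz α univ w = pS φ vz α' univ w' := ind_inj h
  have h3 : α' = α := by
    refine emb_eq (J := J) fun z => ?_
    have h3 : sv φ vz α' ⟨z, w' z⟩ ∈ pS φ vz α univ w := by
      rw [h1]
      exact mem_pS.2 ⟨z, mem_univ z, rfl⟩
    obtain ⟨x, -, hx⟩ := mem_pS.1 h3
    exact ⟨x, sv_slot hvz hx⟩
  subst h3
  exact ⟨rfl, funext fun j => (pS_sub hvz α' univ w w').1 h1.le j (mem_univ j)⟩

/-- The exponents `mn` belong to the level. -/
theorem mn_mem (hd : d = e + J) (hφ : IsB φ (blk c n)) (hvz : Function.Injective vz)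
    (α : Fin e ↪o Fin q) (w : ∀ i : Fin J ⊕ Fin e, Fin (cd c cz i)) :
    mn φ vz α w ∈ Ex (blk c n) d (range J) := by
  rw [mem_Ex]
  constructor
  · unfold mn
    rw [sum_ind, card_pS hvz, card_univ, Fintype.card_sum, Fintype.card_fin, Fintype.card_fin]
    omega
  · intro i hi
    rw [mem_range] at hi
    refine ⟨sv φ vz α ⟨Sum.inl ⟨i, hi⟩, w (Sum.inl ⟨i, hi⟩)⟩, ?_, ?_⟩
    · exact hφ.1 ⟨⟨i, hi⟩, w (Sum.inl ⟨i, hi⟩)⟩
    · unfold mn ind
      rw [if_pos (mem_pS.2 ⟨_, mem_univ _, rfl⟩)]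
      exact one_ne_zero

theorem mix_inl (w u : ∀ i : Fin J ⊕ Fin e, Fin (cd c cz i)) (j : Fin J) :
    mix (tb J e) w u (Sum.inl j) = w (Sum.inl j) := by
  unfold mix
  rw [if_pos]
  exact mem_filter.2 ⟨mem_univ _, rfl⟩

theorem mix_inr (w u : ∀ i : Fin J ⊕ Fin e, Fin (cd c cz i)) (j : Fin e) :
    mix (tb J e) w u (Sum.inr j) = u (Sum.inr j) := by
  unfold mix
  rw [if_neg]
  intro h
  exact absurd (mem_filter.1 h).2 (by simp)

theorem mn_inl (α : Fin e ↪o Fin q) (w : ∀ i : Fin J ⊕ Fin e, Fin (cd c cz i)) (a : TI c J)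
    (ha : ∀ j, w (Sum.inl j) = a j) (x : Bl c J) :
    mn φ vz α w (φ (Sum.inl x)) = if x.2 = a x.1 then 1 else 0 := by
  unfold mn ind
  rcases x with ⟨j, t⟩
  show _ = if t = a j then 1 else 0
  rw [← ha j]
  by_cases h : t = w (Sum.inl j)
  · rw [if_pos h, if_pos (mem_pS.2 ⟨Sum.inl j, mem_univ _, by rw [h]; rfl⟩)]
  · rw [if_neg h, if_neg]
    intro h1
    obtain ⟨y, -, hy⟩ := mem_pS.1 h1
    rcases y with j' | h'
    · have h2 : (⟨j', w (Sum.inl j')⟩ : Bl c J) = ⟨j, t⟩ := Sum.inl_injective (φ.injective hy)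
      have h3 : j' = j := congrArg Sigma.fst h2
      subst h3
      exact h (eq_of_heq (Sigma.mk.inj_iff.1 h2).2).symm
    · exact absurd (φ.injective hy) Sum.inr_ne_inl

theorem mn_inr_congr (α : Fin e ↪o Fin q) (w w' : ∀ i : Fin J ⊕ Fin e, Fin (cd c cz i))
    (h : ∀ i, w (Sum.inr i) = w' (Sum.inr i)) (t : Fin m) :
    mn φ vz α w (φ (Sum.inr t)) = mn φ vz α w' (φ (Sum.inr t)) := by
  have key : ∀ w w' : ∀ i : Fin J ⊕ Fin e, Fin (cd c cz i), (∀ i, w (Sum.inr i) = w' (Sum.inr i)) →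
      φ (Sum.inr t) ∈ pS φ vz α univ w → φ (Sum.inr t) ∈ pS φ vz α univ w' := by
    intro w w' h h1
    obtain ⟨y, -, hy⟩ := mem_pS.1 h1
    rcases y with j' | h'
    · exact absurd (φ.injective hy) Sum.inl_ne_inr
    · rw [h h'] at hy
      exact mem_pS.2 ⟨Sum.inr h', mem_univ _, hy⟩
  unfold mn ind
  by_cases h1 : φ (Sum.inr t) ∈ pS φ vz α univ w
  · rw [if_pos h1, if_pos (key w w' h h1)]
  · rw [if_neg h1, if_neg fun h2 => h1 (key w' w (fun i => (h i).symm) h2)]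

/-- The Taylor coefficients of the squarefree monomials. -/
theorem tcr_mn (hvz : Function.Injective vz) (α : Fin e ↪o Fin q) (S : Finset (Fin J ⊕ Fin e))
    (y : (Σ i : Fin J ⊕ Fin e, Fin (cd c cz i)) → ℂ) {P : Fin n → ℂ}
    (hP : ∀ x ∈ S, ∀ t, P (sv φ vz α ⟨x, t⟩) = y ⟨x, t⟩)
    (w w' : ∀ i : Fin J ⊕ Fin e, Fin (cd c cz i)) :
    tcr P (mn φ vz α w') (ind (pS φ vz α Sᶜ w)) =
      if ∀ j, j ∉ S → w' j = w j then ∏ j ∈ S, y ⟨j, w' j⟩ else 0 := by
  unfold mn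
  rw [tcr_ind]
  have h1 : pS φ vz α Sᶜ w ⊆ pS φ vz α univ w' ↔ ∀ j, j ∉ S → w' j = w j := by
    rw [pS_sub hvz]
    simp only [mem_compl]
  by_cases h2 : ∀ j, j ∉ S → w' j = w j
  · rw [if_pos (h1.2 h2), if_pos h2]
    have h3 : pS φ vz α Sᶜ w = pS φ vz α Sᶜ w' := by
      unfold pS
      refine image_congr fun x hx => ?_
      have hx' : x ∉ S := by
        intro h3
        have h4 : x ∈ Sᶜ := hx
        rw [mem_compl] at h4
        exact h4 h3
      show sv φ vz α ⟨x, w x⟩ = sv φ vz α ⟨x, w' x⟩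
      rw [h2 x hx']
    have h4 : pS φ vz α univ w' \ pS φ vz α Sᶜ w = pS φ vz α S w' := by
      rw [h3]
      unfold pS
      rw [← image_sdiff _ _ (pS_inj hvz α w')]
      congr 1
      rw [← compl_eq_univ_sdiff, compl_compl]
    rw [h4]
    unfold pS
    rw [prod_image fun a _ b _ h => pS_inj hvz α w' h]
    exact prod_congr rfl fun x hx => hP x hx _
  · rw [if_neg fun h => h2 (h1.1 h), if_neg h2]

/-- The key computation. -/
theorem sum_tcr (hvz : Function.Injective vz) {A : Finset (Fin n → ℕ)} {f : {a // a ∈ A} → ℂ}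
    (hA : ∀ (α : Fin e ↪o Fin q) (w : ∀ i : Fin J ⊕ Fin e, Fin (cd c cz i)), mn φ vz α w ∈ A)
    (hf : ∀ a, f a ≠ 0 → ∃ (α : Fin e ↪o Fin q) (w : ∀ i : Fin J ⊕ Fin e, Fin (cd c cz i)),
      a.1 = mn φ vz α w)
    (α : Fin e ↪o Fin q) (S : Finset (Fin J ⊕ Fin e))
    (y : (Σ i : Fin J ⊕ Fin e, Fin (cd c cz i)) → ℂ) {P : Fin n → ℂ}
    (hP : ∀ x ∈ S, ∀ t, P (sv φ vz α ⟨x, t⟩) = y ⟨x, t⟩)
    (hP0 : ∀ s, P s ≠ 0 → ∃ x ∈ S, ∃ t, sv φ vz α ⟨x, t⟩ = s)
    (w : ∀ i : Fin J ⊕ Fin e, Fin (cd c cz i)) :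
    ∑ a : {a // a ∈ A}, f a * tcr P a.1 (ind (pS φ vz α Sᶜ w)) =
      ctr S y (fun w' => f ⟨mn φ vz α w', hA α w'⟩) w := by
  classical
  symm
  unfold ctr
  refine Fintype.sum_of_injective (fun w' => (⟨mn φ vz α w', hA α w'⟩ : {a // a ∈ A})) ?_ _ _ ?_ ?_
  · intro w₁ w₂ h
    exact ((mn_inj hvz (congrArg Subtype.val h)).2).symm
  · intro a ha
    by_contra hne
    have hfa : f a ≠ 0 := left_ne_zero_of_mul hne
    have hta := right_ne_zero_of_mul hne
    obtain ⟨α', w', haw⟩ := hf a hfa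
    rw [haw] at hta
    obtain ⟨-, h3⟩ := tcr_ind_ne hta
    have h5 : α' = α := by
      refine emb_eq (J := J) fun z => ?_
      by_cases hz : sv φ vz α' ⟨z, w' z⟩ ∈ pS φ vz α Sᶜ w
      · obtain ⟨x, -, hx'⟩ := mem_pS.1 hz
        exact ⟨x, sv_slot hvz hx'⟩
      · have h5 : sv φ vz α' ⟨z, w' z⟩ ∈ pS φ vz α' univ w' \ pS φ vz α Sᶜ w := by
          rw [mem_sdiff]
          exact ⟨mem_pS.2 ⟨z, mem_univ z, rfl⟩, hz⟩
        obtain ⟨x, -, t, hxt⟩ := hP0 _ (h3 _ h5)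
        exact ⟨x, sv_slot hvz hxt⟩
    subst h5
    exact ha ⟨w', Subtype.ext haw.symm⟩
  · intro w'
    show _ = f ⟨mn φ vz α w', hA α w'⟩ * tcr P (mn φ vz α w') (ind (pS φ vz α Sᶜ w))
    rw [tcr_mn hvz α S y hP]
    split_ifs
    · rw [mul_comm]
    · rw [mul_zero]

/-- The values of the point on the slots. -/
theorem vv_sv (hvz : Function.Injective vz) (α : Fin e ↪o Fin q) (S : Finset (Fin J ⊕ Fin e))
    (ω : RC c cz J q → ℂ) : (∀ x ∈ S, ∀ t, vv φ vz (S.map (emb J α)) ω (sv φ vz α ⟨x, t⟩) =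
      pull α ω ⟨x, t⟩) ∧ ∀ s, vv φ vz (S.map (emb J α)) ω s ≠ 0 →
        ∃ x ∈ S, ∃ t, sv φ vz α ⟨x, t⟩ = s := by
  constructor
  · intro x hx t
    unfold sv
    rw [vv_vn φ hvz, bk_sr, if_pos (mem_map_of_mem _ hx), pull_sr]
  · intro s hs
    obtain ⟨y, hy, rfl⟩ := vv_ne φ hs
    obtain ⟨x, hx, hxy⟩ := mem_map.1 hy
    obtain ⟨t, rfl⟩ := exists_sr α y x hxy.symm
    exact ⟨x, hx, t, rfl⟩

/-- The exponents of the form `mn`. -/
def IsMn (φ : Bl c J ⊕ Fin m ≃ Fin n) (vz : Fin q × Fin cz → Fin m) (e : ℕ)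
    (a : {a // a ∈ Ex (blk c n) d (range J)}) : Prop :=
  ∃ (α : Fin e ↪o Fin q) (w : ∀ i : Fin J ⊕ Fin e, Fin (cd c cz i)), a.1 = mn φ vz α w

theorem card_cd : Fintype.card (∀ i : Fin J ⊕ Fin e, Fin (cd c cz i)) =
    (∏ i ∈ range J, c i) * cz ^ e := by
  rw [Fintype.card_pi, Fintype.prod_sum_type]
  congr 1
  · rw [prod_range]
    exact prod_congr rfl fun i _ => Fintype.card_fin _
  · show ∏ _i : Fin e, Fintype.card (Fin cz) = cz ^ e
    rw [prod_const, card_univ, Fintype.card_fin, Fintype.card_fin]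

open Classical in
theorem card_junk (hd : d = e + J) (hφ : IsB φ (blk c n)) (hvz : Function.Injective vz) :
    Fintype.card {a : {a // a ∈ Ex (blk c n) d (range J)} // ¬ IsMn φ vz e a} ≤
      jk c cz J e q n d := by
  have h1 := Fintype.card_congr (Equiv.sumCompl (IsMn (d := d) φ vz e))
  rw [Fintype.card_sum, Fintype.card_coe] at h1
  have h2 : Fintype.card ((Fin e ↪o Fin q) × (∀ i : Fin J ⊕ Fin e, Fin (cd c cz i))) ≤
      Fintype.card {a : {a // a ∈ Ex (blk c n) d (range J)} // IsMn φ vz e a} := by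
    refine Fintype.card_le_of_injective
      (fun x => ⟨⟨mn φ vz x.1 x.2, mn_mem hd hφ hvz x.1 x.2⟩, x.1, x.2, rfl⟩) ?_
    rintro ⟨α, w⟩ ⟨α', w'⟩ h
    have h3 : mn φ vz α w = mn φ vz α' w' :=
      congrArg (fun z : {a : {a // a ∈ Ex (blk c n) d (range J)} // IsMn φ vz e a} => z.1.1) h
    have h4 := mn_inj hvz h3
    rw [h4.1, h4.2]
  have h5 : Fintype.card (Fin e ↪o Fin q) = q.choose e := by
    rw [← Nat.card_eq_fintype_card, Nat.card_congr Set.powersetCard.ofFinEmbEquiv,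
      Set.powersetCard.card, Nat.card_eq_fintype_card, Fintype.card_fin]
  rw [Fintype.card_prod, card_cd, h5, mul_comm] at h2
  unfold jk
  omega

end FrmP

open FrmP

theorem frm (hd : d = e + J) (hc : ∀ i < J, 0 < c i) (hz : 0 < cz)
    (φ : Bl c J ⊕ Fin m ≃ Fin n) (hφ : IsB φ (blk c n))
    (vz : Fin q × Fin cz → Fin m) (hvz : Function.Injective vz) (ν : Nos J)
    {κ : Type} [Fintype κ] (rest : κ → Kd) (p₁ : κ → Fin n × Fin (d + 1) → ℂ)
    {P₀ : Type} [Fintype P₀] (m₀ : P₀ → Finset (Fin J ⊕ Fin e)) (hm₀ : ∀ z, m₀ z ⊆ tb J e)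
    (r : P₀ → (Σ i : Fin J ⊕ Fin e, Fin (cd c cz i)) → ℂ)
    (hbase : ∀ z, ∃ (i : κ) (x : Fin (d + 1)) (ω : RC c cz J q → ℂ), x.1 < (rest i).nm ∧
      (rest i).ex = (m₀ z).card ∧ (∀ y, ω (Sum.inl y) = r z ⟨Sum.inl y.1, y.2⟩) ∧
      pt (blk c n) (rest i) x (p₁ i) =
        vv φ vz ((lf (m₀ z)).map Function.Embedding.inl) ω)
    (Ω : PB ν q → RC c cz J q → ℂ)
    (hadd : ∀ u : PB ν q, ∃ (i : κ) (x : Fin (d + 1)), x.1 < (rest i).nm ∧
      (rest i).ex = u.1.card ∧ pt (blk c n) (rest i) x (p₁ i) = vv φ vz u.1 (Ω u))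
    (Bad : Finset (Fin e ↪o Fin q)) (F : Submodule ℂ (TI c J → ℂ)) :
    finrank ℂ (SF φ ((LS d d (blk c n) (range J)).V rest p₁) F) ≤
      jk c cz J e q n d + ∑ α ∈ univ \ Bad,
          finrank ℂ (KE (tb J e) (Sum.elim m₀ (mC (nhi ν) (cor ν α)))
            (Sum.elim r (pos ν α Ω)) (ext e cz F)) +
        Bad.card * ((∏ i ∈ range J, c i) * cz ^ e) := by
  classical
  set W := SF φ ((LS d d (blk c n) (range J)).V rest p₁) F with hW
  let ρ : W →ₗ[ℂ] ({a : {a // a ∈ Ex (blk c n) d (range J)} // ¬ IsMn φ vz e a} → ℂ) :=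
    (LinearMap.funLeft ℂ ℂ Subtype.val) ∘ₗ W.subtype
  have h1 := ρ.finrank_range_add_finrank_ker
  have h2 : finrank ℂ (LinearMap.range ρ) ≤ Fintype.card
      {a : {a // a ∈ Ex (blk c n) d (range J)} // ¬ IsMn φ vz e a} :=
    (Submodule.finrank_le _).trans (Module.finrank_fintype_fun_eq_card ℂ).le
  let L : (α : Fin e ↪o Fin q) → ({a // a ∈ Ex (blk c n) d (range J)} → ℂ) →ₗ[ℂ]
      ((∀ i : Fin J ⊕ Fin e, Fin (cd c cz i)) → ℂ) := fun α =>
    LinearMap.funLeft ℂ ℂ fun w' => ⟨mn φ vz α w', mn_mem hd hφ hvz α w'⟩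
  have hker : ∀ x : LinearMap.ker ρ, ∀ a,
      ((x : W) : {a // a ∈ Ex (blk c n) d (range J)} → ℂ) a ≠ 0 → IsMn φ vz e a := by
    intro x a ha
    by_contra hcon
    apply ha
    have h3 : ρ x.1 = 0 := x.2
    exact congrFun h3 ⟨a, hcon⟩
  let K : (Fin e ↪o Fin q) → Submodule ℂ ((∀ i : Fin J ⊕ Fin e, Fin (cd c cz i)) → ℂ) := fun α =>
    if α ∈ Bad then ⊤ else KE (tb J e) (Sum.elim m₀ (mC (nhi ν) (cor ν α)))
      (Sum.elim r (pos ν α Ω)) (ext e cz F)
  have hmem : ∀ (α : Fin e ↪o Fin q) (x : LinearMap.ker ρ),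
      (L α ∘ₗ W.subtype ∘ₗ (LinearMap.ker ρ).subtype) x ∈ K α := by
    intro α x
    by_cases hα : α ∈ Bad
    · have hK : K α = ⊤ := if_pos hα
      rw [hK]
      exact Submodule.mem_top
    have hK : K α = KE (tb J e) (Sum.elim m₀ (mC (nhi ν) (cor ν α)))
      (Sum.elim r (pos ν α Ω)) (ext e cz F) := if_neg hα
    rw [hK, mem_KE]
    have hx : ((x : W) : {a // a ∈ Ex (blk c n) d (range J)} → ℂ) ∈ W := (x : W).2
    obtain ⟨hxV, hxF⟩ := (Pool.Agent.GD.Top.mem_SF φ ((LS d d (blk c n) (range J)).V rest p₁)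
      F _).1 hx
    generalize hfx : ((x : W) : {a // a ∈ Ex (blk c n) d (range J)} → ℂ) = f at hxV hxF
    have hf : ∀ a, f a ≠ 0 → IsMn φ vz e a := by
      rw [← hfx]
      exact hker x
    have hL : (L α ∘ₗ W.subtype ∘ₗ (LinearMap.ker ρ).subtype) x =
        fun w' => f ⟨mn φ vz α w', mn_mem hd hφ hvz α w'⟩ := by
      rw [← hfx]
      rfl
    rw [hL]
    constructor
    · intro u
      refine ⟨fun a => coeff (Pool.Agent.GD.Top.zp φ (mn φ vz α u)) (Gam φ f a), hxF _, ?_⟩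
      funext w
      show coeff (Pool.Agent.GD.Top.zp φ (mn φ vz α u)) (Gam φ f fun i => w (Sum.inl i)) =
        f ⟨mn φ vz α (mix (tb J e) w u), mn_mem hd hφ hvz α (mix (tb J e) w u)⟩
      have e1 : Pool.Agent.GD.Top.zp φ (mn φ vz α u) =
          Pool.Agent.GD.Top.zp φ (mn φ vz α (mix (tb J e) w u)) := by
        ext t
        exact mn_inr_congr α _ _ (fun i => (mix_inr w u i).symm) t
      have e2 : Pool.Agent.GD.Top.HasX φ (fun i => w (Sum.inl i) : TI c J)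
          (mn φ vz α (mix (tb J e) w u)) := by
        intro y
        exact mn_inl α _ _ (mix_inl w u) y
      rw [e1]
      exact Pool.Agent.GD.Top.coeff_Gam φ f _
        ⟨mn φ vz α (mix (tb J e) w u), mn_mem hd hφ hvz α (mix (tb J e) w u)⟩ e2
    · rintro (z | z) w
      · show ctr (m₀ z) (r z) _ w = 0
        obtain ⟨i, y, ω, hy, hex, hω, hpt⟩ := hbase z
        have hS : (lf (m₀ z)).map Function.Embedding.inl = (m₀ z).map (emb J α) := by
          ext b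
          rw [mem_map, mem_map]
          constructor
          · rintro ⟨j, hj, rfl⟩
            exact ⟨Sum.inl j, (mem_filter.1 hj).2, rfl⟩
          · rintro ⟨x, hx, rfl⟩
            have h5 := hm₀ z hx
            rcases x with j | h
            · exact ⟨j, mem_filter.2 ⟨mem_univ _, hx⟩, rfl⟩
            · exact absurd (mem_filter.1 h5).2 (by simp)
        rw [hS] at hpt
        obtain ⟨hv1, hv2⟩ := vv_sv (φ := φ) hvz α (m₀ z) ω
        have h3 := V_pt' hxV i y hy (ind (pS φ vz α (m₀ z)ᶜ w)) (by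
          rw [sum_ind, card_pS hvz, card_compl, hex, Fintype.card_sum, Fintype.card_fin,
            Fintype.card_fin]
          have h4 := card_le_univ (m₀ z)
          rw [Fintype.card_sum, Fintype.card_fin, Fintype.card_fin] at h4
          omega)
        rw [hpt, sum_tcr hvz (fun α w => mn_mem hd hφ hvz α w) hf α (m₀ z) (r z)
          (fun x hx t => ?_) hv2 w] at h3
        · exact h3
        · rw [hv1 x hx t]
          have h5 := hm₀ z hx
          rcases x with j | h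
          · exact hω ⟨j, t⟩
          · exact absurd (mem_filter.1 h5).2 (by simp)
      · show ctr (mC (nhi ν) (cor ν α) z) (pos ν α Ω z) _ w = 0
        obtain ⟨i, y, hy, hex, hpt⟩ := hadd ⟨z.1.1.map (emb J α), ⟨z.1.2.1, z.2⟩⟩
        obtain ⟨hv1, hv2⟩ := vv_sv (φ := φ) hvz α z.1.1
          (Ω ⟨z.1.1.map (emb J α), ⟨z.1.2.1, z.2⟩⟩)
        have h3 := V_pt' hxV i y hy (ind (pS φ vz α (z.1.1)ᶜ w)) (by
          rw [sum_ind, card_pS hvz, card_compl, hex, Fintype.card_sum, Fintype.card_fin,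
            Fintype.card_fin, card_map]
          have h4 := card_le_univ z.1.1
          rw [Fintype.card_sum, Fintype.card_fin, Fintype.card_fin] at h4
          omega)
        rw [hpt, sum_tcr hvz (fun α w => mn_mem hd hφ hvz α w) hf α z.1.1
          (pull α (Ω ⟨z.1.1.map (emb J α), ⟨z.1.2.1, z.2⟩⟩)) hv1 hv2 w] at h3
        exact h3
  let θ : LinearMap.ker ρ →ₗ[ℂ] ((α : Fin e ↪o Fin q) → K α) :=
    LinearMap.pi fun α => LinearMap.codRestrict (K α)
      (L α ∘ₗ W.subtype ∘ₗ (LinearMap.ker ρ).subtype) (hmem α)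
  have hθ : Function.Injective θ := by
    intro x y hxy
    apply Subtype.ext
    apply Subtype.ext
    funext a
    by_cases ha : IsMn φ vz e a
    · obtain ⟨α, w, hα⟩ := ha
      have h3 := congrArg Subtype.val (congrFun hxy α)
      have h4 := congrFun h3 w
      have h5 : a = ⟨mn φ vz α w, mn_mem hd hφ hvz α w⟩ := Subtype.ext hα
      rw [h5]
      exact h4
    · have h3 : ∀ z : LinearMap.ker ρ,
          ((z : W) : {a // a ∈ Ex (blk c n) d (range J)} → ℂ) a = 0 := by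
        intro z
        by_contra hne
        exact ha (hker z a hne)
      rw [h3 x, h3 y]
  have h3 := LinearMap.finrank_le_finrank_of_injective hθ
  rw [Module.finrank_pi_fintype] at h3
  have h4 := card_junk (c := c) (cz := cz) (q := q) hd hφ hvz
  have h5 : ∑ α, finrank ℂ (K α) = ∑ α ∈ univ \ Bad,
      finrank ℂ (KE (tb J e) (Sum.elim m₀ (mC (nhi ν) (cor ν α)))
            (Sum.elim r (pos ν α Ω)) (ext e cz F)) +
        Bad.card * ((∏ i ∈ range J, c i) * cz ^ e) := by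
    rw [← sum_sdiff (subset_univ Bad)]
    congr 1
    · refine sum_congr rfl fun α hα => ?_
      have hK : K α = KE (tb J e) (Sum.elim m₀ (mC (nhi ν) (cor ν α)))
        (Sum.elim r (pos ν α Ω)) (ext e cz F) := if_neg (mem_sdiff.1 hα).2
      rw [hK]
    · rw [← smul_eq_mul]
      refine sum_eq_card_nsmul fun α hα => ?_
      have hK : K α = ⊤ := if_pos hα
      rw [hK, finrank_top, Module.finrank_fintype_fun_eq_card, card_cd]
  rw [h5] at h3
  omega

end Pool.Agent.GD.BE
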