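import Pool.Agent.GD.BE.Obj

/-!
# General d, block BETA, module ObjN: the numbers of the members

See the header of `Obj.lean`.  `card_mb`: `npt` counts the pairs `(i, x)`.  `card_un`, `card_pur`: sum over the
finitely many types `τ` (`VT.ctf`), `Cls.cnt`.
-/

set_option autoImplicit false

namespace Pool.Agent.GD.BE

open Finset
open Pool.Agent.GD.VT (cb)

variable {P : Par} {n : ℕ} {ms : Multiset Kd}

open Classical in
private lemma card_sum {κ : Type} [Fintype κ] {rest : κ → Kd} {ms : Multiset Kd}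
    (hr : (univ : Finset κ).val.map rest = ms) (N : ℕ) (p : Kd → ℕ → Prop) :
    ((univ : Finset (κ × Fin N)).filter fun y => p (rest y.1) y.2.1).card =
      (ms.map fun k => ((univ : Finset (Fin N)).filter fun t => p k t.1).card).sum := by
  rw [← hr, Multiset.map_map, card_filter, Fintype.sum_prod_type]
  change _ = ∑ i : κ, _
  refine sum_congr rfl fun i _ => ?_
  rw [Function.comp, card_filter]

private lemma fin_range {N m : ℕ} (hm : m ≤ N) (p : ℕ → Prop) [DecidablePred p] :
    ((univ : Finset (Fin N)).filter fun t => t.1 < m ∧ p t.1).card = ((range m).filter p).card := by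
  rw [card_filter, ← Finset.sum_range (fun t => if t < m ∧ p t then 1 else 0), ← card_filter]
  congr 1
  ext t
  rw [mem_filter, mem_filter, mem_range, mem_range]
  constructor
  · rintro ⟨_, h2, h3⟩
    exact ⟨h2, h3⟩
  · rintro ⟨h2, h3⟩
    exact ⟨by omega, h2, h3⟩

private lemma fin_le {N m : ℕ} (s : Finset (Fin N)) (hs : ∀ t ∈ s, t.1 < m) : s.card ≤ m := by
  have h1 : s.card ≤ (range m).card :=
    card_le_card_of_injOn (fun t => t.1) (fun t ht => mem_coe.2 (mem_range.2 (hs t ht)))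
      fun a _ b _ hab => Fin.ext hab
  rwa [card_range] at h1

private lemma count_getD (As : List (Finset ℕ)) (A : Finset ℕ) :
    ((range As.length).filter fun t => As.getD t ∅ = A).card = As.count A := by
  induction As with
  | nil => simp
  | cons B As ih =>
    rw [card_filter] at ih ⊢
    rw [List.length_cons, sum_range_succ', List.count_cons, ← ih]
    congr 1
    simp

private lemma mb_one {N : ℕ} {k : Kd} (hk : k.nm ≤ N) (x : ℕ) (A : Finset ℕ) :
    ((univ : Finset (Fin N)).filter fun t => t.1 < k.nm ∧ k.ex = x ∧ mA k t.1 = A).card =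
      k.pts.count (x, A) := by
  rw [fin_range hk (fun t => k.ex = x ∧ mA k t = A)]
  cases k with
  | ord x' A' =>
    change ((range 1).filter fun t => x' = x ∧ A' = A).card = Multiset.count (x, A) {(x', A')}
    rw [Multiset.count_singleton]
    by_cases h : x' = x ∧ A' = A
    · rw [if_pos (by rw [h.1, h.2]), filter_true_of_mem fun _ _ => h, card_range]
    · rw [if_neg fun h' => h ⟨(congrArg Prod.fst h').symm, (congrArg Prod.snd h').symm⟩,
        filter_false_of_mem fun _ _ => h, card_empty]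
  | cl e dl i As =>
    change ((range As.length).filter fun t => e = x ∧ As.getD t ∅ = A).card =
      Multiset.count (x, A) ((As.map fun A => (e, A) : List (ℕ × Finset ℕ)) :
        Multiset (ℕ × Finset ℕ))
    rw [← Multiset.map_coe]
    by_cases h : e = x
    · subst h
      rw [Multiset.count_map_eq_count' (fun A : Finset ℕ => (e, A)) (As : Multiset (Finset ℕ))
        (fun a b hab => (Prod.mk.inj hab).2) A, Multiset.coe_count, ← count_getD]
      congr 1
      refine filter_congr fun t _ => ?_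
      exact and_iff_right rfl
    · rw [filter_false_of_mem fun _ _ h' => h h'.1, card_empty]
      symm
      rw [Multiset.count_eq_zero]
      intro h1
      obtain ⟨B, _, hB⟩ := Multiset.mem_map.1 h1
      exact h (congrArg Prod.fst hB)

open Classical in
/-- The number of the members of a kind. -/
theorem card_mb (he : 2 ≤ P.e) (hed : P.e < P.d) (h : Cls P P.J n ms) {κ : Type} [Fintype κ]
    (rest : κ → Kd) (hr : (univ : Finset κ).val.map rest = ms) (x : ℕ) (A : Finset ℕ) :
    ((univ : Finset (κ × Fin (P.d + 1))).filter fun y => y.2.1 < (rest y.1).nm ∧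
      (rest y.1).ex = x ∧ mA (rest y.1) y.2 = A).card = npt ms x A := by
  have h1 := card_sum hr (P.d + 1) fun k t => t < k.nm ∧ k.ex = x ∧ mA k t = A
  have h2 : ((univ : Finset (κ × Fin (P.d + 1))).filter fun y => y.2.1 < (rest y.1).nm ∧
      (rest y.1).ex = x ∧ mA (rest y.1) y.2 = A).card = (ms.map fun k => k.pts.count (x, A)).sum := by
    refine Eq.trans ?_ (h1.trans ?_)
    · congr
    · congr 1
      refine Multiset.map_congr rfl fun k hk => ?_
      rw [← mb_one (N := P.d + 1) ((nm_le he hed h hk).trans (by omega)) x A]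
      congr
  rw [h2]
  unfold npt
  rw [Multiset.count_bind]

private lemma sum_kinds {ms : Multiset Kd} {u : Kd → ℕ} {Ks : Finset Kd}
    (hu : ∀ k ∈ ms, u k ≠ 0 → k ∈ Ks) : (ms.map u).sum = ∑ k ∈ Ks, ms.count k * u k := by
  induction ms using Multiset.induction_on with
  | empty => simp
  | cons a s ih =>
    rw [Multiset.map_cons, Multiset.sum_cons,
      ih fun k hk => hu k (Multiset.mem_cons_of_mem hk)]
    have h1 : ∀ k, (a ::ₘ s).count k * u k = s.count k * u k + if k = a then u a else 0 := by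
      intro k
      rw [Multiset.count_cons, add_mul]
      congr 1
      by_cases hk : k = a
      · rw [if_pos hk, if_pos hk, one_mul, hk]
      · rw [if_neg hk, if_neg hk, zero_mul]
    simp only [h1]
    rw [sum_add_distrib, sum_ite_eq', add_comm]
    congr 1
    by_cases ha : a ∈ Ks
    · rw [if_pos ha]
    · rw [if_neg ha]
      by_contra h2
      exact ha (hu a (Multiset.mem_cons_self a s) h2)

private lemma mem_clK {k : Kd} : k ∈ VT.clK P P.J ↔
    ∃ i < P.J, ∃ τ : CT, τ.Ok P.d P.e i P.J ∧ k = τ.kd P.d P.e i P.J := by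
  have hJ : P.J ≤ P.d := Nat.sub_le _ _
  unfold VT.clK
  rw [mem_biUnion]
  constructor
  · rintro ⟨i, hi, hk⟩
    obtain ⟨τ, hτ, rfl⟩ := mem_image.1 hk
    have hi' := mem_range.1 hi
    exact ⟨i, hi', τ, (VT.mem_ctf hi' hJ τ).1 hτ, rfl⟩
  · rintro ⟨i, hi, τ, hτ, rfl⟩
    exact ⟨i, mem_range.2 hi, mem_image.2 ⟨τ, (VT.mem_ctf hi hJ τ).2 hτ, rfl⟩⟩

private lemma getD_mem {As : List (Finset ℕ)} {x : ℕ} (hx : x < As.length) :
    As.getD x ∅ ∈ As := by
  rw [List.getD_eq_getElem _ _ hx]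
  exact List.getElem_mem hx

private lemma mbs_two {i j k : ℕ} (hk : 2 ≤ k) (S : Finset ℕ) :
    mbs i j k S = (range j).erase i :: List.replicate (k - 1) ((range j).erase i \ S) := by
  unfold mbs
  rw [if_neg (by omega)]

private lemma sd_erase {i J : ℕ} (hi : i < J) : range J \ (range J).erase i = {i} := by
  ext x
  rw [mem_sdiff, mem_erase, mem_singleton, mem_range]
  constructor
  · rintro ⟨h1, h2⟩
    by_contra h3
    exact h2 ⟨h3, h1⟩
  · rintro rfl
    exact ⟨hi, fun h => h.1 rfl⟩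

private lemma sd_erase_le {i J : ℕ} (S : Finset ℕ) :
    (range J \ ((range J).erase i \ S)).card ≤ S.card + 1 := by
  have h1 : range J \ ((range J).erase i \ S) ⊆ insert i S := by
    intro x hx
    rw [mem_sdiff, mem_sdiff, mem_erase] at hx
    rw [mem_insert]
    by_cases h1 : x = i
    · exact Or.inl h1
    · right
      by_contra h2
      exact hx.2 ⟨⟨h1, hx.1⟩, h2⟩
  exact (card_le_card h1).trans (card_insert_le i S)

private lemma mbs_le {i J k : ℕ} (hi : i < J) {S : Finset ℕ} {A : Finset ℕ}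
    (hA : A ∈ mbs i J k S) : (range J \ A).card ≤ S.card + 1 := by
  unfold mbs at hA
  split_ifs at hA
  · rw [List.mem_singleton] at hA
    rw [hA]
    exact sd_erase_le S
  · rcases List.mem_cons.1 hA with h | h
    · rw [h, sd_erase hi, card_singleton]
      omega
    · rw [List.eq_of_mem_replicate h]
      exact sd_erase_le S

/-- A type with a member which is not usable. -/
private lemma un_w {i : ℕ} (hi : i < P.J) {τ : CT} (hτ : τ.Ok P.d P.e i P.J) {A : Finset ℕ}
    {w : ℕ} (hx : ∃ x < (τ.kd P.d P.e i P.J).nm, (τ.kd P.d P.e i P.J).ex =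
      (range P.J \ A).card + (w + 1) ∧ mA (τ.kd P.d P.e i P.J) x = A ∧
        ¬ Usb P.J (τ.kd P.d P.e i P.J) x) : τ.w P.e ≤ w := by
  obtain ⟨x, hx, hex, hA, hU⟩ := hx
  cases τ with
  | pl k S =>
    obtain ⟨hk, _, hS, _⟩ := hτ
    change x < (mbs i P.J k S).length at hx
    change P.e = (range P.J \ A).card + (w + 1) at hex
    change (mbs i P.J k S).getD x ∅ = A at hA
    change ¬ (x < (mbs i P.J k S).length ∧ ((0 = 0 ∧ ∀ A ∈ mbs i P.J k S, A = (range P.J).erase i) ∨
      (range P.J \ (mbs i P.J k S).getD x ∅).card = P.e ∨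
      (0 = 0 ∧ (mbs i P.J k S).headD ∅ = (range P.J).erase i ∧
        (mbs i P.J k S).getD x ∅ ≠ (range P.J).erase i))) at hU
    change P.e - 1 - S.card ≤ w
    have h1 : A = (range P.J).erase i := by
      by_contra h2
      apply hU
      refine ⟨hx, Or.inr (Or.inr ⟨rfl, ?_, by rw [hA]; exact h2⟩)⟩
      rw [mbs_two hk]
      rfl
    have h3 : S ≠ ∅ := by
      rintro rfl
      apply hU
      refine ⟨hx, Or.inl ⟨rfl, fun B hB => ?_⟩⟩
      rw [mbs_two hk] at hB
      rcases List.mem_cons.1 hB with h | h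
      · exact h
      · rw [List.eq_of_mem_replicate h, sdiff_empty]
    have h4 := card_pos.2 (nonempty_iff_ne_empty.2 h3)
    rw [h1, sd_erase hi, card_singleton] at hex
    omega
  | b0 S =>
    obtain ⟨_, hS, _⟩ := hτ
    change x < (mbs i P.J ((P.d - i - 1) / (P.e - 1)) S).length at hx
    change P.e = (range P.J \ A).card + (w + 1) at hex
    change (mbs i P.J ((P.d - i - 1) / (P.e - 1)) S).getD x ∅ = A at hA
    change P.e - 2 - S.card ≤ w
    have h1 := getD_mem hx
    rw [hA] at h1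
    have h2 := mbs_le hi h1
    omega
  | br r => exact Nat.zero_le _

open Classical in
/-- The number of the members which are not usable. -/
theorem card_un (he : 2 ≤ P.e) (hed : P.e < P.d) : ∃ C : ℝ, 0 ≤ C ∧ ∀ n, 1 ≤ n → ∀ ms,
    Cls P P.J n ms → ∀ (κ : Type) [Fintype κ] (rest : κ → Kd),
      (univ : Finset κ).val.map rest = ms → ∀ (A : Finset ℕ) (w : ℕ), A ⊆ range P.J →
        (((univ : Finset (κ × Fin (P.d + 1))).filter fun y => y.2.1 < (rest y.1).nm ∧
          (rest y.1).ex = (range P.J \ A).card + (w + 1) ∧ mA (rest y.1) y.2 = A ∧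
            ¬ Usb P.J (rest y.1) y.2).card : ℝ) ≤ C * (n : ℝ) ^ w := by
  have hex : ∀ k : Kd, ∃ C : ℕ, k ∈ VT.clK P P.J → ∀ n, 1 ≤ n → ∀ ms, Cls P P.J n ms →
      ∀ (A : Finset ℕ) (w : ℕ), (∃ x < k.nm, k.ex = (range P.J \ A).card + (w + 1) ∧ mA k x = A ∧
        ¬ Usb P.J k x) → ms.count k ≤ C * n ^ w := by
    intro k
    by_cases hk : k ∈ VT.clK P P.J
    · obtain ⟨i, hi, τ, hτ, rfl⟩ := mem_clK.1 hk
      refine ⟨τ.mm P, fun _ n hn ms h A w hx => ?_⟩
      exact (h.cnt i hi τ hτ).trans (Nat.mul_le_mul_left _ (Nat.pow_le_pow_right hn (un_w hi hτ hx)))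
    · exact ⟨0, fun h => absurd h hk⟩
  choose C hC using hex
  refine ⟨((∑ k ∈ VT.clK P P.J, C k * (P.d + 1) : ℕ) : ℝ), Nat.cast_nonneg _, ?_⟩
  intro n hn ms h κ _ rest hr A w _
  obtain ⟨p, hp⟩ : ∃ p : Kd → ℕ → Prop, p = fun k t => t < k.nm ∧
    k.ex = (range P.J \ A).card + (w + 1) ∧ mA k t = A ∧ ¬ Usb P.J k t := ⟨_, rfl⟩
  let u : Kd → ℕ := fun k => ((univ : Finset (Fin (P.d + 1))).filter fun t => p k t.1).card
  have h1 : ((univ : Finset (κ × Fin (P.d + 1))).filter fun y => y.2.1 < (rest y.1).nm ∧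
      (rest y.1).ex = (range P.J \ A).card + (w + 1) ∧ mA (rest y.1) y.2 = A ∧
        ¬ Usb P.J (rest y.1) y.2).card = (ms.map u).sum := by
    refine Eq.trans ?_ (card_sum hr (P.d + 1) p)
    subst hp
    congr
  have h0 : ∀ k, u k ≠ 0 → ∃ x < k.nm, k.ex = (range P.J \ A).card + (w + 1) ∧ mA k x = A ∧
      ¬ Usb P.J k x := by
    intro k hk
    obtain ⟨t, ht⟩ := card_pos.1 (Nat.pos_of_ne_zero hk)
    have h2 := (mem_filter.1 ht).2
    rw [hp] at h2
    exact ⟨t.1, h2⟩
  have h2 : ∀ k ∈ ms, u k ≠ 0 → k ∈ VT.clK P P.J := by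
    intro k hk hu
    rcases h.mem k hk with ⟨x, B, rfl, _⟩ | hcl
    · obtain ⟨t, ht, _, _, hU⟩ := h0 _ hu
      exact absurd ht hU
    · exact mem_clK.2 hcl
  rw [h1, sum_kinds h2]
  have h3 : ∑ k ∈ VT.clK P P.J, ms.count k * u k ≤
      (∑ k ∈ VT.clK P P.J, C k * (P.d + 1)) * n ^ w := by
    rw [sum_mul]
    refine sum_le_sum fun k hk => ?_
    by_cases hu : u k = 0
    · rw [hu, mul_zero]
      exact Nat.zero_le _
    · have h4 := hC k hk n hn ms h A w (h0 k hu)
      have h5 : u k ≤ P.d + 1 := (card_filter_le _ _).trans (by rw [card_univ, Fintype.card_fin])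
      calc ms.count k * u k ≤ (C k * n ^ w) * (P.d + 1) := Nat.mul_le_mul h4 h5
        _ = C k * (P.d + 1) * n ^ w := by ring
  exact_mod_cast h3

/-- The pure clusters are the clusters of the types `pl m ∅`. -/
private lemma pur_type (he : 2 ≤ P.e) {i : ℕ} (hi : i < P.J) {τ : CT}
    (hτ : τ.Ok P.d P.e i P.J) (hp : Pur P.J (τ.kd P.d P.e i P.J)) :
    ∃ m, 2 ≤ m ∧ m ≤ (P.d - i - 1) / (P.e - 1) ∧ τ = .pl m ∅ := by
  have hJ : P.J = P.d - P.e := rfl
  cases τ with
  | pl k S =>
    obtain ⟨hk, hk2, hS, _⟩ := hτ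
    refine ⟨k, hk, hk2, ?_⟩
    have h1 : (range P.J).erase i \ S = (range P.J).erase i := by
      refine hp.2 _ ?_
      rw [mbs_two hk]
      refine List.mem_cons_of_mem _ (List.mem_replicate.2 ⟨by omega, rfl⟩)
    have h2 : S = ∅ := by
      rw [eq_empty_iff_forall_notMem]
      intro y hy
      have h3 := mem_Ico.1 (hS hy)
      have h4 : y ∈ (range P.J).erase i := mem_erase.2 ⟨by omega, mem_range.2 h3.2⟩
      rw [← h1] at h4
      exact (mem_sdiff.1 h4).2 hy
    rw [h2]
  | b0 S => exact absurd hp.1 hτ.1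
  | br r =>
    exfalso
    obtain ⟨h1, h2⟩ := hτ
    have hk : 1 ≤ (P.d - i + r - 1) / (P.e - 1) := (Nat.one_le_div_iff (by omega)).2 (by omega)
    have h3 : (range P.J).erase i \ (Ico (0 * (P.e - 1)) ((0 + 1) * (P.e - 1)) ∩ range r) =
        (range P.J).erase i := by
      refine hp.2 _ ?_
      unfold mbr
      exact List.mem_map.2 ⟨0, List.mem_range.2 (by omega), rfl⟩
    have h4 : 0 ∈ (range P.J).erase i := mem_erase.2 ⟨by omega, mem_range.2 (by omega)⟩
    rw [← h3] at h4
    apply (mem_sdiff.1 h4).2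
    refine mem_inter.2 ⟨mem_Ico.2 ⟨by omega, by omega⟩, mem_range.2 (by omega)⟩

open Classical in
/-- The number of the members of the pure clusters created at the level `i`. -/
theorem card_pur (he : 2 ≤ P.e) (hed : P.e < P.d) (h : Cls P P.J n ms) {κ : Type} [Fintype κ]
    (rest : κ → Kd) (hr : (univ : Finset κ).val.map rest = ms) (i : ℕ) (hi : i < P.J) :
    ((univ : Finset (κ × Fin (P.d + 1))).filter fun y => y.2.1 < (rest y.1).nm ∧
      Pur P.J (rest y.1) ∧ cb (rest y.1) = i).card ≤ P.d ^ 2 * P.M * n ^ (P.e - 1) := by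
  have hJ : P.J = P.d - P.e := rfl
  obtain ⟨p, hp⟩ : ∃ p : Kd → ℕ → Prop, p = fun k t => t < k.nm ∧ Pur P.J k ∧ cb k = i := ⟨_, rfl⟩
  let u : Kd → ℕ := fun k => ((univ : Finset (Fin (P.d + 1))).filter fun t => p k t.1).card
  have h1 : ((univ : Finset (κ × Fin (P.d + 1))).filter fun y => y.2.1 < (rest y.1).nm ∧
      Pur P.J (rest y.1) ∧ cb (rest y.1) = i).card = (ms.map u).sum := by
    refine Eq.trans ?_ (card_sum hr (P.d + 1) p)
    subst hp
    congr
  let Ks : Finset Kd := (Icc 2 ((P.d - i - 1) / (P.e - 1))).image fun m =>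
    (CT.pl m ∅).kd P.d P.e i P.J
  have h2 : ∀ k ∈ ms, u k ≠ 0 → k ∈ Ks := by
    intro k hk hu
    obtain ⟨t, ht⟩ := card_pos.1 (Nat.pos_of_ne_zero hu)
    have h5 := (mem_filter.1 ht).2
    rw [hp] at h5
    obtain ⟨_, hpu, hcb⟩ := h5
    rcases h.mem k hk with ⟨x, B, rfl, _⟩ | ⟨i', hi', τ, hτ, rfl⟩
    · exact absurd hpu id
    · have hii : i' = i := by
        rw [← hcb]
        cases τ <;> rfl
      subst hii
      obtain ⟨m, hm, hm', rfl⟩ := pur_type he hi' hτ hpu
      exact mem_image.2 ⟨m, mem_Icc.2 ⟨hm, hm'⟩, rfl⟩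
  rw [h1, sum_kinds h2]
  have h3 : ∀ k ∈ Ks, ms.count k * u k ≤ (P.M * n ^ (P.e - 1)) * P.d := by
    intro k hk
    obtain ⟨m, hm, rfl⟩ := mem_image.1 hk
    obtain ⟨hm, hm'⟩ := mem_Icc.1 hm
    have h4 := h.cnt i hi (.pl m ∅) ⟨hm, hm', empty_subset _, by rw [card_empty]; omega⟩
    have h5 : (CT.pl m ∅).mm P * n ^ (CT.pl m ∅).w P.e = P.M * n ^ (P.e - 1) := by
      change P.M * P.d ^ (∅ : Finset ℕ).card * P.cc ∅ * n ^ (P.e - 1 - (∅ : Finset ℕ).card) = _
      have h6 : P.cc ∅ = 1 := by unfold Par.cc; exact prod_empty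
      rw [card_empty, pow_zero, mul_one, h6, mul_one, Nat.sub_zero]
    rw [h5] at h4
    have hmd : m ≤ P.d := by
      have h6 : (P.d - i - 1) / (P.e - 1) ≤ P.d - i - 1 := Nat.div_le_self _ _
      omega
    have hnm : ((CT.pl m ∅).kd P.d P.e i P.J).nm = m := by
      change (mbs i P.J m ∅).length = m
      rw [mbs_two hm, List.length_cons, List.length_replicate]
      omega
    have h7 : u ((CT.pl m ∅).kd P.d P.e i P.J) ≤ P.d := by
      refine (fin_le (m := m) _ fun t ht => ?_).trans hmd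
      have h8 := (mem_filter.1 ht).2
      rw [hp] at h8
      rw [← hnm]
      exact h8.1
    exact Nat.mul_le_mul h4 h7
  refine (sum_le_sum h3).trans ?_
  rw [sum_const, smul_eq_mul]
  have h4 : Ks.card ≤ P.d := by
    refine card_image_le.trans ?_
    rw [Nat.card_Icc]
    have h6 : (P.d - i - 1) / (P.e - 1) ≤ P.d - i - 1 := Nat.div_le_self _ _
    omega
  calc Ks.card * (P.M * n ^ (P.e - 1) * P.d) ≤ P.d * (P.M * n ^ (P.e - 1) * P.d) :=
        Nat.mul_le_mul_right _ h4
    _ = P.d ^ 2 * P.M * n ^ (P.e - 1) := by ring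

end Pool.Agent.GD.BE
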