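import Pool.Agent.GD.BE.Two
import Pool.Agent.GD.BE.Fib
import Pool.Agent.GD.BE.ObjN
import Pool.Agent.GD.BE.Frm
import Pool.Agent.GD.TT

/-!
# General d, block BETA, module Asg: the points of the blocks as members of the objects

PROOF.  `Y` = the usable members `y` with `#K < ex` (`K = range J \ mA`), of the kind `g y = (K, ex - #K)`; the
kind of `u : PB ν q` is `(lf u.1, #(rt u.1))`.  `D y = some false` for the last members of the pure clusters, `D y
= some true` for their other members, `none` for all the others.  `fib_emb2` gives `ι : PB ν q → Y` (its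
first hypothesis: only the kinds `({i}, e - 1)` occur, `card_pur` and `hD`; the second: `card_mb`, `card_un`, `hU`).
The base points: `ι₀ : P₀ → ` members with `#K = ex` (all usable), `exists_fib_emb`, `card_mb`.
`δ.D` = the `u` such that `ι u` is the last member of a pure cluster, `slot u` = its creation block, `δ.R u` = the
`v` such that `ι v` is another member of the same cluster (all members are in the image); their classes are
different.  `∑ #(R u) ≤` the number of the members of the pure clusters (`card_pur`).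
REALIZATION: the target of `ι u` is `vv φ vz u.1 (vis δ p u)`, the target of `ι₀ z` is `vv` of `r z` (`0` on the
blocks of `W`), the other targets are `0`, except the member given by `absorb` in a cluster which is not pure: it is
minus the sum of the others on the creation block.  `pt_real`; the sum of the targets of a pure cluster vanishes
on the creation block by the definition of `vis`.
-/

set_option autoImplicit false

namespace Pool.Agent.GD.BE

open Finset
open Pool.Agent.GD.Top (Bl TI Gam IsB SF)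
open Pool.Agent.GD.VT (cb)

/-- The base part of a kind as a set of numbers. -/
def kv {J : ℕ} (K : Finset (Fin J)) : Finset ℕ := K.map Fin.valEmbedding

open Classical in
/-- The number of the points of the kind `(K, a)`. -/
noncomputable def nPB {J : ℕ} (ν : Nos J) (q : ℕ) (K : Finset (Fin J)) (a : ℕ) : ℕ :=
  ((univ : Finset (PB ν q)).filter fun u => lf u.1 = K ∧ (rt u.1).card = a).card

theorem nPB_eq {J : ℕ} (ν : Nos J) (q : ℕ) (K : Finset (Fin J)) (a : ℕ) : nPB ν q K a =
    ∑ S ∈ (univ : Finset (Finset (Fin J ⊕ Fin q))).filter (fun S => lf S = K ∧ (rt S).card = a),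
      nb ν S := by
  classical
  unfold nPB
  rw [card_filter, Fintype.sum_sigma, sum_filter]
  refine sum_congr rfl fun S _ => ?_
  split_ifs with h
  · simp
  · simp

section aux

private theorem mem_kv {J : ℕ} {K : Finset (Fin J)} {x : Fin J} : x.1 ∈ kv K ↔ x ∈ K := by
  unfold kv
  constructor
  · intro h
    obtain ⟨y, hy, hxy⟩ := mem_map.1 h
    have h1 : y = x := Fin.ext hxy
    rwa [← h1]
  · intro h
    exact mem_map.2 ⟨x, h, rfl⟩

private theorem kv_sub {J : ℕ} (K : Finset (Fin J)) : kv K ⊆ range J := by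
  intro x hx
  obtain ⟨y, _, rfl⟩ := mem_map.1 hx
  exact mem_range.2 y.2

private theorem kv_inj {J : ℕ} {K K' : Finset (Fin J)} (h : kv K = kv K') : K = K' :=
  Finset.map_injective _ h

private theorem card_kv {J : ℕ} (K : Finset (Fin J)) : (kv K).card = K.card := card_map _

private theorem sd_kv {J : ℕ} (K : Finset (Fin J)) : range J \ (range J \ kv K) = kv K :=
  Finset.sdiff_sdiff_eq_self (kv_sub K)

private theorem card_split {J q : ℕ} (S : Finset (Fin J ⊕ Fin q)) :
    S.card = (lf S).card + (rt S).card := by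
  have h : S = (lf S).disjSum (rt S) := by
    ext x
    cases x with
    | inl a => simp [lf]
    | inr b => simp [rt]
  conv_lhs => rw [h]
  exact card_disjSum _ _

private theorem ncard {X : Type} [Fintype X] (p : X → Prop) [DecidablePred p] :
    Nat.card {x // p x} = ((univ : Finset X).filter p).card := by
  rw [Nat.card_eq_fintype_card, Fintype.card_subtype]

private theorem card_sub_le {X : Type} [Fintype X] (p : X → Prop) (s : Finset X)
    (Q : {x // p x} → Prop) (h : ∀ x ∈ s, ∃ hp : p x, Q ⟨x, hp⟩) :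
    s.card ≤ Nat.card {y : {x // p x} // Q y} := by
  classical
  have h1 : s.card = Nat.card {x // x ∈ s} := by
    rw [Nat.card_eq_fintype_card, Fintype.card_coe]
  rw [h1]
  refine Nat.card_le_card_of_injective
    (fun x : {x // x ∈ s} => (⟨⟨x.1, (h x.1 x.2).1⟩, (h x.1 x.2).2⟩ : {y : {x // p x} // Q y})) ?_
  intro x x' hx
  have h2 := congrArg (fun y : {y : {x // p x} // Q y} => y.1.1) hx
  exact Subtype.ext h2

private theorem card_le_sub {X : Type} [Fintype X] (p : X → Prop) (s : Finset X)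
    (Q : {x // p x} → Prop) (h : ∀ y : {x // p x}, Q y → y.1 ∈ s) :
    Nat.card {y : {x // p x} // Q y} ≤ s.card := by
  classical
  have h1 : s.card = Nat.card {x // x ∈ s} := by
    rw [Nat.card_eq_fintype_card, Fintype.card_coe]
  rw [h1]
  refine Nat.card_le_card_of_injective
    (fun y : {y : {x // p x} // Q y} => (⟨y.1.1, h y.1 y.2⟩ : {x // x ∈ s})) ?_
  intro x x' hx
  have h2 := congrArg (fun y : {x // x ∈ s} => y.1) hx
  exact Subtype.ext (Subtype.ext h2)

variable {P : Par} {n : ℕ} {ms : Multiset Kd}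

private theorem mA_sub (he : 2 ≤ P.e) (hed : P.e < P.d) (h : Cls P P.J n ms) {k : Kd}
    (hk : k ∈ ms) {x : ℕ} (hx : x < k.nm) : mA k x ⊆ range P.J := by
  cases k with
  | ord e A =>
    rcases h.mem _ hk with ⟨x', A', h1, _, _, h2, _⟩ | ⟨i, _, τ, _, h1⟩
    · rw [Kd.ord.injEq] at h1
      change A ⊆ range P.J
      rw [h1.2]
      exact h2
    · cases τ <;> simp [CT.kd] at h1
  | cl e dl i As => exact ((cl_blk he hed h hk trivial).2.2 x hx).2

private theorem card_m0 {e : ℕ} {J : ℕ} {S : Finset (Fin J ⊕ Fin e)} (h : S ⊆ tb J e) :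
    S.card = (lf S).card := by
  rw [card_split S]
  have h1 : rt S = ∅ := by
    rw [eq_empty_iff_forall_notMem]
    intro b hb
    unfold rt at hb
    have h2 := h (mem_filter.1 hb).2
    unfold tb at h2
    simp at h2
  rw [h1, card_empty, add_zero]

open Classical in
private theorem base_asg (he : 2 ≤ P.e) (hed : P.e < P.d) (h : Cls P P.J n ms)
    {κ : Type} [Fintype κ] (rest : κ → Kd) (hr : (univ : Finset κ).val.map rest = ms)
    {P₀ : Type} [Fintype P₀] (m₀ : P₀ → Finset (Fin P.J ⊕ Fin P.e))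
    (hm : ∀ z, m₀ z ⊆ tb P.J P.e)
    (h0 : ∀ K, ((univ : Finset P₀).filter fun z => lf (m₀ z) = K).card ≤
        npt ms K.card (range P.J \ kv K)) :
    ∃ ι₀ : P₀ → κ × Fin (P.d + 1), Function.Injective ι₀ ∧ ∀ z,
      (ι₀ z).2.1 < (rest (ι₀ z).1).nm ∧ (rest (ι₀ z).1).ex = (m₀ z).card ∧
      mA (rest (ι₀ z).1) (ι₀ z).2 = range P.J \ kv (lf (m₀ z)) := by
  have hcard : ∀ z, (m₀ z).card = (lf (m₀ z)).card := fun z => card_m0 (hm z)
  let Y := {y : κ × Fin (P.d + 1) // y.2.1 < (rest y.1).nm}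
  let f : P₀ → ℕ × Finset ℕ := fun z => ((lf (m₀ z)).card, range P.J \ kv (lf (m₀ z)))
  let g : Y → ℕ × Finset ℕ := fun y => ((rest y.1.1).ex, mA (rest y.1.1) y.1.2)
  have hfib : ∀ k, Nat.card {x // f x = k} ≤ Nat.card {y // g y = k} := by
    intro k
    by_cases hne : ∃ x, f x = k
    · obtain ⟨x₀, rfl⟩ := hne
      have e1 : Nat.card {x // f x = f x₀} ≤
          ((univ : Finset P₀).filter fun z => lf (m₀ z) = lf (m₀ x₀)).card := by
        rw [ncard]
        refine card_le_card fun x hx => ?_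
        rw [mem_filter] at hx ⊢
        refine ⟨mem_univ _, ?_⟩
        have h3 : range P.J \ kv (lf (m₀ x)) = range P.J \ kv (lf (m₀ x₀)) :=
          congrArg Prod.snd hx.2
        apply kv_inj
        rw [← sd_kv, h3, sd_kv]
      refine e1.trans ((h0 _).trans ?_)
      rw [← card_mb he hed h rest hr]
      refine card_sub_le _ _ _ fun y hy => ?_
      rw [mem_filter] at hy
      exact ⟨hy.2.1, Prod.ext hy.2.2.1 hy.2.2.2⟩
    · have e1 : IsEmpty {x // f x = k} := ⟨fun x => hne ⟨x.1, x.2⟩⟩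
      rw [Nat.card_of_isEmpty]
      exact Nat.zero_le _
  obtain ⟨em, he1, he2⟩ := exists_fib_emb f g hfib
  refine ⟨fun z => (em z).1, Subtype.val_injective.comp he1, fun z => ⟨(em z).2, ?_, ?_⟩⟩
  · rw [hcard z]
    exact congrArg Prod.fst (he2 z)
  · exact congrArg Prod.snd (he2 z)

private theorem pur_sup (he : 2 ≤ P.e) (hed : P.e < P.d) (h : Cls P P.J n ms) {k : Kd}
    (hk : k ∈ ms) (hp : Pur P.J k) {x : ℕ} (hx : x < k.nm) : cb k < P.J ∧ k.ex = P.e ∧
      mA k x = (range P.J).erase (cb k) ∧ range P.J \ mA k x = {cb k} := by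
  obtain ⟨p1, _, p3⟩ := pur_mem he hed h hk hp
  obtain ⟨c1, c2, _⟩ := cl_blk he hed h hk p1
  refine ⟨c1, c2, (p3 x hx).2, ?_⟩
  rw [(p3 x hx).2]
  ext y
  rw [mem_sdiff, mem_erase, mem_singleton, mem_range]
  constructor
  · rintro ⟨h1, h2⟩
    by_contra h3
    exact h2 ⟨h3, h1⟩
  · rintro rfl
    exact ⟨c1, fun h2 => h2.1 rfl⟩

open Classical in
private theorem main_asg (he : 2 ≤ P.e) (hed : P.e < P.d) : ∃ C : ℝ, 0 ≤ C ∧ ∀ n, 1 ≤ n → ∀ ms,
    Cls P P.J n ms → ∀ (κ : Type) [Fintype κ] (rest : κ → Kd),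
    (univ : Finset κ).val.map rest = ms →
    ∀ (s q₀ : ℕ) (hs : 0 < 2 * s) (ν : Nos P.J)
      (_hU : ∀ (K : Finset (Fin P.J)) (a : ℕ), 1 ≤ a → nPB ν (P.e * (2 * s) * q₀) K a = 0 ∨
        (nPB ν (P.e * (2 * s) * q₀) K a : ℝ) + C * (n : ℝ) ^ (a - 1) ≤
          npt ms (K.card + a) (range P.J \ kv K))
      (_hD : ∀ (i : Fin P.J) (side : Bool), P.d ^ 2 * P.M * n ^ (P.e - 1) ≤
        ((univ : Finset (PB ν (P.e * (2 * s) * q₀))).filter fun u =>
          lf u.1 = {i} ∧ (rt u.1).card = P.e - 1 ∧ cls hs (rt u.1) = side).card),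
    ∃ ι : PB ν (P.e * (2 * s) * q₀) → κ × Fin (P.d + 1), Function.Injective ι ∧
      (∀ u, (ι u).2.1 < (rest (ι u).1).nm ∧ Usb P.J (rest (ι u).1) (ι u).2 ∧
        (rest (ι u).1).ex = u.1.card ∧
        mA (rest (ι u).1) (ι u).2 = range P.J \ kv (lf u.1) ∧ (rt u.1).Nonempty) ∧
      ∀ y : κ × Fin (P.d + 1), y.2.1 < (rest y.1).nm → Pur P.J (rest y.1) →
        ∃ u, ι u = y ∧ (cls hs (rt u.1) = false ↔ y.2.1 + 1 = (rest y.1).nm) := by
  obtain ⟨C, hC0, hC⟩ := card_un (P := P) he hed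
  refine ⟨C, hC0, fun n hn ms h κ _ rest hr s q₀ hs ν hU hD => ?_⟩
  have hmem : ∀ i, rest i ∈ ms := fun i => hr ▸ Multiset.mem_map_of_mem rest (mem_univ_val i)
  let pY : κ × Fin (P.d + 1) → Prop := fun y => y.2.1 < (rest y.1).nm ∧
    Usb P.J (rest y.1) y.2 ∧ (range P.J \ mA (rest y.1) y.2).card < (rest y.1).ex
  let f : PB ν (P.e * (2 * s) * q₀) → Finset ℕ × ℕ := fun u => (kv (lf u.1), (rt u.1).card)
  let g : {y // pY y} → Finset ℕ × ℕ := fun y => (range P.J \ mA (rest y.1.1) y.1.2,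
    (rest y.1.1).ex - (range P.J \ mA (rest y.1.1) y.1.2).card)
  let D : {y // pY y} → Option Bool := fun y => if Pur P.J (rest y.1.1) then
    some (decide (y.1.2.1 + 1 ≠ (rest y.1.1).nm)) else none
  have hrt : ∀ u : PB ν (P.e * (2 * s) * q₀), (rt u.1).Nonempty := by
    intro u
    by_contra hu
    have h1 : nb ν u.1 = 0 := dif_neg hu
    have h2 := u.2.2
    omega
  have hDp : ∀ y b, D y = some b → Pur P.J (rest y.1.1) ∧
      b = decide (y.1.2.1 + 1 ≠ (rest y.1.1).nm) := by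
    intro y b hy
    by_cases hp : Pur P.J (rest y.1.1)
    · have h1 : D y = some (decide (y.1.2.1 + 1 ≠ (rest y.1.1).nm)) := if_pos hp
      rw [h1] at hy
      exact ⟨hp, (Option.some.inj hy).symm⟩
    · have h1 : D y = none := if_neg hp
      rw [h1] at hy
      exact absurd hy (by simp)
  have h1 : ∀ k b, Nat.card {y // g y = k ∧ D y = some b} ≤
      Nat.card {x // f x = k ∧ cls hs (rt x.1) = b} := by
    intro k b
    by_cases hne : ∃ y, g y = k ∧ D y = some b
    · obtain ⟨y₀, rfl, hy₀⟩ := hne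
      have hp := (hDp y₀ b hy₀).1
      obtain ⟨c1, c2, c3, c4⟩ := pur_sup he hed h (hmem y₀.1.1) hp y₀.2.1
      have hk : g y₀ = (kv {(⟨cb (rest y₀.1.1), c1⟩ : Fin P.J)}, P.e - 1) := by
        refine Prod.ext ?_ ?_
        · change range P.J \ mA (rest y₀.1.1) y₀.1.2 = _
          rw [c4]
          unfold kv
          rw [map_singleton]
          rfl
        · change (rest y₀.1.1).ex - (range P.J \ mA (rest y₀.1.1) y₀.1.2).card = _
          rw [c4, c2, card_singleton]
      refine (card_le_sub pY _ _ fun y hy => ?_).trans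
        ((card_pur he hed h rest hr (cb (rest y₀.1.1)) c1).trans
          ((hD ⟨cb (rest y₀.1.1), c1⟩ b).trans (le_of_eq ?_)))
      · have hp' := (hDp y b hy.2).1
        rw [mem_filter]
        refine ⟨mem_univ _, y.2.1, hp', ?_⟩
        have h3 : range P.J \ mA (rest y.1.1) y.1.2 = range P.J \ mA (rest y₀.1.1) y₀.1.2 :=
          congrArg Prod.fst hy.1
        rw [c4, (pur_sup he hed h (hmem y.1.1) hp' y.2.1).2.2.2] at h3
        exact singleton_injective h3
      · rw [ncard, hk]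
        congr 1
        ext x
        rw [mem_filter, mem_filter]
        constructor
        · rintro ⟨_, h3, h4, h5⟩
          exact ⟨mem_univ _, Prod.ext (congrArg kv h3) h4, h5⟩
        · rintro ⟨_, h3, h5⟩
          exact ⟨mem_univ _, kv_inj (congrArg Prod.fst h3), congrArg Prod.snd h3, h5⟩
    · have e1 : IsEmpty {y // g y = k ∧ D y = some b} := ⟨fun y => hne ⟨y.1, y.2⟩⟩
      rw [Nat.card_of_isEmpty]
      exact Nat.zero_le _
  have h2 : ∀ k, Nat.card {x // f x = k} ≤ Nat.card {y // g y = k} := by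
    intro k
    by_cases hne : ∃ x, f x = k
    · obtain ⟨x₀, rfl⟩ := hne
      have ha : 1 ≤ (rt x₀.1).card := card_pos.2 (hrt x₀)
      have e0 : Nat.card {x // f x = f x₀} =
          nPB ν (P.e * (2 * s) * q₀) (lf x₀.1) (rt x₀.1).card := by
        rw [ncard]
        unfold nPB
        congr 1
        ext x
        rw [mem_filter, mem_filter]
        constructor
        · rintro ⟨_, h3⟩
          exact ⟨mem_univ _, kv_inj (congrArg Prod.fst h3), congrArg Prod.snd h3⟩
        · rintro ⟨_, h3, h4⟩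
          exact ⟨mem_univ _, Prod.ext (congrArg kv h3) h4⟩
      rcases hU (lf x₀.1) (rt x₀.1).card ha with e1 | e1
      · rw [e0, e1]
        exact Nat.zero_le _
      · have e2 := hC n hn ms h κ rest hr (range P.J \ kv (lf x₀.1)) ((rt x₀.1).card - 1)
          sdiff_subset
        rw [← card_mb he hed h rest hr ((lf x₀.1).card + (rt x₀.1).card)
          (range P.J \ kv (lf x₀.1))] at e1
        rw [sd_kv, card_kv, Nat.sub_add_cancel ha] at e2
        have e4 : ((univ : Finset (κ × Fin (P.d + 1))).filter fun y => y.2.1 < (rest y.1).nm ∧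
            (rest y.1).ex = (lf x₀.1).card + (rt x₀.1).card ∧
              mA (rest y.1) y.2 = range P.J \ kv (lf x₀.1)).card ≤
            ((univ : Finset (κ × Fin (P.d + 1))).filter fun y => y.2.1 < (rest y.1).nm ∧
            (rest y.1).ex = (lf x₀.1).card + (rt x₀.1).card ∧
              mA (rest y.1) y.2 = range P.J \ kv (lf x₀.1) ∧ ¬ Usb P.J (rest y.1) y.2).card +
            ((univ : Finset (κ × Fin (P.d + 1))).filter fun y => y.2.1 < (rest y.1).nm ∧
            (rest y.1).ex = (lf x₀.1).card + (rt x₀.1).card ∧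
              mA (rest y.1) y.2 = range P.J \ kv (lf x₀.1) ∧ Usb P.J (rest y.1) y.2).card := by
          refine le_trans (card_le_card fun y hy => ?_) (card_union_le _ _)
          rw [mem_union, mem_filter, mem_filter]
          rw [mem_filter] at hy
          by_cases hu : Usb P.J (rest y.1) y.2
          · exact Or.inr ⟨mem_univ _, hy.2.1, hy.2.2.1, hy.2.2.2, hu⟩
          · exact Or.inl ⟨mem_univ _, hy.2.1, hy.2.2.1, hy.2.2.2, hu⟩
        have e5 : ((univ : Finset (κ × Fin (P.d + 1))).filter fun y => y.2.1 < (rest y.1).nm ∧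
            (rest y.1).ex = (lf x₀.1).card + (rt x₀.1).card ∧
              mA (rest y.1) y.2 = range P.J \ kv (lf x₀.1) ∧ Usb P.J (rest y.1) y.2).card ≤
            Nat.card {y // g y = f x₀} := by
          refine card_sub_le pY _ _ fun y hy => ?_
          rw [mem_filter] at hy
          obtain ⟨_, y1, y2, y3, y4⟩ := hy
          have y5 : range P.J \ mA (rest y.1) y.2 = kv (lf x₀.1) := by rw [y3, sd_kv]
          refine ⟨⟨y1, y4, ?_⟩, Prod.ext y5 ?_⟩
          · rw [y5, card_kv, y2]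
            omega
          · change (rest y.1).ex - (range P.J \ mA (rest y.1) y.2).card = _
            rw [y5, card_kv, y2]
            exact Nat.add_sub_cancel_left _ _
        have e6 : (nPB ν (P.e * (2 * s) * q₀) (lf x₀.1) (rt x₀.1).card : ℝ) ≤
            (Nat.card {y // g y = f x₀} : ℕ) := by
          have e7 : ((((univ : Finset (κ × Fin (P.d + 1))).filter fun y =>
            y.2.1 < (rest y.1).nm ∧ (rest y.1).ex = (lf x₀.1).card + (rt x₀.1).card ∧
              mA (rest y.1) y.2 = range P.J \ kv (lf x₀.1)).card : ℕ) : ℝ) ≤ _ :=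
            Nat.cast_le.2 (e4.trans (Nat.add_le_add_left e5 _))
          push_cast at e7
          linarith
        rw [e0]
        exact_mod_cast e6
    · have e1 : IsEmpty {x // f x = k} := ⟨fun x => hne ⟨x.1, x.2⟩⟩
      rw [Nat.card_of_isEmpty]
      exact Nat.zero_le _
  obtain ⟨em, hinj, hk, hd⟩ := fib_emb2 f g (fun u => cls hs (rt u.1)) D h1 h2
  refine ⟨fun u => (em u).1, Subtype.val_injective.comp hinj, fun u => ?_, fun y hy hp => ?_⟩
  · obtain ⟨y1, y2, y3⟩ := (em u).2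
    have hA := mA_sub he hed h (hmem (em u).1.1) y1
    have k1 : range P.J \ mA (rest (em u).1.1) (em u).1.2 = kv (lf u.1) :=
      congrArg Prod.fst (hk u)
    have k2 : (rest (em u).1.1).ex - (range P.J \ mA (rest (em u).1.1) (em u).1.2).card =
      (rt u.1).card := congrArg Prod.snd (hk u)
    refine ⟨y1, y2, ?_, ?_, hrt u⟩
    · change (rest (em u).1.1).ex = u.1.card
      rw [card_split u.1]
      rw [k1, card_kv] at k2 y3
      omega
    · rw [← k1, Finset.sdiff_sdiff_eq_self hA]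
  · obtain ⟨p1, _, p3⟩ := pur_mem he hed h (hmem y.1) hp
    obtain ⟨c1, c2, c3, c4⟩ := pur_sup he hed h (hmem y.1) hp hy
    have hpY : pY y := by
      refine ⟨hy, (p3 _ hy).1, ?_⟩
      rw [c4, c2, card_singleton]
      omega
    obtain ⟨u, hu1, hu2⟩ := hd ⟨y, hpY⟩ (decide (y.2.1 + 1 ≠ (rest y.1).nm)) (if_pos hp)
    refine ⟨u, congrArg Subtype.val hu1, ?_⟩
    rw [hu2, decide_eq_false_iff_not, not_not]

open Classical in
private theorem realz (he : 2 ≤ P.e) (hed : P.e < P.d) (h : Cls P P.J n ms)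
    {κ : Type} (rest : κ → Kd) (hr : ∀ i, rest i ∈ ms) {N : Type} [Fintype N] [DecidableEq N]
    (β : N → ℕ) (T : κ → Fin (P.d + 1) → N → ℂ)
    (h1 : ∀ i (x : Fin (P.d + 1)), x.1 < (rest i).nm → ∀ s, β s ∈ mA (rest i) x → T i x s = 0)
    (h2 : ∀ i, Pur P.J (rest i) → ∀ s, β s = cb (rest i) →
      ∑ x : Fin (P.d + 1), (if x.1 < (rest i).nm then T i x s else 0) = 0) :
    ∃ p₁ : κ → N × Fin (P.d + 1) → ℂ, ∀ i (x : Fin (P.d + 1)), x.1 < (rest i).nm →
      Usb P.J (rest i) x → pt β (rest i) x (p₁ i) = T i x := by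
  have key : ∀ i, ∃ q : N × Fin (P.d + 1) → ℂ, ∀ x : Fin (P.d + 1), x.1 < (rest i).nm →
      Usb P.J (rest i) x → pt β (rest i) x q = T i x := by
    intro i
    have hnm := nm_le he hed h (hr i)
    by_cases hc : IsCl (rest i) ∧ ¬ Pur P.J (rest i)
    · obtain ⟨x₀, hx₀, hu⟩ := absorb he hed h (hr i) hc.1 hc.2
      obtain ⟨_, _, c3⟩ := cl_blk he hed h (hr i) hc.1
      have hlt : x₀ < P.d + 1 := by omega
      let t : Fin (P.d + 1) → N → ℂ := fun x s => if x.1 = x₀ then (if β s = cb (rest i) then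
          - ∑ y ∈ univ.erase (⟨x₀, hlt⟩ : Fin (P.d + 1)),
            (if y.1 < (rest i).nm then T i y s else 0) else 0) else T i x s
      have t1 : ∀ x : Fin (P.d + 1), x.1 < (rest i).nm → ∀ s, β s ∈ mA (rest i) x → t x s = 0 := by
        intro x hx s hs
        by_cases hxz : x.1 = x₀
        · have h3 : ¬ β s = cb (rest i) := by
            intro hb
            exact (c3 x.1 hx).1 (hb ▸ hs)
          exact (if_pos hxz).trans (if_neg h3)
        · exact (if_neg hxz).trans (h1 i x hx s hs)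
      have t2 : IsCl (rest i) → (∀ x < (rest i).nm, cb (rest i) ∉ mA (rest i) x) ∧
          ∀ s, β s = cb (rest i) →
            ∑ x : Fin (P.d + 1), (if x.1 < (rest i).nm then t x s else 0) = 0 := by
        intro _
        refine ⟨fun x hx => (c3 x hx).1, fun s hs => ?_⟩
        have t3 : t ⟨x₀, hlt⟩ s = - ∑ y ∈ univ.erase (⟨x₀, hlt⟩ : Fin (P.d + 1)),
            (if y.1 < (rest i).nm then T i y s else 0) := (if_pos rfl).trans (if_pos hs)
        rw [← Finset.add_sum_erase _ _ (mem_univ (⟨x₀, hlt⟩ : Fin (P.d + 1))), if_pos hx₀, t3,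
          neg_add_eq_zero]
        refine sum_congr rfl fun y hy => ?_
        have hne : y.1 ≠ x₀ := by
          intro h3
          exact (mem_erase.1 hy).1 (Fin.ext h3)
        have t4 : t y s = T i y s := if_neg hne
        rw [t4]
      obtain ⟨q, hq⟩ := pt_real β (rest i) (by omega : (rest i).nm ≤ P.d + 1) t t1 t2
      refine ⟨q, fun x hx hux => ?_⟩
      rw [hq x hx]
      have hne : x.1 ≠ x₀ := by
        intro h3
        rw [h3] at hux
        exact hu hux
      funext s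
      exact if_neg hne
    · have t2 : IsCl (rest i) → (∀ x < (rest i).nm, cb (rest i) ∉ mA (rest i) x) ∧
          ∀ s, β s = cb (rest i) →
            ∑ x : Fin (P.d + 1), (if x.1 < (rest i).nm then T i x s else 0) = 0 := by
        intro hcl
        have hp : Pur P.J (rest i) := by
          by_contra hp
          exact hc ⟨hcl, hp⟩
        exact ⟨fun x hx => ((cl_blk he hed h (hr i) hcl).2.2 x hx).1, h2 i hp⟩
      obtain ⟨q, hq⟩ := pt_real β (rest i) (by omega : (rest i).nm ≤ P.d + 1) (T i)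
        (fun x hx s hs => h1 i x hx s hs) t2
      exact ⟨q, fun x hx _ => hq x hx⟩
  choose p₁ hp₁ using key
  exact ⟨p₁, hp₁⟩

private theorem vv_inl {c : ℕ → ℕ} {J m n q cz : ℕ} (φ : Bl c J ⊕ Fin m ≃ Fin n)
    (vz : Fin q × Fin cz → Fin m) (S : Finset (Fin J ⊕ Fin q)) (ω : RC c cz J q → ℂ)
    (x : Bl c J) : vv φ vz S ω (φ (Sum.inl x)) = if Sum.inl x.1 ∈ S then ω (Sum.inl x) else 0 := by
  unfold vv
  rw [Equiv.symm_apply_apply]
  rfl

private theorem exists_inl {c : ℕ → ℕ} {J m n : ℕ} {φ : Bl c J ⊕ Fin m ≃ Fin n} {β : Fin n → ℕ}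
    (hφ : IsB φ β) (s : Fin n) (hs : β s < J) : ∃ x : Bl c J, s = φ (Sum.inl x) ∧ β s = x.1 := by
  obtain ⟨y, rfl⟩ := φ.surjective s
  cases y with
  | inl x => exact ⟨x, rfl, hφ.1 x⟩
  | inr t =>
    have := hφ.2 t
    omega

private theorem vv_zero {c : ℕ → ℕ} {J m n q cz : ℕ} {φ : Bl c J ⊕ Fin m ≃ Fin n}
    {β : Fin n → ℕ} (hφ : IsB φ β)
    (vz : Fin q × Fin cz → Fin m) (S : Finset (Fin J ⊕ Fin q)) (ω : RC c cz J q → ℂ)
    (s : Fin n) (hs : β s ∈ range J \ kv (lf S)) : vv φ vz S ω s = 0 := by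
  rw [mem_sdiff, mem_range] at hs
  obtain ⟨x, rfl, hx⟩ := exists_inl hφ s hs.1
  rw [vv_inl, if_neg]
  intro h
  apply hs.2
  rw [hx, mem_kv]
  unfold lf
  exact mem_filter.2 ⟨mem_univ _, h⟩

private theorem lf_map_inl {J q : ℕ} (K : Finset (Fin J)) :
    lf (K.map (Function.Embedding.inl : Fin J ↪ Fin J ⊕ Fin q)) = K := by
  ext x
  unfold lf
  rw [mem_filter, mem_map]
  constructor
  · rintro ⟨_, y, hy, hyx⟩
    have : y = x := Sum.inl_injective hyx
    rwa [← this]
  · intro hx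
    exact ⟨mem_univ _, x, hx, rfl⟩

private theorem usb_base {J : ℕ} {k : Kd} {x : ℕ} (hx : x < k.nm)
    (h : (range J \ mA k x).card = k.ex) : Usb J k x := by
  cases k with
  | ord e A => exact hx
  | cl e dl i As => exact ⟨hx, Or.inr (Or.inl h)⟩

private theorem vis_mem {c : ℕ → ℕ} {cz J q : ℕ} {ν : Nos J} (δ : Dpn ν q)
    (p : PB ν q → RC c cz J q → ℂ) (u : PB ν q) (y : Σ j : Fin J, Fin (c j)) (h : u ∈ δ.D)
    (hy : y.1 = δ.slot u) : vis δ p u (Sum.inl y) = -∑ v ∈ δ.R u, p v (Sum.inl y) :=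
  if_pos ⟨h, hy⟩

private theorem vis_not {c : ℕ → ℕ} {cz J q : ℕ} {ν : Nos J} (δ : Dpn ν q)
    (p : PB ν q → RC c cz J q → ℂ) (u : PB ν q) (y : Σ j : Fin J, Fin (c j)) (h : u ∉ δ.D) :
    vis δ p u (Sum.inl y) = p u (Sum.inl y) :=
  if_neg fun h1 => h h1.1

end aux

open Classical in
theorem asg (P : Par) (he : 2 ≤ P.e) (hed : P.e < P.d) : ∃ C : ℝ, 0 ≤ C ∧ ∀ n, 1 ≤ n → ∀ ms,
    Cls P P.J n ms → ∀ (κ : Type) [Fintype κ] (rest : κ → Kd),
    (univ : Finset κ).val.map rest = ms →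
    ∀ (m : ℕ) (φ : Bl P.c P.J ⊕ Fin m ≃ Fin n), IsB φ (blk P.c n) →
    ∀ (s q₀ cz : ℕ) (hs : 0 < 2 * s) (ν : Nos P.J)
      (vz : Fin (P.e * (2 * s) * q₀) × Fin cz → Fin m)
      (_hU : ∀ (K : Finset (Fin P.J)) (a : ℕ), 1 ≤ a → nPB ν (P.e * (2 * s) * q₀) K a = 0 ∨
        (nPB ν (P.e * (2 * s) * q₀) K a : ℝ) + C * (n : ℝ) ^ (a - 1) ≤
          npt ms (K.card + a) (range P.J \ kv K))
      (_hD : ∀ (i : Fin P.J) (side : Bool), P.d ^ 2 * P.M * n ^ (P.e - 1) ≤
        ((univ : Finset (PB ν (P.e * (2 * s) * q₀))).filter fun u =>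
          lf u.1 = {i} ∧ (rt u.1).card = P.e - 1 ∧ cls hs (rt u.1) = side).card)
      (P₀ : Type) [Fintype P₀] (m₀ : P₀ → Finset (Fin P.J ⊕ Fin P.e))
      (_hm : ∀ z, m₀ z ⊆ tb P.J P.e)
      (_h0 : ∀ K, ((univ : Finset P₀).filter fun z => lf (m₀ z) = K).card ≤
        npt ms K.card (range P.J \ kv K))
      (r : P₀ → (Σ i : Fin P.J ⊕ Fin P.e, Fin (cd P.c cz i)) → ℂ),
    ∃ δ : Dpn ν (P.e * (2 * s) * q₀), δ.Ok ∧ (∀ u ∈ δ.D, cls hs (rt u.1) = false) ∧
      (∀ u ∈ δ.D, ∀ v ∈ δ.R u, (rt u.1).card + 1 = P.e ∧ (rt v.1).card + 1 = P.e ∧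
        rt u.1 ≠ rt v.1) ∧
      ((∑ u ∈ δ.D, (δ.R u).card : ℕ) : ℝ) ≤ C * (n : ℝ) ^ (P.e - 1) ∧
      ∀ p : PB ν (P.e * (2 * s) * q₀) → RC P.c cz P.J (P.e * (2 * s) * q₀) → ℂ,
        ∃ p₁ : κ → Fin n × Fin (P.d + 1) → ℂ,
          (∀ z, ∃ (i : κ) (x : Fin (P.d + 1)) (ω : RC P.c cz P.J (P.e * (2 * s) * q₀) → ℂ),
            x.1 < (rest i).nm ∧ (rest i).ex = (m₀ z).card ∧
            (∀ y, ω (Sum.inl y) = r z ⟨Sum.inl y.1, y.2⟩) ∧
            pt (blk P.c n) (rest i) x (p₁ i) =
              vv φ vz ((lf (m₀ z)).map Function.Embedding.inl) ω) ∧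
          (∀ u, ∃ (i : κ) (x : Fin (P.d + 1)), x.1 < (rest i).nm ∧
            (rest i).ex = u.1.card ∧
            pt (blk P.c n) (rest i) x (p₁ i) = vv φ vz u.1 (vis δ p u)) := by
  obtain ⟨C₁, hC₁, hA⟩ := main_asg (P := P) he hed
  refine ⟨C₁ + P.J * (P.d ^ 2 * P.M), by positivity, ?_⟩
  intro n hn ms h κ _ rest hr m φ hφ s q₀ cz hs ν vz hU hD P₀ _ m₀ hm h0 r
  have hmem : ∀ i, rest i ∈ ms := fun i => hr ▸ Multiset.mem_map_of_mem rest (mem_univ_val i)
  have hU' : ∀ (K : Finset (Fin P.J)) (a : ℕ), 1 ≤ a →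
      nPB ν (P.e * (2 * s) * q₀) K a = 0 ∨
        (nPB ν (P.e * (2 * s) * q₀) K a : ℝ) + C₁ * (n : ℝ) ^ (a - 1) ≤
          npt ms (K.card + a) (range P.J \ kv K) := by
    intro K a ha
    rcases hU K a ha with h1 | h1
    · exact Or.inl h1
    · right
      have h2 : (0 : ℝ) ≤ P.J * (P.d ^ 2 * P.M) * (n : ℝ) ^ (a - 1) := by positivity
      rw [add_mul] at h1
      linarith
  obtain ⟨ι, hι, hu, hpur⟩ := hA n hn ms h κ rest hr s q₀ hs ν hU' hD
  obtain ⟨ι₀, hι₀, hz⟩ := base_asg he hed h rest hr m₀ hm h0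
  have hJ : 0 < P.J := Nat.sub_pos_of_lt hed
  let δ : Dpn ν (P.e * (2 * s) * q₀) :=
    { D := univ.filter fun u => Pur P.J (rest (ι u).1) ∧ (ι u).2.1 + 1 = (rest (ι u).1).nm
      slot := fun u => if hb : cb (rest (ι u).1) < P.J then ⟨cb (rest (ι u).1), hb⟩ else ⟨0, hJ⟩
      R := fun u => univ.filter fun v => (ι v).1 = (ι u).1 ∧ v ≠ u }
  have mD : ∀ u, u ∈ δ.D ↔ Pur P.J (rest (ι u).1) ∧ (ι u).2.1 + 1 = (rest (ι u).1).nm := by
    intro u
    change u ∈ univ.filter _ ↔ _
    rw [mem_filter]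
    exact and_iff_right (mem_univ u)
  have mR : ∀ u v, v ∈ δ.R u ↔ (ι v).1 = (ι u).1 ∧ v ≠ u := by
    intro u v
    change v ∈ univ.filter _ ↔ _
    rw [mem_filter]
    exact and_iff_right (mem_univ v)
  have hcl : ∀ v, Pur P.J (rest (ι v).1) →
      (cls hs (rt v.1) = false ↔ (ι v).2.1 + 1 = (rest (ι v).1).nm) := by
    intro v hv
    obtain ⟨v', h1, h2⟩ := hpur (ι v) (hu v).1 hv
    rwa [hι h1] at h2
  have hRp : ∀ u ∈ δ.D, ∀ v ∈ δ.R u, Pur P.J (rest (ι v).1) := by
    intro u hu' v hv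
    rw [((mR u v).1 hv).1]
    exact ((mD u).1 hu').1
  have hne : ∀ u ∈ δ.D, ∀ v ∈ δ.R u, ¬ (ι v).2.1 + 1 = (rest (ι v).1).nm := by
    intro u hu' v hv h1
    obtain ⟨h2, h3⟩ := (mR u v).1 hv
    have h4 := ((mD u).1 hu').2
    rw [h2] at h1
    apply h3
    apply hι
    exact Prod.ext h2 (Fin.ext (by omega))
  have hrt : ∀ v, Pur P.J (rest (ι v).1) → kv (lf v.1) = {cb (rest (ι v).1)} ∧
      (rt v.1).card + 1 = P.e := by
    intro v hv
    obtain ⟨h1, _, h2, h3, _⟩ := hu v
    obtain ⟨_, h4, _, h5⟩ := pur_sup he hed h (hmem (ι v).1) hv h1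
    rw [h3, sd_kv] at h5
    refine ⟨h5, ?_⟩
    have h6 := congrArg Finset.card h5
    rw [card_kv, card_singleton] at h6
    rw [card_split v.1] at h2
    omega
  have hpw : ∀ u ∈ δ.D, ∀ u' ∈ δ.D, u ≠ u' → Disjoint (δ.R u) (δ.R u') := by
    intro u hu1 u' hu2 huu
    rw [Finset.disjoint_left]
    intro v hv1 hv2
    apply huu
    apply hι
    have h1 : (ι u).1 = (ι u').1 := ((mR u v).1 hv1).1.symm.trans ((mR u' v).1 hv2).1
    have h2 := ((mD u).1 hu1).2
    have h3 := ((mD u').1 hu2).2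
    rw [h1] at h2
    exact Prod.ext h1 (Fin.ext (by omega))
  have hlast : ∀ i, Pur P.J (rest i) → ∃ u ∈ δ.D, (ι u).1 = i := by
    intro i hi
    have h1 := nm_le he hed h (hmem i)
    have h2 := (pur_mem he hed h (hmem i) hi).2.1
    obtain ⟨u, h3, _⟩ := hpur (i, ⟨(rest i).nm - 1, by omega⟩)
      (by change (rest i).nm - 1 < (rest i).nm; omega) hi
    refine ⟨u, (mD u).2 ?_, by rw [h3]⟩
    rw [h3]
    exact ⟨hi, by change (rest i).nm - 1 + 1 = (rest i).nm; omega⟩
  refine ⟨δ, ⟨?_, ?_, hpw⟩, ?_, ?_, ?_, ?_⟩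
  · intro u hu'
    obtain ⟨h1, h2⟩ := (mD u).1 hu'
    have h3 := (pur_mem he hed h (hmem (ι u).1) h1).2.1
    obtain ⟨v, h4, _⟩ := hpur ((ι u).1, 0) (by change 0 < (rest (ι u).1).nm; omega) h1
    refine ⟨v, (mR u v).2 ⟨by rw [h4], ?_⟩⟩
    rintro rfl
    have h5 : (ι v).2.1 = 0 := by
      rw [h4]
      rfl
    omega
  · intro u hu' v hv hvD
    exact hne u hu' v hv ((mD v).1 hvD).2
  · intro u hu'
    exact (hcl u ((mD u).1 hu').1).2 ((mD u).1 hu').2
  · intro u hu' v hv
    refine ⟨(hrt u ((mD u).1 hu').1).2, (hrt v (hRp u hu' v hv)).2, fun h1 => ?_⟩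
    have h2 := (hcl u ((mD u).1 hu').1).2 ((mD u).1 hu').2
    rw [h1] at h2
    exact hne u hu' v hv ((hcl v (hRp u hu' v hv)).1 h2)
  · have e1 : ∑ u ∈ δ.D, (δ.R u).card = (δ.D.biUnion δ.R).card :=
      (card_biUnion fun u hu1 u' hu2 huu => hpw u hu1 u' hu2 huu).symm
    have e2 : (δ.D.biUnion δ.R).card ≤
        ((range P.J).biUnion fun i => (univ : Finset (κ × Fin (P.d + 1))).filter fun y =>
          y.2.1 < (rest y.1).nm ∧ Pur P.J (rest y.1) ∧ cb (rest y.1) = i).card := by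
      refine card_le_card_of_injOn ι ?_ (fun u _ v _ huv => hι huv)
      intro v hv
      obtain ⟨u, hu', hv'⟩ := mem_biUnion.1 hv
      have hp := hRp u hu' v hv'
      refine mem_biUnion.2 ⟨cb (rest (ι v).1), ?_, mem_filter.2 ⟨mem_univ _, (hu v).1, hp, rfl⟩⟩
      exact mem_range.2 (pur_sup he hed h (hmem (ι v).1) hp (hu v).1).1
    have e3 : ((range P.J).biUnion fun i => (univ : Finset (κ × Fin (P.d + 1))).filter fun y =>
          y.2.1 < (rest y.1).nm ∧ Pur P.J (rest y.1) ∧ cb (rest y.1) = i).card ≤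
        P.J * (P.d ^ 2 * P.M * n ^ (P.e - 1)) := by
      refine card_biUnion_le.trans ?_
      refine (sum_le_card_nsmul _ _ (P.d ^ 2 * P.M * n ^ (P.e - 1)) fun i hi => ?_).trans ?_
      · exact card_pur he hed h rest hr i (mem_range.1 hi)
      · rw [card_range, smul_eq_mul]
    have e4 : ((∑ u ∈ δ.D, (δ.R u).card : ℕ) : ℝ) ≤
        ((P.J * (P.d ^ 2 * P.M * n ^ (P.e - 1)) : ℕ) : ℝ) := by
      rw [e1]
      exact_mod_cast e2.trans e3
    push_cast at e4 ⊢
    have e5 : (0 : ℝ) ≤ C₁ * (n : ℝ) ^ (P.e - 1) := by positivity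
    linarith
  · intro p
    let ω₀ : P₀ → RC P.c cz P.J (P.e * (2 * s) * q₀) → ℂ := fun z =>
      Sum.elim (fun y => r z ⟨Sum.inl y.1, y.2⟩) fun _ => 0
    let T : κ → Fin (P.d + 1) → Fin n → ℂ := fun i x =>
      if hx : ∃ u, ι u = (i, x) then vv φ vz hx.choose.1 (vis δ p hx.choose)
      else if hx' : ∃ z, ι₀ z = (i, x) then
        vv φ vz ((lf (m₀ hx'.choose)).map Function.Embedding.inl) (ω₀ hx'.choose)
      else 0
    have T1 : ∀ u, T (ι u).1 (ι u).2 = vv φ vz u.1 (vis δ p u) := by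
      intro u
      have hx : ∃ u', ι u' = ((ι u).1, (ι u).2) := ⟨u, rfl⟩
      have h1 : hx.choose = u := hι hx.choose_spec
      refine (dif_pos hx).trans ?_
      rw [h1]
    have T2 : ∀ z, T (ι₀ z).1 (ι₀ z).2 =
        vv φ vz ((lf (m₀ z)).map Function.Embedding.inl) (ω₀ z) := by
      intro z
      have hx : ¬ ∃ u', ι u' = ((ι₀ z).1, (ι₀ z).2) := by
        rintro ⟨u, h1⟩
        have h1' : ι u = ι₀ z := h1
        obtain ⟨_, _, h2, h3, h4⟩ := hu u
        obtain ⟨_, h5, h6⟩ := hz z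
        rw [h1'] at h2 h3
        have h7 : lf u.1 = lf (m₀ z) := by
          apply kv_inj
          rw [← sd_kv (lf u.1), ← h3, h6, sd_kv]
        have h8 := card_m0 (hm z)
        have h9 := card_split u.1
        rw [h7] at h9
        have h10 := card_pos.2 h4
        omega
      have hx' : ∃ z', ι₀ z' = ((ι₀ z).1, (ι₀ z).2) := ⟨z, rfl⟩
      have h1 : hx'.choose = z := hι₀ hx'.choose_spec
      refine (dif_neg hx).trans ((dif_pos hx').trans ?_)
      rw [h1]
    have H1 : ∀ i (x : Fin (P.d + 1)), x.1 < (rest i).nm → ∀ t, blk P.c n t ∈ mA (rest i) x →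
        T i x t = 0 := by
      intro i x hx t ht
      by_cases h1 : ∃ u, ι u = (i, x)
      · obtain ⟨u, h2⟩ := h1
        have h3 : i = (ι u).1 := by rw [h2]
        have h4 : x = (ι u).2 := by rw [h2]
        subst h3 h4
        rw [T1]
        refine vv_zero hφ vz _ _ t ?_
        rw [← (hu u).2.2.2.1]
        exact ht
      · by_cases h1' : ∃ z, ι₀ z = (i, x)
        · obtain ⟨z, h2⟩ := h1'
          have h3 : i = (ι₀ z).1 := by rw [h2]
          have h4 : x = (ι₀ z).2 := by rw [h2]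
          subst h3 h4
          rw [T2]
          refine vv_zero hφ vz _ _ t ?_
          rw [lf_map_inl, ← (hz z).2.2]
          exact ht
        · have h2 : T i x = 0 := (dif_neg h1).trans (dif_neg h1')
          rw [h2]
          rfl
    have H2 : ∀ i, Pur P.J (rest i) → ∀ t, blk P.c n t = cb (rest i) →
        ∑ x : Fin (P.d + 1), (if x.1 < (rest i).nm then T i x t else 0) = 0 := by
      intro i hi t ht
      obtain ⟨u, huD, rfl⟩ := hlast i hi
      have hcb := (pur_sup he hed h (hmem (ι u).1) hi (hu u).1).1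
      obtain ⟨y, rfl, hy⟩ := exists_inl hφ t (by rw [ht]; exact hcb)
      rw [ht] at hy
      have e1 : ∑ v ∈ univ.filter (fun v : PB ν (P.e * (2 * s) * q₀) => (ι v).1 = (ι u).1),
          vis δ p v (Sum.inl y) =
          ∑ x ∈ univ.filter (fun x : Fin (P.d + 1) => x.1 < (rest (ι u).1).nm),
            T (ι u).1 x (φ (Sum.inl y)) := by
        refine sum_nbij (fun v => (ι v).2) ?_ ?_ ?_ ?_
        · intro v hv
          rw [mem_filter] at hv ⊢
          refine ⟨mem_univ _, ?_⟩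
          rw [← hv.2]
          exact (hu v).1
        · intro v hv v' hv' hvv
          rw [mem_coe, mem_filter] at hv hv'
          exact hι (Prod.ext (hv.2.trans hv'.2.symm) hvv)
        · intro x hx
          rw [mem_coe, mem_filter] at hx
          obtain ⟨v, h1, _⟩ := hpur ((ι u).1, x) hx.2 hi
          refine ⟨v, ?_, by change (ι v).2 = x; rw [h1]⟩
          rw [mem_coe, mem_filter]
          exact ⟨mem_univ _, by rw [h1]⟩
        · intro v hv
          rw [mem_filter] at hv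
          rw [← hv.2, T1, vv_inl, if_pos]
          have h1 := (hrt v (by rw [hv.2]; exact hi)).1
          have h2 : y.1 ∈ lf v.1 := by
            rw [← mem_kv, h1, mem_singleton, hv.2]
            exact hy.symm
          unfold lf at h2
          exact (mem_filter.1 h2).2
      rw [← sum_filter, ← e1]
      have huF : u ∈ univ.filter (fun v : PB ν (P.e * (2 * s) * q₀) => (ι v).1 = (ι u).1) :=
        mem_filter.2 ⟨mem_univ _, rfl⟩
      have hslot : y.1 = δ.slot u := by
        have h1 : δ.slot u = ⟨cb (rest (ι u).1), hcb⟩ := dif_pos hcb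
        rw [h1]
        exact Fin.ext hy.symm
      rw [← add_sum_erase _ _ huF, vis_mem δ p u y huD hslot, neg_add_eq_zero]
      refine sum_congr ?_ fun v hv => ?_
      · ext v
        rw [mR, mem_erase, mem_filter]
        constructor
        · rintro ⟨h1, h2⟩
          exact ⟨h2, mem_univ _, h1⟩
        · rintro ⟨h2, _, h1⟩
          exact ⟨h1, h2⟩
      · have hv' : v ∈ δ.R u := by
          rw [mR]
          rw [mem_erase, mem_filter] at hv
          exact ⟨hv.2.2, hv.1⟩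
        exact (vis_not δ p v y fun h1 => hne u huD v hv' ((mD v).1 h1).2).symm
    obtain ⟨p₁, hp₁⟩ := realz he hed h rest hmem (blk P.c n) T H1 H2
    refine ⟨p₁, fun z => ?_, fun u => ?_⟩
    · obtain ⟨h1, h2, h3⟩ := hz z
      refine ⟨(ι₀ z).1, (ι₀ z).2, ω₀ z, h1, h2, fun y => rfl, ?_⟩
      have h4 : Usb P.J (rest (ι₀ z).1) (ι₀ z).2 := by
        apply usb_base h1
        rw [h3, sd_kv, card_kv, h2, card_m0 (hm z)]
      rw [hp₁ _ _ h1 h4, T2]
    · obtain ⟨h1, h2, h3, _⟩ := hu u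
      refine ⟨(ι u).1, (ι u).2, h1, h3, ?_⟩
      rw [hp₁ _ _ h1 h2, T1]

end Pool.Agent.GD.BE
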