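import Pool.Agent.GD.BE.Frm

/-!
# General d, block BETA, module FrmN: openness, the number of the junk exponents

`frm_near`: as `V7/BE/Form.near_SF`.  `jk_le`: the exponents of degree `e + J` which meet the blocks
`0, …, J - 1` and have degree `< e` in `W` are `O(n ^ (e - 1))`; those of degree `e` in `W` have one variable in
every block: there are `∏ c * multichoose m e`, `m = n - ∑ c`, and `multichoose m e - cz ^ e * choose q e =
O(n ^ (e - 1))` because `q * cz ≤ m ≤ q * cz + R`.
-/

set_option autoImplicit false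
set_option linter.unusedSectionVars false

namespace Pool.Agent.GD.BE

open Finset MvPolynomial Module Pool.Agent.H51.TB Topology Matrix
open Pool.Agent.GD.Top (Bl TI Gam IsB SF)
open Pool.Agent.H21.NX (Sx mem_Sx)
open Pool.Agent.V7.BE (Kx mem_Kx Kx_near)

variable {c : ℕ → ℕ} {cz J e q m n d : ℕ}

/-! ### Openness -/

section Near

open Classical in
/-- the exponent of the coefficient at `α`, `a` -/
private noncomputable def sg (φ : Bl c J ⊕ Fin m ≃ Fin n) (A : Finset (Fin n → ℕ)) (α : Fin m →₀ ℕ)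
    (a : TI c J) : Option {e // e ∈ A} :=
  if h : ∃ e : {e // e ∈ A}, Top.HasX φ a e.1 ∧ Top.zp φ e.1 = α then some h.choose else none

private theorem coeff_sg (φ : Bl c J ⊕ Fin m ≃ Fin n) (A : Finset (Fin n → ℕ)) (α : Fin m →₀ ℕ)
    (a : TI c J) (f : {e // e ∈ A} → ℂ) :
    coeff α (Gam φ f a) = (sg φ A α a).elim 0 f := by
  unfold sg
  split_ifs with h
  · obtain ⟨h1, h2⟩ := h.choose_spec
    rw [Option.elim_some, ← Top.coeff_Gam φ f a h.choose h1, h2]
  · rw [Option.elim_none, Top.Gam_apply, coeff_sum]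
    refine sum_eq_zero fun e _ => ?_
    split_ifs with h1
    · rw [coeff_monomial, if_neg]
      intro h2
      exact h ⟨e, h1, h2⟩
    · exact coeff_zero _

/-- the extension by zero -/
private def exz (E : Type) : (E → ℂ) →ₗ[ℂ] (Option E → ℂ) where
  toFun f o := o.elim 0 f
  map_add' f g := by
    funext o
    cases o
    · exact (add_zero _).symm
    · rfl
  map_smul' x f := by
    funext o
    cases o
    · exact (mul_zero _).symm
    · rfl

private theorem exz_injective (E : Type) : Function.Injective (exz E) := by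
  intro f g h
  funext e
  exact congrFun h (some e)

/-- A bound for all `F` is an open condition. -/
theorem frm_near (φ : Bl c J ⊕ Fin m ≃ Fin n) {κ : Type} [Fintype κ] (rest : κ → Kd)
    (b : ℕ → ℕ) (p₁ : κ → Fin n × Fin (d + 1) → ℂ)
    (h : ∀ F : Submodule ℂ (TI c J → ℂ),
      finrank ℂ (SF φ ((LS d d (blk c n) (range J)).V rest p₁) F) ≤ b (finrank ℂ F)) :
    ∀ᶠ p in 𝓝 p₁, ∀ F : Submodule ℂ (TI c J → ℂ),
      finrank ℂ (SF φ ((LS d d (blk c n) (range J)).V rest p) F) ≤ b (finrank ℂ F) := by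
  classical
  set A := Ex (blk c n) d (range J) with hA'
  have hfin : ∀ i : κ, Finite ((LS d d (blk c n) (range J)).R (rest i)) := fun i =>
    (LS d d (blk c n) (range J)).fin _
  have : ∀ i : κ, Fintype ((LS d d (blk c n) (range J)).R (rest i)) := fun i => Fintype.ofFinite _
  let M : (κ → Fin n × Fin (d + 1) → ℂ) →
      Matrix ((Σ i : κ, (LS d d (blk c n) (range J)).R (rest i)) ⊕ Unit) (Option {e // e ∈ A}) ℂ :=
    fun p x o => Sum.elim (fun x => o.elim 0 fun e =>
      eval (p x.1) ((LS d d (blk c n) (range J)).co (rest x.1) x.2 e))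
      (fun _ => o.elim 1 fun _ => 0) x
  have hM : Continuous M := by
    refine continuous_matrix fun x o => ?_
    rcases x with x | x
    · cases o
      · exact continuous_const
      · exact (MvPolynomial.continuous_eval _).comp (continuous_apply x.1)
    · cases o
      · exact continuous_const
      · exact continuous_const
  let T : Finset (Fin m →₀ ℕ) := univ.image fun e : {e // e ∈ A} => Top.zp φ e.1
  let σ : {α // α ∈ T} → TI c J → Option {e // e ∈ A} := fun α a => sg φ A α.1 a
  have hMv : ∀ p (G : Option {e // e ∈ A} → ℂ), M p *ᵥ G = 0 ↔ G none = 0 ∧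
      ∀ (i : κ) (r : (LS d d (blk c n) (range J)).R (rest i)),
        ∑ e, eval (p i) ((LS d d (blk c n) (range J)).co (rest i) r e) * G (some e) = 0 := by
    intro p G
    have h1 : ∀ x, (M p *ᵥ G) (Sum.inl x) =
        ∑ e, eval (p x.1) ((LS d d (blk c n) (range J)).co (rest x.1) x.2 e) * G (some e) := by
      intro x
      show ∑ o, M p (Sum.inl x) o * G o = _
      rw [Fintype.sum_option]
      show 0 * G none + _ = _
      rw [zero_mul, zero_add]
      rfl
    have h2 : (M p *ᵥ G) (Sum.inr ()) = G none := by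
      show ∑ o, M p (Sum.inr ()) o * G o = _
      rw [Fintype.sum_option]
      show 1 * G none + _ = _
      rw [one_mul, sum_eq_zero, add_zero]
      intro e _
      exact zero_mul _
    constructor
    · intro h3
      exact ⟨by rw [← h2, h3]; rfl, fun i r => by rw [← h1 ⟨i, r⟩, h3]; rfl⟩
    · rintro ⟨h3, h4⟩
      funext x
      rcases x with x | x
      · rw [h1]
        exact h4 x.1 x.2
      · rw [show x = () from rfl, h2, h3]
        rfl
  have hK : ∀ p F, (SF φ ((LS d d (blk c n) (range J)).V rest p) F).map (exz {e // e ∈ A}) =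
      Kx (M p) σ F := by
    intro p F
    ext G
    rw [mem_Kx, hMv, Submodule.mem_map]
    constructor
    · rintro ⟨f, hf, rfl⟩
      rw [Top.mem_SF] at hf
      refine ⟨fun u => ?_, rfl, fun i r => ?_⟩
      · have h1 := hf.2 u.1
        have h2 : (fun a => exz {e // e ∈ A} f (σ u a)) = fun a => coeff u.1 (Gam φ f a) := by
          funext a
          exact (coeff_sg φ A u.1 a f).symm
        rw [h2]
        exact h1
      · have h1 := hf.1
        rw [Sys.mem_V] at h1
        exact h1 i r
    · rintro ⟨h1, h2, h3⟩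
      refine ⟨fun e => G (some e), ?_, ?_⟩
      · rw [Top.mem_SF]
        refine ⟨?_, fun α => ?_⟩
        · rw [Sys.mem_V]
          exact h3
        · by_cases hα : α ∈ T
          · have h4 := h1 ⟨α, hα⟩
            have h5 : (fun a => coeff α (Gam φ (fun e => G (some e)) a)) =
                fun a => G (σ ⟨α, hα⟩ a) := by
              funext a
              rw [coeff_sg φ A]
              show _ = G (sg φ A α a)
              cases sg φ A α a
              · exact h2.symm
              · rfl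
            rw [h5]
            exact h4
          · have h5 : (fun a => coeff α (Gam φ (fun e : {e // e ∈ A} => G (some e)) a)) = 0 := by
              funext a
              rw [coeff_sg φ A]
              have h6 : sg φ A α a = none := by
                unfold sg
                rw [dif_neg]
                rintro ⟨e, -, he⟩
                exact hα (mem_image.2 ⟨e, mem_univ _, he⟩)
              rw [h6]
              rfl
            rw [h5]
            exact F.zero_mem
      · funext o
        cases o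
        · exact h2.symm
        · rfl
  have hKf : ∀ p F, finrank ℂ (SF φ ((LS d d (blk c n) (range J)).V rest p) F) =
      finrank ℂ (Kx (M p) σ F) := by
    intro p F
    rw [← hK]
    exact (Submodule.equivMapOfInjective _ (exz_injective _) _).finrank_eq
  have h1 := Kx_near M hM σ b p₁ (fun F => by rw [← hKf]; exact h F)
  refine h1.mono fun p hp F => ?_
  rw [hKf]
  exact hp F

end Near

/-! ### The number of the junk exponents -/

section Jk

private theorem FrmN_mono {i j : ℕ} (h : i ≤ j) : ∑ k ∈ range i, c k ≤ ∑ k ∈ range j, c k :=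
  sum_le_sum_of_subset (range_mono h)

private theorem FrmN_le (hc : ∀ i < J, 0 < c i) {i : ℕ} (hi : i ≤ J) : i ≤ ∑ k ∈ range i, c k := by
  induction i with
  | zero => exact Nat.zero_le _
  | succ i ih =>
    rw [sum_range_succ]
    have h1 := ih (by omega)
    have h2 := hc i (by omega)
    omega

private theorem bidx_small (hc : ∀ i < J, 0 < c i) {i r : ℕ} (hi : i < J) (hr : r < c i) :
    bidx c (∑ k ∈ range i, c k + r) = i := by
  unfold bidx
  have h : ((range (∑ k ∈ range i, c k + r + 1)).filter fun k =>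
      ∑ l ∈ range (k + 1), c l ≤ ∑ k ∈ range i, c k + r) = range i := by
    ext k
    rw [mem_filter, mem_range, mem_range]
    constructor
    · rintro ⟨-, h2⟩
      by_contra h3
      have h4 := FrmN_mono (c := c) (show i + 1 ≤ k + 1 by omega)
      rw [sum_range_succ] at h4
      omega
    · intro h1
      have h2 := FrmN_mono (c := c) (show k + 1 ≤ i by omega)
      have h3 := FrmN_le hc hi.le
      omega
  rw [h, card_range]

private theorem le_bidx (hc : ∀ i < J, 0 < c i) {s : ℕ} (hs : ∑ k ∈ range J, c k ≤ s) :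
    J ≤ bidx c s := by
  unfold bidx
  have h : range J ⊆ (range (s + 1)).filter fun k => ∑ l ∈ range (k + 1), c l ≤ s := by
    intro k hk
    rw [mem_range] at hk
    rw [mem_filter, mem_range]
    have h2 := FrmN_mono (c := c) (show k + 1 ≤ J by omega)
    have h3 := FrmN_le hc le_rfl
    omega
  have h1 := card_le_card h
  rwa [card_range] at h1

private theorem exists_phi (hc : ∀ i < J, 0 < c i) (h : ∑ i ∈ range J, c i ≤ n) :
    ∃ φ : Bl c J ⊕ Fin (n - ∑ i ∈ range J, c i) ≃ Fin n, IsB φ (blk c n) := by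
  have h0 : ∑ i : Fin J, c i = ∑ i ∈ range J, c i := Fin.sum_univ_eq_sum_range c J
  refine ⟨((Equiv.sumCongr finSigmaFinEquiv (Equiv.refl _)).trans finSumFinEquiv).trans
    (finCongr (by omega)), ?_, ?_⟩
  · rintro ⟨i, r⟩
    have h1 : ((((Equiv.sumCongr (finSigmaFinEquiv (n := fun i : Fin J => c i))
        (Equiv.refl (Fin (n - ∑ i ∈ range J, c i)))).trans finSumFinEquiv).trans
        (finCongr (by omega : ∑ i : Fin J, c i + (n - ∑ i ∈ range J, c i) = n))
          (Sum.inl ⟨i, r⟩) : Fin n) : ℕ) = ∑ k ∈ range i, c k + r := by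
      show ((finSigmaFinEquiv (n := fun i : Fin J => c i) ⟨i, r⟩ : Fin _) : ℕ) = _
      rw [finSigmaFinEquiv_apply]
      congr 1
      exact Fin.sum_univ_eq_sum_range c i
    unfold blk
    rw [h1]
    exact bidx_small hc i.2 r.2
  · intro t
    have h1 : ((((Equiv.sumCongr (finSigmaFinEquiv (n := fun i : Fin J => c i))
        (Equiv.refl (Fin (n - ∑ i ∈ range J, c i)))).trans finSumFinEquiv).trans
        (finCongr (by omega : ∑ i : Fin J, c i + (n - ∑ i ∈ range J, c i) = n))
          (Sum.inr t) : Fin n) : ℕ) = ∑ i : Fin J, c i + t := rfl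
    unfold blk
    rw [h1]
    exact le_bidx hc (by omega)

private theorem FrmN_card_Sx (m k : ℕ) : (Sx (Fin m) k).card = Nat.multichoose m k := by
  have h0 : Nat.multichoose m k = Nat.multichoose (univ : Finset (Fin m)).card k := by
    rw [card_univ, Fintype.card_fin]
  rw [h0, ← card_finsuppAntidiag_nat_eq_multichoose]
  symm
  apply card_bij (fun (α : Fin m →₀ ℕ) _ => (⇑α : Fin m → ℕ))
  · intro α hα
    rw [mem_finsuppAntidiag] at hα
    exact mem_Sx.2 hα.1
  · intro α _ β _ h
    exact DFunLike.coe_injective h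
  · intro f hf
    refine ⟨Finsupp.equivFunOnFinite.symm f, ?_, rfl⟩
    rw [mem_finsuppAntidiag]
    exact ⟨mem_Sx.1 hf, subset_univ _⟩

private theorem pow_gap (a b K : ℕ) (h1 : b ≤ a) (h2 : a ≤ b + K) (k : ℕ) :
    a ^ (k + 1) ≤ b ^ (k + 1) + (k + 1) * K * a ^ k := by
  induction k with
  | zero => simpa using h2
  | succ k ih =>
    calc a ^ (k + 1 + 1) = a ^ (k + 1) * a := pow_succ _ _
      _ ≤ a ^ (k + 1) * (b + K) := Nat.mul_le_mul_left _ h2
      _ = a ^ (k + 1) * b + K * a ^ (k + 1) := by ring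
      _ ≤ (b ^ (k + 1) + (k + 1) * K * a ^ k) * b + K * a ^ (k + 1) :=
        Nat.add_le_add_right (Nat.mul_le_mul_right _ ih) _
      _ = b ^ (k + 1 + 1) + (k + 1) * K * a ^ k * b + K * a ^ (k + 1) := by ring
      _ ≤ b ^ (k + 1 + 1) + (k + 1) * K * a ^ k * a + K * a ^ (k + 1) :=
        Nat.add_le_add_right (Nat.add_le_add_left (Nat.mul_le_mul_left _ h1) _) _
      _ = b ^ (k + 1 + 1) + (k + 1 + 1) * K * a ^ (k + 1) := by ring

/-- the numbers of the monomials of degree `e` -/
private theorem mc_gap (e cz R m q : ℕ) (h1 : q * cz ≤ m) (h2 : m ≤ q * cz + R) :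
    Nat.multichoose m (e + 1) ≤ cz ^ (e + 1) * q.choose (e + 1) +
      (e + 1) * (R + cz * (e + 1) + (e + 1)) * (m + e) ^ e := by
  have h3 : (m + e) ^ (e + 1) ≤ (cz * (q + 1 - (e + 1))) ^ (e + 1) +
      (e + 1) * (R + cz * (e + 1) + (e + 1)) * (m + e) ^ e := by
    refine pow_gap _ _ _ ?_ ?_ e
    · have h4 : cz * (q + 1 - (e + 1)) ≤ cz * q := Nat.mul_le_mul_left _ (by omega)
      rw [mul_comm cz q] at h4
      omega
    · have h4 : cz * q ≤ cz * (q + 1 - (e + 1)) + cz * (e + 1) := by
        rw [← mul_add]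
        exact Nat.mul_le_mul_left _ (by omega)
      rw [mul_comm cz q] at h4
      omega
  have h4 : (e + 1).factorial * Nat.multichoose m (e + 1) ≤ (m + e) ^ (e + 1) := by
    rw [Nat.multichoose_eq, ← Nat.descFactorial_eq_factorial_mul_choose]
    exact Nat.descFactorial_le_pow _ _
  have h5 : (cz * (q + 1 - (e + 1))) ^ (e + 1) ≤
      (e + 1).factorial * (cz ^ (e + 1) * q.choose (e + 1)) := by
    rw [mul_pow]
    calc cz ^ (e + 1) * (q + 1 - (e + 1)) ^ (e + 1) ≤ cz ^ (e + 1) * q.descFactorial (e + 1) :=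
          Nat.mul_le_mul_left _ (Nat.pow_sub_le_descFactorial _ _)
      _ = _ := by
        rw [Nat.descFactorial_eq_factorial_mul_choose]
        ring
  have h6 : 1 ≤ (e + 1).factorial := Nat.factorial_pos _
  by_contra h7
  push Not at h7
  obtain ⟨z, hz⟩ : ∃ z, Nat.multichoose m (e + 1) = cz ^ (e + 1) * q.choose (e + 1) +
      (e + 1) * (R + cz * (e + 1) + (e + 1)) * (m + e) ^ e + 1 + z :=
    ⟨_, (Nat.add_sub_of_le h7).symm⟩
  rw [hz] at h4
  have h8 := h4.trans (h3.trans (Nat.add_le_add_right h5 _))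
  have h9 : (e + 1) * (R + cz * (e + 1) + (e + 1)) * (m + e) ^ e ≤
      (e + 1).factorial * ((e + 1) * (R + cz * (e + 1) + (e + 1)) * (m + e) ^ e) :=
    Nat.le_mul_of_pos_left _ h6
  nlinarith

/-- The number of the junk exponents. -/
theorem jk_le (c : ℕ → ℕ) (J e cz : ℕ) (hc : ∀ i < J, 0 < c i) (hz : 0 < cz) (he : 0 < e) (R : ℕ) :
    ∃ C : ℝ, 0 ≤ C ∧ ∀ n q : ℕ, 1 ≤ n → ∑ i ∈ range J, c i ≤ n →
      q * cz ≤ n - ∑ i ∈ range J, c i → n - ∑ i ∈ range J, c i ≤ q * cz + R →
        (jk c cz J e q n (e + J) : ℝ) ≤ C * (n : ℝ) ^ (e - 1) := by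
  classical
  obtain ⟨e, rfl⟩ : ∃ e', e = e' + 1 := ⟨e - 1, by omega⟩
  set P : ℕ := ∏ i ∈ range J, c i with hP
  set X₂ : Finset (Bl c J → ℕ) := (range (e + 1 + J + 1)).biUnion (Sx (Bl c J)) with hX₂
  set K : ℕ := (e + 1) * (R + cz * (e + 1) + (e + 1)) with hK
  refine ⟨((P * K + X₂.card * (e + 1)) * (e + 1) ^ e : ℕ), Nat.cast_nonneg _, ?_⟩
  intro n q hn hsum hq1 hq2
  rw [Nat.add_sub_cancel]
  obtain ⟨m, hm⟩ : ∃ m, m = n - ∑ i ∈ range J, c i := ⟨_, rfl⟩
  obtain ⟨φ, hφ⟩ : ∃ φ : Bl c J ⊕ Fin m ≃ Fin n, IsB φ (blk c n) := by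
    rw [hm]
    exact exists_phi hc hsum
  rw [← hm] at hq1 hq2
  set X₁ : Finset (Bl c J → ℕ) := univ.image fun (a : TI c J) (x : Bl c J) =>
    if x.2 = a x.1 then 1 else 0 with hX₁
  set Z₂ : Finset (Fin m → ℕ) := (range (e + 1)).biUnion (Sx (Fin m)) with hZ₂
  have hX₁c : X₁.card ≤ P := by
    refine card_image_le.trans ?_
    rw [card_univ, Fintype.card_pi]
    simp only [Fintype.card_fin]
    rw [hP, Fin.prod_univ_eq_prod_range (fun i => c i) J]
  have hmn : m + e ≤ (e + 1) * n := by
    have h1 : m ≤ n := hm ▸ Nat.sub_le _ _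
    nlinarith
  have hpow : (m + e) ^ e ≤ (e + 1) ^ e * n ^ e := by
    rw [← mul_pow]
    exact Nat.pow_le_pow_left hmn e
  have hZ₂c : Z₂.card ≤ (e + 1) * ((e + 1) ^ e * n ^ e) := by
    refine card_biUnion_le.trans ?_
    have h1 : ∀ j ∈ range (e + 1), (Sx (Fin m) j).card ≤ (e + 1) ^ e * n ^ e := by
      intro j hj
      rw [mem_range] at hj
      rw [FrmN_card_Sx]
      rcases Nat.eq_zero_or_pos j with rfl | hj0
      · rw [Nat.multichoose_zero_right, ← mul_pow]
        exact Nat.one_le_pow _ _ (by positivity)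
      · obtain ⟨j, rfl⟩ : ∃ j', j = j' + 1 := ⟨j - 1, by omega⟩
        have h2 : Nat.multichoose m (j + 1) ≤ (m + j) ^ (j + 1) := by
          rw [Nat.multichoose_eq]
          exact (Nat.choose_le_descFactorial _ _).trans (Nat.descFactorial_le_pow _ _)
        rw [← mul_pow]
        refine h2.trans ((Nat.pow_le_pow_left (show m + j ≤ (e + 1) * n by omega) _).trans ?_)
        exact Nat.pow_le_pow_right (by positivity) (by omega)
    refine (sum_le_sum h1).trans ?_
    rw [sum_const, card_range, smul_eq_mul]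
  have hcard : (Ex (blk c n) (e + 1 + J) (range J)).card ≤
      (X₁ ×ˢ Sx (Fin m) (e + 1) ∪ X₂ ×ˢ Z₂).card := by
    refine card_le_card_of_injOn (fun a => (fun x => a (φ (Sum.inl x)), fun t => a (φ (Sum.inr t))))
      ?_ ?_
    · intro a ha
      rw [mem_coe] at ha
      have hs := Top.sum_split φ a
      rw [(mem_Ex.1 ha).1] at hs
      rw [mem_coe, mem_union, mem_product, mem_product]
      by_cases hx : ∑ x, a (φ (Sum.inl x)) ≤ J
      · left
        obtain ⟨a', ha'⟩ := Top.exists_HasX hφ ha hx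
        refine ⟨mem_image.2 ⟨a', mem_univ _, ?_⟩, mem_Sx.2 ?_⟩
        · funext x
          exact (ha' x).symm
        · have h1 := ha'.sum
          show ∑ t, a (φ (Sum.inr t)) = e + 1
          omega
      · right
        refine ⟨mem_biUnion.2 ⟨∑ x, a (φ (Sum.inl x)), mem_range.2 (by omega), mem_Sx.2 rfl⟩,
          mem_biUnion.2 ⟨∑ t, a (φ (Sum.inr t)), mem_range.2 (by omega), mem_Sx.2 rfl⟩⟩
    · intro a _ b _ hab
      funext s
      obtain ⟨x, rfl⟩ := φ.surjective s
      rcases x with x | t
      · exact congrFun (congrArg Prod.fst hab) x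
      · exact congrFun (congrArg Prod.snd hab) t
  have hcard2 : (Ex (blk c n) (e + 1 + J) (range J)).card ≤
      P * Nat.multichoose m (e + 1) + X₂.card * Z₂.card := by
    refine hcard.trans ((card_union_le _ _).trans ?_)
    rw [card_product, card_product, FrmN_card_Sx]
    exact Nat.add_le_add_right (Nat.mul_le_mul_right _ hX₁c) _
  have hgap := mc_gap e cz R m q hq1 hq2
  rw [← hK] at hgap
  have hfin : jk c cz J (e + 1) q n (e + 1 + J) ≤
      (P * K + X₂.card * (e + 1)) * (e + 1) ^ e * n ^ e := by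
    unfold jk
    rw [tsub_le_iff_left]
    calc (Ex (blk c n) (e + 1 + J) (range J)).card
        ≤ P * Nat.multichoose m (e + 1) + X₂.card * Z₂.card := hcard2
      _ ≤ P * (cz ^ (e + 1) * q.choose (e + 1) + K * ((e + 1) ^ e * n ^ e)) +
          X₂.card * ((e + 1) * ((e + 1) ^ e * n ^ e)) :=
        Nat.add_le_add (Nat.mul_le_mul_left _ (hgap.trans
          (Nat.add_le_add_left (Nat.mul_le_mul_left _ hpow) _))) (Nat.mul_le_mul_left _ hZ₂c)
      _ = _ := by ring
  calc (jk c cz J (e + 1) q n (e + 1 + J) : ℝ)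
      ≤ (((P * K + X₂.card * (e + 1)) * (e + 1) ^ e * n ^ e : ℕ) : ℝ) := by exact_mod_cast hfin
    _ = _ := by push_cast; ring

end Jk

end Pool.Agent.GD.BE
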