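import Pool.Agent.GD.BE.NumU
import Pool.Agent.GD.BE.NumF
import Pool.Agent.GD.BE.FrmN

/-!
# General d, block BETA, module Asm: strictness on the last level

`asm_fix`: for fixed base numbers; `targetBet`: `TargetT BETJ`.
-/

set_option autoImplicit false
set_option linter.unusedSectionVars false

namespace Pool.Agent.GD.BE

open Finset MvPolynomial Module Pool.Agent.H51.TB Topology
open Pool.Agent.GD.Top (Bl TI Gam IsB SF)

/-- The output of `gain`. -/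
def Gn4 (P : Par) (kb : Finset (Fin P.J) → ℚ) (cz : ℕ) (lo hi : Finset (Fin P.J) → ℕ → ℕ)
    (b : ℕ) : Prop :=
  ∃ (P₀ : Type) (_ : Fintype P₀) (m₀ : P₀ → Finset (Fin P.J ⊕ Fin P.e))
    (r : P₀ → (Σ i : Fin P.J ⊕ Fin P.e, Fin (cd P.c cz i)) → ℂ) (s : ℕ),
    (∀ z, m₀ z ⊆ tb P.J P.e) ∧
    (∀ K, (Nat.card {z // lf (m₀ z) = K} : ℚ) = kb K * ∏ i ∈ K, (P.c i : ℚ)) ∧ 0 < s ∧
    ∀ ν : Nos P.J, ν.lo = lo → ν.hi = hi → ∀ (q₀ : ℕ) (δ : Dpn ν (P.e * (2 * s) * q₀)), δ.Ok →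
      (∀ u ∈ δ.D, ∀ (j : Fin s) (f : Fin P.e → Fin q₀), ¬ Sees (gb j f) u) →
      ∃ p : PB ν (P.e * (2 * s) * q₀) → RC P.c cz P.J (P.e * (2 * s) * q₀) → ℂ,
        ∀ F : Submodule ℂ (TI P.c P.J → ℂ), F ≠ ⊥ → finrank ℂ F < b →
          ((∑ α ∈ univ \ bad P.e δ, finrank ℂ (KE (tb P.J P.e)
              (Sum.elim m₀ (mC (nhi ν) (cor ν α)))
              (Sum.elim r (pos ν α (vis δ p))) (ext P.e cz F)) + q₀ ^ P.e : ℕ) : ℝ) * b ≤
            finrank ℂ F * ((∏ i ∈ range P.J, (P.c i : ℝ)) * (cz : ℝ) ^ P.e *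
              ∑ α : Fin P.e ↪o Fin (P.e * (2 * s) * q₀),
                FR (kcor (kbR kb) (DD P.c cz) (cor ν α)) univ)

theorem card_phi {c : ℕ → ℕ} {J m n : ℕ} (φ : Bl c J ⊕ Fin m ≃ Fin n) :
    m + ∑ i ∈ range J, c i = n := by
  have h := Fintype.card_congr φ
  rw [Fintype.card_sum, Fintype.card_sigma, Fintype.card_fin, Fintype.card_fin] at h
  simp only [Fintype.card_fin] at h
  rw [Fin.sum_univ_eq_sum_range c J] at h
  omega

theorem exists_vz {q cz m : ℕ} (h : q * cz ≤ m) :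
    ∃ vz : Fin q × Fin cz → Fin m, Function.Injective vz :=
  ⟨fun x => Fin.castLE h (finProdFinEquiv x), fun _ _ hxy =>
    finProdFinEquiv.injective (Fin.castLE_injective h hxy)⟩

/-- The final inequality. -/
theorem fin_ineq (e : ℕ) (g V η C₃ : ℝ) (hg : 0 < g) (hη : η = g / 4)
    (δ : ℝ) (hδ0 : 0 < δ) (hδ : δ * V ≤ g / 4) (he : 1 ≤ e) :
    ∃ n₀ : ℕ, ∀ n : ℕ, n₀ ≤ n → ∀ (b h : ℕ) (v S q Q jk : ℝ), 1 ≤ b → h ≤ b → v ≤ V * (n : ℝ) ^ e →
      g * (n : ℝ) ^ e ≤ q → (S + q) * b ≤ h * (v + η * (n : ℝ) ^ e) → Q ≤ S + jk →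
      b * jk ≤ C₃ * (n : ℝ) ^ (e - 1) → Q * b ≤ (1 - δ) * h * v := by
  obtain ⟨n₀, hn₀⟩ := exists_nat_ge (2 * C₃ / g)
  refine ⟨n₀ + 1, fun n hn b h v S q Q jk hb hhb hv hq hS hQ hjk => ?_⟩
  have hn1 : (1 : ℝ) ≤ n := by
    have : 1 ≤ n := by omega
    exact_mod_cast this
  have hnn : 2 * C₃ / g ≤ n := hn₀.trans (by exact_mod_cast (by omega : n₀ ≤ n))
  have hb' : (1 : ℝ) ≤ b := by exact_mod_cast hb
  have hh' : (h : ℝ) ≤ b := by exact_mod_cast hhb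
  have hh0 : (0 : ℝ) ≤ h := Nat.cast_nonneg h
  have hne : (0 : ℝ) < (n : ℝ) ^ e := by positivity
  have hne1 : (0 : ℝ) < (n : ℝ) ^ (e - 1) := by positivity
  have hpow : (n : ℝ) ^ e = n * (n : ℝ) ^ (e - 1) := by
    rw [← pow_succ']
    congr 1
    omega
  have h1 : C₃ * (n : ℝ) ^ (e - 1) ≤ g / 2 * (n : ℝ) ^ e := by
    rw [hpow]
    have h2 : C₃ ≤ g / 2 * n := by
      rw [div_le_iff₀ hg] at hnn
      linarith
    nlinarith
  have h3 : Q * b ≤ S * b + C₃ * (n : ℝ) ^ (e - 1) := by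
    have : Q * b ≤ (S + jk) * b := by nlinarith
    nlinarith
  have h4 : g * (n : ℝ) ^ e * b ≤ q * b := by nlinarith
  have h5 : δ * h * v ≤ g / 4 * b * (n : ℝ) ^ e := by
    have h6 : δ * h * v ≤ δ * h * (V * (n : ℝ) ^ e) := by
      apply mul_le_mul_of_nonneg_left hv
      positivity
    have h7 : δ * h * (V * (n : ℝ) ^ e) = δ * V * (h * (n : ℝ) ^ e) := by ring
    have h8 : δ * V * (h * (n : ℝ) ^ e) ≤ g / 4 * (h * (n : ℝ) ^ e) := by
      apply mul_le_mul_of_nonneg_right hδ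
      positivity
    have h9 : g / 4 * (h * (n : ℝ) ^ e) ≤ g / 4 * (b * (n : ℝ) ^ e) := by
      have : (h : ℝ) * (n : ℝ) ^ e ≤ b * (n : ℝ) ^ e := mul_le_mul_of_nonneg_right hh' hne.le
      nlinarith
    nlinarith
  have h10 : (h : ℝ) * (η * (n : ℝ) ^ e) ≤ g / 4 * b * (n : ℝ) ^ e := by
    rw [hη]
    have : (h : ℝ) * (n : ℝ) ^ e ≤ b * (n : ℝ) ^ e := mul_le_mul_of_nonneg_right hh' hne.le
    nlinarith
  have h11 : g / 2 * (n : ℝ) ^ e ≤ g / 2 * (n : ℝ) ^ e * b := by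
    have : 0 ≤ g / 2 * (n : ℝ) ^ e := by positivity
    nlinarith
  nlinarith

open Classical in
theorem asm_fix (P : Par) {E : ℝ} {kl kh : ℕ → ℚ} {kb : Finset (Fin P.J) → ℚ} {cz : ℕ}
    {lo hi : Finset (Fin P.J) → ℕ → ℕ} (h : Dc P E kl kh kb cz lo hi)
    (hM : ∀ i < P.J, 16 * ((P.e - 1).factorial : ℝ) * 2 ^ (P.e - 1) * (P.d ^ 2 * P.M : ℕ) ≤
      (kl P.e : ℝ) * P.c i)
    (b : ℕ)
    (hb : (b : ℝ) = (∏ i ∈ range P.J, (P.c i : ℝ)) * FR (kbR (e := P.e) kb) (tb P.J P.e))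
    (hG : Gn4 P kb cz lo hi b) :
    ∃ δ : ℝ, 0 < δ ∧ δ ≤ 1 / 2 ∧ ∃ n₀ : ℕ, ∀ n, n₀ ≤ n →
      ∀ (m : ℕ) (φ : Bl P.c P.J ⊕ Fin m ≃ Fin n), IsB φ (blk P.c n) →
      ∀ ms, Ck P kb n ms →
      ∀ (κ : Type) [Fintype κ] (rest : κ → Kd), (univ : Finset κ).val.map rest = ms →
        ∃ p₁ : κ → Fin n × Fin (P.d + 1) → ℂ, ∀ᶠ p in 𝓝 p₁, ∀ F : Submodule ℂ (TI P.c P.J → ℂ),
          F ≠ ⊥ → (finrank ℂ F : ℤ) < P.b n ms →
            (finrank ℂ (SF φ ((LS P.d P.d (blk P.c n) (range P.J)).V rest p) F) : ℝ) *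
                P.b n ms ≤ (1 - δ) * finrank ℂ F * P.v P.J n ms := by
  obtain ⟨P₀, _, m₀, r, s, hm₀, hcard, hs, hgain⟩ := hG
  have he := h.he
  have hed := h.hed
  have hcz := h.hcz
  have hJ : P.e + P.J = P.d := by
    unfold Par.J
    omega
  obtain ⟨C₁, hC₁, hasg⟩ := asg P he hed
  obtain ⟨g, hgdef⟩ : ∃ g : ℝ, g = (1 / (4 * P.e * s * cz)) ^ P.e := ⟨_, rfl⟩
  have heR : (0 : ℝ) < P.e := by exact_mod_cast (by omega : 0 < P.e)
  have hsR : (0 : ℝ) < s := by exact_mod_cast hs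
  have hczR : (0 : ℝ) < cz := by exact_mod_cast hcz
  have hg : 0 < g := by
    rw [hgdef]
    positivity
  obtain ⟨V, hV, nV, hnV⟩ := numV P h
  obtain ⟨LA, hLA, hlch⟩ := lch P h
  obtain ⟨LF, hLF, hnumF⟩ := numF P h s hs (g / 4) (by positivity)
  obtain ⟨L, hLdef⟩ : ∃ L, L = max LA LF := ⟨_, rfl⟩
  have hL : 0 < L := by
    rw [hLdef]
    exact lt_of_lt_of_le hLA (le_max_left _ _)
  obtain ⟨nF, hnF⟩ := hnumF L (by rw [hLdef]; exact le_max_right _ _)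
  obtain ⟨nU, hnU⟩ := numU P h s hs L hL C₁
  obtain ⟨nD, hnD⟩ := numD P h s (by omega) L hL hM
  obtain ⟨nB, hnB⟩ := b_eq P he hed h.hc kb b hb
  obtain ⟨Cj, hCj, hjk⟩ := jk_le P.c P.J P.e cz (fun i hi => h.hc i hi) hcz (by omega)
    (P.e * (2 * s) * L * cz)
  obtain ⟨W, hW⟩ : ∃ W : ℕ, W = (∏ i ∈ range P.J, P.c i) * cz ^ P.e := ⟨_, rfl⟩
  obtain ⟨nI, hnI⟩ := fin_ineq P.e g V (g / 4) (b * (Cj + C₁ * W)) hg rfl
    (min (1 / 2) (g / (4 * (V + 1)))) (by positivity) (by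
      have h1 : min (1 / 2) (g / (4 * (V + 1))) ≤ g / (4 * (V + 1)) := min_le_right _ _
      have h2 : g / (4 * (V + 1)) * V ≤ g / 4 := by
        rw [div_mul_eq_mul_div, div_le_div_iff₀ (by positivity) (by norm_num)]
        nlinarith
      exact (mul_le_mul_of_nonneg_right h1 hV).trans h2) (by omega)
  refine ⟨min (1 / 2) (g / (4 * (V + 1))), by positivity, min_le_left _ _,
    1 + nV + nF + nU + nD + nB + nI + 2 * (P.e * (2 * s) * L * cz + ∑ i ∈ range P.J, P.c i),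
    fun n hn m φ hφ ms hms κ _ rest hrest => ?_⟩
  obtain ⟨δ₁, hδ₁⟩ : ∃ δ₁ : ℝ, δ₁ = min (1 / 2) (g / (4 * (V + 1))) := ⟨_, rfl⟩
  rw [← hδ₁] at hnI ⊢
  have hmn := card_phi φ
  have hn1 : 1 ≤ n := by omega
  obtain ⟨l, hl⟩ := hlch L (by rw [hLdef]; exact le_max_left _ _) n hn1 ms hms.cls
  obtain ⟨q₀, hq₀⟩ : ∃ q₀, q₀ = qz P.e s L cz m := ⟨_, rfl⟩
  obtain ⟨hq1, hq2, hq3⟩ := qz_bd (e := P.e) (s := s) (L := L) (cz := cz) (by omega) hs hL hcz m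
  have hU := hnU n (by omega) m hmn ms hms l hl
  have hD := hnD n (by omega) m hmn l
  have hFv := hnF n (by omega) m hmn ms hms l hl
  rw [← hq₀] at hq1 hq2 hq3 hU hD hFv
  obtain ⟨vz, hvz⟩ := exists_vz hq2
  obtain ⟨δp, hok, hcls, hcd, hsum, hreal⟩ := hasg n hn1 ms hms.cls κ rest hrest m φ hφ s q₀ cz
    (by omega) ⟨lo, hi, l, L⟩ vz hU hD P₀ m₀ hm₀ (by
      intro K
      have h1 := hcard K
      have h2 := hms.base K
      rw [← h2, Nat.card_eq_fintype_card, Fintype.card_subtype] at h1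
      have h3 : ((univ : Finset P₀).filter fun z => lf (m₀ z) = K).card =
          npt ms K.card (range P.J \ K.map Fin.valEmbedding) := by exact_mod_cast h1
      exact h3.le) r
  obtain ⟨p, hp⟩ := hgain ⟨lo, hi, l, L⟩ rfl rfl q₀ δp hok
    (fun u hu j f => cls_not_sees (by omega) u (hcls u hu) j f)
  obtain ⟨p₁, hbase, hadd⟩ := hreal p
  have hPb : P.b n ms = b := hnB n (by omega) ms hms.cls hms.u fun K _ => hms.base K
  have hbad : ((bad P.e δp).card : ℝ) ≤ C₁ * (n : ℝ) ^ (P.e - 1) := by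
    refine le_trans ?_ hsum
    exact_mod_cast bad_card δp hcd
  have hjk' := hjk n (P.e * (2 * s) * q₀) hn1 (by omega) (by omega) (by omega)
  rw [hJ] at hjk'
  have hqn : g * (n : ℝ) ^ P.e ≤ ((q₀ ^ P.e : ℕ) : ℝ) := by
    rw [hgdef, ← mul_pow]
    push_cast
    apply pow_le_pow_left₀ (by positivity)
    rw [one_div, inv_mul_le_iff₀ (by positivity)]
    have h1 : n ≤ 4 * P.e * s * cz * q₀ := by
      have h2 : P.e * (2 * s) * q₀ * cz * 2 = 4 * P.e * s * cz * q₀ := by ring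
      omega
    calc (n : ℝ) ≤ ((4 * P.e * s * cz * q₀ : ℕ) : ℝ) := by exact_mod_cast h1
      _ = _ := by push_cast; ring
  have key : ∀ F : Submodule ℂ (TI P.c P.J → ℂ), F ≠ ⊥ → finrank ℂ F < b →
      (finrank ℂ (SF φ ((LS P.d P.d (blk P.c n) (range P.J)).V rest p₁) F) : ℝ) * b ≤
        (1 - δ₁) * finrank ℂ F * P.v P.J n ms := by
    intro F hF hFb
    have h1 := frm (d := P.d) hJ.symm (fun i hi => h.hc i hi) hcz φ hφ vz hvz ⟨lo, hi, l, L⟩ rest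
      p₁ m₀ hm₀ r hbase (vis δp p) hadd (bad P.e δp) F
    have h2 := hp F hF hFb
    refine hnI n (by omega) b (finrank ℂ F) (P.v P.J n ms)
      ((∑ α ∈ univ \ bad P.e δp, finrank ℂ (KE (tb P.J P.e)
              (Sum.elim m₀ (mC (nhi ⟨lo, hi, l, L⟩) (cor ⟨lo, hi, l, L⟩ α)))
              (Sum.elim r (pos ⟨lo, hi, l, L⟩ α (vis δp p))) (ext P.e cz F)) : ℕ) : ℝ)
      ((q₀ ^ P.e : ℕ) : ℝ) _
      ((jk P.c cz P.J P.e (P.e * (2 * s) * q₀) n P.d : ℝ) + (bad P.e δp).card * W)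
      (by omega) hFb.le (hnV n (by omega) ms hms) hqn ?_ ?_ ?_
    · rw [← Nat.cast_add]
      refine h2.trans ?_
      apply mul_le_mul_of_nonneg_left hFv (Nat.cast_nonneg _)
    · rw [← hW] at h1
      have h3 := (Nat.cast_le (α := ℝ)).2 h1
      push_cast at h3 ⊢
      linarith
    · have h4 : (jk P.c cz P.J P.e (P.e * (2 * s) * q₀) n P.d : ℝ) + (bad P.e δp).card * W ≤
          (Cj + C₁ * W) * (n : ℝ) ^ (P.e - 1) := by
        have h5 : ((bad P.e δp).card : ℝ) * W ≤ C₁ * (n : ℝ) ^ (P.e - 1) * W :=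
          mul_le_mul_of_nonneg_right hbad (Nat.cast_nonneg _)
        nlinarith
      calc (b : ℝ) * ((jk P.c cz P.J P.e (P.e * (2 * s) * q₀) n P.d : ℝ) +
            (bad P.e δp).card * W) ≤ b * ((Cj + C₁ * W) * (n : ℝ) ^ (P.e - 1)) :=
          mul_le_mul_of_nonneg_left h4 (Nat.cast_nonneg _)
        _ = _ := by ring
  refine ⟨p₁, ?_⟩
  have hnear := frm_near φ rest (fun x => if 0 < x ∧ x < b then
      ⌊(1 - δ₁) * x * (P.v P.J n ms : ℝ) / b⌋₊ else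
        finrank ℂ ({e // e ∈ Pool.Agent.GD.Ex (blk P.c n) P.d (range P.J)} → ℂ)) p₁ (d := P.d) (by
    intro F
    by_cases hF : 0 < finrank ℂ F ∧ finrank ℂ F < b
    · simp only [if_pos hF]
      have hF0 : F ≠ ⊥ := by
        rintro rfl
        simp at hF
      have hb0 : (0 : ℝ) < b := by exact_mod_cast (by omega : 0 < b)
      apply Nat.le_floor
      rw [le_div_iff₀ hb0]
      exact key F hF0 hF.2
    · simp only [if_neg hF]
      exact Submodule.finrank_le _)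
  filter_upwards [hnear] with p' hp' F hF hFb
  rw [hPb] at hFb ⊢
  have hFb' : finrank ℂ F < b := by exact_mod_cast hFb
  have hF0 : 0 < finrank ℂ F := by
    rw [Nat.pos_iff_ne_zero]
    intro h0
    exact hF (Submodule.finrank_eq_zero.1 h0)
  have hb0 : (0 : ℝ) < b := by exact_mod_cast (by omega : 0 < b)
  have h5 := hp' F
  simp only [if_pos (And.intro hF0 hFb')] at h5
  have h6 := key F hF hFb'
  have h7 : 0 ≤ (1 - δ₁) * finrank ℂ F * (P.v P.J n ms : ℝ) / b := by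
    apply div_nonneg _ hb0.le
    refine le_trans ?_ h6
    positivity
  have h8 := (Nat.cast_le (α := ℝ)).2 h5
  have h9 := h8.trans (Nat.floor_le h7)
  rw [le_div_iff₀ hb0] at h9
  exact_mod_cast h9

end Pool.Agent.GD.BE
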