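import Pool.Agent.GD.BE.Defs
import Pool.Agent.H72.SB.Aut

/-!
# General d, block BETA, module Aut: algebraically independent positions

`aut_trans`: extend to transcendence bases of `ℂ` over `ℚ` with equal complements, then
`Pool.Agent.H72.SB.exists_aut`.  `ai_near`, `ai_dense`, `ai_extend`: Baire category (countably many
polynomials over `ℚ`).
-/

set_option autoImplicit false

namespace Pool.Agent.GD.BE

open Finset MvPolynomial Module Pool.Agent.H51.TB Topology

private theorem exists_equiv_compl {X : Type} [Finite X] {p q : X → ℂ}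
    (hp : Function.Injective p) (hq : Function.Injective q) {s t : Set ℂ}
    (hps : Set.range p ⊆ s) (hqt : Set.range q ⊆ t) (h : Cardinal.mk s = Cardinal.mk t) :
    ∃ e : s ≃ t, ∀ x, (e ⟨p x, hps ⟨x, rfl⟩⟩ : ℂ) = q x := by
  classical
  have h1 : Cardinal.mk (Set.range p) + Cardinal.mk ↥(s \ Set.range p) = Cardinal.mk s := by
    have := Cardinal.mk_sdiff_add_mk hps
    rw [add_comm]
    exact this
  have h2 : Cardinal.mk (Set.range q) + Cardinal.mk ↥(t \ Set.range q) = Cardinal.mk t := by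
    have := Cardinal.mk_sdiff_add_mk hqt
    rw [add_comm]
    exact this
  have h3 : Cardinal.mk (Set.range p) = Cardinal.mk X := Cardinal.mk_range_eq p hp
  have h4 : Cardinal.mk (Set.range q) = Cardinal.mk X := Cardinal.mk_range_eq q hq
  have h5 : Cardinal.mk ↥(s \ Set.range p) = Cardinal.mk ↥(t \ Set.range q) := by
    rw [← h1, ← h2, h3, h4] at h
    exact Cardinal.eq_of_add_eq_add_left h (Cardinal.lt_aleph0_of_finite X)
  obtain ⟨e'⟩ := Cardinal.eq.1 h5
  let e1 : Set.range p ≃ Set.range q :=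
    (Equiv.ofInjective p hp).symm.trans (Equiv.ofInjective q hq)
  let u1 : s ≃ Set.range p ⊕ ↥(s \ Set.range p) :=
    (Equiv.setCongr (Set.union_sdiff_cancel hps).symm).trans
      (Equiv.Set.union (Set.disjoint_sdiff_right))
  let u2 : t ≃ Set.range q ⊕ ↥(t \ Set.range q) :=
    (Equiv.setCongr (Set.union_sdiff_cancel hqt).symm).trans
      (Equiv.Set.union (Set.disjoint_sdiff_right))
  refine ⟨u1.trans ((Equiv.sumCongr e1 e').trans u2.symm), fun x => ?_⟩
  have h6 : u1 ⟨p x, hps ⟨x, rfl⟩⟩ = Sum.inl ⟨p x, ⟨x, rfl⟩⟩ :=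
    Equiv.Set.union_apply_left (s := Set.range p) (t := s \ Set.range p)
      Set.disjoint_sdiff_right (a := ⟨p x, Or.inl ⟨x, rfl⟩⟩) (Set.mem_range_self x)
  have h7 : e1 ⟨p x, ⟨x, rfl⟩⟩ = ⟨q x, ⟨x, rfl⟩⟩ := by
    show (Equiv.ofInjective q hq) ((Equiv.ofInjective p hp).symm ⟨p x, ⟨x, rfl⟩⟩) = _
    rw [Equiv.ofInjective_symm_apply]
    rfl
  have h8 : u2 ⟨q x, hqt ⟨x, rfl⟩⟩ = Sum.inl ⟨q x, ⟨x, rfl⟩⟩ :=
    Equiv.Set.union_apply_left (s := Set.range q) (t := t \ Set.range q)
      Set.disjoint_sdiff_right (a := ⟨q x, Or.inl ⟨x, rfl⟩⟩) (Set.mem_range_self x)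
  rw [Equiv.trans_apply, Equiv.trans_apply, h6, Equiv.sumCongr_apply, Sum.map_inl, h7, ← h8,
    Equiv.symm_apply_apply]

theorem aut_trans {X : Type} [Finite X] {p q : X → ℂ} (hp : AlgebraicIndependent ℚ p)
    (hq : AlgebraicIndependent ℚ q) : ∃ σ : ℂ ≃+* ℂ, ∀ x, σ (p x) = q x := by
  obtain ⟨s, hps, hs⟩ := exists_isTranscendenceBasis_superset hp.coe_range
  obtain ⟨t, hqt, ht⟩ := exists_isTranscendenceBasis_superset hq.coe_range
  have hc : Cardinal.mk s = Cardinal.mk t := by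
    rw [hs.cardinalMk_eq_trdeg, ht.cardinalMk_eq_trdeg]
  obtain ⟨e, he⟩ := exists_equiv_compl hp.injective hq.injective hps hqt hc
  have ht' : IsTranscendenceBasis ℚ fun x : s => ((e x : t) : ℂ) := ht.comp_equiv e
  obtain ⟨σ, hσ⟩ := Pool.Agent.H72.SB.exists_aut hs ht'
  refine ⟨σ.toRingEquiv, fun x => ?_⟩
  have h1 := hσ ⟨p x, hps ⟨x, rfl⟩⟩
  exact h1.trans (he x)

theorem AI.comp {P P' X : Type} {p : P → X → ℂ} (h : AI p) (f : P' → P)
    (hf : Function.Injective f) : AI fun i => p (f i) := by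
  have h1 := AlgebraicIndependent.comp h (fun x : P' × X => (f x.1, x.2)) (by
    rintro ⟨i, x⟩ ⟨j, y⟩ hxy
    rw [Prod.mk.injEq] at hxy
    exact Prod.ext (hf hxy.1) hxy.2)
  exact h1

/-- The set where a polynomial does not vanish is open and dense. -/
private theorem ne_dense {P X : Type} [Finite P] [Finite X] (G : MvPolynomial (P × X) ℂ)
    (hG : G ≠ 0) : IsOpen {y : P → X → ℂ | eval (fun x : P × X => y x.1 x.2) G ≠ 0} ∧
      Dense {y : P → X → ℂ | eval (fun x : P × X => y x.1 x.2) G ≠ 0} := by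
  constructor
  · refine isOpen_ne_fun ?_ continuous_const
    have h1 : Continuous fun a : P × X → ℂ => eval a G := MvPolynomial.continuous_eval G
    refine h1.comp ?_
    fun_prop
  · intro y₀
    rw [mem_closure_iff_nhds]
    intro U hU
    obtain ⟨y, hy, hy'⟩ := Pool.Agent.V7.BE.Gn.near (P := fun y : P → X → ℂ =>
      eval (fun x : P × X => y x.1 x.2) G ≠ 0) ⟨G, hG, fun y hy => hy⟩ y₀ U hU
    exact ⟨y, hy, hy'⟩

/-- Extension by independent coordinates in an open set, outside a given hypersurface. -/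
theorem ai_near {P₀ P₁ X : Type} [Finite P₀] [Finite P₁] [Finite X] (r : P₀ → X → ℂ)
    (hr : AI r) {Pr : (P₁ → X → ℂ) → Prop} (h : Gn P₁ X Pr) (y₀ : P₁ → X → ℂ)
    (U : Set (P₁ → X → ℂ)) (hU : U ∈ 𝓝 y₀) :
    ∃ y ∈ U, AI (Sum.elim r y) ∧ Pr y := by
  classical
  obtain ⟨G, hG0, hG⟩ := h
  -- the polynomials over `ℚ`
  let Λ := {H : MvPolynomial ((P₀ ⊕ P₁) × X) ℚ // H ≠ 0}
  have : Countable Λ := by
    have h1 : Countable (MvPolynomial ((P₀ ⊕ P₁) × X) ℚ) := by
      rw [← Cardinal.mk_le_aleph0_iff]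
      refine (MvPolynomial.cardinalMk_le_max_lift).trans ?_
      refine max_le (max_le ?_ ?_) le_rfl
      · simp
      · rw [Cardinal.lift_le_aleph0]
        exact (Cardinal.lt_aleph0_of_finite _).le
    exact Subtype.countable
  -- their values as polynomials in the second group of variables
  let φ : MvPolynomial ((P₀ ⊕ P₁) × X) ℚ →ₐ[ℚ] MvPolynomial (P₁ × X) ℂ :=
    aeval fun x => Sum.elim (fun i => C (r i x.2)) (fun j => (MvPolynomial.X (j, x.2) : MvPolynomial (P₁ × X) ℂ)) x.1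
  have hφ : Function.Injective φ := by
    let e : MvPolynomial ((P₀ ⊕ P₁) × X) ℚ ≃ₐ[ℚ]
        MvPolynomial (P₁ × X) (MvPolynomial (P₀ × X) ℚ) :=
      (renameEquiv ℚ ((Equiv.sumProdDistrib P₀ P₁ X).trans (Equiv.sumComm _ _))).trans
        (sumAlgEquiv ℚ (P₁ × X) (P₀ × X))
    let m : MvPolynomial (P₁ × X) (MvPolynomial (P₀ × X) ℚ) →+* MvPolynomial (P₁ × X) ℂ :=
      MvPolynomial.map (aeval fun x : P₀ × X => r x.1 x.2 : MvPolynomial (P₀ × X) ℚ →ₐ[ℚ] ℂ)
    have hm : Function.Injective m := map_injective _ hr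
    have h1 : ∀ H, φ H = m (e H) := by
      intro H
      have h2 : (φ : MvPolynomial ((P₀ ⊕ P₁) × X) ℚ →+* MvPolynomial (P₁ × X) ℂ) =
          m.comp (e : MvPolynomial ((P₀ ⊕ P₁) × X) ℚ →+*
            MvPolynomial (P₁ × X) (MvPolynomial (P₀ × X) ℚ)) := by
        apply MvPolynomial.ringHom_ext
        · intro a
          show φ (C a) = m (e (C a))
          have h3 : e (C a) = C (C a) := by
            show sumAlgEquiv ℚ (P₁ × X) (P₀ × X) (rename _ (C a)) = _
            rw [rename_C, sumAlgEquiv_C_inl]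
          rw [h3]
          simp [φ, m]
        · rintro ⟨i | j, x⟩
          · show φ (MvPolynomial.X (Sum.inl i, x)) = m (e (MvPolynomial.X (Sum.inl i, x)))
            have h3 : e (MvPolynomial.X (Sum.inl i, x)) = C (MvPolynomial.X (i, x)) := by
              show sumAlgEquiv ℚ (P₁ × X) (P₀ × X) (rename _ (MvPolynomial.X (Sum.inl i, x))) = _
              rw [rename_X]
              exact sumAlgEquiv_X_inr ℚ (P₁ × X) (P₀ × X) (i, x)
            rw [h3]
            simp [φ, m]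
          · show φ (MvPolynomial.X (Sum.inr j, x)) = m (e (MvPolynomial.X (Sum.inr j, x)))
            have h3 : e (MvPolynomial.X (Sum.inr j, x)) = MvPolynomial.X (j, x) := by
              show sumAlgEquiv ℚ (P₁ × X) (P₀ × X) (rename _ (MvPolynomial.X (Sum.inr j, x))) = _
              rw [rename_X]
              exact sumAlgEquiv_X_inl ℚ (P₁ × X) (P₀ × X) (j, x)
            rw [h3]
            simp [φ, m]
      exact RingHom.congr_fun h2 H
    intro H H' hHH
    rw [h1, h1] at hHH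
    exact e.injective (hm hHH)
  have hev : ∀ (H : MvPolynomial ((P₀ ⊕ P₁) × X) ℚ) (y : P₁ → X → ℂ),
      eval (fun x : P₁ × X => y x.1 x.2) (φ H) =
        aeval (fun x : (P₀ ⊕ P₁) × X => Sum.elim r y x.1 x.2) H := by
    intro H y
    have h2 : ((eval fun x : P₁ × X => y x.1 x.2) : MvPolynomial (P₁ × X) ℂ →+* ℂ).comp
        (φ : MvPolynomial ((P₀ ⊕ P₁) × X) ℚ →+* MvPolynomial (P₁ × X) ℂ) =
          ((aeval fun x : (P₀ ⊕ P₁) × X => Sum.elim r y x.1 x.2 :
            MvPolynomial ((P₀ ⊕ P₁) × X) ℚ →ₐ[ℚ] ℂ) : MvPolynomial ((P₀ ⊕ P₁) × X) ℚ →+* ℂ) := by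
      apply MvPolynomial.ringHom_ext
      · intro a
        simp [φ]
      · rintro ⟨i | j, x⟩
        · simp [φ]
        · simp [φ]
    exact RingHom.congr_fun h2 H
  let S : Option Λ → Set (P₁ → X → ℂ) := fun o =>
    match o with
    | none => {y | eval (fun x : P₁ × X => y x.1 x.2) G ≠ 0}
    | some H => {y | eval (fun x : P₁ × X => y x.1 x.2) (φ H.1) ≠ 0}
  have hS : ∀ o, IsOpen (S o) ∧ Dense (S o) := by
    rintro (_ | H)
    · exact ne_dense G hG0
    · exact ne_dense (φ H.1) fun h0 => H.2 (hφ (by rw [h0, map_zero]))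
  have hd := dense_iInter_of_isOpen (fun o => (hS o).1) fun o => (hS o).2
  obtain ⟨y, hyU, hy⟩ := mem_closure_iff_nhds.1 (hd y₀) U hU
  rw [Set.mem_iInter] at hy
  refine ⟨y, hyU, ?_, hG y (hy none)⟩
  unfold AI
  rw [algebraicIndependent_iff]
  intro H hH
  by_contra h0
  have h1 := hy (some ⟨H, h0⟩)
  apply h1
  rw [hev]
  exact hH

/-- Extension by independent coordinates outside a given hypersurface. -/
theorem ai_extend {P₀ P₁ X : Type} [Finite P₀] [Finite P₁] [Finite X] (r : P₀ → X → ℂ)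
    (hr : AI r) {Pr : (P₁ → X → ℂ) → Prop} (h : Gn P₁ X Pr) :
    ∃ y : P₁ → X → ℂ, AI (Sum.elim r y) ∧ Pr y := by
  obtain ⟨y, _, h1⟩ := ai_near r hr h 0 Set.univ Filter.univ_mem
  exact ⟨y, h1⟩

theorem ai_dense {P X : Type} [Finite P] [Finite X] (p₀ : P → X → ℂ) (U : Set (P → X → ℂ))
    (hU : U ∈ 𝓝 p₀) : ∃ p ∈ U, AI p := by
  have h0 : AI (fun (i : Empty) (_ : X) => (0 : ℂ)) := by
    unfold AI
    have : IsEmpty (Empty × X) := Prod.isEmpty_left
    exact algebraicIndependent_empty_type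
  obtain ⟨y, hy, h1, _⟩ := ai_near (P₁ := P) (fun (i : Empty) (_ : X) => (0 : ℂ)) h0
    (Pr := fun _ => True) ⟨1, one_ne_zero, fun _ _ => trivial⟩ p₀ U hU
  exact ⟨y, hy, h1.comp Sum.inr Sum.inr_injective⟩

/-- General statements which are invariant under automorphisms hold at independent positions. -/
theorem of_gn {P X : Type} [Finite P] [Finite X] {Pr : (P → X → ℂ) → Prop}
    (haut : ∀ (σ : ℂ ≃+* ℂ) (p : P → X → ℂ), Pr p → Pr fun i x => σ (p i x)) (h : Gn P X Pr)
    (p : P → X → ℂ) (hp : AI p) : Pr p := by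
  have h0 : AI (fun (i : Empty) (_ : X) => (0 : ℂ)) := by
    unfold AI
    have : IsEmpty (Empty × X) := Prod.isEmpty_left
    exact algebraicIndependent_empty_type
  obtain ⟨y, h1, h2⟩ := ai_extend _ h0 h
  have h3 : AI y := h1.comp Sum.inr Sum.inr_injective
  obtain ⟨σ, hσ⟩ := aut_trans h3 hp
  have h4 := haut σ y h2
  have h5 : (fun i x => σ (y i x)) = p := by
    funext i x
    exact hσ (i, x)
  rwa [h5] at h4

/-- The action of automorphisms on subspaces. -/
def sb (σ : ℂ ≃+* ℂ) {J : Type} (E : Submodule ℂ (J → ℂ)) : Submodule ℂ (J → ℂ) where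
  carrier := {g | (fun x => σ.symm (g x)) ∈ E}
  zero_mem' := by
    show (fun x : J => σ.symm ((0 : J → ℂ) x)) ∈ E
    have : (fun x : J => σ.symm ((0 : J → ℂ) x)) = 0 := by
      funext x
      simp
    rw [this]
    exact E.zero_mem
  add_mem' := fun {a b} ha hb => by
    have : (fun x => σ.symm ((a + b) x)) = (fun x => σ.symm (a x)) + fun x => σ.symm (b x) := by
      funext x
      simp
    show (fun x => σ.symm ((a + b) x)) ∈ E
    rw [this]
    exact E.add_mem ha hb
  smul_mem' := fun t a ha => by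
    have : (fun x => σ.symm ((t • a) x)) = σ.symm t • fun x => σ.symm (a x) := by
      funext x
      simp
    show (fun x => σ.symm ((t • a) x)) ∈ E
    rw [this]
    exact E.smul_mem _ ha

theorem mem_sb (σ : ℂ ≃+* ℂ) {J : Type} (E : Submodule ℂ (J → ℂ)) (g : J → ℂ) :
    g ∈ sb σ E ↔ (fun x => σ.symm (g x)) ∈ E := Iff.rfl

theorem sb_sb (σ : ℂ ≃+* ℂ) {J : Type} (E : Submodule ℂ (J → ℂ)) : sb σ (sb σ.symm E) = E := by
  ext g
  rw [mem_sb, mem_sb]
  have : (fun x => σ.symm.symm (σ.symm (g x))) = g := by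
    funext x
    simp
  rw [this]

theorem finrank_sb (σ : ℂ ≃+* ℂ) {J : Type} [Finite J] (E : Submodule ℂ (J → ℂ)) :
    finrank ℂ (sb σ E) = finrank ℂ E := by
  let j : E ≃+ sb σ E :=
    { toFun := fun g => ⟨fun x => σ (g.1 x), by
        rw [mem_sb]
        have : (fun x => σ.symm (σ (g.1 x))) = g.1 := by
          funext x
          simp
        rw [this]
        exact g.2⟩
      invFun := fun g => ⟨fun x => σ.symm (g.1 x), g.2⟩
      left_inv := fun g => by
        apply Subtype.ext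
        funext x
        simp
      right_inv := fun g => by
        apply Subtype.ext
        funext x
        simp
      map_add' := fun g g' => by
        apply Subtype.ext
        funext x
        simp }
  have h1 : Module.rank ℂ E = Module.rank ℂ (sb σ E) := by
    refine rank_eq_of_equiv_equiv (fun z => σ z) j σ.bijective ?_
    intro z g
    apply Subtype.ext
    funext x
    show σ ((z • g.1) x) = (σ z • (j g).1) x
    rw [Pi.smul_apply, Pi.smul_apply, smul_eq_mul, map_mul, smul_eq_mul]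
    rfl
  unfold finrank
  rw [h1]

variable {ι : Type} [Fintype ι] [DecidableEq ι] {c : ι → ℕ}

theorem ctr_aut (σ : ℂ ≃+* ℂ) (S : Finset ι) (y : (Σ i, Fin (c i)) → ℂ)
    (G : (∀ i, Fin (c i)) → ℂ) (w : ∀ i, Fin (c i)) :
    ctr S (fun x => σ (y x)) G w = σ (ctr S y (fun e => σ.symm (G e)) w) := by
  unfold ctr
  rw [map_sum]
  refine sum_congr rfl fun e _ => ?_
  split_ifs with h
  · rw [map_mul, map_prod, σ.apply_symm_apply]
  · rw [map_zero]

theorem V_sb (σ : ℂ ≃+* ℂ) {P : Type} (m : P → Finset ι) (p : P → (Σ i, Fin (c i)) → ℂ) :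
    (TS ι c).V m (fun i x => σ (p i x)) = sb σ ((TS ι c).V m p) := by
  ext G
  rw [mem_sb, mem_TS, mem_TS]
  refine forall_congr' fun i => forall_congr' fun w => ?_
  rw [ctr_aut]
  exact map_eq_zero_iff σ σ.injective

theorem KE_sb (σ : ℂ ≃+* ℂ) (T : Finset ι) {P : Type} (m : P → Finset ι)
    (p : P → (Σ i, Fin (c i)) → ℂ) (E : Submodule ℂ ((∀ i, Fin (c i)) → ℂ)) :
    KE T m (fun i x => σ (p i x)) (sb σ E) = sb σ (KE T m p E) := by
  ext G
  rw [mem_sb, mem_KE, mem_KE]
  refine and_congr (forall_congr' fun u => Iff.rfl) ?_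
  refine forall_congr' fun i => forall_congr' fun w => ?_
  rw [ctr_aut]
  exact map_eq_zero_iff σ σ.injective

omit [Fintype ι] [DecidableEq ι] in
theorem Dep_sb (σ : ℂ ≃+* ℂ) (I : Finset ι) : sb σ (Dep c I) = Dep c I := by
  ext G
  rw [mem_sb]
  constructor
  · intro h w w' hw
    exact σ.symm.injective (h w w' hw)
  · intro h w w' hw
    show σ.symm (G w) = σ.symm (G w')
    rw [h w w' hw]

theorem sb_mono (σ : ℂ ≃+* ℂ) {J : Type} {E E' : Submodule ℂ (J → ℂ)} (h : E ≤ E') :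
    sb σ E ≤ sb σ E' := fun _ hg => h hg

/-- At an independent position the dimension is the general one. -/
theorem ai_gd {P : Type} [Fintype P] (m : P → Finset ι) (p : P → (Σ i, Fin (c i)) → ℂ)
    (hp : AI p) : finrank ℂ ((TS ι c).V m p) = (TS ι c).gd m := by
  refine of_gn (Pr := fun p => finrank ℂ ((TS ι c).V m p) = (TS ι c).gd m) ?_
    (gn_gd (TS ι c) m) p hp
  intro σ p h
  rw [V_sb, finrank_sb]
  exact h

/-- Strictness at one independent position gives strictness at all of them. -/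
theorem Str_ai (T I : Finset ι) (κ : Finset ι → ℚ) {P₀ P₁ : Type} [Finite P₀] [Finite P₁]
    (m₀ : P₀ → Finset ι) (m₁ : P₁ → Finset ι) (r r' : P₀ → (Σ i, Fin (c i)) → ℂ) (hr : AI r)
    (hr' : AI r') (h : Str T I κ m₀ m₁ r) : Str T I κ m₀ m₁ r' := by
  obtain ⟨σ, hσ⟩ := aut_trans hr hr'
  intro E hE hE0 hEb
  have hE1 : sb σ.symm E ≤ Dep c I := by
    rw [← Dep_sb σ.symm I]
    exact sb_mono σ.symm hE
  have hf : finrank ℂ (sb σ.symm E) = finrank ℂ E := finrank_sb σ.symm E
  obtain ⟨y, hy⟩ := h (sb σ.symm E) hE1 (by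
    intro h0
    apply hE0
    rw [h0, finrank_bot] at hf
    exact Submodule.finrank_eq_zero.1 hf.symm) (by rw [hf]; exact hEb)
  refine ⟨fun j x => σ (y j x), ?_⟩
  have h1 : (Sum.elim r' fun j x => σ (y j x)) = fun i x => σ (Sum.elim r y i x) := by
    funext i x
    rcases i with i | j
    · exact (hσ (i, x)).symm
    · rfl
  have h2 := KE_sb σ T (Sum.elim m₀ m₁) (Sum.elim r y) (sb σ.symm E)
  rw [sb_sb] at h2
  rw [h1, h2, finrank_sb]
  rw [hf] at hy
  exact hy

end Pool.Agent.GD.BE
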