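import Pool.Agent.GD.BE.Defs

/-!
# General d, block BETA, module Filt: one base slot

The points whose kind contains the base slot `i₀` have coordinate vectors (*lines*) there.  The
filtration of `E` by the lines (in an order given by `rk`) gives the spaces `Ex i₀ rk E x`.
-/

set_option autoImplicit false
set_option linter.unusedSectionVars false
set_option linter.unusedVariables false

namespace Pool.Agent.GD.BE

open Finset MvPolynomial Module Pool.Agent.H51.TB

variable {ι : Type} [Fintype ι] [DecidableEq ι] {c : ι → ℕ}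

/-- The slice at the line `x` of the slot `i₀` (a tensor which does not depend on this slot). -/
def slc (i₀ : ι) (x : Fin (c i₀)) :
    ((∀ i, Fin (c i)) → ℂ) →ₗ[ℂ] ((∀ i, Fin (c i)) → ℂ) :=
  LinearMap.funLeft ℂ ℂ fun w => Function.update w i₀ x

/-- The position with coordinate vectors in the slot `i₀`. -/
def spc (i₀ : ι) {P : Type} (m : P → Finset ι) (line : P → Fin (c i₀))
    (p : P → (Σ i, Fin (c i)) → ℂ) : P → (Σ i, Fin (c i)) → ℂ := fun i x =>
  if x.1 = i₀ ∧ i₀ ∈ m i then (if x = ⟨i₀, line i⟩ then 1 else 0) else p i x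

/-- The pieces of `E`. -/
noncomputable def Ex (i₀ : ι) (rk : Fin (c i₀) → ℕ) (E : Submodule ℂ ((∀ i, Fin (c i)) → ℂ))
    (x : Fin (c i₀)) : Submodule ℂ ((∀ i, Fin (c i)) → ℂ) :=
  (E ⊓ ⨅ x' : {x' // rk x' < rk x}, LinearMap.ker (slc i₀ x'.1)).map (slc i₀ x)

theorem slc_apply (i₀ : ι) (x : Fin (c i₀)) (G : (∀ i, Fin (c i)) → ℂ) (w : ∀ i, Fin (c i)) :
    slc i₀ x G w = G (Function.update w i₀ x) := rfl

/-- The part of `E` killed by the slices at the lines of rank `< k`. -/
noncomputable def filt_F (i₀ : ι) (rk : Fin (c i₀) → ℕ)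
    (E : Submodule ℂ ((∀ i, Fin (c i)) → ℂ)) (k : ℕ) : Submodule ℂ ((∀ i, Fin (c i)) → ℂ) :=
  E ⊓ ⨅ x' : {x' // rk x' < k}, LinearMap.ker (slc i₀ x'.1)

theorem mem_filt_F {i₀ : ι} {rk : Fin (c i₀) → ℕ} {E : Submodule ℂ ((∀ i, Fin (c i)) → ℂ)} {k : ℕ}
    {G : (∀ i, Fin (c i)) → ℂ} : G ∈ filt_F i₀ rk E k ↔ G ∈ E ∧ ∀ x', rk x' < k → slc i₀ x' G = 0 := by
  unfold filt_F
  rw [Submodule.mem_inf, Submodule.mem_iInf]
  refine and_congr Iff.rfl ⟨fun h x' hx' => h ⟨x', hx'⟩, fun h x' => h x'.1 x'.2⟩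

theorem filt_step (i₀ : ι) (rk : Fin (c i₀) → ℕ) (hrk : Function.Injective rk)
    (E : Submodule ℂ ((∀ i, Fin (c i)) → ℂ)) (x : Fin (c i₀)) :
    finrank ℂ (filt_F i₀ rk E (rk x)) =
      finrank ℂ (Ex i₀ rk E x) + finrank ℂ (filt_F i₀ rk E (rk x + 1)) := by
  have h1 := LinearMap.finrank_range_add_finrank_ker
    ((slc i₀ x).comp (filt_F i₀ rk E (rk x)).subtype)
  rw [LinearMap.range_comp, Submodule.range_subtype] at h1
  have e : (LinearMap.ker ((slc i₀ x).comp (filt_F i₀ rk E (rk x)).subtype)).map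
      (filt_F i₀ rk E (rk x)).subtype = filt_F i₀ rk E (rk x + 1) := by
    ext G
    rw [mem_filt_F]
    constructor
    · rintro ⟨G', hG', rfl⟩
      have h2 := mem_filt_F.1 G'.2
      refine ⟨h2.1, fun x' hx' => ?_⟩
      rcases Nat.lt_succ_iff_lt_or_eq.1 hx' with h3 | h3
      · exact h2.2 x' h3
      · rw [hrk h3]
        exact hG'
    · rintro ⟨h2, h3⟩
      exact ⟨⟨G, mem_filt_F.2 ⟨h2, fun x' hx' => h3 x' (by omega)⟩⟩, h3 x (by omega), rfl⟩
  rw [← h1, ← e, Submodule.finrank_map_subtype_eq]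
  rfl

theorem sum_Ex (i₀ : ι) (rk : Fin (c i₀) → ℕ) (hrk : Function.Injective rk)
    (E : Submodule ℂ ((∀ i, Fin (c i)) → ℂ)) : ∑ x, finrank ℂ (Ex i₀ rk E x) = finrank ℂ E := by
  classical
  have key : ∀ k : ℕ, ∑ x ∈ univ.filter (fun x => rk x < k), finrank ℂ (Ex i₀ rk E x) +
      finrank ℂ (filt_F i₀ rk E k) = finrank ℂ E := by
    intro k
    induction k with
    | zero =>
      have h1 : filt_F i₀ rk E 0 = E := by
        ext G
        rw [mem_filt_F]
        exact ⟨fun h => h.1, fun h => ⟨h, fun x' hx' => absurd hx' (Nat.not_lt_zero _)⟩⟩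
      have h2 : univ.filter (fun x => rk x < 0) = ∅ := by
        ext x
        simp
      rw [h1, h2, sum_empty, zero_add]
    | succ k ih =>
      by_cases hk : ∃ x, rk x = k
      · obtain ⟨x, rfl⟩ := hk
        have h1 : univ.filter (fun x' => rk x' < rk x + 1) =
            insert x (univ.filter fun x' => rk x' < rk x) := by
          ext x'
          simp only [mem_filter, mem_univ, true_and, mem_insert]
          constructor
          · intro h
            rcases Nat.lt_succ_iff_lt_or_eq.1 h with h3 | h3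
            · exact Or.inr h3
            · exact Or.inl (hrk h3)
          · rintro (h | h)
            · rw [h]; omega
            · omega
        have h2 : x ∉ univ.filter fun x' => rk x' < rk x := by simp
        rw [h1, sum_insert h2]
        have h3 := filt_step i₀ rk hrk E x
        omega
      · have h1 : ∀ x', rk x' < k + 1 ↔ rk x' < k := by
          intro x'
          have h2 : rk x' ≠ k := fun h => hk ⟨x', h⟩
          omega
        have h2 : filt_F i₀ rk E (k + 1) = filt_F i₀ rk E k := by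
          ext G
          rw [mem_filt_F, mem_filt_F]
          simp only [h1]
        simp only [h1]
        rw [h2]
        exact ih
  have h1 := key (∑ x, rk x + 1)
  have h2 : ∀ x, rk x < ∑ x, rk x + 1 := fun x =>
    Nat.lt_succ_of_le (single_le_sum (f := rk) (fun _ _ => Nat.zero_le _) (mem_univ x))
  have h3 : univ.filter (fun x => rk x < ∑ x, rk x + 1) = univ := by
    ext x
    simp only [mem_filter, mem_univ, true_and, iff_true]
    exact h2 x
  have h4 : filt_F i₀ rk E (∑ x, rk x + 1) = ⊥ := by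
    rw [Submodule.eq_bot_iff]
    intro G hG
    rw [mem_filt_F] at hG
    funext w
    have h5 := congrFun (hG.2 (w i₀) (h2 _)) w
    rwa [slc_apply, Function.update_eq_self] at h5
  rw [h3, h4, finrank_bot, add_zero] at h1
  exact h1

theorem Ex_dep (i₀ : ι) (rk : Fin (c i₀) → ℕ) {I : Finset ι}
    {E : Submodule ℂ ((∀ i, Fin (c i)) → ℂ)} (hE : E ≤ Dep c I) (x : Fin (c i₀)) :
    Ex i₀ rk E x ≤ Dep c (I.erase i₀) := by
  rintro _ ⟨G, hG, rfl⟩ w w' h
  rw [slc_apply, slc_apply]
  refine hE (Submodule.mem_inf.1 hG).1 _ _ fun i hi => ?_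
  by_cases h1 : i = i₀
  · subst h1
    rw [Function.update_self, Function.update_self]
  · rw [Function.update_of_ne h1, Function.update_of_ne h1]
    exact h i (mem_erase.2 ⟨h1, hi⟩)

theorem filt_ctr_congr {S : Finset ι} {y y' : (Σ i, Fin (c i)) → ℂ}
    (h : ∀ x : (Σ i, Fin (c i)), x.1 ∈ S → y x = y' x) (F : (∀ i, Fin (c i)) → ℂ)
    (w : ∀ i, Fin (c i)) : ctr S y F w = ctr S y' F w := by
  unfold ctr
  refine sum_congr rfl fun e _ => ?_
  rw [prod_congr rfl fun j hj => h ⟨j, e j⟩ hj]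

theorem mix_update {T : Finset ι} {i₀ : ι} (hi₀ : i₀ ∈ T) (w u : ∀ i, Fin (c i))
    (x : Fin (c i₀)) : Function.update (mix T w u) i₀ x = mix T (Function.update w i₀ x) u := by
  funext j
  unfold mix
  by_cases h : j = i₀
  · subst h
    rw [Function.update_self, if_pos hi₀, Function.update_self]
  · rw [Function.update_of_ne h]
    split_ifs
    · rw [Function.update_of_ne h]
    · rfl

theorem KE_le_sum (T : Finset ι) {i₀ : ι} (hi₀ : i₀ ∈ T) (rk : Fin (c i₀) → ℕ)
    (hrk : Function.Injective rk) {P : Type} [Fintype P] (m : P → Finset ι)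
    (line : P → Fin (c i₀)) (p : P → (Σ i, Fin (c i)) → ℂ)
    (E : Submodule ℂ ((∀ i, Fin (c i)) → ℂ)) :
    finrank ℂ (KE T m (spc i₀ m line p) E) ≤
      ∑ x, finrank ℂ (KE T (fun i : {i // i₀ ∉ m i ∨ line i = x} => (m i.1).erase i₀)
        (fun i => p i.1) (Ex i₀ rk E x)) := by
  rw [← sum_Ex i₀ rk hrk (KE T m (spc i₀ m line p) E)]
  refine sum_le_sum fun x _ => Submodule.finrank_mono ?_
  rintro _ ⟨G, hG, rfl⟩
  have hG' : G ∈ filt_F i₀ rk (KE T m (spc i₀ m line p) E) (rk x) := hG
  rw [mem_filt_F, mem_KE] at hG'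
  obtain ⟨⟨h1, h2⟩, h3⟩ := hG'
  rw [mem_KE]
  refine ⟨fun u => ?_, ?_⟩
  · refine ⟨fun w => G (mix T w u), ?_, ?_⟩
    · show _ ∈ filt_F i₀ rk E (rk x)
      rw [mem_filt_F]
      refine ⟨h1 u, fun x' hx' => ?_⟩
      funext w
      rw [slc_apply, ← mix_update hi₀]
      exact congrFun (h3 x' hx') (mix T w u)
    · funext w
      rw [slc_apply, slc_apply, mix_update hi₀]
  · rintro ⟨i, hi⟩ w
    show ctr ((m i).erase i₀) (p i) (slc i₀ x G) w = 0
    have hspc : ∀ x : (Σ i, Fin (c i)), x.1 ≠ i₀ → spc i₀ m line p i x = p i x := by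
      intro x hx
      unfold spc
      rw [if_neg fun h => hx h.1]
    by_cases him : i₀ ∈ m i
    · have hl : line i = x := hi.resolve_left fun h => h him
      rw [← h2 i w, filt_ctr_congr (y := p i) (y' := spc i₀ m line p i) fun x' hx' =>
        (hspc x' (mem_erase.1 hx').1).symm]
      refine ctr_erase (m i) (spc i₀ m line p i) G i₀ x him (fun x' => ?_) w
      unfold spc
      rw [if_pos ⟨rfl, him⟩, hl]
      by_cases h : x' = x
      · subst h
        rw [if_pos rfl, if_pos rfl]
      · rw [if_neg h, if_neg]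
        intro h'
        apply h
        have := (Sigma.mk.inj_iff.1 h').2
        exact eq_of_heq this
    · rw [erase_eq_of_notMem him]
      have h4 := ctr_slice (m i) (p i) G i₀ x him w
      have h5 : ctr (m i) (p i) (slc i₀ x G) w = ctr (m i) (p i) G (Function.update w i₀ x) := h4
      rw [h5, filt_ctr_congr (y := p i) (y' := spc i₀ m line p i) fun x' hx' =>
        (hspc x' fun h => him (h ▸ hx')).symm]
      exact h2 i _

theorem filt_ctr_mix {S T : Finset ι} (hS : S ⊆ T) (y : (Σ i, Fin (c i)) → ℂ)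
    (G : (∀ i, Fin (c i)) → ℂ) (u w : ∀ i, Fin (c i)) :
    ctr S y (fun e => G (mix T e u)) w = ctr S y G (mix T w u) := by
  unfold ctr
  rw [← Finset.sum_filter, ← Finset.sum_filter]
  refine Finset.sum_nbij' (fun e => mix T e u) (fun e => fun i => if i ∈ S then e i else w i)
    ?_ ?_ ?_ ?_ ?_
  · intro e he
    simp only [Finset.mem_filter, Finset.mem_univ, true_and] at he ⊢
    intro j hj
    unfold mix
    by_cases h : j ∈ T
    · rw [if_pos h, if_pos h, he j hj]
    · rw [if_neg h, if_neg h]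
  · intro e he
    simp only [Finset.mem_filter, Finset.mem_univ, true_and] at he ⊢
    intro j hj
    rw [if_neg hj]
  · intro e he
    simp only [Finset.mem_filter, Finset.mem_univ, true_and] at he
    funext j
    by_cases hj : j ∈ S
    · simp only [if_pos hj]
      unfold mix
      rw [if_pos (hS hj)]
    · simp only [if_neg hj]
      exact (he j hj).symm
  · intro e he
    simp only [Finset.mem_filter, Finset.mem_univ, true_and] at he
    funext j
    by_cases h : j ∈ T
    · unfold mix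
      rw [if_pos h]
      show (if j ∈ S then e j else w j) = e j
      by_cases hj : j ∈ S
      · rw [if_pos hj]
      · rw [if_neg hj, he j hj]
        unfold mix
        rw [if_pos h]
    · rw [he j fun h' => h (hS h')]
      unfold mix
      rw [if_neg h, if_neg h]
  · intro e _
    congr 1
    refine Finset.prod_congr rfl fun j hj => ?_
    unfold mix
    rw [if_pos (hS hj)]

/-- Tensors killed by the base points. -/
theorem KE_inf_base (T : Finset ι) {P₀ P₁ : Type} (m₀ : P₀ → Finset ι) (m₁ : P₁ → Finset ι)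
    (hm : ∀ i, m₀ i ⊆ T) (r : P₀ → (Σ i, Fin (c i)) → ℂ) (y : P₁ → (Σ i, Fin (c i)) → ℂ)
    (E : Submodule ℂ ((∀ i, Fin (c i)) → ℂ)) :
    KE T (Sum.elim m₀ m₁) (Sum.elim r y) (E ⊓ (TS ι c).V m₀ r) =
      KE T (Sum.elim m₀ m₁) (Sum.elim r y) E := by
  ext G
  rw [mem_KE, mem_KE]
  constructor
  · rintro ⟨h1, h2⟩
    exact ⟨fun u => (Submodule.mem_inf.1 (h1 u)).1, h2⟩
  · rintro ⟨h1, h2⟩
    refine ⟨fun u => Submodule.mem_inf.2 ⟨h1 u, ?_⟩, h2⟩
    rw [mem_TS]
    intro i w
    rw [filt_ctr_mix (hm i)]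
    exact h2 (Sum.inl i) _

end Pool.Agent.GD.BE
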