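import Pool.Agent.GD.BE.Defs
import Pool.Agent.V7.ST.Ms

/-!
# General d, block BETA, module Rel: general values for a fixed base position and a fixed `E`

`gE T m₀ r m₁ E`: the least dimension of `KE` over all positions of the additional points.  It is the
general dimension of a `Sys` (kinds `Option (Finset ι)`, `none` = the constant conditions of `E` and
of the base points), so `gn_gd`, `gd_elim_le` etc. apply.
-/

set_option autoImplicit false

namespace Pool.Agent.GD.BE

open Finset MvPolynomial Module Pool.Agent.H51.TB Pool.Agent.V7.ST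

variable {ι : Type} [Fintype ι] [DecidableEq ι] {c : ι → ℕ}

/-- The general dimension for fixed base position `r` and fixed `E`. -/
noncomputable def gE (T : Finset ι) {P₀ P₁ : Type} (m₀ : P₀ → Finset ι)
    (r : P₀ → (Σ i, Fin (c i)) → ℂ) (m₁ : P₁ → Finset ι)
    (E : Submodule ℂ ((∀ i, Fin (c i)) → ℂ)) : ℕ :=
  sInf (Set.range fun y : P₁ → (Σ i, Fin (c i)) → ℂ =>
    finrank ℂ (KE T (Sum.elim m₀ m₁) (Sum.elim r y) E))

/-- Every subspace of a finite space of functions is the space of solutions of finitely many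
equations. -/
private theorem rel_eqs {J : Type} [Fintype J] (K : Submodule ℂ (J → ℂ)) :
    ∃ (N : ℕ) (a : Fin N → J → ℂ), ∀ x, x ∈ K ↔ ∀ k, ∑ e, a k e * x e = 0 := by
  classical
  let Q := (J → ℂ) ⧸ K
  let b := Module.finBasis ℂ Q
  let φ : Fin (finrank ℂ Q) → (J → ℂ) →ₗ[ℂ] ℂ := fun k => (b.coord k).comp K.mkQ
  refine ⟨finrank ℂ Q, fun k e => φ k (Pi.single e 1), fun x => ?_⟩
  have h1 : ∀ k, ∑ e, φ k (Pi.single e 1) * x e = φ k x := by
    intro k
    conv_rhs => rw [← Finset.univ_sum_single x]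
    rw [map_sum]
    refine sum_congr rfl fun e _ => ?_
    have h2 : (Pi.single e (x e) : J → ℂ) = x e • Pi.single e 1 := by
      rw [← Pi.single_smul, smul_eq_mul, mul_one]
    rw [h2, map_smul, smul_eq_mul, mul_comm]
  simp only [h1]
  rw [← Submodule.Quotient.mk_eq_zero K]
  constructor
  · intro h k
    show b.coord k (K.mkQ x) = 0
    have h3 : K.mkQ x = 0 := h
    rw [h3, map_zero]
  · intro h
    have h3 : b.repr (K.mkQ x) = 0 := by
      ext k
      exact h k
    have h4 : K.mkQ x = 0 := (LinearEquiv.map_eq_zero_iff b.repr).1 h3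
    exact h4

/-- The system with the constant conditions of `K`. -/
private noncomputable def relS (c : ι → ℕ) {N : ℕ} (a : Fin N → (∀ i, Fin (c i)) → ℂ) :
    Sys (∀ i, Fin (c i)) (Σ i, Fin (c i)) (Option (Finset ι)) where
  R := fun o => match o with
    | none => Fin N
    | some S => (TS ι c).R S
  fin := fun o => match o with
    | none => inferInstanceAs (Finite (Fin N))
    | some S => (TS ι c).fin S
  co := fun o => match o with
    | none => fun k e => C (a k e)
    | some S => (TS ι c).co S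

private theorem relS_V {N : ℕ} {a : Fin N → (∀ i, Fin (c i)) → ℂ}
    {K : Submodule ℂ ((∀ i, Fin (c i)) → ℂ)}
    (hK : ∀ x, x ∈ K ↔ ∀ k, ∑ e, a k e * x e = 0) {P : Type} (m : P → Finset ι)
    (q : Unit → (Σ i, Fin (c i)) → ℂ) (y : P → (Σ i, Fin (c i)) → ℂ) :
    (relS c a).V (Sum.elim (fun _ : Unit => none) fun i => some (m i)) (Sum.elim q y) =
      K ⊓ (TS ι c).V m y := by
  ext f
  rw [Submodule.mem_inf, Sys.mem_V, hK, Sys.mem_V]
  constructor
  · intro h
    refine ⟨fun k => ?_, fun i r => h (Sum.inr i) r⟩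
    have h1 := h (Sum.inl ()) k
    rw [← h1]
    refine sum_congr rfl fun e _ => ?_
    show a k e * f e = eval _ (C (a k e)) * f e
    rw [eval_C]
  · rintro ⟨h1, h2⟩ (i | i) r
    · rw [← h1 r]
      refine sum_congr rfl fun e _ => ?_
      show eval _ (C (a r e)) * f e = a r e * f e
      rw [eval_C]
    · exact h2 i r

private theorem KE_split (T : Finset ι) {P₀ P₁ : Type} (m₀ : P₀ → Finset ι)
    (r : P₀ → (Σ i, Fin (c i)) → ℂ) (m₁ : P₁ → Finset ι)
    (E : Submodule ℂ ((∀ i, Fin (c i)) → ℂ)) (y : P₁ → (Σ i, Fin (c i)) → ℂ) :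
    KE T (Sum.elim m₀ m₁) (Sum.elim r y) E = KE T m₀ r E ⊓ (TS ι c).V m₁ y := by
  unfold KE
  rw [V_elim, inf_assoc]

section

variable (T : Finset ι) {P₀ P₁ : Type} (m₀ : P₀ → Finset ι) (r : P₀ → (Σ i, Fin (c i)) → ℂ)
  (m₁ : P₁ → Finset ι) (E : Submodule ℂ ((∀ i, Fin (c i)) → ℂ))

theorem gE_le (y : P₁ → (Σ i, Fin (c i)) → ℂ) :
    gE T m₀ r m₁ E ≤ finrank ℂ (KE T (Sum.elim m₀ m₁) (Sum.elim r y) E) :=
  Nat.sInf_le ⟨y, rfl⟩

theorem exists_gE : ∃ y : P₁ → (Σ i, Fin (c i)) → ℂ,
    finrank ℂ (KE T (Sum.elim m₀ m₁) (Sum.elim r y) E) = gE T m₀ r m₁ E := by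
  obtain ⟨y, hy⟩ := Nat.sInf_mem (Set.range_nonempty
    fun y : P₁ → (Σ i, Fin (c i)) → ℂ =>
      finrank ℂ (KE T (Sum.elim m₀ m₁) (Sum.elim r y) E))
  exact ⟨y, hy⟩

private theorem gE_eq_gd {N : ℕ} {a : Fin N → (∀ i, Fin (c i)) → ℂ}
    (hK : ∀ x, x ∈ KE T m₀ r E ↔ ∀ k, ∑ e, a k e * x e = 0) :
    gE T m₀ r m₁ E = (relS c a).gd (Sum.elim (fun _ : Unit => none) fun i => some (m₁ i)) := by
  apply le_antisymm
  · obtain ⟨p, hp⟩ := gd_attained (relS c a)
      (Sum.elim (fun _ : Unit => none) fun i => some (m₁ i))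
    have h1 : p = Sum.elim (fun i => p (Sum.inl i)) fun i => p (Sum.inr i) := by
      funext x
      rcases x with x | x <;> rfl
    rw [h1, relS_V hK, ← KE_split] at hp
    rw [← hp]
    exact gE_le T m₀ r m₁ E _
  · obtain ⟨y, hy⟩ := exists_gE T m₀ r m₁ E
    rw [← hy, KE_split, ← relS_V hK m₁ (fun _ _ => 0) y]
    exact gd_le _ _ _

theorem gn_gE [Fintype P₁] : Gn P₁ (Σ i, Fin (c i)) fun y =>
    finrank ℂ (KE T (Sum.elim m₀ m₁) (Sum.elim r y) E) = gE T m₀ r m₁ E := by
  obtain ⟨N, a, hK⟩ := rel_eqs (KE T m₀ r E)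
  obtain ⟨p₀, h1⟩ := (gn_gd (relS c a)
    (Sum.elim (fun _ : Unit => none) fun i => some (m₁ i))).fix
  refine h1.mono fun y hy => ?_
  rw [relS_V hK, ← KE_split, ← gE_eq_gd T m₀ r m₁ E hK] at hy
  exact hy

theorem gE_equiv {P₂ : Type} (e : P₂ ≃ P₁) :
    gE T m₀ r (fun i => m₁ (e i)) E = gE T m₀ r m₁ E := by
  have key : ∀ y : P₁ → (Σ i, Fin (c i)) → ℂ,
      KE T (Sum.elim m₀ fun i => m₁ (e i)) (Sum.elim r fun i => y (e i)) E =
        KE T (Sum.elim m₀ m₁) (Sum.elim r y) E := by
    intro y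
    ext G
    rw [mem_KE, mem_KE]
    refine and_congr Iff.rfl ⟨fun h x => ?_, fun h x => ?_⟩
    · rcases x with x | x
      · exact h (Sum.inl x)
      · obtain ⟨z, rfl⟩ := e.surjective x
        exact h (Sum.inr z)
    · rcases x with x | x
      · exact h (Sum.inl x)
      · exact h (Sum.inr (e x))
  apply le_antisymm
  · obtain ⟨y, hy⟩ := exists_gE T m₀ r m₁ E
    rw [← hy, ← key y]
    exact gE_le T m₀ r (fun i => m₁ (e i)) E _
  · obtain ⟨y, hy⟩ := exists_gE T m₀ r (fun i => m₁ (e i)) E
    have h1 := key fun i => y (e.symm i)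
    simp only [Equiv.symm_apply_apply] at h1
    rw [← hy, h1]
    exact gE_le T m₀ r m₁ E _

/-- Convexity in the number of points of kind `S`: `m₁` has `N` points of kind `S`; with one more
point of kind `S` the dimension drops by at most the mean drop per point. -/
theorem gE_slope [Fintype P₁] (S : Finset ι) (N : ℕ) (hN : Nat.card {x // m₁ x = S} = N) :
    (N : ℤ) * (gE T m₀ r m₁ E - gE T m₀ r (Sum.elim m₁ fun _ : Unit => S) E) ≤
      gE T m₀ r (fun x : {x // m₁ x ≠ S} => m₁ x.1) E - gE T m₀ r m₁ E := by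
  classical
  obtain ⟨N', a, hK⟩ := rel_eqs (KE T m₀ r E)
  -- the sequence of the dimensions
  let s₀ : Multiset (Option (Finset ι)) :=
    none ::ₘ ((univ : Finset {x // m₁ x ≠ S}).val.map fun x => some (m₁ x.1))
  let G : ℕ → ℕ := fun k => gM (relS c a) (Multiset.replicate k (some S) + s₀)
  have hG : ∀ k, G k + G (k + 2) ≥ G (k + 1) + G (k + 1) := by
    intro k
    have h1 := gM_submod (relS c a) (Multiset.replicate k (some S) + s₀) (some S) (some S)
    have h2 : some S ::ₘ (Multiset.replicate k (some S) + s₀) =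
        Multiset.replicate (k + 1) (some S) + s₀ := by
      rw [Multiset.replicate_succ, Multiset.cons_add]
    have h3 : some S ::ₘ (Multiset.replicate (k + 1) (some S) + s₀) =
        Multiset.replicate (k + 2) (some S) + s₀ := by
      rw [Multiset.replicate_succ (some S) (k + 1), Multiset.cons_add]
    rw [h2, h3] at h1
    exact h1
  have hdrop : ∀ j k : ℕ, j ≤ k → (G k : ℤ) - G (k + 1) ≤ G j - G (j + 1) := by
    intro j k hjk
    induction k, hjk using Nat.le_induction with
    | base => exact le_rfl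
    | succ k _ ih =>
      have := hG k
      show (G (k + 1) : ℤ) - G (k + 2) ≤ _
      omega
  have hsum : ∀ k ≤ N, (k : ℤ) * (G N - G (N + 1)) ≤ G 0 - G k := by
    intro k
    induction k with
    | zero => intro _; simp
    | succ k ih =>
      intro hk
      have h1 := ih (by omega)
      have h2 := hdrop k N (by omega)
      push_cast
      nlinarith
  -- the multisets
  have hm : (univ : Finset P₁).val.map (fun i => some (m₁ i)) = Multiset.replicate N (some S) +
      (univ : Finset {x // m₁ x ≠ S}).val.map fun x => some (m₁ x.1) := by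
    have h1 : (univ : Finset P₁).val.map (fun i => some (m₁ i)) =
        ((univ : Finset ({x // m₁ x = S} ⊕ {x // ¬ m₁ x = S})).val.map fun z =>
          some (m₁ (Sum.elim Subtype.val Subtype.val z))) := by
      have h2 := Finset.univ.val.map fun z : {x // m₁ x = S} ⊕ {x // ¬ m₁ x = S} =>
        (Equiv.sumCompl fun x => m₁ x = S) z
      have h3 : (univ : Finset P₁).val = (univ : Finset
          ({x // m₁ x = S} ⊕ {x // ¬ m₁ x = S})).val.map
            fun z => (Equiv.sumCompl fun x => m₁ x = S) z := by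
        have h4 := Finset.map_univ_equiv (Equiv.sumCompl fun x => m₁ x = S)
        rw [← h4, Finset.map_val]
        rfl
      rw [h3, Multiset.map_map]
      refine Multiset.map_congr rfl fun z _ => ?_
      rcases z with z | z <;> rfl
    have h5 : (fun z : {x // m₁ x = S} ⊕ {x // ¬ m₁ x = S} =>
        some (m₁ (Sum.elim Subtype.val Subtype.val z))) =
          Sum.elim (fun _ => some S) fun x => some (m₁ x.1) := by
      funext z
      rcases z with z | z
      · show some (m₁ z.1) = some S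
        rw [z.2]
      · rfl
    rw [h1, h5, map_elim, Pool.Agent.V7.ST.map_const]
    congr 1
    rw [← hN, Nat.card_eq_fintype_card]
  have e0 : gE T m₀ r (fun x : {x // m₁ x ≠ S} => m₁ x.1) E = G 0 := by
    rw [gE_eq_gd T m₀ r _ E hK, gd_eq_gM, map_elim, Pool.Agent.V7.ST.map_const, Fintype.card_unit]
    show gM _ _ = gM _ _
    congr 1
    show Multiset.replicate 1 none + _ = Multiset.replicate 0 _ + (none ::ₘ _)
    rw [Multiset.replicate_one, Multiset.singleton_add, Multiset.replicate_zero, zero_add]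
  have e1 : gE T m₀ r m₁ E = G N := by
    rw [gE_eq_gd T m₀ r _ E hK, gd_eq_gM, map_elim, Pool.Agent.V7.ST.map_const, Fintype.card_unit, hm]
    show gM _ _ = gM _ _
    congr 1
    show Multiset.replicate 1 none + (_ + _) = _ + (none ::ₘ _)
    rw [Multiset.replicate_one, Multiset.singleton_add, Multiset.add_cons]
  have e2 : gE T m₀ r (Sum.elim m₁ fun _ : Unit => S) E = G (N + 1) := by
    have h1 : (fun i : P₁ ⊕ Unit => some (Sum.elim m₁ (fun _ : Unit => S) i)) =
        Sum.elim (fun i => some (m₁ i)) fun _ : Unit => some S := by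
      funext i
      rcases i with i | i <;> rfl
    rw [gE_eq_gd T m₀ r _ E hK, gd_eq_gM, map_elim, Pool.Agent.V7.ST.map_const, Fintype.card_unit, h1, map_elim, hm,
      Pool.Agent.V7.ST.map_const, Fintype.card_unit]
    show gM _ _ = gM _ _
    congr 1
    show Multiset.replicate 1 none + ((_ + _) + Multiset.replicate 1 (some S)) = _ + (none ::ₘ _)
    rw [Multiset.replicate_one, Multiset.replicate_one, Multiset.singleton_add, Multiset.add_cons,
      Multiset.replicate_succ, Multiset.cons_add, add_comm _ {some S}, Multiset.singleton_add]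
  rw [e0, e1, e2]
  exact hsum N le_rfl

/-- A general point of a kind `S` which imposes a condition. -/
theorem gE_lt [Fintype P₁] (S : Finset ι) (h : 0 < gE T m₀ r m₁ E) :
    gE T m₀ r (Sum.elim m₁ fun _ : Unit => S) E < gE T m₀ r m₁ E := by
  classical
  obtain ⟨y, hy⟩ := exists_gE T m₀ r m₁ E
  have hne : KE T (Sum.elim m₀ m₁) (Sum.elim r y) E ≠ ⊥ := by
    intro h0
    rw [h0, finrank_bot] at hy
    omega
  obtain ⟨G, hG, hG0⟩ := Submodule.exists_mem_ne_zero_of_ne_bot hne
  obtain ⟨w, hw⟩ := Function.ne_iff.1 hG0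
  let q : (Σ i, Fin (c i)) → ℂ := fun x => if x.2 = w x.1 then 1 else 0
  have hq : ctr S q G w = G w := by
    unfold ctr
    rw [sum_eq_single w]
    · rw [if_pos fun _ _ => rfl]
      have h1 : ∏ j ∈ S, q ⟨j, w j⟩ = 1 := prod_eq_one fun j _ => if_pos rfl
      rw [h1, one_mul]
    · intro e _ he
      split_ifs with h1
      · have h2 : ∃ j ∈ S, e j ≠ w j := by
          by_contra hcon
          push Not at hcon
          apply he
          funext j
          by_cases hj : j ∈ S
          · exact hcon j hj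
          · exact h1 j hj
        obtain ⟨j, hj, hne⟩ := h2
        rw [prod_eq_zero hj (if_neg hne), zero_mul]
      · rfl
    · intro h1
      exact absurd (mem_univ w) h1
  have hlt : KE T (Sum.elim m₀ (Sum.elim m₁ fun _ : Unit => S))
      (Sum.elim r (Sum.elim y fun _ => q)) E < KE T (Sum.elim m₀ m₁) (Sum.elim r y) E := by
    have h1 : KE T (Sum.elim m₀ (Sum.elim m₁ fun _ : Unit => S))
        (Sum.elim r (Sum.elim y fun _ => q)) E =
          KE T (Sum.elim m₀ m₁) (Sum.elim r y) E ⊓ (TS ι c).V (fun _ : Unit => S) fun _ => q := by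
      rw [KE_split, KE_split, V_elim, inf_assoc]
    rw [h1]
    refine lt_of_le_of_ne inf_le_left fun h2 => ?_
    have h3 : G ∈ KE T (Sum.elim m₀ m₁) (Sum.elim r y) E ⊓
        (TS ι c).V (fun _ : Unit => S) fun _ => q := by
      rw [h2]
      exact hG
    have h4 := (mem_TS _ _ _).1 h3.2 () w
    rw [hq] at h4
    exact hw h4
  have h5 := Submodule.finrank_lt_finrank_of_lt hlt
  rw [hy] at h5
  exact lt_of_le_of_lt (gE_le T m₀ r (Sum.elim m₁ fun _ : Unit => S) E _) h5

end

end Pool.Agent.GD.BE
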