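import Pool.Agent.GD.BE.Defs
import Pool.Agent.GD.Semi

/-!
# General d, block BETA, module Semi: semistability for all `E` at once

Proof: add `κ_u = F (I ∪ Tᶜ) / F I` units (kind `Tᶜ`, `lam c T I κ` of them, an integer for divisible
dimensions): the virtual dimension of `I ∪ Tᶜ` becomes `0` and the others are `≥ 0` (`IsF.mono`), so
`critical` for a minimal zero set: general points kill everything.  Every unit costs at most
`finrank E` (the contraction with a unit is a combination of slices).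
-/

set_option autoImplicit false
set_option linter.unusedSectionVars false
set_option linter.unusedVariables false

namespace Pool.Agent.GD.BE

open Finset MvPolynomial Module Pool.Agent.H51.TB

variable {ι : Type} [Fintype ι] [DecidableEq ι]

theorem semi_pc_pos {c : ι → ℕ} (hc : ∀ i, 0 < c i) (S : Finset ι) : 0 < pc c S :=
  Finset.prod_pos fun i _ => by exact_mod_cast hc i

/-- `critical` for nonnegative virtual dimensions. -/
theorem crit_nonneg (κ F : Finset ι → ℚ) (hκ : ∀ S, 0 ≤ κ S) (hF : IsF κ F) (I : Finset ι)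
    (hnn : ∀ J ⊆ I, 0 ≤ F J) (hz : F I = 0) :
    ∃ N : ℕ, 0 < N ∧ ∀ c : ι → ℕ, (∀ i, 0 < c i ∧ N ∣ c i) →
      ∀ (P : Type) [Fintype P] (m : P → Finset ι),
        (∀ S ⊆ I, S ≠ ∅ → κ S * pc c S ≤ Nat.card {x // m x = S}) → (TS ι c).gd m = 0 := by
  classical
  obtain ⟨J, hJmem, hJmin⟩ := (I.powerset.filter fun J => F J = 0).exists_minimal
    ⟨I, Finset.mem_filter.2 ⟨Finset.mem_powerset.2 (subset_refl _), hz⟩⟩
  rw [Finset.mem_filter, Finset.mem_powerset] at hJmem
  let κ₀ : Finset ι → ℚ := fun S => if S = ∅ then 0 else κ S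
  have hF₀ : IsF κ₀ F := by
    refine ⟨hF.empty, fun I i hi => ?_⟩
    rw [hF.step I i hi]
    congr 1
    refine Finset.sum_congr rfl fun B _ => ?_
    show _ = (if insert i B = ∅ then 0 else κ (insert i B)) * _
    rw [if_neg (Finset.insert_ne_empty i B)]
  obtain ⟨N, hN, h⟩ := critical J.card κ₀ F (fun S => by
      show 0 ≤ if S = ∅ then (0 : ℚ) else κ S
      split_ifs
      · exact le_rfl
      · exact hκ S) hF₀ J le_rfl (fun K hK => by
      refine lt_of_le_of_ne (hnn K (hK.subset.trans hJmem.1)) fun h0 => ?_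
      have h1 : K ∈ I.powerset.filter fun J => F J = 0 :=
        Finset.mem_filter.2 ⟨Finset.mem_powerset.2 (hK.subset.trans hJmem.1), h0.symm⟩
      exact hK.not_subset (hJmin h1 hK.subset)) hJmem.2
  refine ⟨N, hN, fun c hc P _ m hm => h c hc P m fun S hS => ?_⟩
  show (if S = ∅ then 0 else κ S) * _ ≤ _
  split_ifs with h0
  · rw [zero_mul]
    exact Nat.cast_nonneg _
  · exact hm S (hS.trans hJmem.1) h0

/-- The critical number of points of kind `A`. -/
theorem crit_add (κ : Finset ι → ℚ) (hκ : ∀ S, 0 ≤ κ S) (I A : Finset ι) (hA : A ⊆ I)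
    (hA0 : A ≠ ∅) (hF : ∀ J ⊆ I, 0 < FF κ J) :
    ∃ N : ℕ, 0 < N ∧ ∀ c : ι → ℕ, (∀ i, 0 < c i ∧ N ∣ c i) →
      ∃ l : ℕ, (l : ℚ) = pc c A * (FF κ I / FF κ (I \ A)) ∧
      ∀ (P : Type) [Fintype P] (m : P → Finset ι),
        (∀ S ⊆ I, S ≠ ∅ → κ S * pc c S ≤ Nat.card {x // m x = S}) →
          (TS ι c).gd (Sum.elim m fun _ : Fin l => A) = 0 := by
  classical
  set σ : ℚ := FF κ I / FF κ (I \ A) with hσ
  have hIA : 0 < FF κ (I \ A) := hF _ Finset.sdiff_subset
  have hσ0 : 0 < σ := div_pos (hF I (subset_refl _)) hIA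
  have hF0 := isF_FF κ
  obtain ⟨N, hN, h⟩ := crit_nonneg (modK κ A σ) (modF (FF κ) A σ) (fun S => by
    unfold modK
    split_ifs
    · exact add_nonneg (hκ S) hσ0.le
    · rw [add_zero]; exact hκ S) (hF0.mod hA0 σ) I (fun J hJ => by
      unfold modF
      split_ifs with h
      · have h1 := IsF.mono hκ hF0 hF _ I (subset_refl _) le_rfl J hJ A h
        rw [sub_nonneg, hσ, div_mul_eq_mul_div, div_le_iff₀ hIA]
        exact h1
      · rw [sub_zero]
        exact (hF J hJ).le) (by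
      unfold modF
      rw [if_pos hA, hσ, div_mul_cancel₀ _ hIA.ne', sub_self])
  refine ⟨N * σ.den, Nat.mul_pos hN (Rat.den_pos _), fun c hc => ?_⟩
  obtain ⟨j, hj⟩ := Finset.nonempty_iff_ne_empty.2 hA0
  have h1 : σ.den ∣ ∏ i ∈ A, c i :=
    ((Dvd.intro_left _ rfl).trans (hc j).2).trans (Finset.dvd_prod_of_mem _ hj)
  obtain ⟨l, hl⟩ := exists_nat_mul hσ0.le h1
  have hl' : (l : ℚ) = pc c A * σ := by
    rw [hl]
    unfold pc
    push_cast
    rfl
  refine ⟨l, hl', fun P _ m hm => ?_⟩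
  refine h c (fun i => ⟨(hc i).1, (Dvd.intro _ rfl).trans (hc i).2⟩) _ _ fun S hS hS0 => ?_
  unfold modK
  have hmS := hm S hS hS0
  let f1 : {x // m x = S} → {y : P ⊕ Fin l // Sum.elim m (fun _ : Fin l => A) y = S} :=
    fun y => ⟨Sum.inl y.1, y.2⟩
  have hf1 : Function.Injective f1 := by
    intro y y' h
    exact Subtype.ext (Sum.inl_injective (congrArg (fun t => t.1) h))
  by_cases hSA : S = A
  · rw [if_pos hSA]
    subst hSA
    let f2 : Fin l → {y : P ⊕ Fin l // Sum.elim m (fun _ : Fin l => S) y = S} :=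
      fun a => ⟨Sum.inr a, rfl⟩
    have hf2 : Function.Injective f2 := by
      intro a b h
      exact Sum.inr_injective (congrArg (fun t => t.1) h)
    have hf12 : Function.Injective (Sum.elim f1 f2) := by
      refine hf1.sumElim hf2 fun y a h => ?_
      have h1 : (Sum.inl y.1 : P ⊕ Fin l) = Sum.inr a := congrArg (fun t => t.1) h
      exact Sum.inl_ne_inr h1
    have h1 := Nat.card_le_card_of_injective _ hf12
    rw [Nat.card_sum, Nat.card_eq_fintype_card (α := Fin l), Fintype.card_fin] at h1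
    have h3 : ((Nat.card {x // m x = S} + l : ℕ) : ℚ) ≤
        Nat.card {y : P ⊕ Fin l // Sum.elim m (fun _ : Fin l => S) y = S} := by
      exact_mod_cast h1
    push_cast at h3
    rw [hl'] at h3
    refine le_trans ?_ h3
    rw [add_mul]
    linarith
  · rw [if_neg hSA, add_zero]
    refine hmS.trans ?_
    exact_mod_cast Nat.card_le_card_of_injective f1 hf1

theorem KE_eq {c : ι → ℕ} (T : Finset ι) {P : Type} (m : P → Finset ι)
    (p : P → (Σ i, Fin (c i)) → ℂ) (E : Submodule ℂ ((∀ i, Fin (c i)) → ℂ)) :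
    KE T m p E = (TS ι c).V m p ⊓ VE Tᶜ E := by
  ext G
  rw [mem_KE, Submodule.mem_inf, mem_TS, mem_VE, and_comm]
  refine and_congr Iff.rfl (forall_congr' fun u => ?_)
  have e : (fun w => G (mix T w u)) = sl Tᶜ u G := by
    funext w
    show G (mix T w u) = G (gl Tᶜ u w)
    congr 1
    funext j
    unfold mix gl
    by_cases hj : j ∈ T
    · rw [if_pos hj, if_neg fun h => Finset.mem_compl.1 h hj]
    · rw [if_neg hj, if_pos (Finset.mem_compl.2 hj)]
  rw [e]

theorem semi (T I : Finset ι) (hI : I ⊆ T) (hT : Tᶜ ≠ ∅) (κ : Finset ι → ℚ)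
    (hκ : ∀ S, 0 ≤ κ S) (hF : ∀ J ⊆ I ∪ Tᶜ, 0 < FF κ J) :
    ∃ N : ℕ, 0 < N ∧ ∀ c : ι → ℕ, (∀ i, 0 < c i ∧ N ∣ c i) →
      (∃ l : ℕ, (l : ℚ) = lam c T I κ) ∧
      ∀ (P : Type) [Fintype P] (m : P → Finset ι),
        (∀ S ⊆ I ∪ Tᶜ, S ≠ ∅ → κ S * pc c S ≤ (Nat.card {x // m x = S} : ℚ)) →
          Gn P (Σ i, Fin (c i)) fun p => ∀ E : Submodule ℂ ((∀ i, Fin (c i)) → ℂ),
            (finrank ℂ (KE T m p E) : ℚ) ≤ lam c T I κ * finrank ℂ E := by
  classical
  have e1 : (I ∪ Tᶜ) \ Tᶜ = I := by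
    ext x
    rw [Finset.mem_sdiff, Finset.mem_union, Finset.mem_compl, not_not]
    constructor
    · rintro ⟨h1 | h1, h2⟩
      · exact h1
      · exact absurd h2 h1
    · exact fun h => ⟨Or.inl h, hI h⟩
  obtain ⟨N, hN, h⟩ := crit_add κ hκ (I ∪ Tᶜ) Tᶜ Finset.subset_union_right hT hF
  refine ⟨N, hN, fun c hc => ?_⟩
  obtain ⟨l, hl, h2⟩ := h c hc
  rw [e1] at hl
  refine ⟨⟨l, hl⟩, fun P _ m hm => ?_⟩
  refine (semist_gn (fun i => (hc i).1) m Tᶜ l (h2 P m hm)).mono fun p hp E => ?_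
  have h3 := hp E
  rw [KE_eq]
  have h4 : (finrank ℂ ((TS ι c).V m p ⊓ VE Tᶜ E : Submodule ℂ ((∀ i, Fin (c i)) → ℂ)) : ℚ) ≤
      ((l * finrank ℂ E : ℕ) : ℚ) := by exact_mod_cast h3
  refine h4.trans (le_of_eq ?_)
  push_cast
  rw [hl]
  rfl

end Pool.Agent.GD.BE
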