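import Pool.Agent.GD.BE.Exd
import Pool.Agent.GD.BE.Semi
import Pool.Agent.GD.BE.Aut
import Pool.Agent.GD.BE.Rel
import Pool.Agent.GD.BE.Filt

/-!
# General d, block BETA, module AtAI: the general facts at algebraically independent base positions

Proofs: the statement is invariant under automorphisms (`KE_sb`, `V_sb`, `Dep_sb`, `finrank_sb`: replace
`E` by `sb σ.symm E`), holds generally (`semi`, `exact_le` + `gn_gd`), so holds at all independent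
positions (`of_gn`); the additional points are chosen by `ai_extend`, and `gE_le`.
-/

set_option autoImplicit false
set_option linter.unusedVariables false

namespace Pool.Agent.GD.BE

open Finset MvPolynomial Module Pool.Agent.H51.TB

variable {ι : Type} [Fintype ι] [DecidableEq ι]

/-- Independent positions extend. -/
private theorem ai_ext {P₀ P₁ X : Type} [Finite P₀] [Finite P₁] [Finite X] (r : P₀ → X → ℂ)
    (hr : AI r) : ∃ y : P₁ → X → ℂ, AI (Sum.elim r y) := by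
  obtain ⟨y, hy, _⟩ := ai_extend (P₁ := P₁) r hr (Pr := fun _ => True)
    ⟨1, one_ne_zero, fun _ _ => trivial⟩
  exact ⟨y, hy⟩

/-- The product over all slots. -/
private theorem pc_compl (c : ι → ℕ) (J : Finset ι) : pc c univ = pc c Jᶜ * pc c J := by
  unfold pc
  rw [mul_comm]
  exact (Finset.prod_mul_prod_compl J fun i => (c i : ℚ)).symm

/-- The dimension on the slots `J` at an independent position. -/
private theorem dep_ai {c : ι → ℕ} (hc : ∀ i, 0 < c i) (J : Finset ι) {P : Type} [Fintype P]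
    (m : P → Finset ι) (hm : ∀ x, m x ⊆ J) (p : P → (Σ i, Fin (c i)) → ℂ) (hp : AI p) {f : ℚ}
    (h : ((TS ι c).gd m : ℚ) = pc c univ * f) :
    (finrank ℂ ((TS ι c).V m p ⊓ Dep c J : Submodule ℂ ((∀ i, Fin (c i)) → ℂ)) : ℚ) =
      pc c J * f := by
  have h1 := dep_dim hc J m hm p
  rw [ai_gd m p hp, h, pc_compl c J, mul_assoc] at h1
  exact (mul_left_cancel₀ (semi_pc_pos hc Jᶜ).ne' h1).symm

/-- Semistability at independent base positions. -/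
theorem semi_ai (T I : Finset ι) (hI : I ⊆ T) (hT : Tᶜ ≠ ∅) (κ : Finset ι → ℚ)
    (hκ : ∀ S, 0 ≤ κ S) (hF : ∀ J ⊆ I ∪ Tᶜ, 0 < FF κ J) :
    ∃ N : ℕ, 0 < N ∧ ∀ c : ι → ℕ, (∀ i, 0 < c i ∧ N ∣ c i) →
      (∃ l : ℕ, (l : ℚ) = lam c T I κ) ∧
      ∀ (P₀ P₁ : Type) [Fintype P₀] [Fintype P₁] (m₀ : P₀ → Finset ι) (m₁ : P₁ → Finset ι),
        (∀ S ⊆ I ∪ Tᶜ, S ≠ ∅ → κ S * pc c S ≤ (Nat.card {x // Sum.elim m₀ m₁ x = S} : ℚ)) →
          ∀ r : P₀ → (Σ i, Fin (c i)) → ℂ, AI r → ∀ E : Submodule ℂ ((∀ i, Fin (c i)) → ℂ),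
            (gE T m₀ r m₁ E : ℚ) ≤ lam c T I κ * finrank ℂ E := by
  obtain ⟨N, hN, h⟩ := semi T I hI hT κ hκ hF
  refine ⟨N, hN, fun c hc => ?_⟩
  obtain ⟨hl, h1⟩ := h c hc
  refine ⟨hl, fun P₀ P₁ _ _ m₀ m₁ hm r hr E => ?_⟩
  obtain ⟨y, hy⟩ := ai_ext (P₁ := P₁) r hr
  have h2 := of_gn (Pr := fun p => ∀ E : Submodule ℂ ((∀ i, Fin (c i)) → ℂ),
      (finrank ℂ (KE T (Sum.elim m₀ m₁) p E) : ℚ) ≤ lam c T I κ * finrank ℂ E) (by
    intro σ p hp E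
    have h3 := hp (sb σ.symm E)
    have h4 := KE_sb σ T (Sum.elim m₀ m₁) p (sb σ.symm E)
    rw [sb_sb] at h4
    rw [h4, finrank_sb]
    rw [finrank_sb σ.symm E] at h3
    exact h3) (h1 (P₀ ⊕ P₁) (Sum.elim m₀ m₁) hm) (Sum.elim r y) hy
  refine le_trans ?_ (h2 E)
  exact_mod_cast gE_le T m₀ r m₁ E y

/-- The dimension of the base space at independent positions. -/
theorem base_ai (I : Finset ι) (κ : Finset ι → ℚ) (hκ : ∀ S, 0 ≤ κ S)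
    (hF : ∀ J ⊆ I, 0 < FF κ J) :
    ∃ N : ℕ, 0 < N ∧ ∀ c : ι → ℕ, (∀ i, 0 < c i ∧ N ∣ c i) →
      ∀ (P₀ : Type) [Fintype P₀] (m₀ : P₀ → Finset ι), (∀ x, m₀ x ⊆ I ∧ m₀ x ≠ ∅) →
        (∀ S ⊆ I, S ≠ ∅ → (Nat.card {x // m₀ x = S} : ℚ) = κ S * pc c S) →
          ∀ r : P₀ → (Σ i, Fin (c i)) → ℂ, AI r →
            (finrank ℂ ((TS ι c).V m₀ r ⊓ Dep c I : Submodule ℂ ((∀ i, Fin (c i)) → ℂ)) : ℚ) =
              bI c I κ := by
  obtain ⟨N, hN, h⟩ := exact_le κ hκ I hF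
  refine ⟨N, hN, fun c hc P₀ _ m₀ hm hk r hr => ?_⟩
  have hc0 : ∀ i, 0 < c i := fun i => (hc i).1
  have h1 := h c hc P₀ m₀ hm fun S hS hS0 => (hk S hS hS0).le
  have h2 : FF (dn c m₀) I = FF κ I := by
    refine exd_congr fun S hS hS0 => ?_
    unfold dn
    rw [hk S hS hS0, mul_div_assoc, div_self (semi_pc_pos hc0 S).ne', mul_one]
  rw [h2] at h1
  exact dep_ai hc0 I m₀ (fun x => (hm x).1) r hr h1

/-- Exactness for the whole base space (`E` = the tensors on `I` killed by the base points). -/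
theorem full_ai (T I : Finset ι) (hI : I ⊆ T) (κ : Finset ι → ℚ) (hκ : ∀ S, 0 ≤ κ S)
    (hF : ∀ J ⊆ I ∪ Tᶜ, 0 < FF κ J) :
    ∃ N : ℕ, 0 < N ∧ ∀ c : ι → ℕ, (∀ i, 0 < c i ∧ N ∣ c i) →
      ∀ (P₀ P₁ : Type) [Fintype P₀] [Fintype P₁] (m₀ : P₀ → Finset ι) (m₁ : P₁ → Finset ι),
        (∀ x, m₀ x ⊆ I ∧ m₀ x ≠ ∅) → (∀ x, m₁ x ⊆ I ∪ Tᶜ ∧ m₁ x ≠ ∅) →
        (∀ S ⊆ I ∪ Tᶜ, S ≠ ∅ → (Nat.card {x // Sum.elim m₀ m₁ x = S} : ℚ) ≤ κ S * pc c S) →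
          ∀ r : P₀ → (Σ i, Fin (c i)) → ℂ, AI r →
            (gE T m₀ r m₁ ((TS ι c).V m₀ r ⊓ Dep c I) : ℚ) ≤
              pc c (I ∪ Tᶜ) * FF (dn c (Sum.elim m₀ m₁)) (I ∪ Tᶜ) := by
  obtain ⟨N, hN, h⟩ := exact_le κ hκ (I ∪ Tᶜ) hF
  refine ⟨N, hN, fun c hc P₀ P₁ _ _ m₀ m₁ hm₀ hm₁ hk r hr => ?_⟩
  have hc0 : ∀ i, 0 < c i := fun i => (hc i).1
  have hm : ∀ x, Sum.elim m₀ m₁ x ⊆ I ∪ Tᶜ ∧ Sum.elim m₀ m₁ x ≠ ∅ := by
    rintro (x | x)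
    · exact ⟨(hm₀ x).1.trans Finset.subset_union_left, (hm₀ x).2⟩
    · exact hm₁ x
  have h1 := h c hc (P₀ ⊕ P₁) (Sum.elim m₀ m₁) hm hk
  obtain ⟨y, hy⟩ := ai_ext (P₁ := P₁) r hr
  have h2 := dep_ai hc0 (I ∪ Tᶜ) (Sum.elim m₀ m₁) (fun x => (hm x).1) (Sum.elim r y) hy h1
  rw [← h2]
  have h3 : KE T (Sum.elim m₀ m₁) (Sum.elim r y) ((TS ι c).V m₀ r ⊓ Dep c I) ≤
      (TS ι c).V (Sum.elim m₀ m₁) (Sum.elim r y) ⊓ Dep c (I ∪ Tᶜ) := by
    intro G hG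
    rw [mem_KE] at hG
    refine Submodule.mem_inf.2 ⟨(mem_TS _ _ _).2 hG.2, ?_⟩
    intro w w' hw
    have e1 : mix T w w = w := by
      funext j
      unfold mix
      split_ifs <;> rfl
    have e2 : mix T w' w = w' := by
      funext j
      unfold mix
      split_ifs with hj
      · rfl
      · exact hw j (Finset.mem_union_right _ (Finset.mem_compl.2 hj))
    have h4 := (Submodule.mem_inf.1 (hG.1 w)).2 w w' fun i hi =>
      hw i (Finset.mem_union_left _ hi)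
    have h5 : G (mix T w w) = G (mix T w' w) := h4
    rwa [e1, e2] at h5
  have h4 := (gE_le T m₀ r m₁ ((TS ι c).V m₀ r ⊓ Dep c I) y).trans (Submodule.finrank_mono h3)
  exact_mod_cast h4

end Pool.Agent.GD.BE
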