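import Pool.Agent.GD.BE.Asm

/-!
# General d, block BETA: `TargetT BETJ`
-/

set_option autoImplicit false
set_option linter.unusedSectionVars false

namespace Pool.Agent.GD.BE

open Finset MvPolynomial Module Pool.Agent.H51.TB Topology
open Pool.Agent.GD.Top (Bl TI Gam IsB SF)

/-- The choices of the base numbers. -/
def kbx (P : Par) (χ : Finset (Fin P.J) → Bool) (K : Finset (Fin P.J)) : ℚ :=
  if K.card ≤ 1 then 0 else
    if χ K then P.xp K.card (K.map Fin.valEmbedding) else P.xm K.card (K.map Fin.valEmbedding)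

theorem eps_mono {P : Par} {E : ℝ} (h : P.Ok 1 E) : ∀ i ≤ P.J, ∀ j ≤ i,
    0 < P.eps j ∧ P.eps j ≤ P.eps i := by
  have hpos : ∀ j ≤ P.J, 0 < P.eps j := by
    intro j
    induction j with
    | zero => exact fun _ => h.eps0
    | succ j ih =>
      intro hj
      have h1 := ih (by omega)
      have h2 := h.eb j (by omega)
      have h3 := h.be j (by omega)
      linarith
  intro i
  induction i with
  | zero =>
    intro _ j hj
    have : j = 0 := by omega
    rw [this]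
    exact ⟨h.eps0, le_refl _⟩
  | succ i ih =>
    intro hi j hj
    refine ⟨hpos j (by omega), ?_⟩
    rcases Nat.lt_or_ge i j with h1 | h1
    · have : j = i + 1 := by omega
      rw [this]
    · have h2 := (ih (by omega) j h1).2
      have h3 := h.eb i (by omega)
      have h4 := h.be i (by omega)
      linarith

theorem bet_le {P : Par} {E : ℝ} (h : P.Ok 1 E) {i : ℕ} (hi : i < P.J) :
    0 < P.bet (i + 1) ∧ P.bet (i + 1) ≤ E := by
  have h1 := h.eb i hi
  have h2 := h.be i hi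
  have h3 := (eps_mono h P.J (le_refl _) i hi.le).1
  have h4 := (eps_mono h P.J (le_refl _) (i + 1) hi).2
  have h5 := h.epsJ
  constructor <;> linarith

/-- The largest element. -/
theorem exists_max {J : ℕ} {K : Finset (Fin J)} (hK : 2 ≤ K.card) :
    ∃ i < J, (K.map Fin.valEmbedding).max = (i : ℕ) := by
  have h1 : (K.map Fin.valEmbedding).Nonempty := by
    rw [Finset.map_nonempty, ← Finset.card_pos]
    omega
  obtain ⟨i, hi⟩ := Finset.max_of_nonempty h1
  refine ⟨i, ?_, hi⟩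
  have h2 := Finset.mem_of_max hi
  obtain ⟨x, _, hx⟩ := Finset.mem_map.1 h2
  rw [← hx]
  exact x.2

theorem nat_eq (P : Par) {K : Finset (Fin P.J)} :
    P.nat K.card (K.map Fin.valEmbedding) = (K.card.factorial : ℝ) * P.kap K.card := by
  unfold Par.nat
  rw [Finset.card_map, Nat.descFactorial_self, mul_comm]

theorem kbx_ok {P : Par} {E : ℝ} (h : P.Ok 1 E) {d : ℕ} {kl : ℕ → ℚ} (hE : 0 < E)
    (hkl : ∀ x, P.kap x ≠ 0 → 0 < kl x ∧ (kl x : ℝ) + d.factorial * E ≤ x.factorial * P.kap x)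
    (χ : Finset (Fin P.J) → Bool) : (∀ K, 0 ≤ kbx P χ K) ∧ (∀ K, K.card ≤ 1 → kbx P χ K = 0) ∧
      ∀ K : Finset (Fin P.J), 2 ≤ K.card →
        |(kbx P χ K : ℝ) - (K.card.factorial : ℝ) * P.kap K.card| ≤ E := by
  have main : ∀ K : Finset (Fin P.J), 2 ≤ K.card → 0 ≤ kbx P χ K ∧
      |(kbx P χ K : ℝ) - (K.card.factorial : ℝ) * P.kap K.card| ≤ E := by
    intro K hK
    obtain ⟨i, hi, hmax⟩ := exists_max hK
    have hb := bet_le h hi
    have hsub : K.map Fin.valEmbedding ⊆ range P.J := by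
      intro y hy
      obtain ⟨x, _, rfl⟩ := Finset.mem_map.1 hy
      exact mem_range.2 x.2
    have hcard : (K.map Fin.valEmbedding).card = K.card := Finset.card_map _
    unfold kbx
    rw [if_neg (by omega)]
    split_ifs with hχ
    · have h1 := h.xp K.card (K.map Fin.valEmbedding) hK hsub hcard i hmax
      rw [nat_eq] at h1
      have h2 : 0 ≤ (K.card.factorial : ℝ) * P.kap K.card :=
        mul_nonneg (Nat.cast_nonneg _) (h.nonneg _)
      constructor
      · have h3 : (0 : ℝ) ≤ P.xp K.card (K.map Fin.valEmbedding) := by linarith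
        exact_mod_cast h3
      · rw [abs_le]
        constructor <;> linarith
    · by_cases hk : P.kap K.card = 0
      · have h1 := h.xm0 K.card (K.map Fin.valEmbedding) hk
        rw [h1, hk]
        constructor
        · exact le_refl _
        · simp [hE.le]
      · have h1 := h.xm K.card (K.map Fin.valEmbedding) hK hsub hcard i hmax hk
        rw [nat_eq] at h1
        have h2 := hkl K.card hk
        have h4 : (0 : ℝ) < kl K.card := by exact_mod_cast h2.1
        have h5 : E ≤ d.factorial * E := by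
          have : (1 : ℝ) ≤ d.factorial := by exact_mod_cast Nat.factorial_pos d
          nlinarith
        constructor
        · have h3 : (0 : ℝ) ≤ P.xm K.card (K.map Fin.valEmbedding) := by linarith [h2.2]
          exact_mod_cast h3
        · rw [abs_le]
          constructor <;> linarith
  refine ⟨fun K => ?_, fun K hK => ?_, fun K hK => (main K hK).2⟩
  · by_cases hK : K.card ≤ 1
    · unfold kbx
      rw [if_pos hK]
    · exact (main K (by omega)).1
  · unfold kbx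
    rw [if_pos hK]

/-- The base numbers of a configuration. -/
theorem exists_chi {P : Par} (he : 2 ≤ P.e) (hed : P.e < P.d) {n : ℕ} (hn : 1 ≤ n)
    {ms : Multiset Kd} (hcls : Cls P P.J n ms) (hu : ms.count (P.u P.J) = 0) :
    ∃ χ, Ck P (kbx P χ) n ms := by
  classical
  have hJ : P.J < P.d := by
    unfold Par.J
    omega
  have hsd : ∀ K : Finset (Fin P.J), range P.J \ (range P.J \ K.map Fin.valEmbedding) =
      K.map Fin.valEmbedding := by
    intro K
    rw [Finset.sdiff_sdiff_eq_self]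
    intro y hy
    obtain ⟨x, _, rfl⟩ := Finset.mem_map.1 hy
    exact mem_range.2 x.2
  have hcc : ∀ K : Finset (Fin P.J), (P.cc (K.map Fin.valEmbedding) : ℚ) =
      ∏ i ∈ K, (P.c i : ℚ) := by
    intro K
    unfold Par.cc
    rw [Finset.prod_map]
    push_cast
    rfl
  refine ⟨fun K => decide ((npt ms K.card (range P.J \ K.map Fin.valEmbedding) : ℚ) =
    P.xp K.card (K.map Fin.valEmbedding) * P.cc (K.map Fin.valEmbedding)), hcls, hu,
    fun K => ?_⟩
  by_cases hK : K.card ≤ 1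
  · obtain ⟨C₀, _, hC₀⟩ := Pool.Agent.GD.VT.npt_bd P he hed (le_refl P.J) 0
    have h1 := hC₀ n hn ms hcls (by
      rw [npt_u P he hed hcls hu]
      simp) (K.map Fin.valEmbedding) (by
      intro y hy
      obtain ⟨x, _, rfl⟩ := Finset.mem_map.1 hy
      exact mem_range.2 x.2) K.card
    rw [h1.1 (Or.inr (Or.inr hK))]
    unfold kbx
    rw [if_pos hK]
    simp
  · have h1 := hcls.zero K.card (range P.J \ K.map Fin.valEmbedding) (by omega) (by
      have h2 := Finset.card_le_univ K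
      rw [Fintype.card_fin] at h2
      omega) Finset.sdiff_subset (by rw [hsd, Finset.card_map])
    rw [hsd] at h1
    unfold kbx
    rw [if_neg hK, ← hcc]
    by_cases h2 : (npt ms K.card (range P.J \ K.map Fin.valEmbedding) : ℚ) =
      P.xp K.card (K.map Fin.valEmbedding) * P.cc (K.map Fin.valEmbedding)
    · rw [if_pos (by simpa using h2)]
      exact h2
    · rw [if_neg (by simpa using h2)]
      exact h1.resolve_left h2

/-- STRICTNESS ON THE LAST LEVEL. -/
theorem targetBet : TargetT BETJ := by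
  classical
  intro d e kap hcrit
  obtain ⟨J, hJ⟩ : ∃ J, J + e = d := ⟨d - e, Nat.sub_add_cancel hcrit.lt.le⟩
  obtain ⟨E, kl, kh, hE, h0, hk0, hkl, hkh, hA⟩ := dens d e J kap hcrit hJ
  refine ⟨1, E, le_refl _, hE, ?_⟩
  intro P hd he hk hOk
  subst hd he hk
  have hJ' : J = P.J := by
    unfold Par.J
    omega
  subst hJ'
  have he2 := hcrit.two
  have hed := hcrit.lt
  have hkle : (0 : ℝ) < kl P.e := by exact_mod_cast (hkl P.e hcrit.pos.ne').1
  have hch : ∀ χ : Finset (Fin P.J) → Bool, ∃ N : ℕ, 0 < N ∧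
      ∀ (c : ℕ → ℕ) (cz : ℕ), (∀ i < P.J, 0 < c i ∧ N ∣ c i) → 0 < cz → N ∣ cz →
      ∃ (lo hi : Finset (Fin P.J) → ℕ → ℕ) (b : ℕ),
        (∀ K a, (lo K a : ℚ) = dK P.d P.e kl K a * (∏ i ∈ K, (c i : ℚ)) * (cz : ℚ) ^ a ∧
          (hi K a : ℚ) = dK P.d P.e kh K a * (∏ i ∈ K, (c i : ℚ)) * (cz : ℚ) ^ a) ∧
        (b : ℝ) = (∏ i ∈ range P.J, (c i : ℝ)) * FR (kbR (e := P.e) (kbx P χ)) (tb P.J P.e) ∧
        Gn4 (P.wc c) (kbx P χ) cz lo hi b := by
    intro χ
    obtain ⟨h1, h2, h3⟩ := kbx_ok hOk hE hkl χ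
    exact gain P.d P.e P.J he2 hJ kl kh h0 (kbx P χ) h1 (h2 ∅ (by simp)) (hA (kbx P χ) h1 h2 h3)
  choose N hN0 hN using hch
  refine ⟨∏ χ, N χ, fun _ => ⌈16 * ((P.e - 1).factorial : ℝ) * 2 ^ (P.e - 1) *
    (P.d ^ 2 * P.M : ℕ) / kl P.e⌉₊, Finset.prod_pos fun χ _ => hN0 χ, fun c hc => ?_⟩
  have hc1 : ∀ i < P.J, 0 < c i := fun i hi => (hc i hi).2.1
  have hcM : ∀ i < (P.wc c).J, 16 * (((P.wc c).e - 1).factorial : ℝ) * 2 ^ ((P.wc c).e - 1) *
      ((P.wc c).d ^ 2 * (P.wc c).M : ℕ) ≤ (kl (P.wc c).e : ℝ) * (P.wc c).c i := by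
    intro i hi
    have h1 := (Nat.le_ceil _).trans ((Nat.cast_le (α := ℝ)).2 (hc i hi).2.2)
    rw [div_le_iff₀ hkle] at h1
    refine le_trans ?_ (h1.trans (le_of_eq (mul_comm _ _)))
    exact le_refl _
  have main : ∀ χ : Finset (Fin P.J) → Bool, ∃ δ : ℝ, 0 < δ ∧ δ ≤ 1 / 2 ∧ ∃ n₀ : ℕ, ∀ n, n₀ ≤ n →
      ∀ (m : ℕ) (φ : Bl (P.wc c).c (P.wc c).J ⊕ Fin m ≃ Fin n), IsB φ (blk (P.wc c).c n) →
      ∀ ms, Ck (P.wc c) (kbx P χ) n ms →
      ∀ (κ : Type) [Fintype κ] (rest : κ → Kd), (univ : Finset κ).val.map rest = ms →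
        ∃ p₁ : κ → Fin n × Fin ((P.wc c).d + 1) → ℂ, ∀ᶠ p in 𝓝 p₁,
          ∀ F : Submodule ℂ (TI (P.wc c).c (P.wc c).J → ℂ),
          F ≠ ⊥ → (finrank ℂ F : ℤ) < (P.wc c).b n ms →
            (finrank ℂ (SF φ ((LS (P.wc c).d (P.wc c).d (blk (P.wc c).c n)
              (range (P.wc c).J)).V rest p) F) : ℝ) * (P.wc c).b n ms ≤
              (1 - δ) * finrank ℂ F * (P.wc c).v (P.wc c).J n ms := by
    intro χ
    obtain ⟨lo, hi, b, h1, h2, h3⟩ := hN χ c (∏ χ, N χ)
      (fun i hi => ⟨hc1 i hi, (Finset.dvd_prod_of_mem N (mem_univ χ)).trans (hc i hi).1⟩)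
      (Finset.prod_pos fun χ _ => hN0 χ) (Finset.dvd_prod_of_mem N (mem_univ χ))
    have hDc : Dc (P.wc c) E kl kh (kbx P χ) (∏ χ, N χ) lo hi :=
      { he := he2
        hed := hed
        hc := hc1
        hE := hE
        h0 := h0
        hk0 := hk0
        hpos := hcrit.pos
        hkl := hkl
        hkh := hkh
        heps := hOk.epsJ
        hkb0 := (kbx_ok hOk hE hkl χ).2.1 ∅ (by simp)
        hcz := Finset.prod_pos fun χ _ => hN0 χ
        hlo := fun K a => (h1 K a).1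
        hhi := fun K a => (h1 K a).2 }
    exact asm_fix (P.wc c) hDc hcM b h2 h3
  choose δ hδ0 hδ1 n₀ hn₀ using main
  obtain ⟨χ₀, hχ₀⟩ := Finite.exists_min δ
  refine ⟨δ χ₀, hδ0 χ₀, 1 + ∑ χ, n₀ χ, fun n hn m φ hφ ms hms hu κ _ rest hrest => ?_⟩
  have hn1 : 1 ≤ n := by omega
  obtain ⟨χ, hχ⟩ := exists_chi (P := P.wc c) he2 hed hn1 hms hu
  have hχ' : Ck (P.wc c) (kbx P χ) n ms := hχ
  have hle : n₀ χ ≤ n := by
    have h1 : n₀ χ ≤ ∑ χ, n₀ χ := Finset.single_le_sum (fun _ _ => Nat.zero_le _) (mem_univ χ)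
    omega
  obtain ⟨p₁, hp₁⟩ := hn₀ χ n hle m φ hφ ms hχ' κ rest hrest
  refine ⟨p₁, ?_⟩
  filter_upwards [hp₁] with p hp F hF hFb
  have h1 := hp F hF hFb
  refine h1.trans ?_
  have h2 : (0 : ℝ) ≤ (1 - δ χ) * finrank ℂ F * (P.wc c).v (P.wc c).J n ms := by
    refine le_trans ?_ h1
    have h3 : (0 : ℝ) ≤ (P.wc c).b n ms := by
      have h4 : (0 : ℤ) ≤ (P.wc c).b n ms := le_trans (Nat.cast_nonneg _) hFb.le
      exact_mod_cast h4
    positivity
  have hF0 : (0 : ℝ) ≤ finrank ℂ F := Nat.cast_nonneg _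
  have h5 : (0 : ℝ) < 1 - δ χ := by linarith [hδ1 χ]
  have h6 : (0 : ℝ) ≤ finrank ℂ F * ((P.wc c).v (P.wc c).J n ms : ℝ) := by
    rw [mul_assoc] at h2
    exact nonneg_of_mul_nonneg_right h2 h5
  rw [mul_assoc, mul_assoc]
  exact mul_le_mul_of_nonneg_right (by linarith [hχ₀ χ]) h6

end Pool.Agent.GD.BE
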