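import Pool.Agent.GD.BE.Defs

/-!
# General d, block BETA, module Cnt: increasing sequences with given residues

`cnt`: `w h x` depends only on `x % L`.  PROOF: for residues `ρ : Fin e → Fin L` the number of the
increasing `α` with `α h ≡ ρ h` is, for `q = L q'`, between `q'.choose e` and `(q' + e - 1).choose e`
(`α h = L * β h + ρ h`, `β` weakly increasing, and strictly increasing `β` always work), so it is
`q ^ e / (e! L ^ e) + O(q ^ (e - 1))`; then `∑_ρ ∏_h w h (ρ h) = ∏_h ∑_x w h x` (`Finset.prod_univ_sum`).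
-/

set_option autoImplicit false

namespace Pool.Agent.GD.BE

open Finset

private lemma card_emb (e n : ℕ) : Fintype.card (Fin e ↪o Fin n) = n.choose e := by
  rw [← Nat.card_eq_fintype_card, Nat.card_congr Set.powersetCard.ofFinEmbEquiv,
    Set.powersetCard.card, Nat.card_eq_fintype_card, Fintype.card_fin]

private lemma cnt_lower {e L q' : ℕ} (ρ : Fin e → Fin L) :
    q'.choose e ≤
      (univ.filter fun α : Fin e ↪o Fin (L * q') => ∀ h, (α h : ℕ) % L = ρ h).card := by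
  classical
  rw [← card_emb, ← Finset.card_univ]
  have hlt : ∀ (β : Fin e ↪o Fin q') (h : Fin e), L * (β h : ℕ) + (ρ h : ℕ) < L * q' := by
    intro β h
    have h1 : (β h : ℕ) + 1 ≤ q' := (β h).2
    have h2 : (ρ h : ℕ) < L := (ρ h).2
    calc L * (β h : ℕ) + (ρ h : ℕ) < L * (β h : ℕ) + L := by omega
      _ = L * ((β h : ℕ) + 1) := by ring
      _ ≤ L * q' := Nat.mul_le_mul_left _ h1
  refine Finset.card_le_card_of_injOn
    (fun β => OrderEmbedding.ofStrictMono (fun h => ⟨L * (β h : ℕ) + (ρ h : ℕ), hlt β h⟩) ?_) ?_ ?_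
  · intro h h' hh
    have h1 : (β h : ℕ) + 1 ≤ (β h' : ℕ) := β.strictMono hh
    have h2 : (ρ h : ℕ) < L := (ρ h).2
    change L * (β h : ℕ) + (ρ h : ℕ) < L * (β h' : ℕ) + (ρ h' : ℕ)
    have h3 := Nat.mul_le_mul_left L h1
    have h4 : L * ((β h : ℕ) + 1) = L * (β h : ℕ) + L := by ring
    omega
  · intro β _
    simp only [Finset.coe_filter, Finset.mem_univ, true_and, Set.mem_setOf_eq]
    intro h
    change (L * (β h : ℕ) + (ρ h : ℕ)) % L = (ρ h : ℕ)
    rw [Nat.mul_add_mod, Nat.mod_eq_of_lt (ρ h).2]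
  · intro β _ β' _ hb
    ext h
    have h1 : L * (β h : ℕ) + (ρ h : ℕ) = L * (β' h : ℕ) + (ρ h : ℕ) := by
      have h2 := congrArg (fun α : Fin e ↪o Fin (L * q') => ((α h : Fin (L * q')) : ℕ)) hb
      exact h2
    have hL : 0 < L := (Nat.zero_le _).trans_lt (ρ h).2
    exact Nat.eq_of_mul_eq_mul_left hL (by omega)

private lemma cnt_upper {e L q' : ℕ} (ρ : Fin e → Fin L) :
    (univ.filter fun α : Fin e ↪o Fin (L * q') => ∀ h, (α h : ℕ) % L = ρ h).card ≤
      (q' + e - 1).choose e := by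
  classical
  rw [← card_emb, ← Finset.card_univ]
  have hlt : ∀ (α : Fin e ↪o Fin (L * q')) (h : Fin e), (α h : ℕ) / L + (h : ℕ) < q' + e - 1 := by
    intro α h
    have h1 : (α h : ℕ) / L < q' := Nat.div_lt_of_lt_mul (α h).2
    have h2 : (h : ℕ) < e := h.2
    omega
  refine Finset.card_le_card_of_injOn
    (fun α => OrderEmbedding.ofStrictMono (fun h => ⟨(α h : ℕ) / L + (h : ℕ), hlt α h⟩) ?_) ?_ ?_
  · intro h h' hh
    have h1 : (α h : ℕ) ≤ (α h' : ℕ) := (α.strictMono hh).le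
    have h2 : (h : ℕ) < (h' : ℕ) := hh
    change (α h : ℕ) / L + (h : ℕ) < (α h' : ℕ) / L + (h' : ℕ)
    have h3 := Nat.div_le_div_right (c := L) h1
    omega
  · intro α _
    simp
  · intro α ha α' ha' hb
    simp only [Finset.coe_filter, Finset.mem_univ, true_and, Set.mem_setOf_eq] at ha ha'
    ext h
    have h1 : (α h : ℕ) / L + (h : ℕ) = (α' h : ℕ) / L + (h : ℕ) := by
      have h2 := congrArg (fun β : Fin e ↪o Fin (q' + e - 1) => ((β h : Fin (q' + e - 1)) : ℕ)) hb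
      exact h2
    have h2 : (α h : ℕ) / L = (α' h : ℕ) / L := by omega
    rw [← Nat.div_add_mod (α h : ℕ) L, ← Nat.div_add_mod (α' h : ℕ) L, h2, ha h, ha' h]

private lemma cnt_bound {e L q' : ℕ} (he : 0 < e) (hq : 1 ≤ q') (ρ : Fin e → Fin L) :
    |((univ.filter fun α : Fin e ↪o Fin (L * q') => ∀ h, (α h : ℕ) % L = ρ h).card : ℝ) -
      (q' : ℝ) ^ e / e.factorial| ≤ (e * e * e ^ (e - 1) : ℝ) * (q' : ℝ) ^ (e - 1) := by
  set N := (univ.filter fun α : Fin e ↪o Fin (L * q') => ∀ h, (α h : ℕ) % L = ρ h).card with hN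
  have hf : (1 : ℝ) ≤ (e.factorial : ℝ) := by exact_mod_cast Nat.one_le_iff_ne_zero.2 (Nat.factorial_ne_zero e)
  have hf0 : (0 : ℝ) < (e.factorial : ℝ) := lt_of_lt_of_le one_pos hf
  have he1 : (1 : ℝ) ≤ (e : ℝ) := by exact_mod_cast he
  have hq1 : (1 : ℝ) ≤ (q' : ℝ) := by exact_mod_cast hq
  have hup : (N : ℝ) ≤ ((q' + e - 1 : ℕ) : ℝ) ^ e / e.factorial := by
    refine le_trans ?_ (Nat.choose_le_pow_div (α := ℝ) e (q' + e - 1))
    exact_mod_cast cnt_upper ρ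
  have hlo : (((q' + 1 - e : ℕ) : ℝ)) ^ e / e.factorial ≤ (N : ℝ) := by
    refine le_trans (Nat.pow_le_choose (α := ℝ) e q') ?_
    exact_mod_cast cnt_lower ρ
  -- the comparison of the powers
  have key : ∀ a : ℕ, |(a : ℝ) - (q' : ℝ)| ≤ e → (a : ℝ) ≤ e * q' →
      |(a : ℝ) ^ e - (q' : ℝ) ^ e| ≤ (e * e * e ^ (e - 1) : ℝ) * (q' : ℝ) ^ (e - 1) := by
    intro a h1 h2
    refine (abs_pow_sub_pow_le (a : ℝ) (q' : ℝ) e).trans ?_
    have h3 : max |(a : ℝ)| |(q' : ℝ)| ≤ e * q' := by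
      rw [abs_of_nonneg (Nat.cast_nonneg a), abs_of_nonneg (Nat.cast_nonneg q')]
      refine max_le h2 ?_
      nlinarith
    have h4 : max |(a : ℝ)| |(q' : ℝ)| ^ (e - 1) ≤ (e * q' : ℝ) ^ (e - 1) :=
      pow_le_pow_left₀ (le_max_of_le_left (abs_nonneg _)) h3 _
    calc |(a : ℝ) - (q' : ℝ)| * e * max |(a : ℝ)| |(q' : ℝ)| ^ (e - 1)
        ≤ e * e * (e * q' : ℝ) ^ (e - 1) := by
          refine mul_le_mul (mul_le_mul_of_nonneg_right h1 (Nat.cast_nonneg e)) h4
            (pow_nonneg (le_max_of_le_left (abs_nonneg _)) _) (by positivity)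
      _ = (e * e * e ^ (e - 1) : ℝ) * (q' : ℝ) ^ (e - 1) := by
          rw [mul_pow]
          ring
  have hC : 0 ≤ (e * e * e ^ (e - 1) : ℝ) * (q' : ℝ) ^ (e - 1) := by positivity
  have hdiv : ∀ x : ℝ, |x| ≤ (e * e * e ^ (e - 1) : ℝ) * (q' : ℝ) ^ (e - 1) →
      |x / e.factorial| ≤ (e * e * e ^ (e - 1) : ℝ) * (q' : ℝ) ^ (e - 1) := by
    intro x hx
    rw [abs_div, abs_of_pos hf0, div_le_iff₀ hf0]
    nlinarith
  have hu := hdiv _ (key (q' + e - 1) (by
    have : ((q' + e - 1 : ℕ) : ℝ) = q' + e - 1 := by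
      rw [Nat.cast_sub (by omega)]
      push_cast
      ring
    rw [this, abs_le]
    constructor <;> linarith) (by
    have : ((q' + e - 1 : ℕ) : ℝ) = q' + e - 1 := by
      rw [Nat.cast_sub (by omega)]
      push_cast
      ring
    rw [this]
    nlinarith))
  have hl := hdiv _ (key (q' + 1 - e) (by
    have h1 : ((q' + 1 - e : ℕ) : ℝ) ≤ q' := by exact_mod_cast (by omega : q' + 1 - e ≤ q')
    have h2 : (q' : ℝ) ≤ ((q' + 1 - e : ℕ) : ℝ) + e := by
      exact_mod_cast (by omega : q' ≤ (q' + 1 - e) + e)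
    rw [abs_le]
    constructor <;> linarith) (by
    have h1 : ((q' + 1 - e : ℕ) : ℝ) ≤ q' := by exact_mod_cast (by omega : q' + 1 - e ≤ q')
    nlinarith))
  rw [sub_div] at hu hl
  rw [abs_le] at hu hl ⊢
  constructor <;> linarith [hu.1, hu.2, hl.1, hl.2]

theorem cnt (e L : ℕ) (he : 0 < e) (hL : 0 < L) (w : Fin e → ℕ → ℝ)
    (hw : ∀ h x, w h (x % L) = w h x) :
    ∃ C : ℝ, 0 ≤ C ∧ ∀ q : ℕ, L ∣ q → 1 ≤ q →
      |∑ α : Fin e ↪o Fin q, ∏ h, w h (α h) -
        (q : ℝ) ^ e / e.factorial * ∏ h, ((∑ x ∈ range L, w h x) / L)| ≤ C * (q : ℝ) ^ (e - 1) := by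
  classical
  refine ⟨(e * e * e ^ (e - 1) : ℝ) * ∑ ρ : Fin e → Fin L, |∏ h, w h (ρ h)|, by positivity, ?_⟩
  rintro q ⟨q', rfl⟩ hq
  have hq' : 1 ≤ q' := by
    rcases Nat.eq_zero_or_pos q' with h | h
    · rw [h] at hq
      omega
    · exact h
  have hLR : (0 : ℝ) < L := by exact_mod_cast hL
  let g : (Fin e ↪o Fin (L * q')) → (Fin e → Fin L) := fun α h => ⟨(α h : ℕ) % L, Nat.mod_lt _ hL⟩
  have hg : ∀ (α : Fin e ↪o Fin (L * q')) (ρ : Fin e → Fin L),
      g α = ρ ↔ ∀ h, (α h : ℕ) % L = ρ h := by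
    intro α ρ
    constructor
    · rintro rfl h
      rfl
    · intro h
      funext x
      exact Fin.ext (h x)
  have hS : ∑ α : Fin e ↪o Fin (L * q'), ∏ h, w h (α h) =
      ∑ ρ : Fin e → Fin L,
        ((univ.filter fun α : Fin e ↪o Fin (L * q') => ∀ h, (α h : ℕ) % L = ρ h).card : ℝ) *
          ∏ h, w h (ρ h) := by
    rw [← Finset.sum_fiberwise univ g]
    refine Finset.sum_congr rfl fun ρ _ => ?_
    have h1 : (univ.filter fun α : Fin e ↪o Fin (L * q') => g α = ρ) =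
        univ.filter fun α : Fin e ↪o Fin (L * q') => ∀ h, (α h : ℕ) % L = ρ h := by
      refine Finset.filter_congr fun α _ => hg α ρ
    rw [h1, ← nsmul_eq_mul]
    refine Finset.sum_eq_card_nsmul fun α hα => ?_
    have h2 := (Finset.mem_filter.1 hα).2
    refine Finset.prod_congr rfl fun h _ => ?_
    rw [← hw h (α h : ℕ), h2 h]
  have hM : ((L * q' : ℕ) : ℝ) ^ e / e.factorial * ∏ h, ((∑ x ∈ range L, w h x) / L) =
      ∑ ρ : Fin e → Fin L, (q' : ℝ) ^ e / e.factorial * ∏ h, w h (ρ h) := by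
    have h1 : ∏ h, ((∑ x ∈ range L, w h x) / L) = (∏ h, ∑ x : Fin L, w h x) / (L : ℝ) ^ e := by
      rw [Finset.prod_div_distrib, Finset.prod_const, Finset.card_univ, Fintype.card_fin]
      simp only [Finset.sum_range]
    rw [h1, Finset.prod_univ_sum, Fintype.piFinset_univ, ← Finset.mul_sum]
    push_cast
    rw [mul_pow]
    field_simp
  rw [hS, hM, ← Finset.sum_sub_distrib]
  refine (Finset.abs_sum_le_sum_abs _ _).trans ?_
  have hqq : (q' : ℝ) ^ (e - 1) ≤ ((L * q' : ℕ) : ℝ) ^ (e - 1) := by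
    refine pow_le_pow_left₀ (Nat.cast_nonneg q') ?_ _
    exact_mod_cast Nat.le_mul_of_pos_left q' hL
  calc ∑ ρ : Fin e → Fin L, |((univ.filter fun α : Fin e ↪o Fin (L * q') =>
          ∀ h, (α h : ℕ) % L = ρ h).card : ℝ) * ∏ h, w h (ρ h) -
          (q' : ℝ) ^ e / e.factorial * ∏ h, w h (ρ h)|
      ≤ ∑ ρ : Fin e → Fin L, (e * e * e ^ (e - 1) : ℝ) * ((L * q' : ℕ) : ℝ) ^ (e - 1) *
          |∏ h, w h (ρ h)| := by
        refine Finset.sum_le_sum fun ρ _ => ?_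
        rw [← sub_mul, abs_mul]
        refine mul_le_mul_of_nonneg_right ?_ (abs_nonneg _)
        refine (cnt_bound he hq' ρ).trans ?_
        exact mul_le_mul_of_nonneg_left hqq (by positivity)
    _ = (e * e * e ^ (e - 1) : ℝ) * (∑ ρ : Fin e → Fin L, |∏ h, w h (ρ h)|) *
          ((L * q' : ℕ) : ℝ) ^ (e - 1) := by
        rw [← Finset.mul_sum]
        ring

end Pool.Agent.GD.BE
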