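import Pool.Agent.GD.BE.Numc

/-!
# General d, block BETA, module Comp: the configuration of a component

The points on the line `x` of the slot `i₀`: those whose kind does not contain `i₀` and those with
`line i = x`; their kinds without `i₀`.
-/

set_option autoImplicit false

namespace Pool.Agent.GD.BE

open Finset

variable {ι : Type} [Fintype ι] [DecidableEq ι]

/-- The kinds of the component at the line `x`. -/
def mx (i₀ : ι) {P : Type} (m : P → Finset ι) {n : ℕ} (line : P → Fin n) (x : Fin n)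
    (i : {i : P // i₀ ∉ m i ∨ line i = x}) : Finset ι := (m i.1).erase i₀

omit [Fintype ι] in
private theorem Comp_card {P : Type} [Fintype P] {m : P → Finset ι} {n : ℕ} (line : P → Fin n)
    {x : Fin n} {i₀ : ι} {B : Finset ι} (hl : ∀ i, i₀ ∈ m i → line i = x → (m i).erase i₀ = B)
    {S : Finset ι} (hS : i₀ ∉ S) :
    Nat.card {y : {i : P // i₀ ∉ m i ∨ line i = x} // mx i₀ m line x y = S} =
      Nat.card {i // m i = S} +
        if S = B then Nat.card {i // i₀ ∈ m i ∧ line i = x} else 0 := by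
  classical
  have e1 : Nat.card {y : {i : P // i₀ ∉ m i ∨ line i = x} // mx i₀ m line x y = S} =
      Nat.card {i : P // (i₀ ∉ m i ∨ line i = x) ∧ (m i).erase i₀ = S} :=
    Nat.card_congr (Equiv.subtypeSubtypeEquivSubtypeInter _ (fun i => (m i).erase i₀ = S))
  rw [e1]
  simp only [Nat.card_eq_fintype_card, Fintype.card_subtype]
  by_cases hSB : S = B
  · rw [if_pos hSB, ← card_union_of_disjoint]
    · congr 1
      ext i
      simp only [mem_filter, mem_univ, true_and, mem_union]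
      constructor
      · rintro ⟨h1, h2⟩
        by_cases h3 : i₀ ∈ m i
        · exact Or.inr ⟨h3, h1.resolve_left (not_not.2 h3)⟩
        · rw [erase_eq_of_notMem h3] at h2
          exact Or.inl h2
      · rintro (h1 | ⟨h1, h2⟩)
        · rw [h1, erase_eq_of_notMem hS]
          exact ⟨Or.inl hS, rfl⟩
        · exact ⟨Or.inr h2, by rw [hl i h1 h2, hSB]⟩
    · rw [disjoint_left]
      intro i h1 h2
      simp only [mem_filter, mem_univ, true_and] at h1 h2
      rw [h1] at h2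
      exact hS h2.1
  · rw [if_neg hSB, add_zero]
    congr 1
    ext i
    simp only [mem_filter, mem_univ, true_and]
    constructor
    · rintro ⟨h1, h2⟩
      by_cases h3 : i₀ ∈ m i
      · exact absurd (h2.symm.trans (hl i h3 (h1.resolve_left (not_not.2 h3)))) hSB
      · rwa [erase_eq_of_notMem h3] at h2
    · intro h1
      rw [h1, erase_eq_of_notMem hS]
      exact ⟨Or.inl hS, rfl⟩

/-- The configuration of a component of type `B ≠ ∅`. -/
theorem comp_cfg {c : ι → ℕ} {T I : Finset ι} (hI : I ⊆ T) {κ : Finset ι → ℚ}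
    {P₀ P₁ : Type} [Fintype P₀] [Fintype P₁]
    {m₀ : P₀ → Finset ι} {m₁ : P₁ → Finset ι} (h : Cfg c T I κ m₀ m₁) {i₀ : ι} (hi₀ : i₀ ∈ I)
    {n : ℕ} (line₀ : P₀ → Fin n) (line₁ : P₁ → Fin n) (x : Fin n) (B : Finset ι)
    (hB : B ⊆ I.erase i₀ ∪ Tᶜ) (hB0 : B ≠ ∅)
    (hl₀ : ∀ i, i₀ ∈ m₀ i → line₀ i = x → (m₀ i).erase i₀ = B)
    (hl₁ : ∀ i, i₀ ∈ m₁ i → line₁ i = x → (m₁ i).erase i₀ = B)
    (hq : (Nat.card {i : P₀ ⊕ P₁ // i₀ ∈ Sum.elim m₀ m₁ i ∧ Sum.elim line₀ line₁ i = x} : ℚ) =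
      sg T I κ i₀ B * pc c B) :
    Cfg c T (I.erase i₀) (kC T I κ i₀ B) (mx i₀ m₀ line₀ x) (mx i₀ m₁ line₁ x) := by
  classical
  have hi₀T : i₀ ∈ T := hI hi₀
  have hsum : Nat.card {i : P₀ ⊕ P₁ // i₀ ∈ Sum.elim m₀ m₁ i ∧ Sum.elim line₀ line₁ i = x} =
      Nat.card {i : P₀ // i₀ ∈ m₀ i ∧ line₀ i = x} +
        Nat.card {i : P₁ // i₀ ∈ m₁ i ∧ line₁ i = x} := by
    rw [← Nat.card_sum]
    exact Nat.card_congr Equiv.subtypeSum
  have hk : ∀ S : Finset ι, i₀ ∉ S →
      kC T I κ i₀ B S = κ S + if S = B then sg T I κ i₀ B else 0 := by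
    intro S hS
    unfold kC modK
    beta_reduce
    rw [if_neg hS]
  have hnot : ∀ S : Finset ι, S ⊆ I.erase i₀ ∪ Tᶜ → i₀ ∉ S := by
    intro S hS h1
    rcases mem_union.1 (hS h1) with h2 | h2
    · exact notMem_erase i₀ I h2
    · exact mem_compl.1 h2 hi₀T
  refine ⟨fun i => ⟨erase_subset_erase i₀ (h.base i.1).1, ?_⟩, fun i => ⟨?_, ?_⟩,
    fun S hS hS0 => ?_, fun S hS hST => ?_⟩
  · -- the kinds of the base points are not empty
    intro h0
    change (m₀ i.1).erase i₀ = ∅ at h0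
    by_cases h1 : i₀ ∈ m₀ i.1
    · rw [hl₀ i.1 h1 (i.2.resolve_left (not_not.2 h1))] at h0
      exact hB0 h0
    · rw [erase_eq_of_notMem h1] at h0
      exact (h.base i.1).2 h0
  · intro y hy
    change y ∈ (m₁ i.1).erase i₀ at hy
    obtain ⟨h1, h2⟩ := mem_erase.1 hy
    rcases mem_union.1 ((h.add i.1).1 h2) with h3 | h3
    · exact mem_union_left _ (mem_erase.2 ⟨h1, h3⟩)
    · exact mem_union_right _ h3
  · intro h1
    apply (h.add i.1).2
    intro y hy
    by_cases h2 : y = i₀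
    · rw [h2]
      exact hi₀T
    · exact h1 (show y ∈ (m₁ i.1).erase i₀ from mem_erase.2 ⟨h2, hy⟩)
  · -- the base points
    have hSi : i₀ ∉ S := hnot S (hS.trans subset_union_left)
    rw [Comp_card line₀ hl₀ hSi, hk S hSi, Nat.cast_add,
      h.card₀ S (hS.trans (erase_subset _ _)) hS0, add_mul]
    congr 1
    by_cases hSB : S = B
    · rw [if_pos hSB, if_pos hSB, hSB, ← hq, hsum]
      have h0 : Nat.card {i : P₁ // i₀ ∈ m₁ i ∧ line₁ i = x} = 0 := by
        have : IsEmpty {i : P₁ // i₀ ∈ m₁ i ∧ line₁ i = x} := by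
          refine ⟨fun i => (h.add i.1).2 fun y hy => ?_⟩
          by_cases h2 : y = i₀
          · rw [h2]
            exact hi₀T
          · have h3 : y ∈ (m₁ i.1).erase i₀ := mem_erase.2 ⟨h2, hy⟩
            rw [hl₁ i.1 i.2.1 i.2.2, ← hSB] at h3
            exact hI (erase_subset _ _ (hS h3))
        exact Nat.card_of_isEmpty
      rw [h0, add_zero]
    · rw [if_neg hSB, if_neg hSB]
      simp
  · -- the additional points
    have hSi : i₀ ∉ S := hnot S hS
    have hS' : S ⊆ I ∪ Tᶜ := hS.trans (union_subset_union (erase_subset _ _) (Subset.refl _))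
    rw [Comp_card line₁ hl₁ hSi, hk S hSi, Nat.cast_add, h.card₁ S hS' hST, add_mul]
    congr 1
    by_cases hSB : S = B
    · rw [if_pos hSB, if_pos hSB, hSB, ← hq, hsum]
      have h0 : Nat.card {i : P₀ // i₀ ∈ m₀ i ∧ line₀ i = x} = 0 := by
        have : IsEmpty {i : P₀ // i₀ ∈ m₀ i ∧ line₀ i = x} := by
          refine ⟨fun i => hST ?_⟩
          rw [hSB, ← hl₀ i.1 i.2.1 i.2.2]
          exact (erase_subset _ _).trans ((h.base i.1).1.trans hI)
        exact Nat.card_of_isEmpty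
      rw [h0, zero_add]
    · rw [if_neg hSB, if_neg hSB]
      simp

end Pool.Agent.GD.BE
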