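import Pool.Agent.GD.BE.Rel

/-!
# General d, block BETA, module Cov: finitely many open sets of templates

`Kx_cover_fam` is `Pool.Agent.V7.BE.Kx_cover` for a finite family of matrices at the same time and for
the subspaces `E ≤ D` (the frames `Q` with `Fr.sp Q ≤ D` form a compact set).  `KE_cover`: for every `E`
and every corner `η` the good positions are general (`gn_gE`), so for every `E` there is a position
which is good for all corners; then `Kx_cover_fam`.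
-/

set_option autoImplicit false

namespace Pool.Agent.GD.BE

open Finset MvPolynomial Module Pool.Agent.H51.TB Topology Pool.Agent.V7.BE

/-- The frames of the subspaces of `D` form a compact set. -/
theorem FrD_compact {ι' : Type*} [Fintype ι'] (D : Submodule ℂ (ι' → ℂ)) (e : ℕ) :
    IsCompact {Q : Matrix ι' (Fin e) ℂ | Q ∈ Fr ι' e ∧ Fr.sp Q ≤ D} := by
  have h1 : {Q : Matrix ι' (Fin e) ℂ | Q ∈ Fr ι' e ∧ Fr.sp Q ≤ D} =
      Fr ι' e ∩ {Q | Fr.sp Q ≤ D} := rfl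
  have h2 : {Q : Matrix ι' (Fin e) ℂ | Fr.sp Q ≤ D} =
      ⋂ v : Fin e → ℂ, (fun Q : Matrix ι' (Fin e) ℂ => Q.mulVec v) ⁻¹' (D : Set (ι' → ℂ)) := by
    ext Q
    rw [Set.mem_iInter]
    constructor
    · intro h v
      exact h ⟨v, rfl⟩
    · rintro h _ ⟨v, rfl⟩
      exact h v
  rw [h1]
  refine (Fr_compact e).inter_right ?_
  rw [h2]
  refine isClosed_iInter fun v => ?_
  refine IsClosed.preimage ?_ D.closed_of_finiteDimensional
  exact continuous_id.matrix_mulVec continuous_const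

theorem Kx_cover_fam {X : Type*} [TopologicalSpace X] [Nonempty X] {H : Type*} [Finite H]
    {R : H → Type*} [∀ l, Fintype (R l)] {J U ι' : Type*} [Fintype J] [Fintype U] [Fintype ι']
    (A : ∀ l, X → Matrix (R l) J ℂ) (hA : ∀ l, Continuous (A l)) (σ : U → ι' → J)
    (b : H → ℕ → ℕ) (D : Submodule ℂ (ι' → ℂ)) (S : Set ℕ)
    (h : ∀ E ≤ D, finrank ℂ E ∈ S → ∃ x, ∀ l, finrank ℂ (Kx (A l x) σ E) ≤ b l (finrank ℂ E)) :
    ∃ r : ℕ, 0 < r ∧ ∃ W : Fin r → Set X, (∀ s, IsOpen (W s) ∧ (W s).Nonempty) ∧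
      ∀ E ≤ D, finrank ℂ E ∈ S → ∃ s, ∀ x ∈ W s, ∀ l,
        finrank ℂ (Kx (A l x) σ E) ≤ b l (finrank ℂ E) := by
  classical
  have : Fintype H := Fintype.ofFinite H
  -- one dimension
  have h1 : ∀ e : ℕ, e ∈ S → ∃ F : Set (Set X), F.Finite ∧ (∀ W ∈ F, IsOpen W ∧ W.Nonempty) ∧
      ∀ Q ∈ Fr ι' e, Fr.sp Q ≤ D → ∃ W ∈ F, ∀ x ∈ W, ∀ l,
        finrank ℂ (Kx (A l x) σ (Fr.sp Q)) ≤ b l e := by
    intro e he
    have h2 : ∀ Q : Matrix ι' (Fin e) ℂ, ∃ W : Set X, ∃ V : Set (Matrix ι' (Fin e) ℂ),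
        IsOpen W ∧ W.Nonempty ∧ (Q ∈ Fr ι' e ∧ Fr.sp Q ≤ D → V ∈ 𝓝 Q) ∧
          ∀ x ∈ W, ∀ Q' ∈ V, Q' ∈ Fr ι' e → ∀ l,
          finrank ℂ (Kx (A l x) σ (Fr.sp Q')) ≤ b l e := by
      intro Q
      by_cases hQ : Q ∈ Fr ι' e ∧ Fr.sp Q ≤ D
      · obtain ⟨x, hx⟩ := h (Fr.sp Q) hQ.2 (by rw [Fr.finrank_sp hQ.1]; exact he)
        rw [Fr.finrank_sp hQ.1] at hx
        have h3 : ∀ᶠ z : X × Matrix ι' (Fin e) ℂ in 𝓝 (x, Q), ∀ l, z.2 ∈ Fr ι' e →
            finrank ℂ (Kx (A l z.1) σ (Fr.sp z.2)) ≤ b l e :=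
          Filter.eventually_all.2 fun l => Kx_near_frame (A l) (hA l) σ (b l e) x hQ.1 (hx l)
        rw [nhds_prod_eq] at h3
        obtain ⟨pa, hpa, pb, hpb, hab⟩ := Filter.eventually_prod_iff.1 h3
        obtain ⟨W, hW1, hW2, hW3⟩ := eventually_nhds_iff.1 hpa
        refine ⟨W, {Q' | pb Q'}, hW2, ⟨x, hW3⟩, fun _ => hpb, fun y hy Q' hQ' hF l => ?_⟩
        exact hab (hW1 y hy) hQ' l hF
      · obtain ⟨x⟩ : Nonempty X := inferInstance
        exact ⟨Set.univ, ∅, isOpen_univ, ⟨x, trivial⟩, fun hQ' => absurd hQ' hQ,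
          fun _ _ Q' hQ' => absurd hQ' (Set.notMem_empty _)⟩
    choose W V hW1 hW2 hV hWV using h2
    obtain ⟨t, ht1, ht2⟩ := IsCompact.elim_nhds_subcover (X := Matrix ι' (Fin e) ℂ)
      (FrD_compact D e) V fun Q hQ => hV Q hQ
    refine ⟨W '' (t : Set (Matrix ι' (Fin e) ℂ)), t.finite_toSet.image _, ?_,
      fun Q hQ hQD => ?_⟩
    · rintro _ ⟨Q, _, rfl⟩
      exact ⟨hW1 Q, hW2 Q⟩
    · obtain ⟨Q₁, hQ₁, hQV⟩ := Set.mem_iUnion₂.1 (ht2 ⟨hQ, hQD⟩)
      exact ⟨W Q₁, ⟨Q₁, hQ₁, rfl⟩, fun x hx => hWV Q₁ x hx Q hQV hQ⟩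
  have h1' : ∀ e : ℕ, ∃ F : Set (Set X), F.Finite ∧ (∀ W ∈ F, IsOpen W ∧ W.Nonempty) ∧
      (e ∈ S → ∀ Q ∈ Fr ι' e, Fr.sp Q ≤ D → ∃ W ∈ F, ∀ x ∈ W, ∀ l,
        finrank ℂ (Kx (A l x) σ (Fr.sp Q)) ≤ b l e) := by
    intro e
    by_cases he : e ∈ S
    · obtain ⟨F, h2, h3, h4⟩ := h1 e he
      exact ⟨F, h2, h3, fun _ => h4⟩
    · exact ⟨∅, Set.finite_empty, fun W hW => absurd hW (Set.notMem_empty _), fun h => absurd h he⟩
  choose F hF1 hF2 hF3 using h1'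
  let G : Set (Set X) := insert Set.univ (⋃ e ∈ Finset.range (Fintype.card ι' + 1), F e)
  have hG : G.Finite :=
    (Set.Finite.biUnion (Finset.finite_toSet _) fun e _ => hF1 e).insert _
  have hcov : ∀ E ≤ D, finrank ℂ E ∈ S → ∃ W ∈ G, ∀ x ∈ W, ∀ l,
      finrank ℂ (Kx (A l x) σ E) ≤ b l (finrank ℂ E) := by
    intro E hE hES
    obtain ⟨Q, hQ, hQE⟩ := Fr.exists_frame E
    have h4 : finrank ℂ E ∈ Finset.range (Fintype.card ι' + 1) := by
      rw [Finset.mem_range, Nat.lt_succ_iff]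
      have := Submodule.finrank_le E
      simpa using this
    obtain ⟨W, hW, h5⟩ := hF3 _ hES Q hQ (by rw [hQE]; exact hE)
    rw [hQE] at h5
    exact ⟨W, Set.mem_insert_of_mem _ (Set.mem_iUnion₂.2 ⟨_, h4, hW⟩), h5⟩
  have hGne : G.Nonempty := ⟨Set.univ, Set.mem_insert _ _⟩
  have := hG.fintype
  have hne : Nonempty G := hGne.to_subtype
  refine ⟨Fintype.card G, Fintype.card_pos, fun s => ((Fintype.equivFin G).symm s : Set X),
    fun s => ?_, fun E hE hES => ?_⟩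
  · rcases Set.mem_insert_iff.1 ((Fintype.equivFin G).symm s).2 with h6 | h6
    · show IsOpen ((Fintype.equivFin G).symm s : Set X) ∧
        ((Fintype.equivFin G).symm s : Set X).Nonempty
      rw [h6]
      exact ⟨isOpen_univ, Set.univ_nonempty⟩
    · obtain ⟨e, _, he⟩ := Set.mem_iUnion₂.1 h6
      exact hF2 e _ he
  · obtain ⟨W, hW, h5⟩ := hcov E hE hES
    refine ⟨Fintype.equivFin G ⟨W, hW⟩, fun x hx => h5 x ?_⟩
    have h6 : (Fintype.equivFin G).symm (Fintype.equivFin G ⟨W, hW⟩) = ⟨W, hW⟩ :=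
      Equiv.symm_apply_apply _ _
    have h7 : x ∈ (((Fintype.equivFin G).symm (Fintype.equivFin G ⟨W, hW⟩) : G) : Set X) := hx
    rwa [h6] at h7

variable {ι : Type} [Fintype ι] [DecidableEq ι] {c : ι → ℕ}

/-- The matrix of the conditions of the points. -/
noncomputable def cmat {P : Type} (m : P → Finset ι) (p : P → (Σ i, Fin (c i)) → ℂ) :
    Matrix (P × ∀ i, Fin (c i)) (∀ i, Fin (c i)) ℂ := fun x e =>
  if ∀ j, j ∉ m x.1 → e j = x.2 j then ∏ j ∈ m x.1, p x.1 ⟨j, e j⟩ else 0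

theorem cmat_mulVec {P : Type} (m : P → Finset ι) (p : P → (Σ i, Fin (c i)) → ℂ)
    (G : (∀ i, Fin (c i)) → ℂ) (x : P × ∀ i, Fin (c i)) :
    (cmat m p).mulVec G x = ctr (m x.1) (p x.1) G x.2 := by
  show ∑ e, cmat m p x e * G e = _
  unfold ctr
  refine sum_congr rfl fun e _ => ?_
  show (if ∀ j, j ∉ m x.1 → e j = x.2 j then ∏ j ∈ m x.1, p x.1 ⟨j, e j⟩ else 0) * G e = _
  split_ifs
  · rfl
  · rw [zero_mul]

/-- `KE` as a space `Kx`. -/
theorem KE_eq_Kx (T : Finset ι) {P : Type} (m : P → Finset ι) (p : P → (Σ i, Fin (c i)) → ℂ)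
    (E : Submodule ℂ ((∀ i, Fin (c i)) → ℂ)) :
    KE T m p E = Kx (cmat m p) (fun u w => mix T w u) E := by
  ext G
  rw [mem_KE, mem_Kx]
  refine and_congr Iff.rfl ?_
  constructor
  · intro h
    funext x
    rw [cmat_mulVec]
    exact h x.1 x.2
  · intro h i w
    have h1 := congrFun h (i, w)
    rw [cmat_mulVec] at h1
    exact h1

theorem cmat_cont {X : Type*} [TopologicalSpace X] {P : Type} (m : P → Finset ι)
    (p : X → P → (Σ i, Fin (c i)) → ℂ) (hp : Continuous p) :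
    Continuous fun x => cmat m (p x) := by
  refine continuous_matrix fun y e => ?_
  show Continuous fun x => if ∀ j, j ∉ m y.1 → e j = y.2 j then
    ∏ j ∈ m y.1, p x y.1 ⟨j, e j⟩ else 0
  split_ifs
  · refine continuous_finset_prod _ fun j _ => ?_
    exact (continuous_apply _).comp ((continuous_apply _).comp hp)
  · exact continuous_const

/-- The additional points of a corner `η ≤ nh`. -/
abbrev PC (nh η : Finset ι → ℕ) : Type := {x : Σ S : Finset ι, Fin (nh S) // x.2.1 < η x.1}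

/-- The kinds of the additional points of a corner. -/
def mC (nh η : Finset ι → ℕ) (x : PC nh η) : Finset ι := x.1.1

theorem KE_cover (T : Finset ι) {P₀ : Type} [Fintype P₀] (m₀ : P₀ → Finset ι)
    (r : P₀ → (Σ i, Fin (c i)) → ℂ) (nh : Finset ι → ℕ) (H : Finset (Finset ι → ℕ))
    (b : (Finset ι → ℕ) → ℕ → ℕ) (D : Submodule ℂ ((∀ i, Fin (c i)) → ℂ)) (S : Set ℕ)
    (h : ∀ η ∈ H, ∀ E ≤ D, finrank ℂ E ∈ S → ∃ y : PC nh η → (Σ i, Fin (c i)) → ℂ,
      finrank ℂ (KE T (Sum.elim m₀ (mC nh η)) (Sum.elim r y) E) ≤ b η (finrank ℂ E)) :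
    ∃ s : ℕ, 0 < s ∧ ∃ W : Fin s → Set ((Σ S : Finset ι, Fin (nh S)) → (Σ i, Fin (c i)) → ℂ),
      (∀ j, IsOpen (W j) ∧ (W j).Nonempty) ∧
      ∀ E ≤ D, finrank ℂ E ∈ S → ∃ j, ∀ y ∈ W j, ∀ η ∈ H,
        finrank ℂ (KE T (Sum.elim m₀ (mC nh η)) (Sum.elim r fun x : PC nh η => y x.1) E) ≤
          b η (finrank ℂ E) := by
  classical
  obtain ⟨s, hs, W, hW, hcov⟩ := Kx_cover_fam
    (X := (Σ S : Finset ι, Fin (nh S)) → (Σ i, Fin (c i)) → ℂ) (H := {η // η ∈ H})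
    (R := fun η => (P₀ ⊕ PC nh η.1) × ∀ i, Fin (c i))
    (fun η y => cmat (Sum.elim m₀ (mC nh η.1)) (Sum.elim r fun x : PC nh η.1 => y x.1))
    (fun η => cmat_cont _ _ (by
      refine continuous_pi fun x => ?_
      rcases x with x | x
      · exact continuous_const
      · exact continuous_apply _)) (fun u w => mix T w u) (fun η => b η.1) D S (by
      intro E hE hES
      have h1 : Gn (Σ S : Finset ι, Fin (nh S)) (Σ i, Fin (c i)) fun y => ∀ η ∈ H,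
          finrank ℂ (KE T (Sum.elim m₀ (mC nh η)) (Sum.elim r fun x : PC nh η => y x.1) E) ≤
            b η (finrank ℂ E) := by
        refine Gn.all H fun η hη => ?_
        refine (Gn.comap (fun x : PC nh η => x.1) Subtype.val_injective
          (gn_gE T m₀ r (mC nh η) E)).mono fun y hy => ?_
        obtain ⟨y', hy'⟩ := h η hη E hE hES
        have h2 : finrank ℂ (KE T (Sum.elim m₀ (mC nh η))
            (Sum.elim r fun x : PC nh η => y x.1) E) = gE T m₀ r (mC nh η) E := hy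
        rw [h2]
        exact (gE_le T m₀ r (mC nh η) E y').trans hy'
      obtain ⟨y, hy⟩ := h1.exists
      refine ⟨y, fun η => ?_⟩
      rw [← KE_eq_Kx]
      exact hy η.1 η.2)
  refine ⟨s, hs, W, hW, fun E hE hES => ?_⟩
  obtain ⟨j, hj⟩ := hcov E hE hES
  refine ⟨j, fun y hy η hη => ?_⟩
  rw [KE_eq_Kx]
  exact hj y hy ⟨η, hη⟩

end Pool.Agent.GD.BE

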