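import Pool.Agent.GD.ExF
import Pool.Agent.V7.BE.Proj

/-!
# General d, block BETA (strictness of the tensor systems): definitions

All slots are the elements of `ι` (dimensions `c i`), `T : Finset ι` are the base slots, `Tᶜ` the
`e` slots of the variables `W`.  `E` is a space of tensors which depend only on the coordinates in
`I ⊆ T` (the *active* base slots).

* `mix T w u`: the coordinates of `w` on `T` and of `u` off `T`;
* `Dep c I`: the tensors which depend only on the coordinates in `I`;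
* `KE T m p E`: the tensors killed by the points all of whose slices along `T` lie in `E`;
* `Adm T I κ`: the densities `κ` are admissible for the active slots `I`; `lam c T I κ` is the number of
  further units (points of kind `Tᶜ`) for which the system becomes critical.
-/

set_option autoImplicit false

namespace Pool.Agent.GD.BE

open Finset MvPolynomial Module Pool.Agent.H51.TB

variable {ι : Type} [Fintype ι] [DecidableEq ι] {c : ι → ℕ}

/-- The coordinates of `w` on `T` and of `u` off `T`. -/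
def mix (T : Finset ι) (w u : ∀ i, Fin (c i)) : ∀ i, Fin (c i) := fun i =>
  if i ∈ T then w i else u i

/-- The tensors which depend only on the coordinates in `I`. -/
def Dep (c : ι → ℕ) (I : Finset ι) : Submodule ℂ ((∀ i, Fin (c i)) → ℂ) where
  carrier := {G | ∀ w w' : ∀ i, Fin (c i), (∀ i ∈ I, w i = w' i) → G w = G w'}
  zero_mem' := fun _ _ _ => rfl
  add_mem' := fun {a b} ha hb w w' h => by
    show a w + b w = a w' + b w'
    rw [ha w w' h, hb w w' h]
  smul_mem' := fun x a ha w w' h => by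
    show x * a w = x * a w'
    rw [ha w w' h]

/-- The tensors killed by the points all of whose slices along `T` lie in `E`. -/
noncomputable def KE (T : Finset ι) {P : Type} (m : P → Finset ι) (p : P → (Σ i, Fin (c i)) → ℂ)
    (E : Submodule ℂ ((∀ i, Fin (c i)) → ℂ)) : Submodule ℂ ((∀ i, Fin (c i)) → ℂ) :=
  (⨅ u : ∀ i, Fin (c i), E.comap (LinearMap.funLeft ℂ ℂ fun w => mix T w u)) ⊓ (TS ι c).V m p

theorem mem_KE (T : Finset ι) {P : Type} (m : P → Finset ι) (p : P → (Σ i, Fin (c i)) → ℂ)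
    (E : Submodule ℂ ((∀ i, Fin (c i)) → ℂ)) (G : (∀ i, Fin (c i)) → ℂ) :
    G ∈ KE T m p E ↔ (∀ u, (fun w => G (mix T w u)) ∈ E) ∧ ∀ i w, ctr (m i) (p i) G w = 0 := by
  unfold KE
  rw [Submodule.mem_inf, Submodule.mem_iInf, mem_TS]
  rfl

/-- The densities `κ` are admissible for the active base slots `I` (before the units). -/
structure Adm (T I : Finset ι) (κ : Finset ι → ℚ) : Prop where
  nonneg : ∀ S, 0 ≤ κ S
  pos : ∀ S ⊆ I ∪ Tᶜ, S.card = Tᶜ.card → S ≠ Tᶜ → 0 < κ S
  F : ∀ J ⊆ I ∪ Tᶜ, 0 < FF κ J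

/-- The product of the dimensions. -/
def pc (c : ι → ℕ) (S : Finset ι) : ℚ := ∏ i ∈ S, (c i : ℚ)

/-- The dimension of the base space on the active slots `I`. -/
def bI (c : ι → ℕ) (I : Finset ι) (κ : Finset ι → ℚ) : ℚ := pc c I * FF κ I

/-- The critical number of units. -/
def lam (c : ι → ℕ) (T I : Finset ι) (κ : Finset ι → ℚ) : ℚ :=
  pc c Tᶜ * (FF κ (I ∪ Tᶜ) / FF κ I)

/-- A configuration: `P₀` are base points (kinds inside `I`), `P₁` additional points (kinds which
meet `Tᶜ`), with exactly the numbers given by the densities. -/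
structure Cfg (c : ι → ℕ) (T I : Finset ι) (κ : Finset ι → ℚ) {P₀ P₁ : Type} (m₀ : P₀ → Finset ι)
    (m₁ : P₁ → Finset ι) : Prop where
  base : ∀ i, m₀ i ⊆ I ∧ m₀ i ≠ ∅
  add : ∀ i, m₁ i ⊆ I ∪ Tᶜ ∧ ¬ m₁ i ⊆ T
  card₀ : ∀ S ⊆ I, S ≠ ∅ → (Nat.card {x // m₀ x = S} : ℚ) = κ S * pc c S
  card₁ : ∀ S ⊆ I ∪ Tᶜ, ¬ S ⊆ T → (Nat.card {x // m₁ x = S} : ℚ) = κ S * pc c S

/-- Strictness for the base position `r`. -/
def Str (T I : Finset ι) (κ : Finset ι → ℚ) {P₀ P₁ : Type} (m₀ : P₀ → Finset ι)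
    (m₁ : P₁ → Finset ι) (r : P₀ → (Σ i, Fin (c i)) → ℂ) : Prop :=
  ∀ E : Submodule ℂ ((∀ i, Fin (c i)) → ℂ), E ≤ Dep c I → E ≠ ⊥ →
    (finrank ℂ E : ℚ) < bI c I κ → ∃ y : P₁ → (Σ i, Fin (c i)) → ℂ,
      (finrank ℂ (KE T (Sum.elim m₀ m₁) (Sum.elim r y) E) : ℚ) < lam c T I κ * finrank ℂ E

/-- Algebraically independent positions. -/
def AI {P X : Type} (r : P → X → ℂ) : Prop := AlgebraicIndependent ℚ fun x : P × X => r x.1 x.2

end Pool.Agent.GD.BE
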