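import Pool.Agent.GD.BE.Semi

/-!
# General d, block BETA, module Exd: exactness of all configurations below a nice one

Proof of `exact_le`: induction on `#J₀`.  (1) lower bound: adding one point of kind `S` to `m` lowers
the dimension by at most the dimension of the system on `J₀ \ S` (the contraction with the new point
maps into the tensors killed by the points of kinds inside `J₀ \ S`), which is known by induction.
(2) upper bound at the nice numbers: add `σ * c i` points of kind `{i}`, `σ = F J₀ / F (J₀ - i)`,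
`critical` (with a minimal zero set) gives dimension `0`.  So all drops are maximal.
-/

set_option autoImplicit false
set_option linter.unusedSectionVars false
set_option linter.unusedVariables false

namespace Pool.Agent.GD.BE

open Finset MvPolynomial Module Pool.Agent.H51.TB

variable {ι : Type} [Fintype ι] [DecidableEq ι]

/-- The densities of a configuration. -/
noncomputable def dn (c : ι → ℕ) {P : Type} (m : P → Finset ι) (S : Finset ι) : ℚ :=
  Nat.card {x // m x = S} / pc c S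

/-! ### Spectators -/

section dep

variable {c : ι → ℕ}

/-- The index which is `w` on `J₀` and `u` off `J₀`. -/
def exg (c : ι → ℕ) (J₀ : Finset ι) (u : ∀ i : {i // i ∉ J₀}, Fin (c i.1)) (w : ∀ i, Fin (c i)) :
    ∀ i, Fin (c i) := fun i => if h : i ∈ J₀ then w i else u ⟨i, h⟩

theorem exg_of_mem {J₀ : Finset ι} {i : ι} (h : i ∈ J₀) (u : ∀ i : {i // i ∉ J₀}, Fin (c i.1))
    (w : ∀ i, Fin (c i)) : exg c J₀ u w i = w i := dif_pos h

theorem exg_of_notMem {J₀ : Finset ι} {i : ι} (h : i ∉ J₀) (u : ∀ i : {i // i ∉ J₀}, Fin (c i.1))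
    (w : ∀ i, Fin (c i)) : exg c J₀ u w i = u ⟨i, h⟩ := dif_neg h

theorem ctr_exg (J₀ S : Finset ι) (hS : S ⊆ J₀) (y : (Σ i, Fin (c i)) → ℂ)
    (G : (∀ i, Fin (c i)) → ℂ) (u : ∀ i : {i // i ∉ J₀}, Fin (c i.1)) (w : ∀ i, Fin (c i)) :
    ctr S y (fun e => G (exg c J₀ u e)) w = ctr S y G (exg c J₀ u w) := by
  unfold ctr
  rw [← Finset.sum_filter, ← Finset.sum_filter]
  refine Finset.sum_nbij' (fun e => exg c J₀ u e) (fun e => fun i => if i ∈ S then e i else w i)
    ?_ ?_ ?_ ?_ ?_
  · intro e he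
    simp only [Finset.mem_filter, Finset.mem_univ, true_and] at he ⊢
    intro j hj
    by_cases h : j ∈ J₀
    · rw [exg_of_mem h, exg_of_mem h, he j hj]
    · rw [exg_of_notMem h, exg_of_notMem h]
  · intro e he
    simp only [Finset.mem_filter, Finset.mem_univ, true_and] at he ⊢
    intro j hj
    rw [if_neg hj]
  · intro e he
    simp only [Finset.mem_filter, Finset.mem_univ, true_and] at he
    funext j
    by_cases hj : j ∈ S
    · simp only [if_pos hj]
      exact exg_of_mem (hS hj) u e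
    · simp only [if_neg hj]
      exact (he j hj).symm
  · intro e he
    simp only [Finset.mem_filter, Finset.mem_univ, true_and] at he
    funext j
    by_cases h : j ∈ J₀
    · rw [exg_of_mem h]
      by_cases hj : j ∈ S
      · rw [if_pos hj]
      · rw [if_neg hj, he j hj, exg_of_mem h]
    · rw [exg_of_notMem h, he j fun h' => h (hS h'), exg_of_notMem h]
  · intro e _
    congr 1
    refine Finset.prod_congr rfl fun j hj => ?_
    rw [exg_of_mem (hS hj)]

/-- The tensors are families (over the indices off `J₀`) of tensors on the slots `J₀`. -/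
noncomputable def depEquiv (J₀ : Finset ι) {P : Type} (m : P → Finset ι)
    (hm : ∀ x, m x ⊆ J₀) (p : P → (Σ i, Fin (c i)) → ℂ) :
    (TS ι c).V m p ≃ₗ[ℂ] ((∀ i : {i // i ∉ J₀}, Fin (c i.1)) →
      ((TS ι c).V m p ⊓ Dep c J₀ : Submodule ℂ ((∀ i, Fin (c i)) → ℂ))) where
  toFun G := fun u => ⟨fun w => G.1 (exg c J₀ u w), by
    refine Submodule.mem_inf.2 ⟨?_, ?_⟩
    · rw [mem_TS]
      intro x w
      rw [ctr_exg J₀ (m x) (hm x)]
      exact (mem_TS m p _).1 G.2 x _
    · intro w w' h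
      refine congrArg G.1 (funext fun j => ?_)
      by_cases hj : j ∈ J₀
      · rw [exg_of_mem hj, exg_of_mem hj, h j hj]
      · rw [exg_of_notMem hj, exg_of_notMem hj]⟩
  map_add' _ _ := rfl
  map_smul' _ _ := rfl
  invFun g := ⟨fun w => (g fun i : {i // i ∉ J₀} => w i.1).1 w, by
    rw [mem_TS]
    intro x w
    have h1 : ctr (m x) (p x) (fun w => (g fun i : {i // i ∉ J₀} => w i.1).1 w) w =
        ctr (m x) (p x) (g fun i : {i // i ∉ J₀} => w i.1).1 w := by
      unfold ctr
      refine Finset.sum_congr rfl fun e _ => ?_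
      split_ifs with h
      · have h2 : (fun i : {i // i ∉ J₀} => e i.1) = fun i : {i // i ∉ J₀} => w i.1 := by
          funext i
          exact h i.1 fun h' => i.2 (hm x h')
        show _ * (g fun i : {i // i ∉ J₀} => e i.1).1 e = _
        rw [h2]
      · rfl
    rw [h1]
    exact (mem_TS m p _).1 (Submodule.mem_inf.1 (g fun i : {i // i ∉ J₀} => w i.1).2).1 x w⟩
  left_inv G := by
    refine Subtype.ext (funext fun w => ?_)
    refine congrArg G.1 (funext fun j => ?_ : exg c J₀ (fun i => w i.1) w = w)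
    by_cases hj : j ∈ J₀
    · rw [exg_of_mem hj]
    · rw [exg_of_notMem hj]
  right_inv g := by
    funext u
    refine Subtype.ext (funext fun w => ?_)
    show (g fun i : {i // i ∉ J₀} => exg c J₀ u w i.1).1 (exg c J₀ u w) = (g u).1 w
    have h1 : (fun i : {i // i ∉ J₀} => exg c J₀ u w i.1) = u := by
      funext i
      rw [exg_of_notMem i.2]
    rw [h1]
    exact (Submodule.mem_inf.1 (g u).2).2 _ _ fun i hi => exg_of_mem hi u w

/-- Spectators: if all kinds are inside `J₀`. -/
theorem dep_dim (hc : ∀ i, 0 < c i) (J₀ : Finset ι) {P : Type} (m : P → Finset ι)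
    (hm : ∀ x, m x ⊆ J₀) (p : P → (Σ i, Fin (c i)) → ℂ) :
    (finrank ℂ ((TS ι c).V m p) : ℚ) =
      pc c J₀ᶜ * finrank ℂ ((TS ι c).V m p ⊓ Dep c J₀ : Submodule ℂ ((∀ i, Fin (c i)) → ℂ)) := by
  classical
  have h1 := (depEquiv J₀ m hm p).finrank_eq
  rw [finrank_pi_fintype, Finset.sum_const, Finset.card_univ, smul_eq_mul] at h1
  rw [h1]
  push_cast
  congr 1
  rw [Fintype.card_pi]
  push_cast
  unfold pc
  simp only [Fintype.card_fin]
  exact (Finset.prod_subtype J₀ᶜ (fun x => Finset.mem_compl) fun i => (c i : ℚ)).symm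

end dep

/-! ### One more point -/

section drop

variable {c : ι → ℕ}

/-- Contractions along disjoint sets of slots. -/
theorem ctr_ctr (S A : Finset ι) (hSA : Disjoint A S) (q y : (Σ i, Fin (c i)) → ℂ)
    (F : (∀ i, Fin (c i)) → ℂ) (w : ∀ i, Fin (c i)) :
    ctr A y (ctrL S q F) w =
      ∑ f : ∀ i, Fin (c i), if ∀ j, j ∉ A ∪ S → f j = w j then
        (∏ j ∈ A, y ⟨j, f j⟩) * (∏ j ∈ S, q ⟨j, f j⟩) * F f else 0 := by
  classical
  show (∑ e : ∀ i, Fin (c i), if ∀ j, j ∉ A → e j = w j then (∏ j ∈ A, y ⟨j, e j⟩) *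
    (∑ f : ∀ i, Fin (c i), if ∀ j, j ∉ S → f j = e j then (∏ j ∈ S, q ⟨j, f j⟩) * F f else 0)
      else 0) = _
  have h1 : ∀ e : ∀ i, Fin (c i), (if ∀ j, j ∉ A → e j = w j then (∏ j ∈ A, y ⟨j, e j⟩) *
      (∑ f : ∀ i, Fin (c i), if ∀ j, j ∉ S → f j = e j then (∏ j ∈ S, q ⟨j, f j⟩) * F f else 0)
        else 0) = ∑ f : ∀ i, Fin (c i),
          if (∀ j, j ∉ A → e j = w j) ∧ ∀ j, j ∉ S → f j = e j then
            (∏ j ∈ A, y ⟨j, e j⟩) * (∏ j ∈ S, q ⟨j, f j⟩) * F f else 0 := by
    intro e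
    split_ifs with h
    · rw [Finset.mul_sum]
      refine Finset.sum_congr rfl fun f _ => ?_
      by_cases h' : ∀ j, j ∉ S → f j = e j
      · rw [if_pos h', if_pos ⟨h, h'⟩]; ring
      · rw [if_neg h', if_neg fun h'' => h' h''.2, mul_zero]
    · symm
      exact Finset.sum_eq_zero fun f _ => if_neg fun h'' => h h''.1
  rw [Finset.sum_congr rfl fun e _ => h1 e, Finset.sum_comm]
  refine Finset.sum_congr rfl fun f _ => ?_
  -- the only `e`
  let e₀ : ∀ i, Fin (c i) := fun j => if j ∈ A then f j else w j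
  rw [Finset.sum_eq_single e₀]
  · by_cases h : ∀ j, j ∉ A ∪ S → f j = w j
    · rw [if_pos h, if_pos]
      · congr 2
        refine Finset.prod_congr rfl fun j hj => ?_
        simp only [e₀, if_pos hj]
      · refine ⟨fun j hj => ?_, fun j hj => ?_⟩
        · simp only [e₀, if_neg hj]
        · by_cases hjA : j ∈ A
          · simp only [e₀, if_pos hjA]
          · simp only [e₀, if_neg hjA]
            exact h j fun h' => (Finset.mem_union.1 h').elim hjA hj
    · rw [if_neg h, if_neg]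
      rintro ⟨h1, h2⟩
      refine h fun j hj => ?_
      rw [Finset.mem_union, not_or] at hj
      rw [h2 j hj.2, h1 j hj.1]
  · intro e _ he
    refine if_neg ?_
    rintro ⟨h1, h2⟩
    refine he (funext fun j => ?_)
    by_cases hjA : j ∈ A
    · simp only [e₀, if_pos hjA]
      exact (h2 j (Finset.disjoint_left.1 hSA hjA)).symm
    · simp only [e₀, if_neg hjA]
      exact h1 j hjA
  · exact fun h => absurd (Finset.mem_univ _) h

theorem ctr_comm (S A : Finset ι) (hSA : Disjoint A S) (q y : (Σ i, Fin (c i)) → ℂ)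
    (F : (∀ i, Fin (c i)) → ℂ) (w : ∀ i, Fin (c i)) :
    ctr A y (ctrL S q F) w = ctr S q (ctrL A y F) w := by
  rw [ctr_ctr S A hSA, ctr_ctr A S hSA.symm]
  refine Finset.sum_congr rfl fun f _ => ?_
  simp only [Finset.union_comm S A]
  split_ifs
  · ring
  · rfl

theorem ctr_dep (S : Finset ι) (q : (Σ i, Fin (c i)) → ℂ) (F : (∀ i, Fin (c i)) → ℂ) :
    ctrL S q F ∈ Dep c Sᶜ := by
  intro w w' h
  show ctr S q F w = ctr S q F w'
  unfold ctr
  refine Finset.sum_congr rfl fun f _ => ?_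
  have h1 : (∀ j, j ∉ S → f j = w j) ↔ ∀ j, j ∉ S → f j = w' j :=
    forall_congr' fun j => forall_congr' fun hj => by rw [h j (Finset.mem_compl.2 hj)]
  simp only [h1]

/-- One more point of kind `S`. -/
theorem exd_drop (hc : ∀ i, 0 < c i) {P : Type} [Fintype P] (m : P → Finset ι) (S : Finset ι) :
    ((TS ι c).gd m : ℚ) ≤ (TS ι c).gd (Sum.elim m fun _ : Unit => S) +
      (TS ι c).gd (fun x : {x // Disjoint (m x) S} => m x.1) / pc c S := by
  classical
  obtain ⟨r, h1, h2⟩ := ((gn_gd (TS ι c) (Sum.elim m fun _ : Unit => S)).and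
    ((gn_gd (TS ι c) fun x : {x // Disjoint (m x) S} => m x.1).comap
      (fun x : {x // Disjoint (m x) S} => (Sum.inl x.1 : P ⊕ Unit))
      fun a b h => Subtype.ext (Sum.inl_injective h))).exists
  let p : P → (Σ i, Fin (c i)) → ℂ := fun i => r (Sum.inl i)
  let q : (Σ i, Fin (c i)) → ℂ := r (Sum.inr ())
  have hr : r = Sum.elim p fun _ : Unit => q := by
    funext x
    rcases x with x | x <;> rfl
  have h3 := gd_le (TS ι c) m p
  -- the contraction
  let D : Submodule ℂ ((∀ i, Fin (c i)) → ℂ) :=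
    (TS ι c).V (fun x : {x // Disjoint (m x) S} => m x.1) (fun x => p x.1) ⊓ Dep c Sᶜ
  let Φ : (TS ι c).V m p →ₗ[ℂ] D := ((ctrL S q).comp (Submodule.subtype _)).codRestrict D
    fun F => Submodule.mem_inf.2 ⟨by
      rw [mem_TS]
      intro x w
      show ctr (m x.1) (p x.1) (ctrL S q F.1) w = 0
      rw [ctr_comm S (m x.1) x.2]
      have h4 : ctrL (m x.1) (p x.1) F.1 = 0 := by
        funext w'
        exact (mem_TS m p _).1 F.2 x.1 w'
      rw [h4]
      unfold ctr
      refine Finset.sum_eq_zero fun e _ => ?_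
      rw [Pi.zero_apply, mul_zero, ite_self], ctr_dep S q F.1⟩
  have h5 := LinearMap.finrank_range_add_finrank_ker Φ
  have h6 : finrank ℂ (LinearMap.range Φ) ≤ finrank ℂ D := Submodule.finrank_le _
  have h7 : finrank ℂ (LinearMap.ker Φ) ≤
      finrank ℂ ((TS ι c).V (Sum.elim m fun _ : Unit => S) r) := by
    have h8 : (LinearMap.ker Φ).map (Submodule.subtype _) ≤
        (TS ι c).V (Sum.elim m fun _ : Unit => S) r := by
      rintro _ ⟨F, hF, rfl⟩
      rw [hr, mem_TS]
      rintro (i | i) w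
      · exact (mem_TS m p _).1 F.2 i w
      · have h9 : Φ F = 0 := hF
        exact congrFun (congrArg Subtype.val h9) w
    rw [← Submodule.finrank_map_subtype_eq]
    exact Submodule.finrank_mono h8
  have h8 := dep_dim hc Sᶜ (fun x : {x // Disjoint (m x) S} => m x.1) (fun x => by
    intro j hj
    exact Finset.mem_compl.2 (Finset.disjoint_left.1 x.2 hj)) (fun x => p x.1)
  rw [compl_compl] at h8
  have h9 : finrank ℂ ((TS ι c).V (fun x : {x // Disjoint (m x) S} => m x.1) fun x => p x.1) =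
      (TS ι c).gd (fun x : {x // Disjoint (m x) S} => m x.1) := h2
  rw [h9] at h8
  rw [h1] at h7
  have hpc := semi_pc_pos hc S
  rw [h8, mul_div_cancel_left₀ _ hpc.ne']
  have h10 : (TS ι c).gd m ≤ (TS ι c).gd (Sum.elim m fun _ : Unit => S) + finrank ℂ D := by
    omega
  exact_mod_cast h10

end drop

/-! ### Virtual dimensions -/

omit [Fintype ι] in
theorem exd_congr {κ κ' : Finset ι → ℚ} {J : Finset ι} (h : ∀ S ⊆ J, S ≠ ∅ → κ S = κ' S) :
    FF κ J = FF κ' J := by
  unfold FF
  refine Finset.sum_congr rfl fun P hP => Finset.prod_congr rfl fun S hS => ?_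
  rw [mem_Dj] at hP
  rw [h S (hP.1 S hS) fun h0 => hP.2.1 (h0 ▸ hS)]

theorem exd_card_elim {P Q : Type} [Finite P] [Finite Q] (m : P → Finset ι) (m' : Q → Finset ι)
    (S : Finset ι) : Nat.card {x // Sum.elim m m' x = S} =
      Nat.card {x // m x = S} + Nat.card {x // m' x = S} := by
  rw [Nat.card_congr (Equiv.subtypeSum (p := fun x => Sum.elim m m' x = S)), Nat.card_sum]
  rfl

theorem exd_card_comp {P Q : Type} (e : Q ≃ P) (m : P → Finset ι) (S : Finset ι) :
    Nat.card {x // m (e x) = S} = Nat.card {x // m x = S} :=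
  Nat.card_congr (e.subtypeEquiv fun _ => Iff.rfl)

theorem exd_dn_comp (c : ι → ℕ) {P Q : Type} (e : Q ≃ P) (m : P → Finset ι) :
    dn c (fun x => m (e x)) = dn c m := by
  funext S
  unfold dn
  rw [exd_card_comp e m S]

theorem exd_dn_add {c : ι → ℕ} {P : Type} [Finite P] (m : P → Finset ι) (S : Finset ι) (l : ℕ) :
    dn c (Sum.elim m fun _ : Fin l => S) = modK (dn c m) S (l / pc c S) := by
  funext S'
  unfold dn modK
  rw [exd_card_elim]
  by_cases h : S' = S
  · subst h
    rw [if_pos rfl]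
    have h1 : Nat.card {x : Fin l // S' = S'} = l := by
      rw [Nat.card_congr (Equiv.subtypeUnivEquiv fun _ => rfl), Nat.card_eq_fintype_card,
        Fintype.card_fin]
    rw [h1]
    push_cast
    ring
  · rw [if_neg h]
    have h1 : Nat.card {x : Fin l // S = S'} = 0 := by
      have : IsEmpty {x : Fin l // S = S'} := ⟨fun x => h x.2.symm⟩
      exact Nat.card_of_isEmpty
    rw [h1, add_zero, add_zero]

theorem exd_FF_add {c : ι → ℕ} {P : Type} [Finite P] (m : P → Finset ι) {S : Finset ι} (hS : S ≠ ∅)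
    {J₀ : Finset ι} (hSJ : S ⊆ J₀) (l : ℕ) :
    FF (dn c (Sum.elim m fun _ : Fin l => S)) J₀ =
      FF (dn c m) J₀ - l / pc c S * FF (dn c m) (J₀ \ S) := by
  have h1 := (isF_FF (dn c m)).mod hS (l / pc c S)
  rw [← exd_dn_add] at h1
  rw [(isF_FF _).unique h1]
  unfold modF
  rw [if_pos hSJ]

/-- The difference of the dimension and the virtual dimension. -/
noncomputable def exd_dl (c : ι → ℕ) (J₀ : Finset ι) {P : Type} (m : P → Finset ι) : ℚ :=
  (TS ι c).gd m - pc c univ * FF (dn c m) J₀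

theorem exd_dl_comp (c : ι → ℕ) (J₀ : Finset ι) {P Q : Type} (e : Q ≃ P) (m : P → Finset ι) :
    exd_dl c J₀ (fun x => m (e x)) = exd_dl c J₀ m := by
  unfold exd_dl
  rw [gd_comp_equiv, exd_dn_comp]

/-- Exactness for the slots `J`. -/
def Exac (c : ι → ℕ) (κ : Finset ι → ℚ) (J : Finset ι) : Prop :=
  ∀ (P : Type) [Fintype P] (m : P → Finset ι), (∀ x, m x ⊆ J ∧ m x ≠ ∅) →
    (∀ S ⊆ J, S ≠ ∅ → (Nat.card {x // m x = S} : ℚ) ≤ κ S * pc c S) →
      ((TS ι c).gd m : ℚ) = pc c univ * FF (dn c m) J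

theorem exd_dl_step {c : ι → ℕ} (hc : ∀ i, 0 < c i) {κ : Finset ι → ℚ} {J₀ : Finset ι}
    (hEx : ∀ J, J ⊂ J₀ → Exac c κ J) {P : Type} [Fintype P] (m : P → Finset ι)
    (hm : ∀ x, m x ⊆ J₀ ∧ m x ≠ ∅) (S : Finset ι) (hSJ : S ⊆ J₀) (hS : S ≠ ∅)
    (h : ∀ S' ⊆ J₀ \ S, S' ≠ ∅ → (Nat.card {x // m x = S'} : ℚ) ≤ κ S' * pc c S') :
    exd_dl c J₀ m ≤ exd_dl c J₀ (Sum.elim m fun _ : Unit => S) := by
  classical
  have hpc := semi_pc_pos hc S
  have e1 : exd_dl c J₀ (Sum.elim m fun _ : Unit => S) = exd_dl c J₀ (Sum.elim m fun _ : Fin 1 => S) := by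
    rw [← exd_dl_comp c J₀ (Equiv.sumCongr (Equiv.refl P) (Equiv.ofUnique (Fin 1) Unit))
      (Sum.elim m fun _ : Unit => S)]
    congr 1
    funext x
    rcases x with x | x <;> rfl
  have e2 : (TS ι c).gd (Sum.elim m fun _ : Unit => S) =
      (TS ι c).gd (Sum.elim m fun _ : Fin 1 => S) := by
    rw [← gd_comp_equiv (TS ι c) (Equiv.sumCongr (Equiv.refl P) (Equiv.ofUnique (Fin 1) Unit))
      (Sum.elim m fun _ : Unit => S)]
    congr 1
    funext x
    rcases x with x | x <;> rfl
  rw [e1]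
  unfold exd_dl
  rw [exd_FF_add m hS hSJ 1]
  have h1 := exd_drop hc m S
  rw [e2] at h1
  have hcard : ∀ S' ⊆ J₀ \ S,
      Nat.card {x : {x // Disjoint (m x) S} // m x.1 = S'} = Nat.card {x // m x = S'} := by
    intro S' hS'
    refine Nat.card_congr ⟨fun x => ⟨x.1.1, x.2⟩, fun x => ⟨⟨x.1, ?_⟩, x.2⟩, fun _ => rfl,
      fun _ => rfl⟩
    rw [x.2]
    exact Finset.disjoint_of_subset_left hS' Finset.sdiff_disjoint
  have h2 := hEx (J₀ \ S) (by
    refine Finset.ssubset_iff_subset_ne.2 ⟨Finset.sdiff_subset, fun h0 => ?_⟩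
    obtain ⟨j, hj⟩ := Finset.nonempty_iff_ne_empty.2 hS
    have h3 : j ∈ J₀ \ S := by rw [h0]; exact hSJ hj
    exact (Finset.mem_sdiff.1 h3).2 hj) _ (fun x : {x // Disjoint (m x) S} => m x.1)
    (fun x => ⟨fun j hj => Finset.mem_sdiff.2 ⟨(hm x.1).1 hj, Finset.disjoint_left.1 x.2 hj⟩,
      (hm x.1).2⟩) (fun S' hS' hS0 => by
      rw [hcard S' hS']
      exact h S' hS' hS0)
  have h3 : FF (dn c fun x : {x // Disjoint (m x) S} => m x.1) (J₀ \ S) =
      FF (dn c m) (J₀ \ S) := by
    refine exd_congr fun S' hS' _ => ?_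
    unfold dn
    rw [hcard S' hS']
  rw [h2, h3] at h1
  push_cast
  have h4 : pc c univ * (1 / pc c S * FF (dn c m) (J₀ \ S)) =
      pc c univ * FF (dn c m) (J₀ \ S) / pc c S := by
    field_simp
  rw [mul_sub, h4]
  linarith

theorem exd_dl_tel {c : ι → ℕ} (hc : ∀ i, 0 < c i) {κ : Finset ι → ℚ} {J₀ : Finset ι}
    (hEx : ∀ J, J ⊂ J₀ → Exac c κ J) {P : Type} [Finite P] (m : P → Finset ι)
    (hm : ∀ x, m x ⊆ J₀ ∧ m x ≠ ∅) (Q : Type) [Finite Q] :
    ∀ m' : Q → Finset ι, (∀ x, m' x ⊆ J₀ ∧ m' x ≠ ∅) →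
      (∀ x, ∀ S' ⊆ J₀ \ m' x, S' ≠ ∅ →
        (Nat.card {y // Sum.elim m m' y = S'} : ℚ) ≤ κ S' * pc c S') →
      exd_dl c J₀ m ≤ exd_dl c J₀ (Sum.elim m m') := by
  classical
  have : Fintype P := Fintype.ofFinite P
  induction Q using Finite.induction_empty_option with
  | @of_equiv α β e ih =>
    intro m' hm' h
    have e1 : (fun y => Sum.elim m m' (Equiv.sumCongr (Equiv.refl P) e y)) =
        Sum.elim m fun x => m' (e x) := by
      funext y
      rcases y with y | y <;> rfl
    rw [← exd_dl_comp c J₀ (Equiv.sumCongr (Equiv.refl P) e) (Sum.elim m m'), e1]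
    refine ih (fun x => m' (e x)) (fun x => hm' _) fun x S' hS' hS0 => ?_
    rw [← e1, exd_card_comp]
    exact h (e x) S' hS' hS0
  | h_empty =>
    intro m' _ _
    rw [← exd_dl_comp c J₀ (Equiv.sumEmpty P PEmpty).symm (Sum.elim m m')]
    exact le_of_eq rfl
  | @h_option α _ ih =>
    intro m' hm' h
    let e : (P ⊕ α) ⊕ Unit ≃ P ⊕ Option α := (Equiv.sumAssoc P α Unit).trans
      (Equiv.sumCongr (Equiv.refl P) (Equiv.optionEquivSumPUnit α).symm)
    have e1 : (fun y => Sum.elim m m' (e y)) =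
        Sum.elim (Sum.elim m fun x => m' (some x)) fun _ : Unit => m' none := by
      funext y
      rcases y with (y | y) | y <;> rfl
    have hle : ∀ S', Nat.card {y // Sum.elim m (fun x => m' (some x)) y = S'} ≤
        Nat.card {y // Sum.elim m m' y = S'} := by
      intro S'
      rw [← exd_card_comp e (Sum.elim m m') S']
      have e2 : Nat.card {y // Sum.elim m m' (e y) = S'} =
          Nat.card {y // Sum.elim (Sum.elim m fun x => m' (some x)) (fun _ : Unit => m' none) y =
            S'} := congrArg (fun f : (P ⊕ α) ⊕ Unit → Finset ι => Nat.card {y // f y = S'}) e1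
      rw [e2, exd_card_elim (Sum.elim m fun x => m' (some x))]
      exact Nat.le_add_right _ _
    refine (ih (fun x => m' (some x)) (fun x => hm' _) fun x S' hS' hS0 => ?_).trans ?_
    · refine le_trans ?_ (h (some x) S' hS' hS0)
      exact_mod_cast hle S'
    · rw [← exd_dl_comp c J₀ e (Sum.elim m m'), e1]
      refine exd_dl_step hc hEx _ ?_ _ (hm' none).1 (hm' none).2 fun S' hS' hS0 => ?_
      · rintro (x | x)
        · exact hm x
        · exact hm' _
      · refine le_trans ?_ (h none S' hS' hS0)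
        exact_mod_cast hle S'

/-! ### The theorem -/

theorem exact_le (κ : Finset ι → ℚ) (hκ : ∀ S, 0 ≤ κ S) (J₀ : Finset ι)
    (hF : ∀ J ⊆ J₀, 0 < FF κ J) : ∃ N : ℕ, 0 < N ∧ ∀ c : ι → ℕ, (∀ i, 0 < c i ∧ N ∣ c i) →
      ∀ (P : Type) [Fintype P] (m : P → Finset ι), (∀ x, m x ⊆ J₀ ∧ m x ≠ ∅) →
        (∀ S ⊆ J₀, S ≠ ∅ → (Nat.card {x // m x = S} : ℚ) ≤ κ S * pc c S) →
          ((TS ι c).gd m : ℚ) = pc c univ * FF (dn c m) J₀ := by
  classical
  induction J₀ using Finset.strongInduction with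
  | H J₀ ih =>
    rcases J₀.eq_empty_or_nonempty with rfl | ⟨i₀, hi₀⟩
    · refine ⟨1, one_pos, fun c hc P _ m hm _ => ?_⟩
      have : IsEmpty P := ⟨fun x => (hm x).2 (Finset.subset_empty.1 (hm x).1)⟩
      rw [gd_empty, (isF_FF _).empty, mul_one, Fintype.card_pi]
      unfold pc
      push_cast
      simp only [Fintype.card_fin]
    · -- the divisors
      have h1 : ∀ J : Finset ι, ∃ N : ℕ, 0 < N ∧ (J ⊂ J₀ → ∀ c : ι → ℕ, (∀ i, 0 < c i ∧ N ∣ c i) →
          Exac c κ J) := by
        intro J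
        by_cases hJ : J ⊂ J₀
        · obtain ⟨N, hN, h⟩ := ih J hJ fun K hK => hF K (hK.trans hJ.subset)
          exact ⟨N, hN, fun _ c hc P _ m hm hk => h c hc P m hm hk⟩
        · exact ⟨1, one_pos, fun h => absurd h hJ⟩
      choose Nf hNf h1 using h1
      obtain ⟨N₁, hN₁, h2⟩ := crit_add κ hκ J₀ {i₀} (Finset.singleton_subset_iff.2 hi₀)
        (Finset.singleton_ne_empty i₀) hF
      let N : ℕ := N₁ * ∏ J ∈ J₀.powerset, (Nf J * (κ J).den)
      have hdv : ∀ J ∈ J₀.powerset, Nf J * (κ J).den ∣ N := fun J hJ =>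
        (Finset.dvd_prod_of_mem (fun J => Nf J * (κ J).den) hJ).trans (Dvd.intro_left _ rfl)
      refine ⟨N, Nat.mul_pos hN₁ (Finset.prod_pos fun J _ =>
        Nat.mul_pos (hNf J) (Rat.den_pos _)), fun c hc P _ m hm hk => ?_⟩
      have hc0 : ∀ i, 0 < c i := fun i => (hc i).1
      have hEx : ∀ J, J ⊂ J₀ → Exac c κ J := fun J hJ => h1 J hJ c fun i =>
        ⟨(hc i).1, ((Dvd.intro _ rfl).trans (hdv J (Finset.mem_powerset.2 hJ.subset))).trans
          (hc i).2⟩
      obtain ⟨l, hl, h3⟩ := h2 c fun i => ⟨(hc i).1, (Dvd.intro _ rfl).trans (hc i).2⟩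
      -- the nice numbers
      have h4 : ∀ S : Finset ι, ∃ k : ℕ, S ⊆ J₀ → S ≠ ∅ → (k : ℚ) = κ S * pc c S := by
        intro S
        by_cases hS : S ⊆ J₀ ∧ S ≠ ∅
        · obtain ⟨j, hj⟩ := Finset.nonempty_iff_ne_empty.2 hS.2
          have h5 : (κ S).den ∣ ∏ i ∈ S, c i :=
            ((Dvd.intro_left _ rfl).trans ((hdv S (Finset.mem_powerset.2 hS.1)).trans
              (hc j).2)).trans (Finset.dvd_prod_of_mem _ hj)
          obtain ⟨k, hk⟩ := exists_nat_mul (hκ S) h5
          refine ⟨k, fun _ _ => ?_⟩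
          rw [hk]
          unfold pc
          push_cast
          ring
        · exact ⟨0, fun h h' => absurd ⟨h, h'⟩ hS⟩
      choose k hkk using h4
      have hle : ∀ S ⊆ J₀, S ≠ ∅ → Nat.card {x // m x = S} ≤ k S := by
        intro S hS hS0
        have := hk S hS hS0
        rw [← hkk S hS hS0] at this
        exact_mod_cast this
      -- the missing points
      let g : Finset ι → ℕ := fun S => if S ⊆ J₀ ∧ S ≠ ∅ then k S - Nat.card {x // m x = S} else 0
      let m' : (Σ S : Finset ι, Fin (g S)) → Finset ι := fun x => x.1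
      have hm' : ∀ x, m' x ⊆ J₀ ∧ m' x ≠ ∅ := by
        rintro ⟨S, a⟩
        by_contra h
        have h5 : g S = 0 := if_neg h
        exact absurd a.2 (by omega)
      have hgc : ∀ S, Nat.card {x // m' x = S} = g S := by
        intro S
        rw [Nat.card_congr (Equiv.sigmaSubtype (β := fun S => Fin (g S)) S),
          Nat.card_eq_fintype_card, Fintype.card_fin]
      have hall : ∀ S ⊆ J₀, S ≠ ∅ → (Nat.card {y // Sum.elim m m' y = S} : ℚ) =
          κ S * pc c S := by
        intro S hS hS0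
        rw [exd_card_elim, hgc, ← hkk S hS hS0]
        have h5 := hle S hS hS0
        have h6 : g S = k S - Nat.card {x // m x = S} := if_pos ⟨hS, hS0⟩
        rw [h6, Nat.add_sub_cancel' h5]
      have hmm : ∀ y, Sum.elim m m' y ⊆ J₀ ∧ Sum.elim m m' y ≠ ∅ := by
        rintro (y | y)
        · exact hm y
        · exact hm' y
      -- the inequalities
      have a1 : exd_dl c J₀ (fun x : PEmpty => (PEmpty.elim x : Finset ι)) ≤ exd_dl c J₀ m := by
        have h5 := exd_dl_tel hc0 hEx (fun x : PEmpty => (PEmpty.elim x : Finset ι))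
          (fun x => PEmpty.elim x) P m hm (fun x S' hS' hS0 => by
            rw [exd_card_elim, Nat.card_of_isEmpty (α := {x : PEmpty // _}), zero_add]
            exact hk S' (hS'.trans Finset.sdiff_subset) hS0)
        refine h5.trans (le_of_eq ?_)
        rw [← exd_dl_comp c J₀ (Equiv.emptySum PEmpty P).symm]
        rfl
      have a2 : exd_dl c J₀ m ≤ exd_dl c J₀ (Sum.elim m m') :=
        exd_dl_tel hc0 hEx m hm _ m' hm' fun x S' hS' hS0 =>
          (hall S' (hS'.trans Finset.sdiff_subset) hS0).le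
      have a3 : exd_dl c J₀ (Sum.elim m m') ≤
          exd_dl c J₀ (Sum.elim (Sum.elim m m') fun _ : Fin l => {i₀}) := by
        refine exd_dl_tel hc0 hEx _ hmm _ (fun _ : Fin l => {i₀}) (fun _ =>
          ⟨Finset.singleton_subset_iff.2 hi₀, Finset.singleton_ne_empty i₀⟩)
          fun x S' hS' hS0 => ?_
        rw [exd_card_elim (Sum.elim m m')]
        have h5 : Nat.card {x : Fin l // ({i₀} : Finset ι) = S'} = 0 := by
          have : IsEmpty {x : Fin l // ({i₀} : Finset ι) = S'} := ⟨fun x => by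
            have h6 : i₀ ∈ J₀ \ {i₀} := hS' (by rw [← x.2]; exact Finset.mem_singleton_self _)
            exact (Finset.mem_sdiff.1 h6).2 (Finset.mem_singleton_self _)⟩
          exact Nat.card_of_isEmpty
        rw [h5, add_zero]
        exact (hall S' (hS'.trans Finset.sdiff_subset) hS0).le
      have a4 : exd_dl c J₀ (Sum.elim (Sum.elim m m') fun _ : Fin l => {i₀}) = 0 := by
        unfold exd_dl
        rw [h3 _ (Sum.elim m m') fun S hS hS0 => (hall S hS hS0).ge,
          exd_FF_add _ (Finset.singleton_ne_empty i₀) (Finset.singleton_subset_iff.2 hi₀)]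
        have h5 : ∀ J ⊆ J₀, FF (dn c (Sum.elim m m')) J = FF κ J := by
          intro J hJ
          refine exd_congr fun S hS hS0 => ?_
          unfold dn
          rw [hall S (hS.trans hJ) hS0, mul_div_assoc, div_self (semi_pc_pos hc0 S).ne', mul_one]
        rw [h5 _ (subset_refl _), h5 _ Finset.sdiff_subset, hl]
        have h6 := (semi_pc_pos hc0 {i₀}).ne'
        have h7 := (hF _ (Finset.sdiff_subset : J₀ \ {i₀} ⊆ J₀)).ne'
        field_simp
        push_cast
        ring
      have a5 : exd_dl c J₀ (fun x : PEmpty => (PEmpty.elim x : Finset ι)) = 0 := by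
        unfold exd_dl
        have h5 : FF (dn c fun x : PEmpty => (PEmpty.elim x : Finset ι)) J₀ = FF (fun _ => 0) J₀ := by
          refine exd_congr fun S _ _ => ?_
          unfold dn
          rw [Nat.card_of_isEmpty]
          simp
        have h6 : FF (fun _ : Finset ι => (0 : ℚ)) J₀ = 1 := by
          have h7 : IsF (fun _ : Finset ι => (0 : ℚ)) fun _ => 1 := ⟨rfl, fun I i _ => by simp⟩
          rw [(isF_FF _).unique h7]
        rw [gd_empty, h5, h6, mul_one, Fintype.card_pi]
        unfold pc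
        push_cast
        simp only [Fintype.card_fin, sub_self]
      have a6 : exd_dl c J₀ m = 0 := by linarith
      unfold exd_dl at a6
      linarith

end Pool.Agent.GD.BE
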