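import Pool.Agent.GD.BE.Semi
import Pool.Agent.GD.BE.Aut
import Pool.Agent.GD.BE.Rel

/-!
# General d, block BETA, module SemG: semistability for general additional points over an independent
base position, for all `E` at once

PROOF: with `l = lam` units the system kills everything at independent positions (`crit` as in `semi`,
`ai_gd`); for the FIXED independent base position `r` the set of the positions `(y, u)` of the additional
points and the units with `V = ⊥` is general (a `Sys` with one constant kind as in `Rel`, or `gn_gE` for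
`E = ⊤` and the configuration with the units: `gE = 0`), so `gn_exists_right` and `semist`.
-/

set_option autoImplicit false

namespace Pool.Agent.GD.BE

open Finset MvPolynomial Module Pool.Agent.H51.TB

variable {ι : Type} [Fintype ι] [DecidableEq ι]

theorem semi_gn_ai (T I : Finset ι) (hI : I ⊆ T) (hT : Tᶜ ≠ ∅) (κ : Finset ι → ℚ)
    (hκ : ∀ S, 0 ≤ κ S) (hF : ∀ J ⊆ I ∪ Tᶜ, 0 < FF κ J) :
    ∃ N : ℕ, 0 < N ∧ ∀ c : ι → ℕ, (∀ i, 0 < c i ∧ N ∣ c i) →
      ∀ (P₀ P₁ : Type) [Fintype P₀] [Fintype P₁] (m₀ : P₀ → Finset ι) (m₁ : P₁ → Finset ι),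
        (∀ S ⊆ I ∪ Tᶜ, S ≠ ∅ → κ S * pc c S ≤ (Nat.card {x // Sum.elim m₀ m₁ x = S} : ℚ)) →
          ∀ r : P₀ → (Σ i, Fin (c i)) → ℂ, AI r →
            Gn P₁ (Σ i, Fin (c i)) fun y => ∀ E : Submodule ℂ ((∀ i, Fin (c i)) → ℂ),
              (finrank ℂ (KE T (Sum.elim m₀ m₁) (Sum.elim r y) E) : ℚ) ≤
                lam c T I κ * finrank ℂ E := by
  classical
  have e1 : (I ∪ Tᶜ) \ Tᶜ = I := by
    ext x
    rw [Finset.mem_sdiff, Finset.mem_union, Finset.mem_compl, not_not]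
    constructor
    · rintro ⟨h1 | h1, h2⟩
      · exact h1
      · exact absurd h2 h1
    · exact fun h => ⟨Or.inl h, hI h⟩
  obtain ⟨N, hN, h⟩ := crit_add κ hκ (I ∪ Tᶜ) Tᶜ Finset.subset_union_right hT hF
  refine ⟨N, hN, fun c hc P₀ P₁ _ _ m₀ m₁ hm r hr => ?_⟩
  obtain ⟨l, hl, h2⟩ := h c hc
  rw [e1] at hl
  have h3 := h2 (P₀ ⊕ P₁) (Sum.elim m₀ m₁) hm
  have hV : ∀ (y : P₁ → (Σ i, Fin (c i)) → ℂ) (q : Fin l → (Σ i, Fin (c i)) → ℂ),
      (TS ι c).V (Sum.elim (Sum.elim m₀ m₁) fun _ : Fin l => Tᶜ) (Sum.elim (Sum.elim r y) q) =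
        (TS ι c).V (Sum.elim m₀ (Sum.elim m₁ fun _ : Fin l => Tᶜ))
          (Sum.elim r (Sum.elim y q)) := by
    intro y q
    ext G
    rw [mem_TS, mem_TS]
    constructor
    · rintro h (i | i | i) w
      · exact h (Sum.inl (Sum.inl i)) w
      · exact h (Sum.inl (Sum.inr i)) w
      · exact h (Sum.inr i) w
    · rintro h ((i | i) | i) w
      · exact h (Sum.inl i) w
      · exact h (Sum.inr (Sum.inl i)) w
      · exact h (Sum.inr (Sum.inr i)) w
  have hgd : (TS ι c).gd (Sum.elim m₀ (Sum.elim m₁ fun _ : Fin l => Tᶜ)) = 0 := by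
    rw [← h3, ← gd_comp_equiv (TS ι c) (Equiv.sumAssoc P₀ P₁ (Fin l))
      (Sum.elim m₀ (Sum.elim m₁ fun _ : Fin l => Tᶜ))]
    congr 1
    funext i
    rcases i with (i | i) | i <;> rfl
  -- an independent position kills everything
  obtain ⟨y', hy', _⟩ := ai_extend (P₁ := P₁ ⊕ Fin l) r hr (Pr := fun _ => True)
    ⟨1, one_ne_zero, fun _ _ => trivial⟩
  have h4 := ai_gd (Sum.elim m₀ (Sum.elim m₁ fun _ : Fin l => Tᶜ)) (Sum.elim r y') hy'
  rw [hgd] at h4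
  have hKE : ∀ p : P₀ ⊕ (P₁ ⊕ Fin l) → (Σ i, Fin (c i)) → ℂ,
      KE T (Sum.elim m₀ (Sum.elim m₁ fun _ : Fin l => Tᶜ)) p ⊤ =
        (TS ι c).V (Sum.elim m₀ (Sum.elim m₁ fun _ : Fin l => Tᶜ)) p := by
    intro p
    rw [KE_eq]
    refine inf_eq_left.2 fun G _ => ?_
    rw [mem_VE]
    exact fun w => Submodule.mem_top
  have h5 : gE T m₀ r (Sum.elim m₁ fun _ : Fin l => Tᶜ) ⊤ = 0 := by
    have h6 := gE_le T m₀ r (Sum.elim m₁ fun _ : Fin l => Tᶜ) ⊤ y'
    rw [hKE, h4] at h6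
    exact Nat.le_zero.1 h6
  have h6 := gn_gE T m₀ r (Sum.elim m₁ fun _ : Fin l => Tᶜ) ⊤
  rw [h5] at h6
  refine (gn_exists_right h6).mono fun y hy E => ?_
  obtain ⟨q, hq⟩ := hy
  rw [hKE] at hq
  have h7 := semist (fun i => (hc i).1) (Sum.elim m₀ m₁) (Sum.elim r y) Tᶜ l q (by
    rw [hV]
    exact Submodule.finrank_eq_zero.1 hq) E
  rw [KE_eq]
  have h8 : (finrank ℂ ((TS ι c).V (Sum.elim m₀ m₁) (Sum.elim r y) ⊓ VE Tᶜ E :
      Submodule ℂ ((∀ i, Fin (c i)) → ℂ)) : ℚ) ≤ ((l * finrank ℂ E : ℕ) : ℚ) := by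
    exact_mod_cast h7
  refine h8.trans (le_of_eq ?_)
  push_cast
  rw [hl]
  rfl

end Pool.Agent.GD.BE
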