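import Pool.Agent.GD.BE.Vis

/-!
# General d, block BETA, module Two: two classes of sets of blocks

The blocks `0, …, q - 1`, `q = e * (2 * s) * q₀`, have the labels `slab` `< 2 * s` (`s * q₀` blocks with labels
`< s`, `s * q₀` blocks with labels `≥ s`, and so on).  The class of a nonempty set `B` is given by the label of
its least element.  A set of the class `false` (label `≥ s`) is not contained in a rainbow `α` with a label
`< s`.  Both classes contain a fixed part of the sets with `a < e` elements.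

PROOF of `two_cnt`: let `t = s * q₀`, `q = 2 * e * t`.  The number of `B` with least element `y` is
`f y = choose (q - 1 - y) (a - 1)`, nonincreasing in `y`; the label of `y` is `< s` iff `y / t` is even.  So the
number `N₁` for the odd `y / t` satisfies `N₀ ≥ N₁` and `2 * N₁ ≥ N₁ + (even, y ≥ 2 t) ≥ ∑ y ≥ t, f y = choose (q - t) a
≥ (1 - a t / (q - a)) * choose q a ≥ choose q a / 4` for large `q₀`.
-/

set_option autoImplicit false

namespace Pool.Agent.GD.BE

open Finset

variable {J : ℕ} {ν : Nos J}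

open Classical in
/-- The class of a set of blocks. -/
noncomputable def cls {e s q₀ : ℕ} (hs : 0 < 2 * s) (B : Finset (Fin (e * (2 * s) * q₀))) : Bool :=
  if h : B.Nonempty then
    decide ((Pool.Agent.V7.BE.slab (M := e) (q₀ := q₀) hs (B.min' h)).1 < s)
  else true

theorem cls_not_sees {e s q₀ : ℕ} (hs : 0 < 2 * s) (u : PB ν (e * (2 * s) * q₀))
    (hu : cls hs (rt u.1) = false) (j : Fin s) (f : Fin e → Fin q₀) : ¬ Sees (gb j f) u := by
  intro h
  unfold cls at hu
  by_cases hne : (rt u.1).Nonempty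
  · rw [dif_pos hne] at hu
    obtain ⟨x, hx⟩ := h _ ((rt u.1).min'_mem hne)
    rw [← hx, Pool.Agent.V7.BE.slab_blk] at hu
    exact of_decide_eq_false hu j.2
  · rw [dif_neg hne] at hu
    exact absurd hu (by decide)

section aux

variable {q : ℕ}

/-- The least element. -/
private def mn (B : Finset (Fin q)) : ℕ := if h : B.Nonempty then (B.min' h).1 else 0

private theorem mn_eq {B : Finset (Fin q)} {y : Fin q} (hy : y ∈ B) (h : ∀ z ∈ B, y ≤ z) :
    mn B = y.1 := by
  have hne : B.Nonempty := ⟨y, hy⟩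
  unfold mn
  rw [dif_pos hne]
  have h1 : B.min' hne = y := le_antisymm (B.min'_le y hy) (h _ (B.min'_mem hne))
  rw [h1]

private theorem exists_mn {B : Finset (Fin q)} (h : B.Nonempty) :
    ∃ y ∈ B, y.1 = mn B ∧ ∀ z ∈ B, y ≤ z := by
  refine ⟨B.min' h, B.min'_mem h, ?_, fun z hz => B.min'_le z hz⟩
  unfold mn
  rw [dif_pos h]

/-- The least element is moved down by `t`. -/
private def sh (t : ℕ) (B : Finset (Fin q)) : Finset (Fin q) :=
  if h : B.Nonempty then
    insert ⟨(B.min' h).1 - t, by have := (B.min' h).2; omega⟩ (B.erase (B.min' h))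
  else B

private theorem sh_spec {t : ℕ} (ht : 0 < t) {B : Finset (Fin q)} (hB : B.Nonempty)
    (hm : t ≤ mn B) : ∃ y y₀ : Fin q, y ∈ B ∧ y.1 = mn B ∧ y₀.1 = mn B - t ∧ y₀ ∉ B ∧
      sh t B = insert y₀ (B.erase y) ∧ (sh t B).card = B.card ∧ mn (sh t B) = mn B - t := by
  have h1 : (B.min' hB).1 = mn B := by
    unfold mn
    rw [dif_pos hB]
  have h2 : ∀ z ∈ B, B.min' hB ≤ z := fun z hz => B.min'_le z hz
  set y := B.min' hB with hy
  have hyB : y ∈ B := B.min'_mem hB
  have hlt : y.1 - t < q := by have := y.2; omega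
  have h3 : (⟨y.1 - t, hlt⟩ : Fin q) ∉ B := by
    intro h
    have h4 : y.1 ≤ y.1 - t := h2 _ h
    omega
  have h4 : sh t B = insert (⟨y.1 - t, hlt⟩ : Fin q) (B.erase y) := by
    unfold sh
    rw [dif_pos hB]
  have h5 : (⟨y.1 - t, hlt⟩ : Fin q) ∉ B.erase y := fun h => h3 (mem_of_mem_erase h)
  refine ⟨y, ⟨y.1 - t, hlt⟩, hyB, h1, by rw [← h1], h3, h4, ?_, ?_⟩
  · rw [h4, card_insert_of_notMem h5, card_erase_of_mem hyB]
    have := card_pos.2 hB
    omega
  · rw [h4, mn_eq (mem_insert_self _ _), ← h1]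
    intro z hz
    rcases mem_insert.1 hz with rfl | hz
    · exact le_refl _
    · have h6 : y.1 ≤ z.1 := h2 z (mem_of_mem_erase hz)
      exact Fin.le_def.2 (by change y.1 - t ≤ z.1; omega)

private theorem cnt_le {t a : ℕ} (ht : 0 < t) (ha : 1 ≤ a) (p p' : ℕ → Prop) [DecidablePred p]
    [DecidablePred p'] (h : ∀ m, p m → t ≤ m ∧ p' (m - t)) :
    ((univ : Finset (Finset (Fin q))).filter fun B => B.card = a ∧ p (mn B)).card ≤
      ((univ : Finset (Finset (Fin q))).filter fun B => B.card = a ∧ p' (mn B)).card := by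
  have hne : ∀ B : Finset (Fin q), B.card = a → B.Nonempty := fun B hB => card_pos.1 (by omega)
  refine card_le_card_of_injOn (sh t) ?_ ?_
  · intro B hB
    rw [mem_coe, mem_filter] at hB ⊢
    obtain ⟨h1, h2⟩ := h _ hB.2.2
    obtain ⟨y, y₀, -, -, -, -, -, h3, h4⟩ := sh_spec ht (hne B hB.2.1) h1
    rw [h3, h4]
    exact ⟨mem_univ _, hB.2.1, h2⟩
  · intro B hB B' hB' hs
    rw [mem_coe, mem_filter] at hB hB'
    have h1 := (h _ hB.2.2).1
    have h1' := (h _ hB'.2.2).1
    obtain ⟨y, y₀, h2, h3, h4, h5, h6, h7, h8⟩ := sh_spec ht (hne B hB.2.1) h1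
    obtain ⟨y', y₀', h2', h3', h4', h5', h6', h7', h8'⟩ := sh_spec ht (hne B' hB'.2.1) h1'
    have h9 : mn B = mn B' := by
      have h10 : mn B - t = mn B' - t := by rw [← h8, ← h8', hs]
      omega
    have h10 : y = y' := Fin.ext (by rw [h3, h3', h9])
    have h11 : y₀ = y₀' := Fin.ext (by rw [h4, h4', h9])
    subst h10
    subst h11
    have h12 : insert y₀ (B.erase y) = insert y₀ (B'.erase y) := by rw [← h6, ← h6', hs]
    have h13 : B.erase y = B'.erase y := by
      have h14 := congrArg (fun S => S.erase y₀) h12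
      simp only [erase_insert (fun h => h5 (mem_of_mem_erase h) : y₀ ∉ B.erase y),
        erase_insert (fun h => h5' (mem_of_mem_erase h) : y₀ ∉ B'.erase y)] at h14
      exact h14
    rw [← insert_erase h2, ← insert_erase h2', h13]

private theorem sub_div {t m : ℕ} (ht : 0 < t) (h : t ≤ m) : (m - t) / t + 1 = m / t := by
  obtain ⟨m', rfl⟩ := Nat.exists_eq_add_of_le h
  rw [Nat.add_sub_cancel_left, Nat.add_div_left _ ht]

private theorem le_of_odd {t m : ℕ} (h : 1 ≤ m / t) : t ≤ m := by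
  by_contra hc
  rw [Nat.div_eq_of_lt (by omega)] at h
  omega

private theorem odd_le {t a : ℕ} (ht : 0 < t) (ha : 1 ≤ a) :
    ((univ : Finset (Finset (Fin q))).filter fun B => B.card = a ∧ (mn B / t) % 2 = 1).card ≤
      ((univ : Finset (Finset (Fin q))).filter fun B => B.card = a ∧ (mn B / t) % 2 = 0).card :=
  cnt_le ht ha (fun m => (m / t) % 2 = 1) (fun m => (m / t) % 2 = 0) fun m hm => by
    change (m / t) % 2 = 1 at hm
    have h0 : 1 ≤ m / t := by
      rcases Nat.eq_zero_or_pos (m / t) with h | h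
      · rw [h] at hm
        omega
      · exact h
    have h1 : t ≤ m := le_of_odd h0
    have h2 := sub_div ht h1
    exact ⟨h1, by omega⟩

private theorem all_le {t a : ℕ} (ht : 0 < t) (ha : 1 ≤ a) (htq : t < q) :
    (q - t).choose a ≤
      2 * ((univ : Finset (Finset (Fin q))).filter fun B => B.card = a ∧ (mn B / t) % 2 = 1).card := by
  classical
  have h1 : ((univ : Finset (Finset (Fin q))).filter fun B => B.card = a ∧ (t ≤ mn B ∧ (mn B / t) % 2 = 0)).card ≤
      ((univ : Finset (Finset (Fin q))).filter fun B => B.card = a ∧ (mn B / t) % 2 = 1).card :=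
    cnt_le ht ha (fun m => t ≤ m ∧ (m / t) % 2 = 0) (fun m => (m / t) % 2 = 1) fun m hm => by
      change t ≤ m ∧ (m / t) % 2 = 0 at hm
      have h2 := sub_div ht hm.1
      exact ⟨hm.1, by omega⟩
  have h2 : powersetCard a (Ici (⟨t, htq⟩ : Fin q)) ⊆
      ((univ : Finset (Finset (Fin q))).filter fun B => B.card = a ∧ (t ≤ mn B ∧ (mn B / t) % 2 = 0)) ∪
        ((univ : Finset (Finset (Fin q))).filter fun B => B.card = a ∧ (mn B / t) % 2 = 1) := by
    intro B hB
    rw [mem_powersetCard] at hB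
    obtain ⟨y, hy, hy1, -⟩ := exists_mn (card_pos.1 (by omega : 0 < B.card))
    have h3 : t ≤ mn B := by
      rw [← hy1]
      exact Fin.le_def.1 (mem_Ici.1 (hB.1 hy))
    rw [mem_union, mem_filter, mem_filter]
    rcases Nat.mod_two_eq_zero_or_one (mn B / t) with h4 | h4
    · exact Or.inl ⟨mem_univ _, hB.2, h3, h4⟩
    · exact Or.inr ⟨mem_univ _, hB.2, h4⟩
  have h3 := (card_le_card h2).trans (card_union_le _ _)
  rw [card_powersetCard, Fin.card_Ici] at h3
  change (q - t).choose a ≤ _ at h3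
  omega

private theorem slab_iff {s q₀ y : ℕ} (hs : 0 < s) : (y / q₀) % (2 * s) < s ↔ (y / (s * q₀)) % 2 = 0 := by
  have h1 : y / (s * q₀) = y / q₀ / s := by rw [Nat.div_div_eq_div_mul, mul_comm]
  have h2 : y / q₀ / s % 2 = y / q₀ % (s * 2) / s := (Nat.mod_mul_right_div_self (y / q₀) s 2).symm
  rw [h1, h2, mul_comm 2 s, Nat.div_eq_zero_iff]
  constructor
  · exact fun h => Or.inr h
  · rintro (h | h)
    · omega
    · exact h

private theorem cls_eq {e s q₀ : ℕ} (hs : 0 < 2 * s) (B : Finset (Fin (e * (2 * s) * q₀))) :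
    cls hs B = decide ((mn B / (s * q₀)) % 2 = 0) := by
  unfold cls mn
  by_cases hne : B.Nonempty
  · rw [dif_pos hne, dif_pos hne]
    refine decide_eq_decide.2 ?_
    exact slab_iff (by omega)
  · rw [dif_neg hne, dif_neg hne, Nat.zero_div]
    rfl

private theorem num {e a t : ℕ} (ha : 1 ≤ a) (hae : a < e) (ht : 2 * a ≤ t) {N : ℕ} (hN : (2 * e * t - t).choose a ≤ 2 * N) :
    ((2 * e * t : ℕ) : ℝ) ^ a / (16 * a.factorial) ≤ N := by
  have h1 := Nat.pow_sub_le_descFactorial (2 * e * t - t) a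
  rw [Nat.descFactorial_eq_factorial_mul_choose] at h1
  have he : (2 : ℝ) ≤ e := by exact_mod_cast (by omega : 2 ≤ e)
  have haR : (a : ℝ) + 1 ≤ e := by exact_mod_cast hae
  have ha1 : (1 : ℝ) ≤ a := by exact_mod_cast ha
  have htR : 2 * (a : ℝ) ≤ t := by exact_mod_cast ht
  have h2 : t + t ≤ 2 * e * t := by nlinarith
  have h3 : ((2 * e * t - t + 1 - a : ℕ) : ℝ) = 2 * e * t - t + 1 - a := by
    rw [Nat.cast_sub (by omega), Nat.cast_add, Nat.cast_sub (by omega)]
    push_cast
    ring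
  have hf : (0 : ℝ) < a.factorial := by exact_mod_cast a.factorial_pos
  have h4 : ((2 * e * t - t + 1 - a : ℕ) : ℝ) ^ a ≤ a.factorial * (2 * N) := by
    have h5 : ((2 * e * t - t + 1 - a : ℕ) : ℝ) ^ a ≤ ((a.factorial * (2 * e * t - t).choose a : ℕ) : ℝ) := by exact_mod_cast h1
    refine h5.trans ?_
    rw [Nat.cast_mul]
    exact mul_le_mul_of_nonneg_left (by exact_mod_cast hN) hf.le
  have h5 : (2 * e * t : ℝ) * (1 + -(3 / (4 * e))) ≤ ((2 * e * t - t + 1 - a : ℕ) : ℝ) := by
    rw [h3]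
    have h6 : (2 * e * t : ℝ) * (1 + -(3 / (4 * e))) = 2 * e * t - 3 / 2 * t := by
      field_simp
      ring
    rw [h6]
    linarith
  have h6 : (1 : ℝ) / 4 ≤ (1 + -(3 / (4 * e))) ^ a := by
    have h7 : (-2 : ℝ) ≤ -(3 / (4 * e)) := by
      have h8 : 3 / (4 * (e : ℝ)) ≤ 2 := by
        rw [div_le_iff₀ (by linarith)]
        linarith
      linarith
    refine le_trans ?_ (one_add_mul_le_pow h7 a)
    have h8 : (a : ℝ) * (3 / (4 * e)) ≤ 3 / 4 := by
      rw [mul_div_assoc', div_le_div_iff₀ (by linarith) (by norm_num)]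
      linarith
    linarith
  have h0 : (0 : ℝ) ≤ 1 + -(3 / (4 * e)) := by
    have h8 : 3 / (4 * (e : ℝ)) ≤ 1 := by
      rw [div_le_iff₀ (by linarith)]
      linarith
    linarith
  have ht0 : (0 : ℝ) ≤ 2 * e * t := by positivity
  have h7 : (2 * e * t : ℝ) ^ a * (1 / 4) ≤ a.factorial * (2 * N) := by
    refine le_trans ?_ h4
    refine le_trans (mul_le_mul_of_nonneg_left h6 (pow_nonneg ht0 a)) ?_
    rw [← mul_pow]
    exact pow_le_pow_left₀ (mul_nonneg ht0 h0) h5 a
  have hNN : (0 : ℝ) ≤ N := Nat.cast_nonneg N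
  rw [div_le_iff₀ (by positivity)]
  push_cast
  nlinarith [mul_nonneg hf.le hNN]

end aux

theorem two_cnt (e a s : ℕ) (ha : 1 ≤ a) (hae : a < e) (hs : 0 < 2 * s) : ∃ q₁ : ℕ, ∀ q₀, q₁ ≤ q₀ →
    ∀ side : Bool, ((e * (2 * s) * q₀ : ℕ) : ℝ) ^ a / (16 * a.factorial) ≤
      (((univ : Finset (Finset (Fin (e * (2 * s) * q₀)))).filter fun B =>
        B.card = a ∧ cls hs B = side).card : ℝ) := by
  refine ⟨2 * a + 1, fun q₀ hq side => ?_⟩
  have hs' : 0 < s := by omega
  have ht : 2 * a ≤ s * q₀ := by nlinarith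
  have ht0 : 0 < s * q₀ := by nlinarith
  have hq2 : e * (2 * s) * q₀ = 2 * e * (s * q₀) := by ring
  have htq : s * q₀ < e * (2 * s) * q₀ := by rw [hq2]; nlinarith
  have h1 := all_le (q := e * (2 * s) * q₀) ht0 ha htq
  have h2 := odd_le (q := e * (2 * s) * q₀) ht0 ha
  have h1' : ∀ N : ℕ, (e * (2 * s) * q₀ - s * q₀).choose a ≤ 2 * N → (2 * e * (s * q₀) - s * q₀).choose a ≤ 2 * N := by
    intro N hN
    rwa [← hq2]
  have h3 : ∀ N : ℕ, (2 * e * (s * q₀) - s * q₀).choose a ≤ 2 * N →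
      ((e * (2 * s) * q₀ : ℕ) : ℝ) ^ a / (16 * a.factorial) ≤ N := by
    intro N hN
    rw [hq2]
    exact num ha hae ht hN
  cases side with
  | false =>
    have h4 : ((univ : Finset (Finset (Fin (e * (2 * s) * q₀)))).filter fun B => B.card = a ∧ cls hs B = false) =
        univ.filter fun B => B.card = a ∧ (mn B / (s * q₀)) % 2 = 1 := by
      refine filter_congr fun B _ => ?_
      rw [cls_eq, decide_eq_false_iff_not]
      have := Nat.mod_two_eq_zero_or_one (mn B / (s * q₀))
      constructor <;> rintro ⟨h5, h6⟩ <;> exact ⟨h5, by omega⟩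
    rw [h4]
    exact h3 _ (h1' _ h1)
  | true =>
    have h4 : ((univ : Finset (Finset (Fin (e * (2 * s) * q₀)))).filter fun B => B.card = a ∧ cls hs B = true) =
        univ.filter fun B => B.card = a ∧ (mn B / (s * q₀)) % 2 = 0 := by
      refine filter_congr fun B _ => ?_
      rw [cls_eq, decide_eq_true_iff]
    rw [h4]
    exact h3 _ (h1' _ (h1.trans (Nat.mul_le_mul_left 2 h2)))

/-- The numbers of the points. -/
theorem two_nb (e a s : ℕ) (ha : 1 ≤ a) (hae : a < e) (hs : 0 < 2 * s) (K : Finset (Fin J)) :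
    ∃ q₁ : ℕ, ∀ q₀, q₁ ≤ q₀ → ∀ ν : Nos J, ν.lo K a ≤ ν.hi K a → ∀ side : Bool,
      ((e * (2 * s) * q₀ : ℕ) : ℝ) ^ a / (16 * a.factorial) * ν.lo K a ≤
        (((univ : Finset (PB ν (e * (2 * s) * q₀))).filter fun u =>
          lf u.1 = K ∧ (rt u.1).card = a ∧ cls hs (rt u.1) = side).card : ℝ) := by
  classical
  obtain ⟨q₁, hq₁⟩ := two_cnt e a s ha hae hs
  refine ⟨q₁, fun q₀ hq ν hν side => ?_⟩
  have h1 := hq₁ q₀ hq side
  set F := (univ : Finset (Finset (Fin (e * (2 * s) * q₀)))).filter fun B => B.card = a ∧ cls hs B = side with hF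
  set G := (univ : Finset (Finset (Fin J ⊕ Fin (e * (2 * s) * q₀)))).filter fun S => lf S = K ∧ (rt S).card = a ∧ cls hs (rt S) = side with hG
  have h2 : ((univ : Finset (PB ν (e * (2 * s) * q₀))).filter fun u => lf u.1 = K ∧ (rt u.1).card = a ∧ cls hs (rt u.1) = side) =
      G.sigma fun _ => univ := by
    ext u
    rw [mem_filter, mem_sigma, hG, mem_filter]
    simp only [mem_univ, true_and, and_true]
  have h3 : ∀ S ∈ G, ν.lo K a ≤ nb ν S := by
    intro S hS
    rw [hG, mem_filter] at hS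
    obtain ⟨-, h4, h5, -⟩ := hS
    have h6 : (rt S).Nonempty := card_pos.1 (by omega)
    unfold nb
    rw [dif_pos h6, h4, h5]
    split_ifs
    · exact hν
    · exact le_refl _
  have hlf : ∀ B : Finset (Fin (e * (2 * s) * q₀)), lf (K.disjSum B) = K := by
    intro B
    ext x
    unfold lf
    rw [mem_filter, inl_mem_disjSum]
    simp
  have hrt : ∀ B : Finset (Fin (e * (2 * s) * q₀)), rt (K.disjSum B) = B := by
    intro B
    ext x
    unfold rt
    rw [mem_filter, inr_mem_disjSum]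
    simp
  have h4 : F.card ≤ G.card := by
    refine card_le_card_of_injOn (fun B => K.disjSum B) ?_ ?_
    · intro B hB
      rw [mem_coe, hF, mem_filter] at hB
      rw [mem_coe, hG, mem_filter, hlf, hrt]
      exact ⟨mem_univ _, rfl, hB.2⟩
    · intro B _ B' _ h
      have h5 : rt (K.disjSum B) = rt (K.disjSum B') := congrArg rt h
      rwa [hrt, hrt] at h5
  have h5 : F.card * ν.lo K a ≤ ((univ : Finset (PB ν (e * (2 * s) * q₀))).filter fun u => lf u.1 = K ∧ (rt u.1).card = a ∧ cls hs (rt u.1) = side).card := by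
    rw [h2, card_sigma]
    refine (Nat.mul_le_mul_right _ h4).trans ?_
    rw [← smul_eq_mul, ← sum_const]
    refine sum_le_sum fun S hS => ?_
    rw [card_univ, Fintype.card_fin]
    exact h3 S hS
  refine (mul_le_mul_of_nonneg_right h1 (Nat.cast_nonneg _)).trans ?_
  exact_mod_cast h5

end Pool.Agent.GD.BE
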