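import Pool.Agent.GD.BE.Cov
import Pool.Agent.V7.BE.Temp

/-!
# General d, block BETA, module Lab: many blocks of the variables `W`, labels

Slots `Fin J ⊕ Fin e` (`J` base slots of the sizes `cb 0, cb 1, …`, `e` slots of the size `cz`); the
variables `W` are `q` blocks of the size `cz`; `α : Fin e ↪o Fin q` selects `e` of them.  A kind of the
whole system is `S : Finset (Fin J ⊕ Fin q)`, `lf S`, `rt S` its parts; the number of the points of the
kind `S` is `nb ν S` (two values, chosen by the residue of the first block of `rt S`), so `α` sees the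
corner `cor ν α`.

`lab`: as `Pool.Agent.V7.BE.exists_good` (`V7/BE/Temp.lean`).  The positions of the points are a
function `vis` of parameters; for every `α` outside `Bad` a general statement about the positions seen
by `α` is general in the parameters (`hG`), and for every family of templates `ω j` there are parameters
for which every rainbow `α` with the label `j` (`Pool.Agent.V7.BE.blk`, labels in `Fin (2 * s)`, only the
labels `j < s` are used) sees `ω j` (`hT`).  PROOF: `W j` from `KE_cover`, `ω j ∈ W j`; near the parameters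
of `hT` the rainbow `α`s see a point of `W j` (`hC`), `Gn.near` gives parameters with the bound `hsem` for
all `α ∉ Bad`; for `E` with the label `j` the `q₀ ^ e` rainbow `α`s have at least one less.  `s` depends
only on `lo` and `hi` (`nhi`, `IsCor`), not on `l` and `L`.
-/

set_option autoImplicit false

namespace Pool.Agent.GD.BE

open Finset MvPolynomial Module Pool.Agent.H51.TB Topology

/-- The sizes of the slots. -/
def cd (cb : ℕ → ℕ) (cz : ℕ) {J e : ℕ} : Fin J ⊕ Fin e → ℕ := Sum.elim (fun j => cb j) fun _ => cz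

/-- The base slots. -/
def tb (J e : ℕ) : Finset (Fin J ⊕ Fin e) := univ.filter fun i => i.isLeft = true

/-- The coordinates of the points. -/
abbrev RC (cb : ℕ → ℕ) (cz J q : ℕ) : Type := (Σ j : Fin J, Fin (cb j)) ⊕ (Fin q × Fin cz)

variable {cb : ℕ → ℕ} {cz J e q : ℕ}

/-- The coordinates seen by `α`. -/
def pull (α : Fin e → Fin q) (ω : RC cb cz J q → ℂ) :
    (Σ i : Fin J ⊕ Fin e, Fin (cd cb cz i)) → ℂ
  | ⟨Sum.inl j, z⟩ => ω (Sum.inl ⟨j, z⟩)
  | ⟨Sum.inr h, z⟩ => ω (Sum.inr (α h, z))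

/-- The slots of `α`. -/
def emb (J : ℕ) (α : Fin e ↪o Fin q) : Fin J ⊕ Fin e ↪ Fin J ⊕ Fin q :=
  (Function.Embedding.refl (Fin J)).sumMap α.toEmbedding

/-- The base part of a kind. -/
def lf (S : Finset (Fin J ⊕ Fin q)) : Finset (Fin J) := univ.filter fun j => Sum.inl j ∈ S

/-- The `W`-part of a kind. -/
def rt (S : Finset (Fin J ⊕ Fin q)) : Finset (Fin q) := univ.filter fun b => Sum.inr b ∈ S

/-- The numbers: two values `lo K a ≤ hi K a` for the kinds with `lf = K`, `#rt = a`; the larger one is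
taken for `l K a` of the `L` residues. -/
structure Nos (J : ℕ) where
  lo : Finset (Fin J) → ℕ → ℕ
  hi : Finset (Fin J) → ℕ → ℕ
  l : Finset (Fin J) → ℕ → ℕ
  L : ℕ

/-- The number of the points of the kind `S`. -/
def nb (ν : Nos J) (S : Finset (Fin J ⊕ Fin q)) : ℕ :=
  if h : (rt S).Nonempty then
    (if ((rt S).min' h : ℕ) % ν.L < ν.l (lf S) (rt S).card then ν.hi (lf S) (rt S).card
      else ν.lo (lf S) (rt S).card)
  else 0

/-- The numbers seen by `α`. -/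
def cor (ν : Nos J) (α : Fin e ↪o Fin q) (S : Finset (Fin J ⊕ Fin e)) : ℕ :=
  nb ν (S.map (emb J α))

/-- The largest numbers. -/
def nhi (ν : Nos J) (S : Finset (Fin J ⊕ Fin e)) : ℕ :=
  if (rt S).Nonempty then ν.hi (lf S) (rt S).card else 0

/-- The corners. -/
def IsCor (ν : Nos J) (η : Finset (Fin J ⊕ Fin e) → ℕ) : Prop :=
  ∀ S, if (rt S).Nonempty then η S = ν.lo (lf S) (rt S).card ∨ η S = ν.hi (lf S) (rt S).card
    else η S = 0

private theorem lf_map (α : Fin e ↪o Fin q) (S : Finset (Fin J ⊕ Fin e)) :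
    lf (S.map (emb J α)) = lf S := by
  ext j
  unfold lf
  rw [mem_filter, mem_filter]
  refine and_congr Iff.rfl ?_
  rw [mem_map]
  constructor
  · rintro ⟨x, hx, hxj⟩
    rcases x with x | x
    · have h1 : x = j := Sum.inl_injective hxj
      rwa [h1] at hx
    · exact absurd hxj (by simp [emb])
  · intro h
    exact ⟨Sum.inl j, h, rfl⟩

private theorem rt_map (α : Fin e ↪o Fin q) (S : Finset (Fin J ⊕ Fin e)) :
    rt (S.map (emb J α)) = (rt S).map α.toEmbedding := by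
  ext b
  unfold rt
  rw [mem_filter, mem_map, mem_map]
  constructor
  · rintro ⟨_, x, hx, hxb⟩
    rcases x with x | x
    · exact absurd hxb (by simp [emb])
    · exact ⟨x, mem_filter.2 ⟨mem_univ _, hx⟩, Sum.inr_injective hxb⟩
  · rintro ⟨x, hx, hxb⟩
    refine ⟨mem_univ _, Sum.inr x, (mem_filter.1 hx).2, ?_⟩
    rw [← hxb]
    rfl

theorem isCor_cor (ν : Nos J) (α : Fin e ↪o Fin q) : IsCor ν (cor ν α) := by
  intro S
  unfold cor nb
  rw [lf_map, rt_map]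
  by_cases h : (rt S).Nonempty
  · have h1 : ((rt S).map α.toEmbedding).Nonempty := h.map
    rw [if_pos h, dif_pos h1, card_map]
    split_ifs
    · exact Or.inr rfl
    · exact Or.inl rfl
  · have h1 : ¬ ((rt S).map α.toEmbedding).Nonempty := fun h1 => h (map_nonempty.1 h1)
    rw [if_neg h, dif_neg h1]

/-- The additional points of the whole system. -/
abbrev PB (ν : Nos J) (q : ℕ) : Type := Σ S : Finset (Fin J ⊕ Fin q), Fin (nb ν S)

/-- The positions seen by `α`. -/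
def pos (ν : Nos J) (α : Fin e ↪o Fin q) (Ω : PB ν q → RC cb cz J q → ℂ) :
    PC (nhi ν) (cor ν α) → (Σ i : Fin J ⊕ Fin e, Fin (cd cb cz i)) → ℂ :=
  fun x => pull α (Ω ⟨x.1.1.map (emb J α), ⟨x.1.2.1, x.2⟩⟩)

theorem nhi_congr {ν ν₀ : Nos J} (h : ν.hi = ν₀.hi) : (nhi ν₀ : Finset (Fin J ⊕ Fin e) → ℕ) = nhi ν := by
  funext S
  unfold nhi
  rw [h]

theorem IsCor_congr {ν ν₀ : Nos J} (h : ν.lo = ν₀.lo) (h' : ν.hi = ν₀.hi) :
    (IsCor ν₀ : (Finset (Fin J ⊕ Fin e) → ℕ) → Prop) = IsCor ν := by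
  funext η
  unfold IsCor
  rw [h, h']

open Classical in
/-- The finite set of the corners. -/
noncomputable def corH (J e : ℕ) (ν : Nos J) : Finset (Finset (Fin J ⊕ Fin e) → ℕ) :=
  Fintype.piFinset fun S => if (rt S).Nonempty then
    {ν.lo (lf S) (rt S).card, ν.hi (lf S) (rt S).card} else {0}

theorem mem_corH (ν : Nos J) (η : Finset (Fin J ⊕ Fin e) → ℕ) : η ∈ corH J e ν ↔ IsCor ν η := by
  unfold corH IsCor
  rw [Fintype.mem_piFinset]
  refine forall_congr' fun S => ?_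
  by_cases h : (rt S).Nonempty
  · rw [if_pos h, if_pos h, mem_insert, mem_singleton]
  · rw [if_neg h, if_neg h, mem_singleton]

/-- The positions seen by `α`, completed by `ω`. -/
noncomputable def lext (ν : Nos J) (α : Fin e ↪o Fin q) (Ω : PB ν q → RC cb cz J q → ℂ)
    (ω : (Σ S : Finset (Fin J ⊕ Fin e), Fin (nhi ν S)) → (Σ i : Fin J ⊕ Fin e, Fin (cd cb cz i)) → ℂ) :
    (Σ S : Finset (Fin J ⊕ Fin e), Fin (nhi ν S)) → (Σ i : Fin J ⊕ Fin e, Fin (cd cb cz i)) → ℂ :=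
  fun x => if h : x.2.1 < cor ν α x.1 then pos ν α Ω ⟨x, h⟩ else ω x

theorem lext_val (ν : Nos J) (α : Fin e ↪o Fin q) (Ω : PB ν q → RC cb cz J q → ℂ)
    (ω : (Σ S : Finset (Fin J ⊕ Fin e), Fin (nhi ν S)) → (Σ i : Fin J ⊕ Fin e, Fin (cd cb cz i)) → ℂ)
    (x : PC (nhi ν) (cor ν α)) : lext ν α Ω ω x.1 = pos ν α Ω x := by
  unfold lext
  rw [dif_pos x.2]

theorem pull_cont {X : Type*} [TopologicalSpace X] (α : Fin e → Fin q)
    (f : X → RC cb cz J q → ℂ) (hf : Continuous f) :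
    Continuous fun x => pull (cb := cb) (cz := cz) (J := J) α (f x) := by
  refine continuous_pi fun y => ?_
  obtain ⟨i, z⟩ := y
  rcases i with j | h
  · exact (continuous_apply (Sum.inl ⟨j, z⟩ : RC cb cz J q)).comp hf
  · exact (continuous_apply (Sum.inr (α h, z) : RC cb cz J q)).comp hf

theorem lext_cont {X : Type*} [TopologicalSpace X] (ν : Nos J) (α : Fin e ↪o Fin q)
    (vis : X → PB ν q → RC cb cz J q → ℂ) (hvis : Continuous vis)
    (ω : (Σ S : Finset (Fin J ⊕ Fin e), Fin (nhi ν S)) →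
      (Σ i : Fin J ⊕ Fin e, Fin (cd cb cz i)) → ℂ) :
    Continuous fun p => lext ν α (vis p) ω := by
  refine continuous_pi fun x => ?_
  unfold lext
  split_ifs with h
  · exact pull_cont _ _ ((continuous_apply _).comp hvis)
  · exact continuous_const

theorem lab_core (ν : Nos J) {P₀ : Type} [Fintype P₀]
    (m₀ : P₀ → Finset (Fin J ⊕ Fin e))
    (r : P₀ → (Σ i : Fin J ⊕ Fin e, Fin (cd cb cz i)) → ℂ)
    (lm : (Finset (Fin J ⊕ Fin e) → ℕ) → ℕ)
    (hsem : ∀ η, IsCor ν η → Gn (PC (nhi ν) η) (Σ i : Fin J ⊕ Fin e, Fin (cd cb cz i)) fun y =>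
      ∀ E : Submodule ℂ ((∀ i : Fin J ⊕ Fin e, Fin (cd cb cz i)) → ℂ),
        finrank ℂ (KE (tb J e) (Sum.elim m₀ (mC (nhi ν) η)) (Sum.elim r y) E) ≤
          lm η * finrank ℂ E)
    (D : Submodule ℂ ((∀ i : Fin J ⊕ Fin e, Fin (cd cb cz i)) → ℂ)) (S : Set ℕ)
    (hpos : ∀ η, IsCor ν η → ∀ E ≤ D, finrank ℂ E ∈ S → 1 ≤ lm η * finrank ℂ E)
    (s q₀ : ℕ) (W : Fin s → Set ((Σ S : Finset (Fin J ⊕ Fin e), Fin (nhi ν S)) →
      (Σ i : Fin J ⊕ Fin e, Fin (cd cb cz i)) → ℂ))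
    (hW : ∀ j, IsOpen (W j) ∧ (W j).Nonempty)
    (hcov : ∀ E ≤ D, finrank ℂ E ∈ S → ∃ j, ∀ y ∈ W j, ∀ η ∈ corH J e ν,
        finrank ℂ (KE (tb J e) (Sum.elim m₀ (mC (nhi ν) η))
          (Sum.elim r fun x : PC (nhi ν) η => y x.1) E) ≤ lm η * finrank ℂ E - 1)
    (κ' ν' : Type) [Fintype κ'] [Fintype ν']
    (vis : (κ' → ν' → ℂ) → PB ν (e * (2 * s) * q₀) → RC cb cz J (e * (2 * s) * q₀) → ℂ)
    (Bad : Finset (Fin e ↪o Fin (e * (2 * s) * q₀)))
    (hG : ∀ α ∉ Bad, ∀ Q, Gn (PC (nhi ν) (cor ν α)) (Σ i : Fin J ⊕ Fin e, Fin (cd cb cz i)) Q →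
        Gn κ' ν' fun p => Q (pos ν α (vis p)))
    (hvis : Continuous vis)
    (hB : ∀ (j : Fin s) (f : Fin e → Fin q₀),
        Pool.Agent.V7.BE.blk (Fin.castLE (by omega) j : Fin (2 * s)) f ∉ Bad)
    (hT : ∀ ω : Fin s → (Σ S : Finset (Fin J ⊕ Fin e), Fin (nhi ν S)) →
          (Σ i : Fin J ⊕ Fin e, Fin (cd cb cz i)) → ℂ,
        ∃ p, ∀ (j : Fin s) (f : Fin e → Fin q₀),
          pos ν (Pool.Agent.V7.BE.blk (Fin.castLE (by omega) j : Fin (2 * s)) f) (vis p) =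
            fun x => ω j x.1) :
    ∃ p, ∀ E ≤ D, finrank ℂ E ∈ S →
        ∑ α ∈ univ \ Bad, finrank ℂ (KE (tb J e) (Sum.elim m₀ (mC (nhi ν) (cor ν α)))
            (Sum.elim r (pos ν α (vis p))) E) + q₀ ^ e ≤
          ∑ α ∈ univ \ Bad, lm (cor ν α) * finrank ℂ E := by
  classical
  choose ω hω using fun j => (hW j).2
  obtain ⟨p₀, hp₀⟩ := hT ω
  have hgood : Gn κ' ν' fun p => ∀ α ∈ univ \ Bad,
      ∀ E : Submodule ℂ ((∀ i : Fin J ⊕ Fin e, Fin (cd cb cz i)) → ℂ),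
        finrank ℂ (KE (tb J e) (Sum.elim m₀ (mC (nhi ν) (cor ν α)))
          (Sum.elim r (pos ν α (vis p))) E) ≤ lm (cor ν α) * finrank ℂ E := by
    refine Gn.all _ fun α hα => ?_
    exact hG α (mem_sdiff.1 hα).2 _ (hsem (cor ν α) (isCor_cor ν α))
  have hopen : IsOpen {p : κ' → ν' → ℂ | ∀ (j : Fin s) (f : Fin e → Fin q₀),
      lext ν (Pool.Agent.V7.BE.blk (Fin.castLE (by omega) j : Fin (2 * s)) f) (vis p) (ω j) ∈ W j} := by
    have h1 : {p : κ' → ν' → ℂ | ∀ (j : Fin s) (f : Fin e → Fin q₀),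
        lext ν (Pool.Agent.V7.BE.blk (Fin.castLE (by omega) j : Fin (2 * s)) f) (vis p) (ω j) ∈ W j} =
        ⋂ j : Fin s, ⋂ f : Fin e → Fin q₀, (fun p : κ' → ν' → ℂ =>
          lext ν (Pool.Agent.V7.BE.blk (Fin.castLE (by omega) j : Fin (2 * s)) f) (vis p) (ω j)) ⁻¹'
            W j := by
      ext p
      simp
    rw [h1]
    exact isOpen_iInter_of_finite fun j => isOpen_iInter_of_finite fun f =>
      (hW j).1.preimage (lext_cont _ _ _ hvis _)
  obtain ⟨p, hpU, hp⟩ := Pool.Agent.V7.BE.Gn.near hgood p₀ _ (hopen.mem_nhds (by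
    intro j f
    have h1 : lext ν (Pool.Agent.V7.BE.blk (Fin.castLE (by omega) j : Fin (2 * s)) f)
        (vis p₀) (ω j) = ω j := by
      funext x
      unfold lext
      split_ifs with h
      · rw [hp₀ j f]
      · rfl
    rw [h1]
    exact hω j))
  refine ⟨p, fun E hE hES => ?_⟩
  obtain ⟨j, hj⟩ := hcov E hE hES
  let I : Finset (Fin e ↪o Fin (e * (2 * s) * q₀)) :=
    univ.image (Pool.Agent.V7.BE.blk (Fin.castLE (by omega) j : Fin (2 * s)))
  have hI : I.card = q₀ ^ e := by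
    rw [Finset.card_image_of_injective _ (Pool.Agent.V7.BE.blk_inj _), Finset.card_univ,
      Fintype.card_fun, Fintype.card_fin, Fintype.card_fin]
  have hIB : I ⊆ univ \ Bad := by
    intro α hα
    obtain ⟨f, _, rfl⟩ := mem_image.1 hα
    exact mem_sdiff.2 ⟨mem_univ _, hB j f⟩
  have hterm : ∀ α ∈ univ \ Bad,
      finrank ℂ (KE (tb J e) (Sum.elim m₀ (mC (nhi ν) (cor ν α)))
        (Sum.elim r (pos ν α (vis p))) E) + (if α ∈ I then 1 else 0) ≤
        lm (cor ν α) * finrank ℂ E := by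
    intro α hα'
    by_cases hα : α ∈ I
    · rw [if_pos hα]
      obtain ⟨f, _, rfl⟩ := mem_image.1 hα
      have h1 := hj _ (hpU j f) _ ((mem_corH ν _).2 (isCor_cor ν
        (Pool.Agent.V7.BE.blk (Fin.castLE (by omega) j : Fin (2 * s)) f)))
      have h2 : (fun x : PC (nhi ν) (cor ν (Pool.Agent.V7.BE.blk
          (Fin.castLE (by omega) j : Fin (2 * s)) f)) =>
          lext ν (Pool.Agent.V7.BE.blk (Fin.castLE (by omega) j : Fin (2 * s)) f) (vis p) (ω j) x.1) =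
          pos ν (Pool.Agent.V7.BE.blk (Fin.castLE (by omega) j : Fin (2 * s)) f) (vis p) :=
        funext fun x => lext_val _ _ _ _ x
      rw [h2] at h1
      have h3 := hpos _ (isCor_cor ν
        (Pool.Agent.V7.BE.blk (Fin.castLE (by omega) j : Fin (2 * s)) f)) E hE hES
      omega
    · rw [if_neg hα]
      exact hp α hα' E
  have hsum := Finset.sum_le_sum hterm
  rw [Finset.sum_add_distrib] at hsum
  have h2 : ∑ α ∈ univ \ Bad, (if α ∈ I then 1 else 0) = q₀ ^ e := by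
    rw [Finset.sum_ite_mem, Finset.inter_eq_right.2 hIB, Finset.sum_const, smul_eq_mul, mul_one, hI]
  rw [h2] at hsum
  exact hsum

theorem lab (he : 0 < e) (ν₀ : Nos J) {P₀ : Type} [Fintype P₀]
    (m₀ : P₀ → Finset (Fin J ⊕ Fin e))
    (r : P₀ → (Σ i : Fin J ⊕ Fin e, Fin (cd cb cz i)) → ℂ)
    (lm : (Finset (Fin J ⊕ Fin e) → ℕ) → ℕ)
    (hsem : ∀ η, IsCor ν₀ η → Gn (PC (nhi ν₀) η) (Σ i : Fin J ⊕ Fin e, Fin (cd cb cz i)) fun y =>
      ∀ E : Submodule ℂ ((∀ i : Fin J ⊕ Fin e, Fin (cd cb cz i)) → ℂ),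
        finrank ℂ (KE (tb J e) (Sum.elim m₀ (mC (nhi ν₀) η)) (Sum.elim r y) E) ≤
          lm η * finrank ℂ E)
    (D : Submodule ℂ ((∀ i : Fin J ⊕ Fin e, Fin (cd cb cz i)) → ℂ)) (S : Set ℕ)
    (hstr : ∀ η, IsCor ν₀ η → ∀ E ≤ D, finrank ℂ E ∈ S →
      ∃ y : PC (nhi ν₀) η → (Σ i : Fin J ⊕ Fin e, Fin (cd cb cz i)) → ℂ,
        finrank ℂ (KE (tb J e) (Sum.elim m₀ (mC (nhi ν₀) η)) (Sum.elim r y) E) <
          lm η * finrank ℂ E) :
    ∃ s : ℕ, 0 < s ∧ ∀ (ν : Nos J) (_ : ν.lo = ν₀.lo) (_ : ν.hi = ν₀.hi) (q₀ : ℕ)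
      (κ' ν' : Type) [Fintype κ'] [Fintype ν']
      (vis : (κ' → ν' → ℂ) → PB ν (e * (2 * s) * q₀) → RC cb cz J (e * (2 * s) * q₀) → ℂ)
      (Bad : Finset (Fin e ↪o Fin (e * (2 * s) * q₀))),
      (∀ α ∉ Bad, ∀ Q, Gn (PC (nhi ν) (cor ν α)) (Σ i : Fin J ⊕ Fin e, Fin (cd cb cz i)) Q →
        Gn κ' ν' fun p => Q (pos ν α (vis p))) →
      Continuous vis →
      (∀ (j : Fin s) (f : Fin e → Fin q₀),
        Pool.Agent.V7.BE.blk (Fin.castLE (by omega) j : Fin (2 * s)) f ∉ Bad) →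
      (∀ ω : Fin s → (Σ S : Finset (Fin J ⊕ Fin e), Fin (nhi ν S)) →
          (Σ i : Fin J ⊕ Fin e, Fin (cd cb cz i)) → ℂ,
        ∃ p, ∀ (j : Fin s) (f : Fin e → Fin q₀),
          pos ν (Pool.Agent.V7.BE.blk (Fin.castLE (by omega) j : Fin (2 * s)) f) (vis p) =
            fun x => ω j x.1) →
      ∃ p, ∀ E ≤ D, finrank ℂ E ∈ S →
        ∑ α ∈ univ \ Bad, finrank ℂ (KE (tb J e) (Sum.elim m₀ (mC (nhi ν) (cor ν α)))
            (Sum.elim r (pos ν α (vis p))) E) + q₀ ^ e ≤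
          ∑ α ∈ univ \ Bad, lm (cor ν α) * finrank ℂ E := by
  classical
  obtain ⟨s, hs, hex⟩ := KE_cover (tb J e) m₀ r (nhi ν₀) (corH J e ν₀)
    (fun η f => lm η * f - 1) D S (by
      intro η hη E hE hES
      obtain ⟨y, hy⟩ := hstr η ((mem_corH ν₀ η).1 hη) E hE hES
      exact ⟨y, by omega⟩)
  refine ⟨s, hs, ?_⟩
  intro ν hlo hhi q₀ κ' ν' _ _ vis Bad hG hvis hB hT
  have e1 : (nhi ν₀ : Finset (Fin J ⊕ Fin e) → ℕ) = nhi ν := nhi_congr hhi
  have e2 : (IsCor ν₀ : (Finset (Fin J ⊕ Fin e) → ℕ) → Prop) = IsCor ν := IsCor_congr hlo hhi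
  have hpos : ∀ η, IsCor ν η → ∀ E ≤ D, finrank ℂ E ∈ S → 1 ≤ lm η * finrank ℂ E := by
    intro η hη E hE hES
    obtain ⟨y, hy⟩ := hstr η (by rw [e2]; exact hη) E hE hES
    omega
  have e3 : corH J e ν₀ = corH J e ν := by
    ext η
    rw [mem_corH, mem_corH, e2]
  rw [e1, e3] at hex
  rw [e1, e2] at hsem
  obtain ⟨W, hW, hcov⟩ := hex
  exact lab_core ν m₀ r lm hsem D S hpos s q₀ W hW hcov κ' ν' vis Bad hG hvis hB hT

end Pool.Agent.GD.BE
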