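import Pool.Agent.GD.BE.Defs

/-!
# General d, block BETA, module Lines: the distribution of the points on the lines

As `V7/AL/Tens.tens_lines` / the proof of `GD/TT.critical`.
-/

set_option autoImplicit false

namespace Pool.Agent.GD.BE

open Finset

variable {ι : Type} [Fintype ι] [DecidableEq ι]

omit [Fintype ι] in
private theorem lines_ins {i₀ : ι} {I' : Finset ι} (hi₀ : i₀ ∉ I') {B : Finset ι} (hB : B ⊆ I') :
    (insert i₀ B).erase i₀ = B := Finset.erase_insert fun h => hi₀ (hB h)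

/-- `L B` lines of type `B` (`B ⊆ I'`), `q B` points of kind `insert i₀ B` on each of them. -/
theorem lines {i₀ : ι} {I' : Finset ι} (hi₀ : i₀ ∉ I') (n : ℕ) (L q : Finset ι → ℕ)
    (hL : ∑ B ∈ I'.powerset, L B = n) {P : Type} [Fintype P] (m : P → Finset ι)
    (hm : ∀ i, i₀ ∈ m i → (m i).erase i₀ ⊆ I') (hn : 0 < n)
    (hcard : ∀ B ⊆ I', Nat.card {x // m x = insert i₀ B} = L B * q B) :
    ∃ (τ : Fin n → Finset ι) (line : P → Fin n),
      (∀ x, τ x ⊆ I' ∧ L (τ x) ≠ 0) ∧ (∀ B ⊆ I', L B ≠ 0 → ∃ x, τ x = B) ∧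
      (∀ i, i₀ ∈ m i → (m i).erase i₀ = τ (line i)) ∧
      ∀ x, Nat.card {i // i₀ ∈ m i ∧ line i = x} = q (τ x) := by
  classical
  have e1 : Fin n ≃ Σ B : {B // B ∈ I'.powerset}, Fin (L B.1) := by
    refine Fintype.equivOfCardEq ?_
    rw [Fintype.card_sigma]
    simp only [Fintype.card_fin]
    rw [← hL]
    exact (Finset.sum_coe_sort I'.powerset L).symm
  let τ : Fin n → Finset ι := fun x => (e1 x).1.1
  have hτ : ∀ B, B ⊆ I' → Fintype.card {x // τ x = B} = L B := by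
    intro B hB
    have h1 : {x // τ x = B} ≃
        {z : Σ B : {B // B ∈ I'.powerset}, Fin (L B.1) // z.1.1 = B} :=
      e1.subtypeEquiv fun x => Iff.rfl
    have h2 : {z : Σ B : {B // B ∈ I'.powerset}, Fin (L B.1) // z.1.1 = B} ≃ Fin (L B) :=
      { toFun := fun z => Fin.cast (congrArg L z.2) z.1.2
        invFun := fun v => ⟨⟨⟨B, Finset.mem_powerset.2 hB⟩, v⟩, rfl⟩
        left_inv := by
          rintro ⟨⟨⟨B', hB'⟩, v⟩, h⟩
          cases h
          rfl
        right_inv := fun v => rfl }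
    rw [Fintype.card_congr (h1.trans h2), Fintype.card_fin]
  have hE : ∀ B, B ⊆ I' → Nonempty ({i // m i = insert i₀ B} ≃ {x // τ x = B} × Fin (q B)) := by
    intro B hB
    refine ⟨Fintype.equivOfCardEq ?_⟩
    rw [Fintype.card_prod, hτ B hB, Fintype.card_fin, ← hcard B hB, Nat.card_eq_fintype_card]
  have E : ∀ B, B ⊆ I' → {i // m i = insert i₀ B} ≃ {x // τ x = B} × Fin (q B) := fun B hB =>
    Classical.choice (hE B hB)
  have hins : ∀ i, i₀ ∈ m i → m i = insert i₀ ((m i).erase i₀) := fun i h =>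
    (Finset.insert_erase h).symm
  let line : P → Fin n := fun i =>
    if h : i₀ ∈ m i then ((E ((m i).erase i₀) (hm i h) ⟨i, hins i h⟩).1).1 else ⟨0, hn⟩
  have hl : ∀ (B : Finset ι) (hB : B ⊆ I') (i : P) (h : m i = insert i₀ B),
      line i = ((E B hB ⟨i, h⟩).1).1 := by
    intro B hB i h
    have h1 : i₀ ∈ m i := by
      rw [h]
      exact Finset.mem_insert_self _ _
    have h2 : B = (m i).erase i₀ := by
      rw [h, lines_ins hi₀ hB]
    subst h2
    exact dif_pos h1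
  have hτI : ∀ x, τ x ⊆ I' := fun x => Finset.mem_powerset.1 (e1 x).1.2
  refine ⟨τ, line, ?_, ?_, ?_, ?_⟩
  · intro x
    refine ⟨hτI x, fun h => ?_⟩
    have h1 : (e1 x).2.1 < L (τ x) := (e1 x).2.2
    omega
  · intro B hB h0
    have h1 : 0 < Fintype.card {x // τ x = B} := by
      rw [hτ B hB]
      omega
    obtain ⟨x⟩ := Fintype.card_pos_iff.1 h1
    exact ⟨x.1, x.2⟩
  · intro i hi
    have h1 := hl ((m i).erase i₀) (hm i hi) i (hins i hi)
    rw [h1, ((E ((m i).erase i₀) (hm i hi) ⟨i, hins i hi⟩).1).2]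
  · intro x
    have h3 : Fintype.card (Fin (q (τ x))) = q (τ x) := Fintype.card_fin _
    rw [← h3, Nat.card_eq_fintype_card, Fintype.card_subtype, ← Finset.card_univ]
    symm
    refine Finset.card_bij (fun j _ => ((E (τ x) (hτI x)).symm (⟨x, rfl⟩, j)).1) ?_ ?_ ?_
    · intro j _
      have h4 := ((E (τ x) (hτI x)).symm (⟨x, rfl⟩, j)).2
      rw [mem_filter]
      refine ⟨mem_univ _, ?_, ?_⟩
      · rw [h4]
        exact Finset.mem_insert_self _ _
      · rw [hl (τ x) (hτI x) _ h4]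
        have h5 : (⟨((E (τ x) (hτI x)).symm (⟨x, rfl⟩, j)).1, h4⟩ :
            {i // m i = insert i₀ (τ x)}) = (E (τ x) (hτI x)).symm (⟨x, rfl⟩, j) := rfl
        rw [h5, Equiv.apply_symm_apply]
    · intro j _ j' _ h
      have h4 := (E (τ x) (hτI x)).symm.injective (Subtype.ext h)
      exact (Prod.ext_iff.1 h4).2
    · intro i hi
      rw [mem_filter] at hi
      obtain ⟨-, hi1, hi2⟩ := hi
      have h4 : m i = insert i₀ (τ x) := by
        have h5 := hl ((m i).erase i₀) (hm i hi1) i (hins i hi1)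
        have h6 := ((E ((m i).erase i₀) (hm i hi1) ⟨i, hins i hi1⟩).1).2
        rw [← h5, hi2] at h6
        rw [h6]
        exact hins i hi1
      refine ⟨(E (τ x) (hτI x) ⟨i, h4⟩).2, mem_univ _, ?_⟩
      have h7 : (E (τ x) (hτI x) ⟨i, h4⟩).1 = ⟨x, rfl⟩ :=
        Subtype.ext ((hl _ (hτI x) _ h4).symm.trans hi2)
      have h8 : ((⟨x, rfl⟩ : {y // τ y = τ x}), (E (τ x) (hτI x) ⟨i, h4⟩).2) =
          E (τ x) (hτI x) ⟨i, h4⟩ := by
        rw [← h7]
      show ((E (τ x) (hτI x)).symm (⟨x, rfl⟩, (E (τ x) (hτI x) ⟨i, h4⟩).2)).1 = i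
      rw [h8, Equiv.symm_apply_apply]

end Pool.Agent.GD.BE
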