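import Pool.Agent.GD.BE.Cnt
import Pool.Agent.GD.BE.Lab

/-!
# General d, block BETA, module MixA: the mean of the virtual dimensions over the corners

`FR` is helper84's `FF` with real densities.  The corner seen by `α` has the densities `kcor`, the mean
densities are `kmix`.  `mixA`: for every family `P ∈ Dj univ` the product of the densities of the kinds
`S ∈ P` which are not base kinds depends on the residues of `α (min (rt S))`, different slots for
different `S`, so `cnt` applies with `w h x` = the density of the `S ∈ P` with `min (rt S) = h` (or `1`).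
`used`: the number of the points of the kinds `(K, a)` (`#rt = a`), `cnt` with `e := a`.
-/

set_option autoImplicit false

namespace Pool.Agent.GD.BE

open Finset

variable {ι : Type} [Fintype ι] [DecidableEq ι]

/-- The virtual dimensions with real densities. -/
noncomputable def FR (κ : Finset ι → ℝ) (I : Finset ι) : ℝ := ∑ P ∈ Dj I, ∏ S ∈ P, -κ S

theorem FR_cast (κ : Finset ι → ℚ) (I : Finset ι) : FR (fun S => (κ S : ℝ)) I = (FF κ I : ℝ) := by
  unfold FR FF
  push_cast
  rfl

variable {J e q : ℕ}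

/-- The densities of a corner: base densities `kb`, `D S` = the product of the dimensions. -/
noncomputable def kcor (kb D : Finset (Fin J ⊕ Fin e) → ℝ) (η : Finset (Fin J ⊕ Fin e) → ℕ)
    (S : Finset (Fin J ⊕ Fin e)) : ℝ := if (rt S).Nonempty then η S / D S else kb S

/-- The mean number of the points of the kind `S`. -/
noncomputable def nmix (ν : Nos J) (K : Finset (Fin J)) (a : ℕ) : ℝ :=
  (ν.lo K a : ℝ) + ((min (ν.l K a) ν.L : ℕ) : ℝ) / ν.L * ((ν.hi K a : ℝ) - ν.lo K a)

/-- The mean densities. -/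
noncomputable def kmix (kb D : Finset (Fin J ⊕ Fin e) → ℝ) (ν : Nos J)
    (S : Finset (Fin J ⊕ Fin e)) : ℝ :=
  if (rt S).Nonempty then nmix ν (lf S) (rt S).card / D S else kb S

/-- The number of the points for the block `x`. -/
private noncomputable def vv (ν : Nos J) (K : Finset (Fin J)) (a x : ℕ) : ℝ :=
  if x % ν.L < ν.l K a then (ν.hi K a : ℝ) else (ν.lo K a : ℝ)

private theorem vv_mod (ν : Nos J) (K : Finset (Fin J)) (a x : ℕ) :
    vv ν K a (x % ν.L) = vv ν K a x := by
  unfold vv
  rw [Nat.mod_mod]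

private theorem vv_mean (ν : Nos J) (hL : 0 < ν.L) (K : Finset (Fin J)) (a : ℕ) :
    (∑ x ∈ range ν.L, vv ν K a x) / ν.L = nmix ν K a := by
  have hLR : (ν.L : ℝ) ≠ 0 := by exact_mod_cast hL.ne'
  have h1 : ∑ x ∈ range ν.L, vv ν K a x = ∑ x ∈ range ν.L,
      ((ν.lo K a : ℝ) + if x < ν.l K a then ((ν.hi K a : ℝ) - ν.lo K a) else 0) := by
    refine Finset.sum_congr rfl fun x hx => ?_
    unfold vv
    rw [Nat.mod_eq_of_lt (Finset.mem_range.1 hx)]
    split_ifs <;> ring
  have h2 : ((range ν.L).filter fun x => x < ν.l K a) = range (min (ν.l K a) ν.L) := by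
    ext x
    rw [Finset.mem_filter, Finset.mem_range, Finset.mem_range]
    omega
  rw [h1, Finset.sum_add_distrib, Finset.sum_const, Finset.card_range, ← Finset.sum_filter, h2,
    Finset.sum_const, Finset.card_range, nsmul_eq_mul, nsmul_eq_mul]
  unfold nmix
  field_simp

private theorem rt_map (α : Fin e ↪o Fin q) (S : Finset (Fin J ⊕ Fin e)) :
    rt (S.map (emb J α)) = (rt S).map α.toEmbedding := by
  ext b
  unfold rt
  simp only [Finset.mem_filter, Finset.mem_univ, true_and, Finset.mem_map]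
  constructor
  · rintro ⟨i, hi, hb⟩
    rcases i with j | h
    · exact absurd hb (by simp [emb])
    · exact ⟨h, hi, by simpa [emb] using hb⟩
  · rintro ⟨h, hh, rfl⟩
    exact ⟨Sum.inr h, hh, rfl⟩

private theorem lf_map (α : Fin e ↪o Fin q) (S : Finset (Fin J ⊕ Fin e)) :
    lf (S.map (emb J α)) = lf S := by
  ext b
  unfold lf
  simp only [Finset.mem_filter, Finset.mem_univ, true_and, Finset.mem_map]
  constructor
  · rintro ⟨i, hi, hb⟩
    rcases i with j | h
    · have h1 : j = b := by simpa [emb] using hb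
      exact h1 ▸ hi
    · exact absurd hb (by simp [emb])
  · intro h
    exact ⟨Sum.inl b, h, rfl⟩

private theorem cor_eq (ν : Nos J) (α : Fin e ↪o Fin q) (S : Finset (Fin J ⊕ Fin e))
    (hS : (rt S).Nonempty) :
    (cor ν α S : ℝ) = vv ν (lf S) (rt S).card (α ((rt S).min' hS)) := by
  have h0 : (rt (S.map (emb J α))).Nonempty := by
    rw [rt_map]
    exact hS.map
  have h1 : (rt (S.map (emb J α))).min' h0 = α ((rt S).min' hS) := by
    refine le_antisymm (Finset.min'_le _ _ ?_) (Finset.le_min' _ _ _ fun y hy => ?_)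
    · rw [rt_map]
      exact Finset.mem_map_of_mem _ (Finset.min'_mem _ _)
    · rw [rt_map, Finset.mem_map] at hy
      obtain ⟨z, hz, rfl⟩ := hy
      exact α.monotone (Finset.min'_le _ _ hz)
  unfold cor nb vv
  rw [dif_pos h0, h1, lf_map, rt_map, Finset.card_map]
  split_ifs <;> rfl

/-- The product over the family `P`: one factor for every slot. -/
private theorem term (he : 0 < e) (ν : Nos J) (hL : 0 < ν.L)
    (kb D : Finset (Fin J ⊕ Fin e) → ℝ) (P : Finset (Finset (Fin J ⊕ Fin e)))
    (hP : ∀ S ∈ P, ∀ T ∈ P, S ≠ T → Disjoint S T) :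
    ∃ C : ℝ, 0 ≤ C ∧ ∀ q : ℕ, ν.L ∣ q → 1 ≤ q →
      |∑ α : Fin e ↪o Fin q, ∏ S ∈ P, -kcor kb D (cor ν α) S -
        (q : ℝ) ^ e / e.factorial * ∏ S ∈ P, -kmix kb D ν S| ≤ C * (q : ℝ) ^ (e - 1) := by
  classical
  set Q := P.filter fun S => (rt S).Nonempty with hQ
  set B := ∏ S ∈ P.filter (fun S => ¬ (rt S).Nonempty), -kb S with hB
  let mn : Finset (Fin J ⊕ Fin e) → Fin e := fun S =>
    if h : (rt S).Nonempty then (rt S).min' h else ⟨0, he⟩
  let w : Fin e → ℕ → ℝ := fun h x =>
    ∏ S ∈ Q.filter (fun S => mn S = h), -(vv ν (lf S) (rt S).card x / D S)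
  have hmn : ∀ S, ∀ h : (rt S).Nonempty, mn S = (rt S).min' h := fun S h => dif_pos h
  -- the corners
  have h1 : ∀ (q : ℕ) (α : Fin e ↪o Fin q), ∏ S ∈ P, -kcor kb D (cor ν α) S =
      B * ∏ h, w h (α h) := by
    intro q α
    rw [← Finset.prod_filter_mul_prod_filter_not P (fun S => (rt S).Nonempty), mul_comm]
    have h2 : ∏ S ∈ P.filter (fun S => ¬ (rt S).Nonempty), -kcor kb D (cor ν α) S = B := by
      refine Finset.prod_congr rfl fun S hS => ?_
      unfold kcor
      rw [if_neg (Finset.mem_filter.1 hS).2]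
    have h3 : ∏ S ∈ P.filter (fun S => (rt S).Nonempty), -kcor kb D (cor ν α) S =
        ∏ h, w h (α h) := by
      rw [← Finset.prod_fiberwise Q mn]
      refine Finset.prod_congr rfl fun h _ => Finset.prod_congr rfl fun S hS => ?_
      obtain ⟨hS1, hS2⟩ := Finset.mem_filter.1 hS
      have hS3 := (Finset.mem_filter.1 hS1).2
      unfold kcor
      rw [if_pos hS3, cor_eq ν α S hS3, ← hmn S hS3, hS2]
    rw [h2, h3]
  -- the mean
  have h4 : ∀ h, (∑ x ∈ range ν.L, w h x) / ν.L = ∏ S ∈ Q.filter (fun S => mn S = h),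
      -(nmix ν (lf S) (rt S).card / D S) := by
    intro h
    have h5 : ((Q.filter fun S => mn S = h) : Finset (Finset (Fin J ⊕ Fin e))).card ≤ 1 := by
      rw [Finset.card_le_one]
      intro S hS T hT
      obtain ⟨hS1, hS2⟩ := Finset.mem_filter.1 hS
      obtain ⟨hS3, hS4⟩ := Finset.mem_filter.1 hS1
      obtain ⟨hT1, hT2⟩ := Finset.mem_filter.1 hT
      obtain ⟨hT3, hT4⟩ := Finset.mem_filter.1 hT1
      by_contra hST
      have h6 := hP S hS3 T hT3 hST
      have h7 : Sum.inr h ∈ S := by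
        have h8 := Finset.min'_mem _ hS4
        rw [← hmn S hS4, hS2] at h8
        exact (Finset.mem_filter.1 h8).2
      have h9 : Sum.inr h ∈ T := by
        have h8 := Finset.min'_mem _ hT4
        rw [← hmn T hT4, hT2] at h8
        exact (Finset.mem_filter.1 h8).2
      exact Finset.disjoint_left.1 h6 h7 h9
    have hLR : (ν.L : ℝ) ≠ 0 := by exact_mod_cast hL.ne'
    rcases Finset.card_le_one_iff_subset_singleton.1 h5 with ⟨S, hS⟩
    rcases Finset.subset_singleton_iff.1 hS with h6 | h6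
    · simp only [w, h6, Finset.prod_empty]
      rw [Finset.sum_const, Finset.card_range, nsmul_eq_mul, mul_one, div_self hLR]
    · simp only [w, h6, Finset.prod_singleton]
      rw [← vv_mean ν hL, Finset.sum_neg_distrib, ← Finset.sum_div]
      ring
  have h5 : ∏ S ∈ P, -kmix kb D ν S = B * ∏ h, ((∑ x ∈ range ν.L, w h x) / ν.L) := by
    rw [← Finset.prod_filter_mul_prod_filter_not P (fun S => (rt S).Nonempty), mul_comm]
    have h2 : ∏ S ∈ P.filter (fun S => ¬ (rt S).Nonempty), -kmix kb D ν S = B := by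
      refine Finset.prod_congr rfl fun S hS => ?_
      unfold kmix
      rw [if_neg (Finset.mem_filter.1 hS).2]
    have h3 : ∏ S ∈ P.filter (fun S => (rt S).Nonempty), -kmix kb D ν S =
        ∏ h, ((∑ x ∈ range ν.L, w h x) / ν.L) := by
      rw [← Finset.prod_fiberwise Q mn]
      refine Finset.prod_congr rfl fun h _ => ?_
      rw [h4 h]
      refine Finset.prod_congr rfl fun S hS => ?_
      unfold kmix
      rw [if_pos (Finset.mem_filter.1 (Finset.mem_filter.1 hS).1).2]
    rw [h2, h3]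
  obtain ⟨C, hC0, hC⟩ := cnt e ν.L he hL w fun h x => by
    refine Finset.prod_congr rfl fun S _ => ?_
    rw [vv_mod]
  refine ⟨|B| * C, mul_nonneg (abs_nonneg _) hC0, fun q hq hq1 => ?_⟩
  rw [h5, Finset.sum_congr rfl fun α _ => h1 q α, ← Finset.mul_sum]
  have h6 : ∀ s t x : ℝ, B * s - t * (B * x) = B * (s - t * x) := fun s t x => by ring
  rw [h6, abs_mul, mul_assoc]
  exact mul_le_mul_of_nonneg_left (hC q hq hq1) (abs_nonneg _)

theorem mixA (he : 0 < e) (ν : Nos J) (hL : 0 < ν.L) (kb D : Finset (Fin J ⊕ Fin e) → ℝ) :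
    ∃ C : ℝ, 0 ≤ C ∧ ∀ q : ℕ, ν.L ∣ q → 1 ≤ q →
      |∑ α : Fin e ↪o Fin q, FR (kcor kb D (cor ν α)) univ -
        (q : ℝ) ^ e / e.factorial * FR (kmix kb D ν) univ| ≤ C * (q : ℝ) ^ (e - 1) := by
  classical
  have h1 : ∀ P : {P // P ∈ Dj (univ : Finset (Fin J ⊕ Fin e))}, ∃ C : ℝ, 0 ≤ C ∧ ∀ q : ℕ, ν.L ∣ q →
      1 ≤ q → |∑ α : Fin e ↪o Fin q, ∏ S ∈ P.1, -kcor kb D (cor ν α) S -
        (q : ℝ) ^ e / e.factorial * ∏ S ∈ P.1, -kmix kb D ν S| ≤ C * (q : ℝ) ^ (e - 1) :=
    fun P => term he ν hL kb D P.1 (mem_Dj.1 P.2).2.2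
  choose C hC0 hC using h1
  refine ⟨∑ P, C P, Finset.sum_nonneg fun P _ => hC0 P, fun q hq hq1 => ?_⟩
  unfold FR
  rw [Finset.sum_comm, Finset.mul_sum, ← Finset.sum_sub_distrib,
    ← Finset.sum_coe_sort (Dj (univ : Finset (Fin J ⊕ Fin e)))]
  refine (Finset.abs_sum_le_sum_abs _ _).trans ?_
  rw [Finset.sum_mul]
  exact Finset.sum_le_sum fun P _ => hC P q hq hq1

/-- The number of the points used for the kinds `(K, a)`. -/
theorem used (ν : Nos J) (hL : 0 < ν.L) (K : Finset (Fin J)) (a : ℕ) (ha : 0 < a) :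
    ∃ C : ℝ, 0 ≤ C ∧ ∀ q : ℕ, ν.L ∣ q → 1 ≤ q →
      |((∑ S ∈ (univ : Finset (Finset (Fin J ⊕ Fin q))).filter (fun S => lf S = K ∧ (rt S).card = a),
        nb ν S : ℕ) : ℝ) - (q : ℝ) ^ a / a.factorial * nmix ν K a| ≤ C * (q : ℝ) ^ (a - 1) := by
  classical
  let w : Fin a → ℕ → ℝ := fun h x => if h = ⟨0, ha⟩ then vv ν K a x else 1
  have hLR : (ν.L : ℝ) ≠ 0 := by exact_mod_cast hL.ne'
  obtain ⟨C, hC0, hC⟩ := cnt a ν.L ha hL w fun h x => by
    simp only [w]
    rw [vv_mod]
  refine ⟨C, hC0, fun q hq hq1 => ?_⟩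
  have h1 : ∏ h, ((∑ x ∈ range ν.L, w h x) / ν.L) = nmix ν K a := by
    rw [Finset.prod_eq_single (⟨0, ha⟩ : Fin a)]
    · simp only [w, if_true]
      exact vv_mean ν hL K a
    · intro h _ hh
      simp only [w, if_neg hh]
      rw [Finset.sum_const, Finset.card_range, nsmul_eq_mul, mul_one, div_self hLR]
    · exact fun h => absurd (Finset.mem_univ _) h
  have h2 : (((∑ S ∈ (univ : Finset (Finset (Fin J ⊕ Fin q))).filter
      (fun S => lf S = K ∧ (rt S).card = a), nb ν S : ℕ)) : ℝ) =
      ∑ α : Fin a ↪o Fin q, ∏ h, w h (α h) := by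
    push_cast
    have h3 : ∀ α : Fin a ↪o Fin q, ∏ h, w h (α h) = vv ν K a (α ⟨0, ha⟩) := by
      intro α
      rw [Finset.prod_eq_single (⟨0, ha⟩ : Fin a)]
      · simp only [w, if_true]
      · intro h _ hh
        simp only [w, if_neg hh]
      · exact fun h => absurd (Finset.mem_univ _) h
    rw [Finset.sum_congr rfl fun α _ => h3 α]
    symm
    have hrt : ∀ α : Fin a ↪o Fin q, rt (K.disjSum (univ.map α.toEmbedding)) =
        univ.map α.toEmbedding := by
      intro α
      ext b
      unfold rt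
      rw [Finset.mem_filter, Finset.inr_mem_disjSum]
      simp
    have hlf : ∀ α : Fin a ↪o Fin q, lf (K.disjSum (univ.map α.toEmbedding)) = K := by
      intro α
      ext b
      unfold lf
      rw [Finset.mem_filter, Finset.inl_mem_disjSum]
      simp
    refine Finset.sum_bij (fun α _ => K.disjSum (univ.map α.toEmbedding)) ?_ ?_ ?_ ?_
    · intro α _
      rw [Finset.mem_filter]
      refine ⟨Finset.mem_univ _, hlf α, ?_⟩
      rw [hrt, Finset.card_map, Finset.card_univ, Fintype.card_fin]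
    · intro α _ β _ hαβ
      have h4 : univ.map α.toEmbedding = univ.map β.toEmbedding := by
        rw [← hrt α, ← hrt β]
        exact congrArg rt hαβ
      have h5 : Set.range α = Set.range β := by
        have h6 := congrArg (fun s : Finset (Fin q) => (s : Set (Fin q))) h4
        simpa using h6
      exact DFunLike.coe_injective ((StrictMono.range_inj α.strictMono β.strictMono).1 h5)
    · intro S hS
      obtain ⟨-, hS1, hS2⟩ := Finset.mem_filter.1 hS
      refine ⟨(rt S).orderEmbOfFin hS2, Finset.mem_univ _, ?_⟩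
      ext i
      rcases i with j | b
      · rw [Finset.inl_mem_disjSum, ← hS1]
        unfold lf
        simp
      · rw [Finset.inr_mem_disjSum, Finset.mem_map]
        constructor
        · rintro ⟨z, _, rfl⟩
          have h6 := Finset.orderEmbOfFin_mem (rt S) hS2 z
          exact (Finset.mem_filter.1 h6).2
        · intro hb
          have h6 : b ∈ Set.range ((rt S).orderEmbOfFin hS2) := by
            rw [Finset.range_orderEmbOfFin]
            exact Finset.mem_coe.2 (Finset.mem_filter.2 ⟨Finset.mem_univ _, hb⟩)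
          obtain ⟨z, hz⟩ := h6
          exact ⟨z, Finset.mem_univ _, hz⟩
    · intro α _
      have h0 : (rt (K.disjSum (univ.map α.toEmbedding))).Nonempty := by
        rw [hrt]
        exact ⟨α ⟨0, ha⟩, Finset.mem_map_of_mem _ (Finset.mem_univ _)⟩
      have h4 : (rt (K.disjSum (univ.map α.toEmbedding))).min' h0 = α ⟨0, ha⟩ := by
        refine le_antisymm (Finset.min'_le _ _ ?_) (Finset.le_min' _ _ _ fun y hy => ?_)
        · rw [hrt]
          exact Finset.mem_map_of_mem _ (Finset.mem_univ _)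
        · rw [hrt, Finset.mem_map] at hy
          obtain ⟨z, _, rfl⟩ := hy
          exact α.monotone (Nat.zero_le _)
      unfold nb vv
      rw [dif_pos h0, h4, hlf, hrt, Finset.card_map, Finset.card_univ, Fintype.card_fin]
      split_ifs <;> rfl
  rw [h2, ← h1]
  exact hC q hq hq1

end Pool.Agent.GD.BE
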