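import Pool.Agent.GD.BE.Defs

/-!
# General d, block BETA, module Near: openness

As `V7/BE/Proj.lean` (`Kx_near_frame`, `Kx_cover`): the subspaces `E ≤ D` of dimension `h` are
parametrised by the compact set of orthonormal frames `Q` with `Fr.sp Q ≤ D` (closed in `Fr`).
-/

set_option autoImplicit false
set_option linter.unusedSectionVars false
set_option linter.unusedVariables false

namespace Pool.Agent.GD.BE

open Finset MvPolynomial Module Pool.Agent.H51.TB Topology Pool.Agent.V7.BE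

/-- Alternatives (indexed by `Λ`) for the subspaces `E ≤ D` of dimension `h`. -/
theorem Kx_near_or {X : Type*} [TopologicalSpace X] {Λ : Type*} {R : Λ → Type*}
    [∀ l, Fintype (R l)] {J U ι' : Type*} [Fintype J] [Fintype U] [Fintype ι']
    (A : ∀ l, X → Matrix (R l) J ℂ) (hA : ∀ l, Continuous (A l)) (σ : U → ι' → J) (b : Λ → ℕ)
    (D : Submodule ℂ (ι' → ℂ)) (h : ℕ) (x₀ : X)
    (H : ∀ E ≤ D, finrank ℂ E = h → ∃ l, finrank ℂ (Kx (A l x₀) σ E) ≤ b l) :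
    ∀ᶠ x in 𝓝 x₀, ∀ E ≤ D, finrank ℂ E = h → ∃ l, finrank ℂ (Kx (A l x) σ E) ≤ b l := by
  have hcl : IsClosed {Q : Matrix ι' (Fin h) ℂ | Fr.sp Q ≤ D} := by
    have h1 : {Q : Matrix ι' (Fin h) ℂ | Fr.sp Q ≤ D} =
        ⋂ w : Fin h → ℂ, {Q | Matrix.mulVec Q w ∈ (D : Set (ι' → ℂ))} := by
      ext Q
      rw [Set.mem_iInter]
      constructor
      · intro hQ w
        exact hQ ⟨w, rfl⟩
      · rintro hQ _ ⟨w, rfl⟩
        exact hQ w
    rw [h1]
    refine isClosed_iInter fun w => ?_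
    refine IsClosed.preimage ?_ (Submodule.closed_of_finiteDimensional D)
    exact Continuous.matrix_mulVec continuous_id continuous_const
  have hK : IsCompact (Fr ι' h ∩ {Q : Matrix ι' (Fin h) ℂ | Fr.sp Q ≤ D}) :=
    (Fr_compact h).inter_right hcl
  have h1 : ∀ᶠ x in 𝓝 x₀, ∀ Q ∈ Fr ι' h ∩ {Q : Matrix ι' (Fin h) ℂ | Fr.sp Q ≤ D},
      Q ∈ Fr ι' h → ∃ l, finrank ℂ (Kx (A l x) σ (Fr.sp Q)) ≤ b l := by
    refine IsCompact.eventually_forall_of_forall_eventually (Y := Matrix ι' (Fin h) ℂ)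
      (P := fun x Q => Q ∈ Fr ι' h → ∃ l, finrank ℂ (Kx (A l x) σ (Fr.sp Q)) ≤ b l)
      hK fun Q hQ => ?_
    obtain ⟨l, hl⟩ := H (Fr.sp Q) hQ.2 (Fr.finrank_sp hQ.1)
    exact (Kx_near_frame (A l) (hA l) σ (b l) x₀ hQ.1 hl).mono fun z hz hF => ⟨l, hz hF⟩
  refine h1.mono fun x hx E hE hh => ?_
  subst hh
  obtain ⟨Q, hQ, hQE⟩ := Fr.exists_frame E
  obtain ⟨l, hl⟩ := hx Q ⟨hQ, by show Fr.sp Q ≤ D; rw [hQE]; exact hE⟩ hQ
  exact ⟨l, by rwa [hQE] at hl⟩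

variable {ι : Type} [Fintype ι] [DecidableEq ι] {c : ι → ℕ}

/-- The matrix of the conditions. -/
noncomputable def near_mat {P : Type} (m : P → Finset ι) (p : P → (Σ i, Fin (c i)) → ℂ) :
    Matrix (P × ∀ i, Fin (c i)) (∀ i, Fin (c i)) ℂ :=
  fun x e => if ∀ j, j ∉ m x.1 → e j = x.2 j then ∏ j ∈ m x.1, p x.1 ⟨j, e j⟩ else 0

theorem near_KE (T : Finset ι) {P : Type} (m : P → Finset ι) (p : P → (Σ i, Fin (c i)) → ℂ)
    (E : Submodule ℂ ((∀ i, Fin (c i)) → ℂ)) :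
    KE T m p E = Kx (near_mat m p) (fun (u : ∀ i, Fin (c i)) w => mix T w u) E := by
  ext G
  rw [mem_KE, mem_Kx]
  refine and_congr Iff.rfl ?_
  have h1 : ∀ i w, (Matrix.mulVec (near_mat m p) G) (i, w) = ctr (m i) (p i) G w := by
    intro i w
    show ∑ e, (if ∀ j, j ∉ m i → e j = w j then ∏ j ∈ m i, p i ⟨j, e j⟩ else 0) * G e = _
    unfold ctr
    refine sum_congr rfl fun e _ => ?_
    rw [ite_mul, zero_mul]
  constructor
  · intro h
    funext x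
    obtain ⟨i, w⟩ := x
    rw [h1, h i w]
    rfl
  · intro h i w
    rw [← h1, h]
    rfl

theorem near_cont {P P' : Type} (m : P → Finset ι) (f : (P' → (Σ i, Fin (c i)) → ℂ) →
    P → (Σ i, Fin (c i)) → ℂ) (hf : Continuous f) : Continuous fun r => near_mat m (f r) := by
  refine continuous_pi fun x => continuous_pi fun e => ?_
  show Continuous fun r => if ∀ j, j ∉ m x.1 → e j = x.2 j then ∏ j ∈ m x.1, f r x.1 ⟨j, e j⟩ else 0
  split_ifs
  · refine continuous_finsetProd _ fun j _ => ?_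
    exact (continuous_apply (⟨j, e j⟩ : Σ i, Fin (c i))).comp ((continuous_apply x.1).comp hf)
  · exact continuous_const

theorem near_elim {P₀ P₁ : Type} (y : P₁ → (Σ i, Fin (c i)) → ℂ) :
    Continuous fun r : P₀ → (Σ i, Fin (c i)) → ℂ => Sum.elim r y := by
  refine continuous_pi fun x => ?_
  rcases x with x | x
  · exact continuous_apply x
  · exact continuous_const

/-- The same for the spaces `KE`: two kinds of alternatives (configurations `m₁`, `m₂` of additional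
points with bounds `b₁ h`, `b₂ h` depending on `h = finrank E`). -/
theorem KE_near (T : Finset ι) {P₀ P₁ P₂ : Type} [Fintype P₀] [Fintype P₁] [Fintype P₂]
    (m₀ : P₀ → Finset ι) (m₁ : P₁ → Finset ι) (m₂ : P₂ → Finset ι) (b₁ b₂ : ℕ → ℕ)
    (D : Submodule ℂ ((∀ i, Fin (c i)) → ℂ)) (S : Set ℕ) (r₀ : P₀ → (Σ i, Fin (c i)) → ℂ)
    (H : ∀ E ≤ D, finrank ℂ E ∈ S →
      (∃ y : P₁ → (Σ i, Fin (c i)) → ℂ,
        finrank ℂ (KE T (Sum.elim m₀ m₁) (Sum.elim r₀ y) E) ≤ b₁ (finrank ℂ E)) ∨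
      ∃ y : P₂ → (Σ i, Fin (c i)) → ℂ,
        finrank ℂ (KE T (Sum.elim m₀ m₂) (Sum.elim r₀ y) E) ≤ b₂ (finrank ℂ E)) :
    ∀ᶠ r in 𝓝 r₀, ∀ E ≤ D, finrank ℂ E ∈ S →
      (∃ y : P₁ → (Σ i, Fin (c i)) → ℂ,
        finrank ℂ (KE T (Sum.elim m₀ m₁) (Sum.elim r y) E) ≤ b₁ (finrank ℂ E)) ∨
      ∃ y : P₂ → (Σ i, Fin (c i)) → ℂ,
        finrank ℂ (KE T (Sum.elim m₀ m₂) (Sum.elim r y) E) ≤ b₂ (finrank ℂ E) := by
  classical
  let Λ : Type := (P₁ → (Σ i, Fin (c i)) → ℂ) ⊕ (P₂ → (Σ i, Fin (c i)) → ℂ)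
  let R : Λ → Type := Sum.elim (fun _ => (P₀ ⊕ P₁) × ∀ i, Fin (c i))
    fun _ => (P₀ ⊕ P₂) × ∀ i, Fin (c i)
  have hR : ∀ l : Λ, Fintype (R l) := by
    rintro (l | l)
    · exact (inferInstance : Fintype ((P₀ ⊕ P₁) × ∀ i, Fin (c i)))
    · exact (inferInstance : Fintype ((P₀ ⊕ P₂) × ∀ i, Fin (c i)))
  let A : ∀ l : Λ, (P₀ → (Σ i, Fin (c i)) → ℂ) → Matrix (R l) (∀ i, Fin (c i)) ℂ := fun l =>
    match l with
    | Sum.inl y => fun r => near_mat (Sum.elim m₀ m₁) (Sum.elim r y)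
    | Sum.inr y => fun r => near_mat (Sum.elim m₀ m₂) (Sum.elim r y)
  have hA : ∀ l, Continuous (A l) := by
    rintro (y | y)
    · exact near_cont _ _ (near_elim y)
    · exact near_cont _ _ (near_elim y)
  have h1 : ∀ h ∈ range (Fintype.card (∀ i, Fin (c i)) + 1), ∀ᶠ r in 𝓝 r₀, h ∈ S → ∀ E ≤ D,
      finrank ℂ E = h → ∃ l : Λ, finrank ℂ (Kx (A l r) (fun (u : ∀ i, Fin (c i)) w => mix T w u) E) ≤
        Sum.elim (fun _ => b₁ h) (fun _ => b₂ h) l := by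
    intro h _
    by_cases hS : h ∈ S
    · refine (Kx_near_or A hA (fun (u : ∀ i, Fin (c i)) w => mix T w u)
        (Sum.elim (fun _ => b₁ h) (fun _ => b₂ h)) D h r₀ fun E hE hh => ?_).mono fun r hr _ => hr
      subst hh
      rcases H E hE hS with ⟨y, hy⟩ | ⟨y, hy⟩
      · refine ⟨Sum.inl y, ?_⟩
        rw [near_KE] at hy
        exact hy
      · refine ⟨Sum.inr y, ?_⟩
        rw [near_KE] at hy
        exact hy
    · exact Filter.Eventually.of_forall fun r h' => absurd h' hS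
  refine ((Finset.eventually_all _).2 h1).mono fun r hr E hE hS => ?_
  have h2 : finrank ℂ E ∈ range (Fintype.card (∀ i, Fin (c i)) + 1) := by
    rw [mem_range, Nat.lt_succ_iff]
    have := Submodule.finrank_le E
    rwa [finrank_fintype_fun_eq_card] at this
  obtain ⟨l, hl⟩ := hr _ h2 hS E hE rfl
  rcases l with y | y
  · refine Or.inl ⟨y, ?_⟩
    rw [near_KE]
    exact hl
  · refine Or.inr ⟨y, ?_⟩
    rw [near_KE]
    exact hl

end Pool.Agent.GD.BE
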