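import Pool.Agent.GD.BE.Vb
import Pool.Agent.GD.BE.Asg

/-!
# General d, block BETA, module NumA: the choice of the numbers of the residues

`Dc`: the data and hypotheses which are fixed in the numerical modules (`kl`, `kh` from `dens`, `lo`, `hi` from
`gain`).  `IsK K a`: the kinds `(K, a)` of additional points which occur (`1 ≤ a ≤ e`, `2 ≤ x < d`, `x = #K + a`, not
`K = ∅, a = e`).  `LOk`: `l K a` of the `L` residues get the larger number; with `y = yS P n ms K a`, `w = kh x - kl x`,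
`z = kl x + l / L * w` either `kl x = 0`, `l = 0`, `y ≤ w / L`, or `z + w / L ≤ y ≤ z + 2 * w / L`.

PROOF of `lch`: by the window (`Cls.win`; `P.nat x K * a ! = x ! * kap x`): `|y - x ! * kap x| ≤ a ! * E ≤ e ! * E`, so
`y ≤ kh x`, and `kl x = 0` or `y - kl x ≥ (d ! - e !) * E ≥ w / L` for large `L`; `ch`.
-/

set_option autoImplicit false

namespace Pool.Agent.GD.BE

open Finset

/-- Choice of the number of the residues. -/
theorem ch (kl kh y : ℝ) (h0 : 0 ≤ kl) (hw : kl < kh) (L : ℕ) (hL : 0 < L) (hy : y ≤ kh)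
    (h1 : kl = 0 ∧ 0 ≤ y ∨ (kh - kl) / L ≤ y - kl) : ∃ l : ℕ, l ≤ L ∧
      ((kl = 0 ∧ l = 0 ∧ y ≤ (kh - kl) / L) ∨
        (kl + l / L * (kh - kl) + (kh - kl) / L ≤ y ∧
          y ≤ kl + l / L * (kh - kl) + 2 * ((kh - kl) / L))) := by
  have hL' : (0 : ℝ) < L := by exact_mod_cast hL
  have hv0 : 0 < (kh - kl) / L := div_pos (sub_pos.2 hw) hL'
  have he : ∀ r : ℝ, r / L * (kh - kl) = r * ((kh - kl) / L) := fun r => by ring
  have hvL : (kh - kl) / L * L = kh - kl := div_mul_cancel₀ _ hL'.ne'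
  simp only [he]
  set v : ℝ := (kh - kl) / L with hv
  by_cases hs : y - kl < v
  · rcases h1 with ⟨h1, _⟩ | h1
    · exact ⟨0, Nat.zero_le _, Or.inl ⟨h1, rfl, by rw [h1] at hs; linarith⟩⟩
    · exact absurd h1 (not_le.2 hs)
  · have hs1 : 1 ≤ (y - kl) / v := by
      rw [le_div_iff₀ hv0, one_mul]
      exact not_lt.1 hs
    have hm1 : ((⌊(y - kl) / v⌋₊ : ℕ) : ℝ) ≤ (y - kl) / v := Nat.floor_le (by linarith)
    have hm2 : (y - kl) / v < ((⌊(y - kl) / v⌋₊ : ℕ) : ℝ) + 1 := Nat.lt_floor_add_one _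
    have hm3 : 1 ≤ ⌊(y - kl) / v⌋₊ := Nat.le_floor (by rw [Nat.cast_one]; exact hs1)
    obtain ⟨m, hm⟩ : ∃ m, ⌊(y - kl) / v⌋₊ = m + 1 := ⟨⌊(y - kl) / v⌋₊ - 1, by omega⟩
    rw [hm] at hm1 hm2
    rw [le_div_iff₀ hv0] at hm1
    rw [div_lt_iff₀ hv0] at hm2
    push_cast at hm1 hm2
    refine ⟨m, ?_, Or.inr ⟨by linarith, by linarith⟩⟩
    have h2 : (m : ℝ) * v ≤ L * v := by
      have : (L : ℝ) * v = kh - kl := by rw [mul_comm]; exact hvL
      linarith
    have h3 : (m : ℝ) ≤ L := le_of_mul_le_mul_right h2 hv0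
    exact_mod_cast h3

/-- The hypotheses. -/
structure Dc (P : Par) (E : ℝ) (kl kh : ℕ → ℚ) (kb : Finset (Fin P.J) → ℚ) (cz : ℕ)
    (lo hi : Finset (Fin P.J) → ℕ → ℕ) : Prop where
  he : 2 ≤ P.e
  hed : P.e < P.d
  hc : ∀ i < P.J, 1 ≤ P.c i
  hE : 0 < E
  h0 : ∀ x, 0 ≤ kl x ∧ kl x < kh x
  hk0 : ∀ x, P.kap x = 0 → kl x = 0
  hpos : 0 < P.kap P.e
  hkl : ∀ x, P.kap x ≠ 0 → 0 < kl x ∧ (kl x : ℝ) + P.d.factorial * E ≤ x.factorial * P.kap x
  hkh : ∀ x, (x.factorial : ℝ) * P.kap x + P.d.factorial * E ≤ kh x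
  heps : P.eps P.J ≤ E
  hkb0 : kb ∅ = 0
  hcz : 0 < cz
  hlo : ∀ K a, (lo K a : ℚ) = dK P.d P.e kl K a * (∏ i ∈ K, (P.c i : ℚ)) * (cz : ℚ) ^ a
  hhi : ∀ K a, (hi K a : ℚ) = dK P.d P.e kh K a * (∏ i ∈ K, (P.c i : ℚ)) * (cz : ℚ) ^ a

/-- The kinds of the additional points. -/
def IsK {J : ℕ} (d e : ℕ) (K : Finset (Fin J)) (a : ℕ) : Prop :=
  1 ≤ a ∧ a ≤ e ∧ 2 ≤ K.card + a ∧ K.card + a < d ∧ ¬ (K.card = 0 ∧ a = e)

/-- The mean density for `l` of `L` residues. -/
noncomputable def zl (kl kh : ℕ → ℚ) (L : ℕ) (x l : ℕ) : ℝ :=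
  (kl x : ℝ) + (l : ℝ) / L * ((kh x : ℝ) - kl x)

/-- The numbers of the residues are right. -/
structure LOk (P : Par) (kl kh : ℕ → ℚ) (L n : ℕ) (ms : Multiset Kd)
    (l : Finset (Fin P.J) → ℕ → ℕ) : Prop where
  le : ∀ K a, l K a ≤ L
  zero : ∀ K a, ¬ IsK P.d P.e K a → l K a = 0
  ok : ∀ K a, IsK P.d P.e K a →
    (kl (K.card + a) = 0 ∧ l K a = 0 ∧
      yS P n ms K a ≤ ((kh (K.card + a) : ℝ) - kl (K.card + a)) / L) ∨
    (zl kl kh L (K.card + a) (l K a) + ((kh (K.card + a) : ℝ) - kl (K.card + a)) / L ≤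
        yS P n ms K a ∧
      yS P n ms K a ≤ zl kl kh L (K.card + a) (l K a) +
        2 * (((kh (K.card + a) : ℝ) - kl (K.card + a)) / L))

/-- the densities are in the windows -/
private theorem yS_win (P : Par) {E : ℝ} {kl kh : ℕ → ℚ} {kb : Finset (Fin P.J) → ℚ} {cz : ℕ}
    {lo hi : Finset (Fin P.J) → ℕ → ℕ} (h : Dc P E kl kh kb cz lo hi) {n : ℕ} (hn : 1 ≤ n)
    {ms : Multiset Kd} (hc : Cls P P.J n ms) {K : Finset (Fin P.J)} {a : ℕ}
    (hK : IsK P.d P.e K a) :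
    0 ≤ yS P n ms K a ∧ |yS P n ms K a - ((K.card + a).factorial : ℝ) * P.kap (K.card + a)| ≤
      P.e.factorial * E := by
  obtain ⟨ha1, hae, hx2, hxd, hne⟩ := hK
  have hsub : K.map Fin.valEmbedding ⊆ range P.J := by
    intro i hi
    rw [mem_map] at hi
    obtain ⟨j, _, rfl⟩ := hi
    exact mem_range.2 j.2
  have hsd : range P.J \ (range P.J \ K.map Fin.valEmbedding) = K.map Fin.valEmbedding := by
    rw [sdiff_sdiff_right_self]
    exact inter_eq_right.2 hsub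
  have hcard : (K.map Fin.valEmbedding).card = K.card := card_map _
  have hwin := hc.win (K.card + a) (range P.J \ K.map Fin.valEmbedding) hx2 hxd sdiff_subset
    (by rw [hsd, hcard]; omega) (by
      by_contra hcon
      push Not at hcon
      obtain ⟨h1, h2⟩ := hcon
      have h3 : K.map Fin.valEmbedding = ∅ := by rw [← hsd, h2, sdiff_self]; rfl
      have h4 : K.card = 0 := by rw [← hcard, h3, card_empty]
      exact hne ⟨h4, by omega⟩)
  rw [hsd, hcard, Nat.add_sub_cancel_left] at hwin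
  have hcc : (P.cc (K.map Fin.valEmbedding) : ℝ) = ∏ i ∈ K, (P.c i : ℝ) := by
    unfold Par.cc
    rw [prod_map]
    push_cast
    rfl
  rw [hcc] at hwin
  have hcc0 : 0 < ∏ i ∈ K, (P.c i : ℝ) :=
    prod_pos fun i _ => by exact_mod_cast h.hc i i.2
  have hn0 : 0 < (n : ℝ) ^ a := pow_pos (by exact_mod_cast hn) a
  have hZ : 0 < (∏ i ∈ K, (P.c i : ℝ)) * (n : ℝ) ^ a := mul_pos hcc0 hn0
  have hfac : (a.factorial : ℝ) * P.nat (K.card + a) (K.map Fin.valEmbedding) =
      ((K.card + a).factorial : ℝ) * P.kap (K.card + a) := by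
    unfold Par.nat
    rw [hcard]
    have h1 : a.factorial * (K.card + a).descFactorial K.card = (K.card + a).factorial := by
      have := Nat.factorial_mul_descFactorial (show K.card ≤ K.card + a by omega)
      rwa [Nat.add_sub_cancel_left] at this
    rw [← h1]
    push_cast
    ring
  have ha0 : (0 : ℝ) < a.factorial := by exact_mod_cast Nat.factorial_pos a
  refine ⟨?_, ?_⟩
  · unfold yS
    positivity
  · rw [← hfac]
    have e1 : yS P n ms K a - (a.factorial : ℝ) * P.nat (K.card + a) (K.map Fin.valEmbedding) =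
        a.factorial * (((npt ms (K.card + a) (range P.J \ K.map Fin.valEmbedding) : ℝ) -
          P.nat (K.card + a) (K.map Fin.valEmbedding) * (∏ i ∈ K, (P.c i : ℝ)) * (n : ℝ) ^ a) /
            ((∏ i ∈ K, (P.c i : ℝ)) * (n : ℝ) ^ a)) := by
      unfold yS
      field_simp
    rw [e1, abs_mul, abs_of_pos ha0, abs_div, abs_of_pos hZ]
    have h1 : |(npt ms (K.card + a) (range P.J \ K.map Fin.valEmbedding) : ℝ) -
          P.nat (K.card + a) (K.map Fin.valEmbedding) * (∏ i ∈ K, (P.c i : ℝ)) * (n : ℝ) ^ a| /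
            ((∏ i ∈ K, (P.c i : ℝ)) * (n : ℝ) ^ a) ≤ E := by
      rw [div_le_iff₀ hZ]
      refine hwin.trans ?_
      rw [mul_assoc]
      exact mul_le_mul_of_nonneg_right h.heps hZ.le
    exact mul_le_mul (by exact_mod_cast Nat.factorial_le hae) h1 (by positivity) (by positivity)

theorem lch (P : Par) {E : ℝ} {kl kh : ℕ → ℚ} {kb : Finset (Fin P.J) → ℚ} {cz : ℕ}
    {lo hi : Finset (Fin P.J) → ℕ → ℕ} (h : Dc P E kl kh kb cz lo hi) :
    ∃ L₀ : ℕ, 0 < L₀ ∧ ∀ L, L₀ ≤ L → ∀ n, 1 ≤ n → ∀ ms, Cls P P.J n ms →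
      ∃ l, LOk P kl kh L n ms l := by
  classical
  have hfe : (P.e.factorial : ℝ) < P.d.factorial := by
    have := Nat.factorial_lt (show 0 < P.e by have := h.he; omega) |>.2 h.hed
    exact_mod_cast this
  have hδ : 0 < ((P.d.factorial : ℝ) - P.e.factorial) * E := mul_pos (by linarith) h.hE
  -- the bound for L
  obtain ⟨L₀, hL₀⟩ : ∃ L₀ : ℕ, ∀ x ∈ range P.d, ((kh x : ℝ) - kl x) ≤
      L₀ * (((P.d.factorial : ℝ) - P.e.factorial) * E) := by
    have h1 : ∀ x : ℕ, ∃ N : ℕ, ((kh x : ℝ) - kl x) ≤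
        N * (((P.d.factorial : ℝ) - P.e.factorial) * E) := by
      intro x
      obtain ⟨N, hN⟩ := exists_nat_ge (((kh x : ℝ) - kl x) /
        (((P.d.factorial : ℝ) - P.e.factorial) * E))
      exact ⟨N, (div_le_iff₀ hδ).1 hN⟩
    choose N hN using h1
    refine ⟨∑ x ∈ range P.d, N x, fun x hx => (hN x).trans ?_⟩
    refine mul_le_mul_of_nonneg_right ?_ hδ.le
    exact_mod_cast single_le_sum (f := N) (fun _ _ => Nat.zero_le _) hx
  refine ⟨L₀ + 1, Nat.succ_pos _, fun L hL n hn ms hcls => ?_⟩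
  have hL0 : 0 < L := by omega
  have hL' : (0 : ℝ) < L := by exact_mod_cast hL0
  have key : ∀ K : Finset (Fin P.J), ∀ a : ℕ, ∃ l : ℕ, l ≤ L ∧ (¬ IsK P.d P.e K a → l = 0) ∧
      (IsK P.d P.e K a →
        (kl (K.card + a) = 0 ∧ l = 0 ∧
          yS P n ms K a ≤ ((kh (K.card + a) : ℝ) - kl (K.card + a)) / L) ∨
        (zl kl kh L (K.card + a) l + ((kh (K.card + a) : ℝ) - kl (K.card + a)) / L ≤
            yS P n ms K a ∧
          yS P n ms K a ≤ zl kl kh L (K.card + a) l +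
            2 * (((kh (K.card + a) : ℝ) - kl (K.card + a)) / L))) := by
    intro K a
    by_cases hK : IsK P.d P.e K a
    · obtain ⟨hy0, hy⟩ := yS_win P h hn hcls hK
      obtain ⟨hy1, hy2⟩ := abs_le.1 hy
      obtain ⟨hk1, hk2⟩ := h.h0 (K.card + a)
      have hk1' : (0 : ℝ) ≤ kl (K.card + a) := by exact_mod_cast hk1
      have hk2' : (kl (K.card + a) : ℝ) < kh (K.card + a) := by exact_mod_cast hk2
      have hfe' : (P.e.factorial : ℝ) * E ≤ P.d.factorial * E :=
        mul_le_mul_of_nonneg_right hfe.le h.hE.le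
      have hkh := h.hkh (K.card + a)
      obtain ⟨l, hl1, hl2⟩ := ch (kl (K.card + a)) (kh (K.card + a)) (yS P n ms K a) hk1' hk2' L hL0
        (by linarith) (by
          by_cases hkap : P.kap (K.card + a) = 0
          · left
            exact ⟨by exact_mod_cast h.hk0 _ hkap, hy0⟩
          · right
            have hkl := (h.hkl _ hkap).2
            rw [div_le_iff₀ hL']
            have h2 := hL₀ (K.card + a) (mem_range.2 hK.2.2.2.1)
            have h3 : (L₀ : ℝ) ≤ L := by exact_mod_cast (by omega : L₀ ≤ L)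
            have h4 : (L₀ : ℝ) * (((P.d.factorial : ℝ) - P.e.factorial) * E) ≤
                L * (((P.d.factorial : ℝ) - P.e.factorial) * E) :=
              mul_le_mul_of_nonneg_right h3 hδ.le
            have h5 : ((P.d.factorial : ℝ) - P.e.factorial) * E ≤
                yS P n ms K a - kl (K.card + a) := by linarith
            have h6 := mul_le_mul_of_nonneg_left h5 hL'.le
            linarith)
      refine ⟨l, hl1, fun h0 => absurd hK h0, fun _ => ?_⟩
      rcases hl2 with ⟨h1, h2, h3⟩ | ⟨h1, h2⟩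
      · left
        exact ⟨by exact_mod_cast h1, h2, h3⟩
      · right
        exact ⟨h1, h2⟩
    · exact ⟨0, Nat.zero_le _, fun _ => rfl, fun h0 => absurd h0 hK⟩
  choose l hl1 hl2 hl3 using key
  exact ⟨l, ⟨hl1, hl2, hl3⟩⟩

/-- The class without points of the main kind and with given base numbers. -/
structure Ck (P : Par) (kb : Finset (Fin P.J) → ℚ) (n : ℕ) (ms : Multiset Kd) : Prop where
  cls : Cls P P.J n ms
  u : ms.count (P.u P.J) = 0
  base : ∀ K : Finset (Fin P.J), (npt ms K.card (range P.J \ K.map Fin.valEmbedding) : ℚ) =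
    kb K * ∏ i ∈ K, (P.c i : ℚ)

/-- The number of the blocks is `e * (2 * s) * qz`. -/
def qz (e s L cz m : ℕ) : ℕ := L * (m / (e * (2 * s) * L * cz))

end Pool.Agent.GD.BE
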