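import Pool.Agent.GD.BE.NumA

/-!
# General d, block BETA, module NumU: enough points

`q = e * (2 * s) * qz e s L cz m` satisfies `L ∣ q`, `q * cz ≤ m < q * cz + e * (2 * s) * L * cz`.  There are finitely
many functions `l` with `LOk` (`l K a ≤ L`, `l K a = 0` unless `a ≤ e`), so the constants of `used` are uniform.
`numU`: if `l K a = 0`, `kl x = 0` (or `(K, a)` is not a kind of `IsK`) no point is used: `nb ν S = lo = 0` (`hi = lo =
0`).  Otherwise `nPB = q ^ a / a ! * (∏ c) * cz ^ a * z + O(n ^ (a - 1)) ≤ n ^ a / a ! * (∏ c) * (y - w / L) + O(n ^ (a - 1))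
= npt - (w / L) * (∏ c) * n ^ a / a ! + O(n ^ (a - 1))` (`nPB_eq`, `used`).
`numD`: `two_nb` for `a = e - 1`, `K = {i}`, `lo {i} (e - 1) = kl e * c i * cz ^ (e - 1)`, `q * cz ≥ n / 2`.
-/

set_option autoImplicit false

namespace Pool.Agent.GD.BE

open Finset

theorem qz_bd {e s L cz : ℕ} (he : 0 < e) (hs : 0 < s) (hL : 0 < L) (hcz : 0 < cz) (m : ℕ) :
    L ∣ e * (2 * s) * qz e s L cz m ∧ e * (2 * s) * qz e s L cz m * cz ≤ m ∧
      m < e * (2 * s) * qz e s L cz m * cz + e * (2 * s) * L * cz := by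
  have hD : 0 < e * (2 * s) * L * cz := by positivity
  have h1 : e * (2 * s) * qz e s L cz m * cz =
      (e * (2 * s) * L * cz) * (m / (e * (2 * s) * L * cz)) := by
    unfold qz
    ring
  refine ⟨?_, ?_, ?_⟩
  · refine ⟨e * (2 * s) * (m / (e * (2 * s) * L * cz)), ?_⟩
    unfold qz
    ring
  · rw [h1]
    exact Nat.mul_div_le m _
  · rw [h1]
    have h2 := Nat.div_add_mod m (e * (2 * s) * L * cz)
    have h3 := Nat.mod_lt m hD
    omega

/-- The numbers depend only on one value of `l`. -/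
private theorem NumU_l {J : ℕ} (lo hi l : Finset (Fin J) → ℕ → ℕ) (L q : ℕ)
    (K : Finset (Fin J)) (a : ℕ) :
    nPB (⟨lo, hi, l, L⟩ : Nos J) q K a = nPB (⟨lo, hi, fun _ _ => l K a, L⟩ : Nos J) q K a := by
  rw [nPB_eq, nPB_eq]
  refine sum_congr rfl fun S hS => ?_
  obtain ⟨h1, h2⟩ := (mem_filter.1 hS).2
  unfold nb
  simp only [h1, h2]

/-- No points. -/
private theorem NumU_zero {J : ℕ} (ν : Nos J) (q : ℕ) (K : Finset (Fin J)) (a : ℕ)
    (h : ν.lo K a = 0) (h' : ν.hi K a = 0 ∨ ν.l K a = 0) : nPB ν q K a = 0 := by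
  rw [nPB_eq]
  refine sum_eq_zero fun S hS => ?_
  obtain ⟨h1, h2⟩ := (mem_filter.1 hS).2
  unfold nb
  simp only [h1, h2]
  split_ifs with h3 h4
  · rcases h' with h5 | h5
    · exact h5
    · rw [h5] at h4
      exact absurd h4 (Nat.not_lt_zero _)
  · exact h
  · rfl

/-- The estimate for one kind and one value of `l`. -/
private theorem NumU_one {J : ℕ} (lo hi : Finset (Fin J) → ℕ → ℕ) {e s L cz : ℕ} (he : 0 < e)
    (hs : 0 < s) (hL : 0 < L) (hcz : 0 < cz) (K : Finset (Fin J)) (a : ℕ) (ha : 1 ≤ a) (v : ℕ)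
    (hv : v ≤ L) (σ : ℕ) (pc kl kh : ℝ) (hpc : 0 < pc) (hkl : 0 ≤ kl) (hw : kl < kh)
    (hlo : (lo K a : ℝ) = kl * pc * (cz : ℝ) ^ a) (hhi : (hi K a : ℝ) = kh * pc * (cz : ℝ) ^ a)
    (C₁ : ℝ) : ∃ n₀ : ℕ, ∀ n, n₀ ≤ n → ∀ m, m + σ = n →
      (nPB (⟨lo, hi, fun _ _ => v, L⟩ : Nos J) (e * (2 * s) * qz e s L cz m) K a : ℝ) +
        C₁ * (n : ℝ) ^ (a - 1) ≤
        (kl + (v : ℝ) / L * (kh - kl) + (kh - kl) / L) * pc * (n : ℝ) ^ a / a.factorial := by
  obtain ⟨C, hC0, hC⟩ := used (⟨lo, hi, fun _ _ => v, L⟩ : Nos J) hL K a ha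
  have hLR : (0 : ℝ) < L := by exact_mod_cast hL
  have hfac : (0 : ℝ) < a.factorial := by exact_mod_cast a.factorial_pos
  have hw0 : 0 < kh - kl := sub_pos.2 hw
  set θ : ℝ := (kh - kl) / L * pc / a.factorial with hθ
  have hθ0 : 0 < θ := by positivity
  refine ⟨σ + e * (2 * s) * L * cz + ⌈(C + |C₁|) / θ⌉₊, fun n hn m hm => ?_⟩
  set q := e * (2 * s) * qz e s L cz m with hq
  obtain ⟨hq1, hq2, hq3⟩ := qz_bd (m := m) he hs hL hcz
  rw [← hq] at hq1 hq2 hq3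
  have hq0 : 1 ≤ q := by
    rcases Nat.eq_zero_or_pos q with h0 | h0
    · rw [h0, zero_mul, zero_add] at hq3
      omega
    · exact h0
  have hqn : q ≤ n := by
    have h1 : q * 1 ≤ q * cz := Nat.mul_le_mul_left q hcz
    omega
  have hn1 : 1 ≤ n := hq0.trans hqn
  have hnR : (1 : ℝ) ≤ n := by exact_mod_cast hn1
  have hczR : (0 : ℝ) < cz := by exact_mod_cast hcz
  have hb := hC q hq1 hq0
  rw [← nPB_eq] at hb
  have hmix : nmix (⟨lo, hi, fun _ _ => v, L⟩ : Nos J) K a =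
      (kl + (v : ℝ) / L * (kh - kl)) * pc * (cz : ℝ) ^ a := by
    unfold nmix
    simp only [min_eq_left hv]
    rw [hlo, hhi]
    ring
  rw [hmix] at hb
  set z : ℝ := kl + (v : ℝ) / L * (kh - kl) with hz
  have hz0 : 0 ≤ z := by
    have : 0 ≤ (v : ℝ) / L * (kh - kl) := by positivity
    linarith
  have h1 : (nPB (⟨lo, hi, fun _ _ => v, L⟩ : Nos J) q K a : ℝ) ≤
      (q : ℝ) ^ a / a.factorial * (z * pc * (cz : ℝ) ^ a) + C * (q : ℝ) ^ (a - 1) := by
    have := (abs_le.1 hb).2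
    linarith
  have h2 : (q : ℝ) ^ a * (cz : ℝ) ^ a ≤ (n : ℝ) ^ a := by
    rw [← mul_pow]
    refine pow_le_pow_left₀ (by positivity) ?_ a
    have : q * cz ≤ n := by omega
    exact_mod_cast this
  have h3 : (q : ℝ) ^ a / a.factorial * (z * pc * (cz : ℝ) ^ a) ≤
      z * pc * (n : ℝ) ^ a / a.factorial := by
    have e1 : (q : ℝ) ^ a / a.factorial * (z * pc * (cz : ℝ) ^ a) =
        z * pc * ((q : ℝ) ^ a * (cz : ℝ) ^ a) / a.factorial := by ring
    rw [e1]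
    refine div_le_div_of_nonneg_right ?_ hfac.le
    exact mul_le_mul_of_nonneg_left h2 (by positivity)
  have h4 : C * (q : ℝ) ^ (a - 1) ≤ C * (n : ℝ) ^ (a - 1) := by
    refine mul_le_mul_of_nonneg_left ?_ hC0
    refine pow_le_pow_left₀ (by positivity) ?_ _
    exact_mod_cast hqn
  have hpn : (0 : ℝ) ≤ (n : ℝ) ^ (a - 1) := by positivity
  have h5 : (C + |C₁|) ≤ θ * n := by
    have h6 : (C + |C₁|) / θ ≤ n := by
      refine (Nat.le_ceil _).trans ?_
      have : ⌈(C + |C₁|) / θ⌉₊ ≤ n := by omega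
      exact_mod_cast this
    rw [div_le_iff₀ hθ0] at h6
    linarith
  have h6 : (C + C₁) * (n : ℝ) ^ (a - 1) ≤ θ * (n : ℝ) ^ a := by
    have e1 : (n : ℝ) ^ a = n * (n : ℝ) ^ (a - 1) := by
      rw [← pow_succ']
      congr 1
      omega
    rw [e1, ← mul_assoc]
    refine mul_le_mul_of_nonneg_right ?_ hpn
    have := le_abs_self C₁
    linarith
  have e2 : (z + (kh - kl) / L) * pc * (n : ℝ) ^ a / a.factorial =
      z * pc * (n : ℝ) ^ a / a.factorial + θ * (n : ℝ) ^ a := by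
    rw [hθ]
    ring
  rw [e2]
  have h7 : (C + C₁) * (n : ℝ) ^ (a - 1) = C * (n : ℝ) ^ (a - 1) + C₁ * (n : ℝ) ^ (a - 1) := by
    ring
  linarith

private theorem NumU_pc (P : Par) (hc : ∀ i < P.J, 1 ≤ P.c i) (K : Finset (Fin P.J)) :
    (0 : ℝ) < ∏ i ∈ K, (P.c i : ℝ) := by
  refine prod_pos fun i _ => ?_
  have := hc i i.2
  exact_mod_cast this

private theorem NumU_dK {J : ℕ} {d e : ℕ} {k : ℕ → ℚ} {K : Finset (Fin J)} {a : ℕ}
    (h : IsK d e K a) : dK d e k K a = k (K.card + a) := by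
  unfold dK
  exact if_pos h

private theorem NumU_dK0 {J : ℕ} {d e : ℕ} {k : ℕ → ℚ} {K : Finset (Fin J)} {a : ℕ}
    (h : ¬ IsK d e K a) : dK d e k K a = 0 := by
  unfold dK
  exact if_neg h

private theorem NumU_num {J : ℕ} {d e : ℕ} {k : ℕ → ℚ} {K : Finset (Fin J)} {a cz : ℕ}
    {c : ℕ → ℕ} {x : ℕ} (hx : (x : ℚ) = dK d e k K a * (∏ i ∈ K, (c i : ℚ)) * (cz : ℚ) ^ a)
    (h : IsK d e K a) :
    (x : ℝ) = (k (K.card + a) : ℝ) * (∏ i ∈ K, (c i : ℝ)) * (cz : ℝ) ^ a := by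
  rw [NumU_dK h] at hx
  have h1 : ((x : ℚ) : ℝ) = (x : ℝ) := by push_cast; rfl
  rw [← h1, hx]
  push_cast
  rfl

theorem numU (P : Par) {E : ℝ} {kl kh : ℕ → ℚ} {kb : Finset (Fin P.J) → ℚ} {cz : ℕ}
    {lo hi : Finset (Fin P.J) → ℕ → ℕ} (h : Dc P E kl kh kb cz lo hi) (s : ℕ) (hs : 0 < s)
    (L : ℕ) (hL : 0 < L) (C₁ : ℝ) :
    ∃ n₀ : ℕ, ∀ n, n₀ ≤ n → ∀ m, m + ∑ i ∈ range P.J, P.c i = n → ∀ ms, Ck P kb n ms →
      ∀ l, LOk P kl kh L n ms l → ∀ (K : Finset (Fin P.J)) (a : ℕ), 1 ≤ a →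
        nPB ⟨lo, hi, l, L⟩ (P.e * (2 * s) * qz P.e s L cz m) K a = 0 ∨
        (nPB ⟨lo, hi, l, L⟩ (P.e * (2 * s) * qz P.e s L cz m) K a : ℝ) +
          C₁ * (n : ℝ) ^ (a - 1) ≤
            npt ms (K.card + a) (range P.J \ K.map Fin.valEmbedding) := by
  classical
  have he : 0 < P.e := by have := h.he; omega
  have key : ∀ (K : Finset (Fin P.J)) (a v : ℕ), ∃ n₀ : ℕ, IsK P.d P.e K a → v ≤ L →
      ∀ n, n₀ ≤ n → ∀ m, m + ∑ i ∈ range P.J, P.c i = n →
      (nPB (⟨lo, hi, fun _ _ => v, L⟩ : Nos P.J) (P.e * (2 * s) * qz P.e s L cz m) K a : ℝ) +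
        C₁ * (n : ℝ) ^ (a - 1) ≤
        (zl kl kh L (K.card + a) v + ((kh (K.card + a) : ℝ) - kl (K.card + a)) / L) *
          (∏ i ∈ K, (P.c i : ℝ)) * (n : ℝ) ^ a / a.factorial := by
    intro K a v
    by_cases hK : IsK P.d P.e K a ∧ v ≤ L
    · obtain ⟨hK, hv⟩ := hK
      have h0 := h.h0 (K.card + a)
      obtain ⟨n₀, hn₀⟩ := NumU_one lo hi he hs hL h.hcz K a hK.1 v hv
        (∑ i ∈ range P.J, P.c i) (∏ i ∈ K, (P.c i : ℝ)) (kl (K.card + a) : ℝ)
        (kh (K.card + a) : ℝ) (NumU_pc P h.hc K) (by exact_mod_cast h0.1)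
        (by exact_mod_cast h0.2) (NumU_num (h.hlo K a) hK) (NumU_num (h.hhi K a) hK) C₁
      exact ⟨n₀, fun _ _ => hn₀⟩
    · exact ⟨0, fun h1 h2 => absurd ⟨h1, h2⟩ hK⟩
  choose N hN using key
  refine ⟨1 + ∑ K : Finset (Fin P.J), ∑ a ∈ range (P.e + 1), ∑ v ∈ range (L + 1), N K a v,
    fun n hn m hm ms hms l hl K a ha => ?_⟩
  by_cases hK : IsK P.d P.e K a
  · rcases hl.ok K a hK with ⟨h1, h2, _⟩ | ⟨h1, _⟩
    · left
      refine NumU_zero _ _ K a ?_ (Or.inr h2)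
      have h3 := NumU_num (h.hlo K a) hK
      rw [h1] at h3
      simp only [Rat.cast_zero, zero_mul] at h3
      exact_mod_cast h3
    · right
      have hle : l K a ≤ L := hl.le K a
      have hNn : N K a (l K a) ≤ n := by
        have s1 : N K a (l K a) ≤ ∑ v ∈ range (L + 1), N K a v :=
          single_le_sum (f := fun v => N K a v) (fun _ _ => Nat.zero_le _)
            (mem_range.2 (by omega))
        have s2 : ∑ v ∈ range (L + 1), N K a v ≤
            ∑ a ∈ range (P.e + 1), ∑ v ∈ range (L + 1), N K a v :=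
          single_le_sum (f := fun a => ∑ v ∈ range (L + 1), N K a v) (fun _ _ => Nat.zero_le _)
            (mem_range.2 (by have := hK.2.1; omega))
        have s3 : ∑ a ∈ range (P.e + 1), ∑ v ∈ range (L + 1), N K a v ≤
            ∑ K : Finset (Fin P.J), ∑ a ∈ range (P.e + 1), ∑ v ∈ range (L + 1), N K a v :=
          single_le_sum (f := fun K : Finset (Fin P.J) =>
            ∑ a ∈ range (P.e + 1), ∑ v ∈ range (L + 1), N K a v) (fun _ _ => Nat.zero_le _)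
            (mem_univ K)
        omega
      have h3 := hN K a (l K a) hK hle n hNn m hm
      rw [← NumU_l] at h3
      refine h3.trans ?_
      have hnpos : (0 : ℝ) < n := by
        have : 1 ≤ n := by omega
        exact_mod_cast this
      have hpc := NumU_pc P h.hc K
      have hfac : (0 : ℝ) < a.factorial := by exact_mod_cast a.factorial_pos
      have h4 : (npt ms (K.card + a) (range P.J \ K.map Fin.valEmbedding) : ℝ) =
          yS P n ms K a * (∏ i ∈ K, (P.c i : ℝ)) * (n : ℝ) ^ a / a.factorial := by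
        unfold yS
        field_simp
      rw [h4]
      refine div_le_div_of_nonneg_right ?_ hfac.le
      refine mul_le_mul_of_nonneg_right ?_ (by positivity)
      exact mul_le_mul_of_nonneg_right h1 hpc.le
  · left
    have h1 : lo K a = 0 := by
      have h2 := h.hlo K a
      rw [NumU_dK0 hK] at h2
      simp only [zero_mul] at h2
      exact_mod_cast h2
    have h1' : hi K a = 0 := by
      have h2 := h.hhi K a
      rw [NumU_dK0 hK] at h2
      simp only [zero_mul] at h2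
      exact_mod_cast h2
    exact NumU_zero _ _ K a h1 (Or.inl h1')

open Classical in
theorem numD (P : Par) {E : ℝ} {kl kh : ℕ → ℚ} {kb : Finset (Fin P.J) → ℚ} {cz : ℕ}
    {lo hi : Finset (Fin P.J) → ℕ → ℕ} (h : Dc P E kl kh kb cz lo hi) (s : ℕ) (hs : 0 < 2 * s)
    (L : ℕ) (hL : 0 < L)
    (hM : ∀ i < P.J, 16 * ((P.e - 1).factorial : ℝ) * 2 ^ (P.e - 1) * (P.d ^ 2 * P.M : ℕ) ≤
      (kl P.e : ℝ) * P.c i) :
    ∃ n₀ : ℕ, ∀ n, n₀ ≤ n → ∀ m, m + ∑ i ∈ range P.J, P.c i = n →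
      ∀ l, ∀ (i : Fin P.J) (side : Bool), P.d ^ 2 * P.M * n ^ (P.e - 1) ≤
          ((univ : Finset (PB (⟨lo, hi, l, L⟩ : Nos P.J)
              (P.e * (2 * s) * qz P.e s L cz m))).filter fun u =>
            lf u.1 = {i} ∧ (rt u.1).card = P.e - 1 ∧ cls hs (rt u.1) = side).card := by
  have he2 := h.he
  have hed := h.hed
  have he : 0 < P.e := by omega
  have hs' : 0 < s := by omega
  have key := fun i : Fin P.J => two_nb P.e (P.e - 1) s (by omega) (by omega) hs {i}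
  choose Q hQ using key
  refine ⟨2 * (∑ i ∈ range P.J, P.c i + P.e * (2 * s) * L * cz) +
    P.e * (2 * s) * L * cz * (∑ i, Q i) + ∑ i ∈ range P.J, P.c i + 1,
    fun n hn m hm l i side => ?_⟩
  set D := P.e * (2 * s) * L * cz with hD
  have hD0 : 0 < D := by
    have := h.hcz
    positivity
  set σ := ∑ i ∈ range P.J, P.c i with hσ
  have hQi : Q i ≤ ∑ i, Q i := single_le_sum (f := Q) (fun _ _ => Nat.zero_le _) (mem_univ i)
  have hq₀ : Q i ≤ qz P.e s L cz m := by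
    have h1 : Q i ≤ m / D := by
      rw [Nat.le_div_iff_mul_le hD0]
      have h2 : Q i * D ≤ (∑ i, Q i) * D := Nat.mul_le_mul_right D hQi
      have h3 : (∑ i, Q i) * D = D * (∑ i, Q i) := mul_comm _ _
      omega
    have h2 : m / D ≤ qz P.e s L cz m := by
      unfold qz
      exact Nat.le_mul_of_pos_left _ hL
    exact h1.trans h2
  have hK : IsK P.d P.e ({i} : Finset (Fin P.J)) (P.e - 1) := by
    refine ⟨by omega, by omega, ?_, ?_, ?_⟩
    · rw [card_singleton]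
      omega
    · rw [card_singleton]
      omega
    · rw [card_singleton]
      rintro ⟨h1, _⟩
      exact one_ne_zero h1
  have hx : ({i} : Finset (Fin P.J)).card + (P.e - 1) = P.e := by
    rw [card_singleton]
    omega
  have hlo := NumU_num (h.hlo {i} (P.e - 1)) hK
  have hhi := NumU_num (h.hhi {i} (P.e - 1)) hK
  rw [hx, prod_singleton] at hlo hhi
  have hle : lo {i} (P.e - 1) ≤ hi {i} (P.e - 1) := by
    have h1 : (lo {i} (P.e - 1) : ℝ) ≤ hi {i} (P.e - 1) := by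
      rw [hlo, hhi]
      have h2 : (kl P.e : ℝ) ≤ kh P.e := by exact_mod_cast (h.h0 P.e).2.le
      gcongr
    exact_mod_cast h1
  have h1 := hQ i (qz P.e s L cz m) hq₀ (⟨lo, hi, l, L⟩ : Nos P.J) hle side
  have h2 : ((P.d ^ 2 * P.M * n ^ (P.e - 1) : ℕ) : ℝ) ≤
      ((P.e * (2 * s) * qz P.e s L cz m : ℕ) : ℝ) ^ (P.e - 1) / (16 * (P.e - 1).factorial) *
        lo {i} (P.e - 1) := by
    set q := P.e * (2 * s) * qz P.e s L cz m with hq
    obtain ⟨_, _, hq3⟩ := qz_bd (m := m) he hs' hL h.hcz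
    rw [← hq, ← hD] at hq3
    have h3 : (n : ℝ) / 2 ≤ (q : ℝ) * cz := by
      rw [div_le_iff₀ (by norm_num : (0 : ℝ) < 2)]
      have : n ≤ q * cz * 2 := by omega
      exact_mod_cast this
    have h4 : ((n : ℝ) / 2) ^ (P.e - 1) ≤ ((q : ℝ) * cz) ^ (P.e - 1) :=
      pow_le_pow_left₀ (by positivity) h3 _
    have hfac : (0 : ℝ) < (P.e - 1).factorial := by exact_mod_cast (P.e - 1).factorial_pos
    have h5 := hM i i.2
    rw [hlo]
    have e1 : (q : ℝ) ^ (P.e - 1) / (16 * (P.e - 1).factorial) *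
        ((kl P.e : ℝ) * P.c i * (cz : ℝ) ^ (P.e - 1)) =
        ((q : ℝ) * cz) ^ (P.e - 1) * ((kl P.e : ℝ) * P.c i) / (16 * (P.e - 1).factorial) := by
      rw [mul_pow]
      ring
    rw [e1, le_div_iff₀ (by positivity)]
    have e2 : ((P.d ^ 2 * P.M * n ^ (P.e - 1) : ℕ) : ℝ) * (16 * (P.e - 1).factorial) =
        ((n : ℝ) / 2) ^ (P.e - 1) *
          (16 * ((P.e - 1).factorial : ℝ) * 2 ^ (P.e - 1) * (P.d ^ 2 * P.M : ℕ)) := by
      rw [div_pow]
      push_cast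
      field_simp
    rw [e2]
    have h6 : (0 : ℝ) ≤ 16 * ((P.e - 1).factorial : ℝ) * 2 ^ (P.e - 1) * (P.d ^ 2 * P.M : ℕ) := by
      positivity
    exact mul_le_mul h4 h5 h6 (by positivity)
  have h3 := h2.trans h1
  exact_mod_cast h3

end Pool.Agent.GD.BE
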