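import Pool.Agent.GD.BE.Defs

/-!
# General d, block BETA, module Numc: the numbers of the components

`T` base slots, `I ⊆ T` active ones, `κ` admissible.  `ku T I κ = F (I ∪ Tᶜ) / F I` is the
critical density of the units, `kU T I κ` the densities with the units.  For a slot `i₀ ∈ I` and a kind
`insert i₀ B` (`B ⊆ (I \ i₀) ∪ Tᶜ`, `B ≠ ∅`) the component has the densities `kC T I κ i₀ B`: the kinds
inside `(I \ i₀) ∪ Tᶜ` and `σ` more points of kind `B`, `σ = sg T I κ i₀ B`.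
-/

set_option autoImplicit false

namespace Pool.Agent.GD.BE

open Finset

variable {ι : Type} [Fintype ι] [DecidableEq ι]

/-- `FF` depends only on the densities of the subsets. -/
theorem FF_congr {κ κ' : Finset ι → ℚ} {J : Finset ι} (h : ∀ S ⊆ J, S ≠ ∅ → κ S = κ' S) :
    FF κ J = FF κ' J := by
  unfold FF
  refine Finset.sum_congr rfl fun P hP => Finset.prod_congr rfl fun S hS => ?_
  rw [mem_Dj] at hP
  rw [h S (hP.1 S hS) fun h0 => hP.2.1 (h0 ▸ hS)]

/-- `FF` after adding points of kind `A`. -/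
theorem FF_modK (κ : Finset ι → ℚ) {A : Finset ι} (hA : A ≠ ∅) (σ : ℚ) (J : Finset ι) :
    FF (modK κ A σ) J = FF κ J - if A ⊆ J then σ * FF κ (J \ A) else 0 := by
  rw [(isF_FF (modK κ A σ)).unique ((isF_FF κ).mod hA σ)]
  rfl

omit [Fintype ι] in
private theorem sdiff_erase_erase (J A : Finset ι) (i : ι) (hi : i ∈ A) :
    J.erase i \ A.erase i = J \ A := by
  ext x
  simp only [Finset.mem_sdiff, Finset.mem_erase, not_and]
  constructor
  · rintro ⟨⟨h1, h2⟩, h3⟩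
    exact ⟨h2, h3 h1⟩
  · rintro ⟨h1, h2⟩
    have h3 : x ≠ i := fun h => h2 (h ▸ hi)
    exact ⟨⟨h3, h1⟩, fun _ => h2⟩

omit [Fintype ι] in
/-- The strict monotonicity: `F M / F (M - A) < F J / F (J - A)` for `∅ ≠ A ⊆ J ⊂ M`. -/
private theorem strict_mono {κ : Finset ι → ℚ} (hκ : ∀ S, 0 ≤ κ S) {M J A : Finset ι} {e : ℕ}
    (he : 2 ≤ e) (heM : e ≤ M.card) (hpos : ∀ J ⊆ M, 0 < FF κ J) (hJ : J ⊂ M) (hA : A ⊆ J)
    (hA0 : A ≠ ∅) (hp : ∀ S ⊆ M, S.card = e → ¬ S ⊆ J → 0 < κ S) :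
    FF κ M * FF κ (J \ A) < FF κ J * FF κ (M \ A) := by
  obtain ⟨i, hi⟩ := Finset.nonempty_iff_ne_empty.2 hA0
  obtain ⟨j, hjM, hjJ⟩ := Finset.exists_of_ssubset hJ
  have hF := isF_FF κ
  have hiJ : i ∈ J := hA hi
  have hiM : i ∈ M := hJ.1 hiJ
  have hij : i ≠ j := fun h => hjJ (h ▸ hiJ)
  have hLK : J.erase i ⊆ M.erase i := Finset.erase_subset_erase i hJ.1
  have h1 : FF κ (M.erase i) * FF κ (J \ A) ≤ FF κ (J.erase i) * FF κ (M \ A) := by
    have h := hF.mono hκ hpos (M.erase i).card (M.erase i) (Finset.erase_subset _ _) le_rfl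
      (J.erase i) hLK (A.erase i) (Finset.erase_subset_erase i hA)
    rwa [sdiff_erase_erase _ _ _ hi, sdiff_erase_erase _ _ _ hi] at h
  have pL : 0 < FF κ (J.erase i) := hpos _ ((Finset.erase_subset _ _).trans hJ.1)
  have pK : 0 < FF κ (M.erase i) := hpos _ (Finset.erase_subset _ _)
  have h2 : FF κ M * FF κ (J.erase i) < FF κ J * FF κ (M.erase i) := by
    have sM := hF.step (M.erase i) i (Finset.notMem_erase _ _)
    have sJ := hF.step (J.erase i) i (Finset.notMem_erase _ _)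
    rw [Finset.insert_erase hiM] at sM
    rw [Finset.insert_erase hiJ] at sJ
    obtain ⟨S, hS1, hS2, hS3⟩ := Finset.exists_subsuperset_card_eq (s := {i, j}) (t := M) (n := e)
      (by
        intro x hx
        rcases Finset.mem_insert.1 hx with rfl | hx
        · exact hiM
        · exact (Finset.mem_singleton.1 hx) ▸ hjM)
      (by rw [Finset.card_pair hij]; exact he) heM
    have hiS : i ∈ S := hS1 (Finset.mem_insert_self _ _)
    have hjS : j ∈ S := hS1 (Finset.mem_insert_of_mem (Finset.mem_singleton_self _))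
    have hκS : 0 < κ S := hp S hS2 hS3 fun h => hjJ (h hjS)
    have h3 : (∑ B ∈ (J.erase i).powerset, κ (insert i B) * FF κ (J.erase i \ B)) *
          FF κ (M.erase i) <
        (∑ B ∈ (M.erase i).powerset, κ (insert i B) * FF κ (M.erase i \ B)) *
          FF κ (J.erase i) := by
      rw [Finset.sum_mul, Finset.sum_mul]
      have h4 : ∑ B ∈ (J.erase i).powerset, κ (insert i B) * FF κ (J.erase i \ B) *
            FF κ (M.erase i) ≤
          ∑ B ∈ (J.erase i).powerset, κ (insert i B) * FF κ (M.erase i \ B) *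
            FF κ (J.erase i) := by
        refine Finset.sum_le_sum fun B hB => ?_
        rw [Finset.mem_powerset] at hB
        rw [mul_assoc, mul_assoc]
        refine mul_le_mul_of_nonneg_left ?_ (hκ _)
        have := hF.mono hκ hpos (M.erase i).card (M.erase i) (Finset.erase_subset _ _) le_rfl
          (J.erase i) hLK B hB
        linarith [mul_comm (FF κ (J.erase i \ B)) (FF κ (M.erase i)),
          mul_comm (FF κ (M.erase i \ B)) (FF κ (J.erase i))]
      refine h4.trans_lt (Finset.sum_lt_sum_of_subset (Finset.powerset_mono.2 hLK)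
        (i := S.erase i) ?_ ?_ ?_ ?_)
      · exact Finset.mem_powerset.2 (Finset.erase_subset_erase i hS2)
      · intro h
        have h5 := Finset.mem_powerset.1 h (Finset.mem_erase.2 ⟨hij.symm, hjS⟩)
        exact hjJ (Finset.mem_of_mem_erase h5)
      · rw [Finset.insert_erase hiS]
        exact mul_pos (mul_pos hκS (hpos _ (Finset.sdiff_subset.trans (Finset.erase_subset _ _)))) pL
      · intro B _ _
        exact mul_nonneg (mul_nonneg (hκ _)
          (hpos _ (Finset.sdiff_subset.trans (Finset.erase_subset _ _))).le) pL.le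
    rw [sM, sJ]
    nlinarith [h3]
  have p1 : 0 < FF κ (J \ A) := hpos _ (Finset.sdiff_subset.trans hJ.1)
  have p2 : 0 < FF κ J := hpos _ hJ.1
  have h3 : (FF κ M * FF κ (J.erase i)) * (FF κ (M.erase i) * FF κ (J \ A)) <
      (FF κ J * FF κ (M.erase i)) * (FF κ (J.erase i) * FF κ (M \ A)) :=
    mul_lt_mul h2 h1 (by positivity) (by positivity)
  have h4 : (FF κ (J.erase i) * FF κ (M.erase i)) * (FF κ M * FF κ (J \ A)) <
      (FF κ (J.erase i) * FF κ (M.erase i)) * (FF κ J * FF κ (M \ A)) := by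
    calc (FF κ (J.erase i) * FF κ (M.erase i)) * (FF κ M * FF κ (J \ A))
        = (FF κ M * FF κ (J.erase i)) * (FF κ (M.erase i) * FF κ (J \ A)) := by ring
      _ < (FF κ J * FF κ (M.erase i)) * (FF κ (J.erase i) * FF κ (M \ A)) := h3
      _ = (FF κ (J.erase i) * FF κ (M.erase i)) * (FF κ J * FF κ (M \ A)) := by ring
  exact lt_of_mul_lt_mul_left h4 (by positivity)

private theorem union_sdiff_compl {T I : Finset ι} (hI : I ⊆ T) : (I ∪ Tᶜ) \ Tᶜ = I := by
  ext x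
  simp only [Finset.mem_sdiff, Finset.mem_union, Finset.mem_compl, not_not]
  constructor
  · rintro ⟨h1 | h1, h2⟩
    · exact h1
    · exact absurd h2 h1
  · exact fun h => ⟨Or.inl h, hI h⟩

private theorem compl_ne {T : Finset ι} (hT : 2 ≤ (Tᶜ : Finset ι).card) : Tᶜ ≠ ∅ := by
  intro h
  rw [h, Finset.card_empty] at hT
  omega

private theorem erase_ssub {T I : Finset ι} (hI : I ⊆ T) {i₀ : ι} (hi₀ : i₀ ∈ I) :
    I.erase i₀ ∪ Tᶜ ⊂ I ∪ Tᶜ := by
  refine ⟨Finset.union_subset_union_left (Finset.erase_subset _ _), fun h => ?_⟩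
  rcases Finset.mem_union.1 (h (Finset.mem_union_left _ hi₀)) with h1 | h1
  · exact Finset.notMem_erase _ _ h1
  · exact Finset.mem_compl.1 h1 (hI hi₀)

private theorem insert_M {T I : Finset ι} {i₀ : ι} (hi₀ : i₀ ∈ I) :
    insert i₀ (I.erase i₀ ∪ Tᶜ) = I ∪ Tᶜ := by
  rw [← Finset.insert_union, Finset.insert_erase hi₀]

private theorem notMem_M {T I : Finset ι} (hI : I ⊆ T) {i₀ : ι} (hi₀ : i₀ ∈ I) :
    i₀ ∉ I.erase i₀ ∪ Tᶜ := by
  intro h
  rcases Finset.mem_union.1 h with h1 | h1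
  · exact Finset.notMem_erase _ _ h1
  · exact Finset.mem_compl.1 h1 (hI hi₀)

/-- The critical density of the units. -/
def ku (T I : Finset ι) (κ : Finset ι → ℚ) : ℚ := FF κ (I ∪ Tᶜ) / FF κ I

/-- The densities with the units. -/
def kU (T I : Finset ι) (κ : Finset ι → ℚ) : Finset ι → ℚ := modK κ Tᶜ (ku T I κ)

/-- The number of additional points of kind `B` at a line of type `B`, divided by `∏ c`. -/
def sg (T I : Finset ι) (κ : Finset ι → ℚ) (i₀ : ι) (B : Finset ι) : ℚ :=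
  FF (kU T I κ) (I.erase i₀ ∪ Tᶜ) / FF (kU T I κ) ((I.erase i₀ ∪ Tᶜ) \ B)

/-- The densities of the component. -/
def kC (T I : Finset ι) (κ : Finset ι → ℚ) (i₀ : ι) (B : Finset ι) : Finset ι → ℚ :=
  modK (fun S => if i₀ ∈ S then 0 else κ S) B (sg T I κ i₀ B)

/-- The share of the lines of type `B`. -/
def sh (T I : Finset ι) (κ : Finset ι → ℚ) (i₀ : ι) (B : Finset ι) : ℚ :=
  κ (insert i₀ B) / sg T I κ i₀ B

theorem kU_pos {T I : Finset ι} {κ : Finset ι → ℚ} (hT : 2 ≤ (Tᶜ : Finset ι).card) (hI : I ⊆ T)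
    (h : Adm T I κ) {J : Finset ι} (hJ : J ⊂ I ∪ Tᶜ) : 0 < FF (kU T I κ) J := by
  unfold kU
  rw [FF_modK κ (compl_ne hT)]
  have hc : (Tᶜ : Finset ι).card ≤ (I ∪ Tᶜ).card := Finset.card_le_card Finset.subset_union_right
  split_ifs with h1
  · have h2 := strict_mono h.nonneg hT hc h.F hJ h1 (compl_ne hT) fun S hS hS' hSJ =>
      h.pos S hS hS' fun h3 => hSJ (h3 ▸ h1)
    rw [union_sdiff_compl hI] at h2
    have h3 : 0 < FF κ I := h.F _ Finset.subset_union_left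
    unfold ku
    rw [sub_pos, div_mul_eq_mul_div, div_lt_iff₀ h3]
    exact h2
  · rw [sub_zero]
    exact h.F J hJ.1

theorem kU_zero {T I : Finset ι} {κ : Finset ι → ℚ} (hT : 2 ≤ (Tᶜ : Finset ι).card) (hI : I ⊆ T)
    (h : Adm T I κ) : FF (kU T I κ) (I ∪ Tᶜ) = 0 := by
  unfold kU ku
  rw [FF_modK κ (compl_ne hT), if_pos Finset.subset_union_right, union_sdiff_compl hI,
    div_mul_cancel₀ _ (h.F I Finset.subset_union_left).ne', sub_self]

theorem sg_pos {T I : Finset ι} {κ : Finset ι → ℚ} (hT : 2 ≤ (Tᶜ : Finset ι).card) (hI : I ⊆ T)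
    (h : Adm T I κ) {i₀ : ι} (hi₀ : i₀ ∈ I) {B : Finset ι} (hB : B ⊆ I.erase i₀ ∪ Tᶜ) :
    0 < sg T I κ i₀ B := by
  unfold sg
  exact div_pos (kU_pos hT hI h (erase_ssub hI hi₀))
    (kU_pos hT hI h (Finset.sdiff_subset.trans_ssubset (erase_ssub hI hi₀)))

/-- The shares add up to `1`. -/
theorem sum_sh {T I : Finset ι} {κ : Finset ι → ℚ} (hT : 2 ≤ (Tᶜ : Finset ι).card) (hI : I ⊆ T)
    (h : Adm T I κ) {i₀ : ι} (hi₀ : i₀ ∈ I) :
    ∑ B ∈ (I.erase i₀ ∪ Tᶜ).powerset, sh T I κ i₀ B = 1 := by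
  have h1 := (isF_FF (kU T I κ)).step _ i₀ (notMem_M hI hi₀)
  rw [insert_M hi₀, kU_zero hT hI h] at h1
  have h2 := kU_pos hT hI h (erase_ssub hI hi₀)
  have h3 : ∀ B ∈ (I.erase i₀ ∪ Tᶜ).powerset, kU T I κ (insert i₀ B) *
      FF (kU T I κ) ((I.erase i₀ ∪ Tᶜ) \ B) =
      sh T I κ i₀ B * FF (kU T I κ) (I.erase i₀ ∪ Tᶜ) := by
    intro B _
    have h4 : insert i₀ B ≠ Tᶜ := fun h5 => by
      have h6 : i₀ ∈ Tᶜ := h5 ▸ Finset.mem_insert_self _ _
      exact Finset.mem_compl.1 h6 (hI hi₀)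
    have h5 : kU T I κ (insert i₀ B) = κ (insert i₀ B) := by
      unfold kU modK
      rw [if_neg h4, add_zero]
    have h6 := kU_pos hT hI h
      (Finset.sdiff_subset.trans_ssubset (erase_ssub hI hi₀) : (I.erase i₀ ∪ Tᶜ) \ B ⊂ I ∪ Tᶜ)
    rw [h5]
    unfold sh sg
    field_simp
  rw [Finset.sum_congr rfl h3, ← Finset.sum_mul] at h1
  have h4 : (∑ B ∈ (I.erase i₀ ∪ Tᶜ).powerset, sh T I κ i₀ B) *
      FF (kU T I κ) (I.erase i₀ ∪ Tᶜ) = 1 * FF (kU T I κ) (I.erase i₀ ∪ Tᶜ) := by linarith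
  exact mul_right_cancel₀ h2.ne' h4

/-- `FF` of the component. -/
private theorem FF_kC {T I : Finset ι} {κ : Finset ι → ℚ} {i₀ : ι} {B : Finset ι} (hB0 : B ≠ ∅)
    {J : Finset ι} (hJ : i₀ ∉ J) :
    FF (kC T I κ i₀ B) J = FF κ J - if B ⊆ J then sg T I κ i₀ B * FF κ (J \ B) else 0 := by
  unfold kC
  rw [FF_modK _ hB0]
  have h1 : ∀ L ⊆ J, FF (fun S => if i₀ ∈ S then 0 else κ S) L = FF κ L := by
    intro L hL
    refine FF_congr fun S hS _ => ?_
    rw [if_neg fun h => hJ (hL (hS h))]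
  rw [h1 J subset_rfl, h1 _ Finset.sdiff_subset]

private theorem ku_pos {T I : Finset ι} {κ : Finset ι → ℚ} (h : Adm T I κ) : 0 < ku T I κ :=
  div_pos (h.F _ subset_rfl) (h.F _ Finset.subset_union_left)

/-- `FF κ` and `FF kU`. -/
private theorem FF_eq {T I : Finset ι} {κ : Finset ι → ℚ} (hT : 2 ≤ (Tᶜ : Finset ι).card)
    (J : Finset ι) :
    FF κ J = FF (kU T I κ) J + if Tᶜ ⊆ J then ku T I κ * FF κ (J \ Tᶜ) else 0 := by
  unfold kU
  rw [FF_modK κ (compl_ne hT)]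
  ring

/-- The first bracket. -/
private theorem first {T I : Finset ι} {κ : Finset ι → ℚ} (hT : 2 ≤ (Tᶜ : Finset ι).card)
    (hI : I ⊆ T) (h : Adm T I κ) {i₀ : ι} (hi₀ : i₀ ∈ I) {B : Finset ι} (hB0 : B ≠ ∅)
    {J : Finset ι} (hJ : J ⊂ I.erase i₀ ∪ Tᶜ) (hBJ : B ⊆ J) :
    0 < FF (kU T I κ) J - sg T I κ i₀ B * FF (kU T I κ) (J \ B) := by
  have hc : (Tᶜ : Finset ι).card ≤ (I.erase i₀ ∪ Tᶜ).card :=
    Finset.card_le_card Finset.subset_union_right
  have hM := erase_ssub hI hi₀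
  have hk : ∀ S, 0 ≤ kU T I κ S := fun S => by
    unfold kU modK
    have h1 := h.nonneg S
    have h2 := ku_pos h
    split_ifs <;> linarith
  have h1 := strict_mono (κ := kU T I κ) hk hT hc
    (fun J hJ => kU_pos hT hI h (hJ.trans_ssubset hM)) hJ hBJ hB0 fun S hS hS' _ => by
      unfold kU modK
      by_cases h3 : S = Tᶜ
      · rw [if_pos h3]
        have h4 := h.nonneg S
        have h5 := ku_pos h
        linarith
      · rw [if_neg h3, add_zero]
        exact h.pos S (hS.trans hM.1) hS' h3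
  have h2 := kU_pos hT hI h
    (Finset.sdiff_subset.trans_ssubset hM : (I.erase i₀ ∪ Tᶜ) \ B ⊂ I ∪ Tᶜ)
  unfold sg
  rw [sub_pos, div_mul_eq_mul_div, div_lt_iff₀ h2]
  exact h1

/-- The value at the whole set. -/
private theorem FF_kC_top {T I : Finset ι} {κ : Finset ι → ℚ} (hT : 2 ≤ (Tᶜ : Finset ι).card)
    (hI : I ⊆ T) (h : Adm T I κ) {i₀ : ι} (hi₀ : i₀ ∈ I) {B : Finset ι}
    (hB : B ⊆ I.erase i₀ ∪ Tᶜ) (hB0 : B ≠ ∅) :
    FF (kC T I κ i₀ B) (I.erase i₀ ∪ Tᶜ) = ku T I κ * FF (kC T I κ i₀ B) (I.erase i₀) := by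
  have hI' : I.erase i₀ ⊆ T := (Finset.erase_subset _ _).trans hI
  have h1 := kU_pos hT hI h
    (Finset.sdiff_subset.trans_ssubset (erase_ssub hI hi₀) : (I.erase i₀ ∪ Tᶜ) \ B ⊂ I ∪ Tᶜ)
  have h2 : FF (kU T I κ) (I.erase i₀ ∪ Tᶜ) =
      sg T I κ i₀ B * FF (kU T I κ) ((I.erase i₀ ∪ Tᶜ) \ B) := by
    unfold sg
    rw [div_mul_cancel₀ _ h1.ne']
  rw [FF_kC hB0 (notMem_M hI hi₀), FF_kC hB0 (Finset.notMem_erase _ _), if_pos hB,
    FF_eq (T := T) (I := I) hT (I.erase i₀ ∪ Tᶜ), FF_eq (T := T) (I := I) hT ((I.erase i₀ ∪ Tᶜ) \ B),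
    if_pos Finset.subset_union_right, union_sdiff_compl hI', h2]
  by_cases h3 : B ⊆ I.erase i₀
  · have h4 : Tᶜ ⊆ (I.erase i₀ ∪ Tᶜ) \ B := fun x hx => Finset.mem_sdiff.2
      ⟨Finset.mem_union_right _ hx, fun h5 => Finset.mem_compl.1 hx (hI' (h3 h5))⟩
    rw [if_pos h3, if_pos h4, sdiff_right_comm, union_sdiff_compl hI']
    ring
  · have h4 : ¬ Tᶜ ⊆ (I.erase i₀ ∪ Tᶜ) \ B := by
      intro h5
      refine h3 fun x hx => ?_
      rcases Finset.mem_union.1 (hB hx) with h6 | h6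
      · exact h6
      · exact absurd hx (Finset.mem_sdiff.1 (h5 h6)).2
    rw [if_neg h3, if_neg h4]
    ring

/-- The component is admissible. -/
theorem kC_adm {T I : Finset ι} {κ : Finset ι → ℚ} (hT : 2 ≤ (Tᶜ : Finset ι).card) (hI : I ⊆ T)
    (h : Adm T I κ) {i₀ : ι} (hi₀ : i₀ ∈ I) {B : Finset ι} (hB : B ⊆ I.erase i₀ ∪ Tᶜ)
    (hB0 : B ≠ ∅) : Adm T (I.erase i₀) (kC T I κ i₀ B) := by
  have hs := sg_pos hT hI h hi₀ hB
  have hI' : I.erase i₀ ⊆ T := (Finset.erase_subset _ _).trans hI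
  have hM := erase_ssub hI hi₀
  have hn : ∀ S, 0 ≤ kC T I κ i₀ B S := by
    intro S
    unfold kC modK
    have h1 := h.nonneg S
    dsimp only
    split_ifs <;> linarith
  refine ⟨hn, ?_, ?_⟩
  · intro S hS hS' hST
    have h1 := h.pos S (hS.trans hM.1) hS' hST
    have h2 : i₀ ∉ S := fun h3 => notMem_M hI hi₀ (hS h3)
    unfold kC modK
    dsimp only
    rw [if_neg h2]
    split_ifs <;> linarith
  · intro J hJ
    have hJi : i₀ ∉ J := fun h3 => notMem_M hI hi₀ (hJ h3)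
    have key : ∀ L ⊆ I.erase i₀ ∪ Tᶜ, ¬ Tᶜ ⊆ L → 0 < FF (kC T I κ i₀ B) L := by
      intro L hL hTL
      rw [FF_kC hB0 fun h3 => notMem_M hI hi₀ (hL h3)]
      split_ifs with h1
      · have h2 : ¬ Tᶜ ⊆ L \ B := fun h3 => hTL (h3.trans Finset.sdiff_subset)
        rw [FF_eq (T := T) (I := I) hT L, FF_eq (T := T) (I := I) hT (L \ B), if_neg hTL, if_neg h2,
          add_zero, add_zero]
        refine first hT hI h hi₀ hB0 ⟨hL, fun h3 => hTL ?_⟩ h1
        exact Finset.subset_union_right.trans h3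
      · rw [sub_zero]
        exact h.F L (hL.trans hM.1)
    by_cases hTJ : Tᶜ ⊆ J
    · have hJT : J \ Tᶜ ⊆ I.erase i₀ ∪ Tᶜ := Finset.sdiff_subset.trans hJ
      have hnT : ¬ Tᶜ ⊆ J \ Tᶜ := by
        intro h3
        obtain ⟨x, hx⟩ := Finset.nonempty_iff_ne_empty.2 (compl_ne hT)
        exact (Finset.mem_sdiff.1 (h3 hx)).2 hx
      by_cases hJM : J = I.erase i₀ ∪ Tᶜ
      · rw [hJM, FF_kC_top hT hI h hi₀ hB hB0]
        refine mul_pos (ku_pos h) (key _ Finset.subset_union_left ?_)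
        intro h3
        obtain ⟨x, hx⟩ := Finset.nonempty_iff_ne_empty.2 (compl_ne hT)
        exact Finset.mem_compl.1 hx (hI' (h3 hx))
      · rw [FF_kC hB0 hJi]
        split_ifs with h1
        · have h2 := first hT hI h hi₀ hB0 (Finset.ssubset_iff_subset_ne.2 ⟨hJ, hJM⟩) h1
          have h3 := key _ hJT hnT
          have h3' := h3
          rw [FF_kC hB0 fun h4 => hJi (Finset.mem_sdiff.1 h4).1] at h3
          rw [FF_eq (T := T) (I := I) hT J, FF_eq (T := T) (I := I) hT (J \ B), if_pos hTJ]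
          by_cases h5 : Tᶜ ⊆ J \ B
          · have h6 : B ⊆ J \ Tᶜ := fun x hx => Finset.mem_sdiff.2
              ⟨h1 hx, fun h7 => (Finset.mem_sdiff.1 (h5 h7)).2 hx⟩
            rw [if_pos h6] at h3
            rw [if_pos h5, sdiff_right_comm]
            have h7 := mul_pos (ku_pos h) h3
            nlinarith [h7, h2]
          · have h6 : 0 < FF κ (J \ Tᶜ) := h.F _ (hJT.trans hM.1)
            rw [if_neg h5, add_zero]
            have h7 := mul_pos (ku_pos h) h6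
            linarith
        · rw [sub_zero]
          exact h.F J (hJ.trans hM.1)
    · exact key J hJ hTJ

/-- The component has the same critical number of units. -/
theorem lam_kC {T I : Finset ι} {κ : Finset ι → ℚ} (hT : 2 ≤ (Tᶜ : Finset ι).card) (hI : I ⊆ T)
    (h : Adm T I κ) {i₀ : ι} (hi₀ : i₀ ∈ I) {B : Finset ι} (hB : B ⊆ I.erase i₀ ∪ Tᶜ)
    (hB0 : B ≠ ∅) (c : ι → ℕ) :
    lam c T (I.erase i₀) (kC T I κ i₀ B) = lam c T I κ := by
  have h1 := (kC_adm hT hI h hi₀ hB hB0).F (I.erase i₀) Finset.subset_union_left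
  unfold lam
  rw [FF_kC_top hT hI h hi₀ hB hB0, mul_div_cancel_right₀ _ h1.ne']
  rfl

end Pool.Agent.GD.BE
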