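import Pool.Agent.GD.VT.Fac

/-!
# General d, block BETA, module Obj: the members of the objects, usable members

The *members* of a configuration `rest : κ → Kd` are the pairs `y : κ × Fin (d + 1)` with
`y.2 < (rest y.1).nm`.  A cluster is *pure* if all its members have the kind `{i}` (`i` = creation block) and
`dl = 0`: the types `pl k ∅`.  A member is *usable*: points of ordinary objects; all members of pure clusters; the
members with `#K = ex` (base points); the members `≠ {i}` of the clusters with `dl = 0` whose first member is of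
the kind `{i}` (types `pl k S`, `S ≠ ∅`).  Not usable are: the first members of `pl k S`, `S ≠ ∅` (number
`≤ C n^(e - 1 - |S|) ≤ C n^(e - 2)`, `K = {i}`), the members of `b0 S` (number `≤ C n^(e - 2 - |S|)`, `K = {i}` or
`insert i S`), the members with `#K < e` of `br r` (bounded number).  In every cluster which is not pure there is a
member which is not usable: the first one for `pl`, `b0` (`#{i} = 1 < e`; for `k = 1` the only one,
`#(insert i S) ≤ e - 1`), the last one for `br`: `k (e - 1) > r`, because `k = (d - i + r - 1) / (e - 1)` and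
`d - i + r - 1 ≥ e - 1 + r` (`i < J = d - e`).
-/

set_option autoImplicit false

namespace Pool.Agent.GD.BE

open Finset
open Pool.Agent.GD.VT (cb)

/-- The vanishing set of the member `x`. -/
def mA : Kd → ℕ → Finset ℕ
  | .ord _ A, _ => A
  | .cl _ _ _ As, x => As.getD x ∅

/-- Pure clusters. -/
def Pur (J : ℕ) : Kd → Prop
  | .ord _ _ => False
  | .cl _ dl i As => dl = 0 ∧ ∀ A ∈ As, A = (range J).erase i

/-- Clusters. -/
def IsCl : Kd → Prop
  | .ord _ _ => False
  | .cl _ _ _ _ => True

/-- Usable members. -/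
def Usb (J : ℕ) : Kd → ℕ → Prop
  | .ord _ _, x => x < 1
  | .cl e dl i As, x => x < As.length ∧ (Pur J (.cl e dl i As) ∨
      (range J \ As.getD x ∅).card = e ∨
      (dl = 0 ∧ As.headD ∅ = (range J).erase i ∧ As.getD x ∅ ≠ (range J).erase i))

variable {P : Par} {n : ℕ} {ms : Multiset Kd}

private lemma getD_mem {As : List (Finset ℕ)} {x : ℕ} (hx : x < As.length) :
    As.getD x ∅ ∈ As := by
  rw [List.getD_eq_getElem As ∅ hx]
  exact List.getElem_mem hx

private lemma mbs_len {i j k : ℕ} {S : Finset ℕ} (hk : 1 ≤ k) : (mbs i j k S).length = k := by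
  unfold mbs
  split_ifs with h
  · rw [h]
    rfl
  · rw [List.length_cons, List.length_replicate]
    omega

private lemma mbr_len {i j k e r : ℕ} : (mbr i j k e r).length = k := by
  unfold mbr
  rw [List.length_map, List.length_range]

private lemma mbs_sub {i j k : ℕ} {S : Finset ℕ} : ∀ A ∈ mbs i j k S, A ⊆ (range j).erase i := by
  intro A hA
  unfold mbs at hA
  split_ifs at hA
  · rw [List.mem_singleton] at hA
    rw [hA]
    exact sdiff_subset
  · rcases List.mem_cons.1 hA with h | h
    · rw [h]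
    · rw [List.eq_of_mem_replicate h]
      exact sdiff_subset

private lemma mbr_sub {i j k e r : ℕ} : ∀ A ∈ mbr i j k e r, A ⊆ (range j).erase i := by
  intro A hA
  unfold mbr at hA
  obtain ⟨s, _, rfl⟩ := List.mem_map.1 hA
  exact sdiff_subset

/-- The first member of `mbr` does not vanish on the block `0`. -/
private lemma mbr_head {i j k e r : ℕ} (he : 2 ≤ e) (hk : 1 ≤ k) (hr : 1 ≤ r) (hri : r ≤ i)
    (hij : i < j) : (mbr i j k e r).headD ∅ ≠ (range j).erase i ∧
      (mbr i j k e r).headD ∅ ∈ mbr i j k e r := by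
  obtain ⟨k', rfl⟩ : ∃ k', k = k' + 1 := ⟨k - 1, by omega⟩
  have h1 : mbr i j (k' + 1) e r = ((range j).erase i \
      (Ico (0 * (e - 1)) ((0 + 1) * (e - 1)) ∩ range r)) ::
        ((List.range k').map Nat.succ).map fun s => (range j).erase i \
          (Ico (s * (e - 1)) ((s + 1) * (e - 1)) ∩ range r) := by
    unfold mbr
    rw [List.range_succ_eq_map, List.map_cons]
  rw [h1, List.headD_cons]
  refine ⟨fun h2 => ?_, List.mem_cons_self⟩
  have h3 : (0 : ℕ) ∈ (range j).erase i := mem_erase.2 ⟨by omega, mem_range.2 (by omega)⟩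
  rw [← h2, mem_sdiff] at h3
  refine h3.2 (mem_inter.2 ⟨mem_Ico.2 ⟨by simp, by omega⟩, mem_range.2 (by omega)⟩)

/-- The shape of a cluster of the class. -/
private lemma shape (he : 2 ≤ P.e) (hed : P.e < P.d) (h : Cls P P.J n ms) {k : Kd} (hk : k ∈ ms) :
    (∃ x A, k = .ord x A) ∨ ∃ i < P.J, ∃ dl As, k = .cl P.e dl i As ∧
      (∀ A ∈ As, A ⊆ (range P.J).erase i) ∧ 1 ≤ As.length ∧ As.length ≤ P.d ∧
      (2 ≤ As.length ∧ As.headD ∅ = (range P.J).erase i ∨
        dl ≠ 0 ∧ (As.headD ∅ = (range P.J).erase i ∨ As.length = 1 ∧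
          (range P.J \ As.headD ∅).card ≤ P.e - 1) ∨
        As.headD ∅ ≠ (range P.J).erase i ∧
          (range P.J \ As.getD (As.length - 1) ∅).card ≤ P.e - 1) := by
  rcases h.mem k hk with ⟨x, A, rfl, _⟩ | ⟨i, hi, τ, hτ, rfl⟩
  · exact Or.inl ⟨x, A, rfl⟩
  · right
    have hJ : P.J = P.d - P.e := rfl
    refine ⟨i, hi, ?_⟩
    cases τ with
    | pl k S =>
      obtain ⟨h1, h2, h3, h4⟩ := hτ
      have h5 : (P.d - i - 1) / (P.e - 1) ≤ P.d - i - 1 := Nat.div_le_self _ _
      refine ⟨0, mbs i P.J k S, rfl, mbs_sub, ?_, ?_, Or.inl ⟨?_, ?_⟩⟩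
      · rw [mbs_len (by omega)]
        omega
      · rw [mbs_len (by omega)]
        omega
      · rw [mbs_len (by omega)]
        omega
      · unfold mbs
        rw [if_neg (by omega)]
        rfl
    | b0 S =>
      obtain ⟨h1, h3, h4⟩ := hτ
      have h5 : (P.d - i - 1) / (P.e - 1) ≤ P.d - i - 1 := Nat.div_le_self _ _
      have h6 : 1 ≤ (P.d - i - 1) / (P.e - 1) := by
        rw [Nat.one_le_div_iff (by omega)]
        omega
      refine ⟨_, _, rfl, mbs_sub, ?_, ?_, Or.inr (Or.inl ⟨h1, ?_⟩)⟩
      · rw [mbs_len h6]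
        exact h6
      · rw [mbs_len h6]
        omega
      · unfold mbs
        split_ifs with h7
        · right
          refine ⟨rfl, ?_⟩
          rw [List.headD_cons]
          have h8 : range P.J \ ((range P.J).erase i \ S) ⊆ insert i S := by
            intro x hx
            rw [mem_sdiff, mem_sdiff, mem_erase] at hx
            rw [mem_insert]
            by_cases h1 : x = i
            · exact Or.inl h1
            · right
              by_contra h2
              exact hx.2 ⟨⟨h1, hx.1⟩, h2⟩
          have h9 := card_le_card h8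
          have h10 := card_insert_le i S
          omega
        · left
          rfl
    | br r =>
      obtain ⟨h1, h2⟩ := hτ
      have h5 : (P.d - i + r - 1) / (P.e - 1) ≤ P.d - i + r - 1 := Nat.div_le_self _ _
      have h6 : 1 ≤ (P.d - i + r - 1) / (P.e - 1) := by
        rw [Nat.one_le_div_iff (by omega)]
        omega
      refine ⟨_, _, rfl, mbr_sub, ?_, ?_, Or.inr (Or.inr ⟨?_, ?_⟩)⟩
      · rw [mbr_len]
        exact h6
      · rw [mbr_len]
        omega
      · exact (mbr_head he h6 h1 h2 hi).1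
      · rw [mbr_len]
        generalize hK : (P.d - i + r - 1) / (P.e - 1) = K at h5 h6
        have h7 : (mbr i P.J K P.e r).getD (K - 1) ∅ = (range P.J).erase i \
            (Ico ((K - 1) * (P.e - 1)) (((K - 1) + 1) * (P.e - 1)) ∩ range r) := by
          rw [List.getD_eq_getElem _ ∅ (by rw [mbr_len]; omega)]
          unfold mbr
          rw [List.getElem_map, List.getElem_range]
        rw [h7]
        have h8 : range P.J \ ((range P.J).erase i \
            (Ico ((K - 1) * (P.e - 1)) (((K - 1) + 1) * (P.e - 1)) ∩ range r)) ⊆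
              insert i (Ico ((K - 1) * (P.e - 1)) r) := by
          intro x hx
          rw [mem_sdiff, mem_sdiff, mem_erase] at hx
          rw [mem_insert]
          by_cases h1 : x = i
          · exact Or.inl h1
          · right
            by_contra h2
            refine hx.2 ⟨⟨h1, hx.1⟩, fun h3 => h2 ?_⟩
            obtain ⟨h4, h5⟩ := mem_inter.1 h3
            exact mem_Ico.2 ⟨(mem_Ico.1 h4).1, mem_range.1 h5⟩
        have h9 := card_le_card h8
        have h10 := card_insert_le i (Ico ((K - 1) * (P.e - 1)) r)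
        rw [Nat.card_Ico] at h10
        have h11 : P.d - i + r - 1 < (K + 1) * (P.e - 1) := by
          rw [← hK, mul_comm]
          exact Nat.lt_mul_div_succ _ (by omega)
        have h12 : (K + 1) * (P.e - 1) = (K - 1) * (P.e - 1) + 2 * (P.e - 1) := by
          obtain ⟨K', rfl⟩ : ∃ K', K = K' + 1 := ⟨K - 1, by omega⟩
          rw [Nat.add_sub_cancel]
          ring
        omega

theorem nm_le (he : 2 ≤ P.e) (hed : P.e < P.d) (h : Cls P P.J n ms) {k : Kd} (hk : k ∈ ms) :
    k.nm ≤ P.d := by
  rcases shape he hed h hk with ⟨x, A, rfl⟩ | ⟨i, hi, dl, As, rfl, _, _, h1, _⟩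
  · change 1 ≤ P.d
    omega
  · exact h1

theorem cl_blk (he : 2 ≤ P.e) (hed : P.e < P.d) (h : Cls P P.J n ms) {k : Kd} (hk : k ∈ ms)
    (hc : IsCl k) : cb k < P.J ∧ k.ex = P.e ∧ ∀ x < k.nm, cb k ∉ mA k x ∧ mA k x ⊆ range P.J := by
  rcases shape he hed h hk with ⟨x, A, rfl⟩ | ⟨i, hi, dl, As, rfl, h1, _, _, _⟩
  · exact hc.elim
  · refine ⟨hi, rfl, fun x hx => ?_⟩
    have h2 := h1 _ (getD_mem hx)
    exact ⟨fun h3 => (mem_erase.1 (h2 h3)).1 rfl, h2.trans (erase_subset _ _)⟩

theorem pur_mem (he : 2 ≤ P.e) (hed : P.e < P.d) (h : Cls P P.J n ms) {k : Kd} (hk : k ∈ ms)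
    (hp : Pur P.J k) : IsCl k ∧ 2 ≤ k.nm ∧ ∀ x < k.nm, Usb P.J k x ∧ mA k x = (range P.J).erase (cb k) := by
  rcases shape he hed h hk with ⟨x, A, rfl⟩ | ⟨i, hi, dl, As, rfl, h1, h2, _, h3⟩
  · exact hp.elim
  · refine ⟨trivial, ?_, fun x hx => ⟨⟨hx, Or.inl hp⟩, hp.2 _ (getD_mem hx)⟩⟩
    rcases h3 with h3 | h3 | h3
    · exact h3.1
    · exact absurd hp.1 h3.1
    · refine absurd (hp.2 _ ?_) h3.1
      cases As with
      | nil => exact absurd h2 (by simp)
      | cons A As => exact List.mem_cons_self

/-- A member which is not usable. -/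
theorem absorb (he : 2 ≤ P.e) (hed : P.e < P.d) (h : Cls P P.J n ms) {k : Kd} (hk : k ∈ ms)
    (hc : IsCl k) (hp : ¬ Pur P.J k) : ∃ x < k.nm, ¬ Usb P.J k x := by
  rcases shape he hed h hk with ⟨x, A, rfl⟩ | ⟨i, hi, dl, As, rfl, h1, h2, _, h3⟩
  · exact hc.elim
  · have h4 : As.getD 0 ∅ = As.headD ∅ := by
      cases As <;> rfl
    have h5 : (range P.J \ (range P.J).erase i).card ≤ 1 := by
      have h6 : range P.J \ (range P.J).erase i ⊆ {i} := by
        intro x hx
        rw [mem_sdiff, mem_erase] at hx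
        rw [mem_singleton]
        by_contra h1
        exact hx.2 ⟨h1, hx.1⟩
      have h7 := card_le_card h6
      rwa [card_singleton] at h7
    rcases h3 with h3 | h3 | h3
    · refine ⟨0, h2, ?_⟩
      rintro ⟨_, h6 | h6 | h6⟩
      · exact hp h6
      · rw [h4, h3.2] at h6
        omega
      · exact h6.2.2 (by rw [h4, h3.2])
    · refine ⟨0, h2, ?_⟩
      rintro ⟨_, h6 | h6 | h6⟩
      · exact hp h6
      · rw [h4] at h6
        rcases h3.2 with h7 | h7
        · rw [h7] at h6
          omega
        · omega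
      · exact h3.1 h6.1
    · refine ⟨As.length - 1, Nat.sub_lt h2 one_pos, ?_⟩
      rintro ⟨_, h6 | h6 | h6⟩
      · exact hp h6
      · omega
      · exact h3.1 h6.2.1

/-- Realization of the points of an object. -/
theorem pt_real {ν : Type} [Fintype ν] [DecidableEq ν] {d : ℕ} (β : ν → ℕ) (k : Kd)
    (hk : k.nm ≤ d + 1) (t : Fin (d + 1) → ν → ℂ)
    (h1 : ∀ x : Fin (d + 1), x.1 < k.nm → ∀ s, β s ∈ mA k x → t x s = 0)
    (h2 : IsCl k → (∀ x < k.nm, cb k ∉ mA k x) ∧
      ∀ s, β s = cb k → ∑ x : Fin (d + 1), (if x.1 < k.nm then t x s else 0) = 0) :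
    ∃ q : ν × Fin (d + 1) → ℂ, ∀ x : Fin (d + 1), x.1 < k.nm → pt β k x q = t x := by
  refine ⟨fun y => t y.2 y.1, fun x hx => ?_⟩
  cases k with
  | ord e A =>
    have hx0 : x = 0 := Fin.ext (by
      change x.1 < 1 at hx
      rw [Fin.val_zero]
      omega)
    subst hx0
    funext s
    change (if β s ∈ A then 0 else t 0 s) = t 0 s
    split_ifs with h3
    · exact (h1 0 hx s h3).symm
    · rfl
  | cl e dl i As =>
    funext s
    change (if β s ∈ As.getD x ∅ then 0 else (if β s = i ∧ x.1 + 1 = As.length then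
        - ∑ y : Fin (d + 1), (if y.1 + 1 < As.length then t y s else 0)
      else t x s)) = t x s
    split_ifs with h3 h4
    · exact (h1 x hx s h3).symm
    · have h5 := (h2 trivial).2 s h4.1
      change ∑ x : Fin (d + 1), (if x.1 < As.length then t x s else 0) = 0 at h5
      have h6 : ∀ y : Fin (d + 1), (if y.1 < As.length then t y s else 0) =
          (if y.1 + 1 < As.length then t y s else 0) + (if y = x then t y s else 0) := by
        intro y
        by_cases h7 : y = x
        · subst h7
          have h9 : y.1 < As.length := hx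
          rw [if_pos h9, if_neg (by omega), if_pos rfl, zero_add]
        · have h8 : y.1 ≠ x.1 := fun h9 => h7 (Fin.ext h9)
          rw [if_neg h7, add_zero]
          by_cases h9 : y.1 + 1 < As.length
          · rw [if_pos h9, if_pos (by omega)]
          · rw [if_neg h9, if_neg (by omega)]
      rw [sum_congr rfl fun y _ => h6 y, sum_add_distrib, sum_ite_eq' univ x, if_pos (mem_univ x)]
        at h5
      rw [neg_eq_iff_add_eq_zero]
      exact h5
    · rfl

end Pool.Agent.GD.BE
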