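import Pool.Agent.GD.VT.Main
import Pool.Agent.GD.BE.Box
import Pool.Agent.GD.BE.Gain
import Pool.Agent.GD.Top.Stmt

/-!
# General d, block BETA, module Vb: the virtual dimensions of a configuration of the class as values of
tensor systems

`yS` are the densities of the configuration.  `v_eq`: `vt` for `I = range J`, `D = d`, `GV_series`, `GV_eq`.
`b_eq`: `vt` for `I = range J`, `D = J` (the error is `C / n < 1 / 2`, both sides are integers), `GV_series`,
`GV_eq`, `FR_map` for `Fin J ⊕ Fin 0 ↪ Fin J ⊕ Fin e`.  `ms.count (P.u P.J) = 0` gives `npt ms P.e (range P.J) =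
0` (no member of a cluster vanishes on its creation block).
-/

set_option autoImplicit false

namespace Pool.Agent.GD.BE

open Finset
open Pool.Agent.GD.VT (vt vt0 GV GV_eq GV_series NN Mser)

/-- The densities of a configuration. -/
noncomputable def yS (P : Par) (n : ℕ) (ms : Multiset Kd) (K : Finset (Fin P.J)) (a : ℕ) : ℝ :=
  (a.factorial : ℝ) * npt ms (K.card + a) (range P.J \ K.map Fin.valEmbedding) /
    ((∏ i ∈ K, (P.c i : ℝ)) * (n : ℝ) ^ a)

variable (P : Par)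

private theorem Vb_mbs {i j k : ℕ} {S A : Finset ℕ} (h : A ∈ mbs i j k S) : A ⊆ (range j).erase i := by
  unfold mbs at h
  split_ifs at h with hk
  · rw [List.mem_singleton] at h
    rw [h]
    exact sdiff_subset
  · rcases List.mem_cons.1 h with h | h
    · rw [h]
    · rw [List.eq_of_mem_replicate h]
      exact sdiff_subset

private theorem Vb_mbr {i j k e r : ℕ} {A : Finset ℕ} (h : A ∈ mbr i j k e r) : A ⊆ (range j).erase i := by
  unfold mbr at h
  rw [List.mem_map] at h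
  obtain ⟨s, _, rfl⟩ := h
  exact sdiff_subset

private theorem Vb_pts {d e i j x : ℕ} {A : Finset ℕ} (τ : CT) (h : (x, A) ∈ (τ.kd d e i j).pts) :
    A ⊆ (range j).erase i := by
  cases τ with
  | pl k S =>
    have h1 : (x, A) ∈ (mbs i j k S).map fun A => (e, A) := h
    rw [List.mem_map] at h1
    obtain ⟨B, hB, h2⟩ := h1
    rw [← (Prod.mk.inj h2).2]
    exact Vb_mbs hB
  | b0 S =>
    have h1 : (x, A) ∈ (mbs i j ((d - i - 1) / (e - 1)) S).map fun A => (e, A) := h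
    rw [List.mem_map] at h1
    obtain ⟨B, hB, h2⟩ := h1
    rw [← (Prod.mk.inj h2).2]
    exact Vb_mbs hB
  | br r =>
    have h1 : (x, A) ∈ (mbr i j ((d - i + r - 1) / (e - 1)) e r).map fun A => (e, A) := h
    rw [List.mem_map] at h1
    obtain ⟨B, hB, h2⟩ := h1
    rw [← (Prod.mk.inj h2).2]
    exact Vb_mbr hB

theorem npt_u (he : 2 ≤ P.e) (hed : P.e < P.d) {n : ℕ} {ms : Multiset Kd} (h : Cls P P.J n ms)
    (h0 : ms.count (P.u P.J) = 0) : npt ms P.e (range P.J) = 0 := by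
  unfold npt
  rw [Multiset.count_eq_zero, Multiset.mem_bind]
  rintro ⟨k, hk, hk'⟩
  rcases h.mem k hk with ⟨x, A, rfl, _, _, _, _⟩ | ⟨i, hi, τ, _, rfl⟩
  · have h1 : (P.e, range P.J) = (x, A) := Multiset.mem_singleton.1 hk'
    obtain ⟨h2, h3⟩ := Prod.mk.inj h1
    rw [Multiset.count_eq_zero] at h0
    apply h0
    show Kd.ord P.e (range P.J) ∈ ms
    rw [h2, h3]
    exact hk
  · have h1 := Vb_pts τ hk'
    exact absurd (h1 (mem_range.2 hi)) (notMem_erase i _)

/-- The densities on the level `J`. -/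
private theorem Vb_dens (n : ℕ) (ms : Multiset Kd) (K : Finset (Fin P.J)) (b : ℕ) :
    (b.factorial : ℝ) * Pool.Agent.GD.VT.NN P.J ms (K.map Fin.valEmbedding) b /
      ((∏ i ∈ K.map Fin.valEmbedding, (P.c i : ℝ)) * (n : ℝ) ^ b) = yS P n ms K b := by
  unfold yS NN
  rw [card_map, prod_map]
  rfl

private theorem Vb_GV (n : ℕ) (ms : Multiset Kd) (a : ℕ) :
    GV (fun K b => (b.factorial : ℝ) * NN P.J ms K b / ((∏ i ∈ K, (P.c i : ℝ)) * (n : ℝ) ^ b))
      (range P.J) a = FR (fun S : Finset (Fin P.J ⊕ Fin a) => yS P n ms (lf S) (rt S).card) univ := by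
  rw [GV_eq]
  refine Pool.Agent.GD.VT.FR_congr fun S _ _ => ?_
  exact Vb_dens P n ms (lf S) (rt S).card

private theorem Vb_vt (he : 2 ≤ P.e) (hed : P.e < P.d) (hc : ∀ i < P.J, 1 ≤ P.c i) :
    ∃ C : ℝ, 0 ≤ C ∧ ∃ n₀ : ℕ, 1 ≤ n₀ ∧ ∀ n, n₀ ≤ n → ∀ ms, Cls P P.J n ms → ms.count (P.u P.J) = 0 →
      ∀ D a : ℕ, D = P.J + a → D ≤ P.d →
      |(vd D (range P.J) P.c n ms : ℝ) - (∏ i ∈ range P.J, (P.c i : ℝ)) * (n : ℝ) ^ a / a.factorial *
        FR (fun S : Finset (Fin P.J ⊕ Fin a) => yS P n ms (lf S) (rt S).card) univ| ≤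
        C * (n : ℝ) ^ ((a : ℤ) - 1) := by
  obtain ⟨C, hC, h⟩ := vt P he hed (le_refl P.J) 0
  refine ⟨C, hC, 1 + ∑ i ∈ range P.J, P.c i, by omega, fun n hn ms hcls h0 D a hD hDd => ?_⟩
  have h1 := h n (by omega) (by omega) ms hcls (by rw [npt_u P he hed hcls h0]; simp) (range P.J)
    (Subset.refl _) D hDd (by rw [card_range]; omega)
  rw [card_range] at h1
  have h2 : D - P.J = a := by omega
  have h3 : (D : ℤ) - P.J - 1 = (a : ℤ) - 1 := by omega
  rw [h2, h3, GV_series P.d P.c n (by omega) _ _ (fun i hi => hc i (mem_range.1 hi)) a (by omega),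
    Vb_GV] at h1
  exact h1

theorem v_eq (he : 2 ≤ P.e) (hed : P.e < P.d) (hc : ∀ i < P.J, 1 ≤ P.c i) :
    ∃ C : ℝ, 0 ≤ C ∧ ∃ n₀ : ℕ, ∀ n, n₀ ≤ n → ∀ ms, Cls P P.J n ms → ms.count (P.u P.J) = 0 →
      |(P.v P.J n ms : ℝ) - (∏ i ∈ range P.J, (P.c i : ℝ)) * (n : ℝ) ^ P.e / P.e.factorial *
        FR (fun S : Finset (Fin P.J ⊕ Fin P.e) => yS P n ms (lf S) (rt S).card) univ| ≤
        C * (n : ℝ) ^ (P.e - 1) := by
  obtain ⟨C, hC, n₀, hn₀, h⟩ := Vb_vt P he hed hc
  refine ⟨C, hC, n₀, fun n hn ms hcls h0 => ?_⟩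
  have hJ : P.J = P.d - P.e := rfl
  have h1 := h n hn ms hcls h0 P.d P.e (by omega) le_rfl
  have h2 : ((P.e : ℤ) - 1) = ((P.e - 1 : ℕ) : ℤ) := by omega
  rw [h2, zpow_natCast] at h1
  exact h1

/-- The embedding of the base slots. -/
private def Vb_f (J e : ℕ) : Fin J ⊕ Fin 0 ↪ Fin J ⊕ Fin e where
  toFun := Sum.elim Sum.inl fun x => x.elim0
  inj' := by
    rintro (a | a) (b | b) h
    · exact congrArg _ (Sum.inl_injective h)
    · exact b.elim0
    · exact a.elim0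
    · exact a.elim0

private theorem Vb_tb (J e : ℕ) : tb J e = (univ : Finset (Fin J ⊕ Fin 0)).map (Vb_f J e) := by
  ext x
  rw [mem_map]
  unfold tb
  rw [mem_filter]
  constructor
  · rintro ⟨_, hx⟩
    rcases x with x | x
    · exact ⟨Sum.inl x, mem_univ _, rfl⟩
    · exact absurd hx (by simp)
  · rintro ⟨z, _, rfl⟩
    rcases z with z | z
    · exact ⟨mem_univ _, rfl⟩
    · exact z.elim0

private theorem Vb_lf (J e : ℕ) (S : Finset (Fin J ⊕ Fin 0)) : lf (S.map (Vb_f J e)) = lf S := by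
  ext x
  unfold lf
  rw [mem_filter, mem_filter, mem_map]
  constructor
  · rintro ⟨_, z, hz, h⟩
    rcases z with z | z
    · have : z = x := Sum.inl_injective h
      exact ⟨mem_univ _, this ▸ hz⟩
    · exact z.elim0
  · rintro ⟨_, hx⟩
    exact ⟨mem_univ _, Sum.inl x, hx, rfl⟩

theorem b_eq (he : 2 ≤ P.e) (hed : P.e < P.d) (hc : ∀ i < P.J, 1 ≤ P.c i)
    (kb : Finset (Fin P.J) → ℚ) (b : ℕ)
    (hb : (b : ℝ) = (∏ i ∈ range P.J, (P.c i : ℝ)) * FR (kbR (e := P.e) kb) (tb P.J P.e)) :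
    ∃ n₀ : ℕ, ∀ n, n₀ ≤ n → ∀ ms, Cls P P.J n ms → ms.count (P.u P.J) = 0 →
      (∀ K : Finset (Fin P.J), K ≠ ∅ → (npt ms K.card (range P.J \ K.map Fin.valEmbedding) : ℚ) =
        kb K * ∏ i ∈ K, (P.c i : ℚ)) → P.b n ms = b := by
  obtain ⟨C, hC, n₀, hn₀, h⟩ := Vb_vt P he hed hc
  obtain ⟨m, hm⟩ := exists_nat_gt C
  refine ⟨n₀ + m, fun n hn ms hcls h0 hK => ?_⟩
  have hJ : P.J = P.d - P.e := rfl
  have h1 := h n (by omega) ms hcls h0 P.J 0 (by omega) (by omega)
  have hn1 : (1 : ℝ) ≤ n := by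
    have : 1 ≤ n := by omega
    exact_mod_cast this
  have hn0 : (0 : ℝ) < n := by linarith
  have h2 : FR (fun S : Finset (Fin P.J ⊕ Fin 0) => yS P n ms (lf S) (rt S).card) univ =
      FR (kbR (e := P.e) kb) (tb P.J P.e) := by
    rw [Vb_tb, Pool.Agent.GD.VT.FR_map]
    refine Pool.Agent.GD.VT.FR_congr fun S _ hS => ?_
    show yS P n ms (lf S) (rt S).card = ((kb (lf (S.map (Vb_f P.J P.e))) : ℚ) : ℝ)
    rw [Vb_lf]
    have h3 : (rt S).card = 0 := by
      rw [card_eq_zero, eq_empty_iff_forall_notMem]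
      intro x
      exact x.elim0
    have h4 : lf S ≠ ∅ := by
      intro h5
      apply hS
      rw [eq_empty_iff_forall_notMem]
      intro x hx
      rcases x with x | x
      · have h6 : x ∈ lf S := by
          unfold lf
          rw [mem_filter]
          exact ⟨mem_univ _, hx⟩
        rw [h5] at h6
        exact notMem_empty x h6
      · exact x.elim0
    rw [h3]
    unfold yS
    rw [Nat.factorial_zero, Nat.cast_one, one_mul, add_zero, pow_zero, mul_one]
    have h5 := hK (lf S) h4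
    have h6 : (npt ms (lf S).card (range P.J \ (lf S).map Fin.valEmbedding) : ℝ) =
        (kb (lf S) : ℝ) * ∏ i ∈ lf S, (P.c i : ℝ) := by exact_mod_cast h5
    rw [h6]
    refine mul_div_cancel_right₀ _ ?_
    rw [prod_ne_zero_iff]
    intro i _
    have h7 := hc i.1 i.2
    have h8 : P.c i.1 ≠ 0 := by omega
    exact_mod_cast h8
  rw [h2, pow_zero, mul_one, Nat.factorial_zero, Nat.cast_one, div_one, ← hb] at h1
  have h3 : C * (n : ℝ) ^ (((0 : ℕ) : ℤ) - 1) < 1 := by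
    rw [Nat.cast_zero, zero_sub, zpow_neg_one, ← div_eq_mul_inv, div_lt_one hn0]
    refine hm.trans_le ?_
    have : m ≤ n := by omega
    exact_mod_cast this
  have h4 : |(P.b n ms : ℝ) - ((b : ℤ) : ℝ)| < 1 := by
    rw [Int.cast_natCast]
    exact h1.trans_lt h3
  have h5 : |P.b n ms - (b : ℤ)| < 1 := by exact_mod_cast h4
  have h6 := Int.abs_lt_one_iff.1 h5
  omega

end Pool.Agent.GD.BE
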