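import Pool.Agent.GD.BE.Lab

/-!
# General d, block BETA, module Vis: dependent points

Some of the additional points are *dependent*: the vector of `u ∈ D` in the base slot `slot u` is minus the
sum of the vectors of the points `v ∈ R u` (the other members of a cluster).  `vis δ p` are the positions as a
function of the parameters `p` (which give all points, the value of `p u` in the slot `slot u` is not used for
`u ∈ D`).  `α` is bad if it sees a dependent point `u` and a point of `R u`.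

PROOFS.  `vis_gn`: for `α ∉ bad δ` the linear map `p ↦ pos ν α (vis δ p)` is surjective: given `y`, take
`p u` = `y` for the seen `u` (all coordinates seen by `α`; the rest `0`), and correct for every seen
dependent `u` the value in the slot `slot u` of one point `v₀ u ∈ R u` (not seen by `α`, not in `D`, the `R u`
are disjoint) so that the sum over `R u` is minus the value wanted.  A general statement pulled back by a
surjective linear map is general (compose the polynomial with the map; if the composition vanished, all values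
of the polynomial would vanish).  `vis_tmpl`: `p u` for `u = ⟨S, t⟩` is `ω j ⟨S', t⟩` where `j` is the label of
one block of `rt S`, `S'` = `S` with the blocks `b` replaced by `hlab b` (as `V7/BE/Temp.lean`: `Om0`, `sS`,
`hlab`, `slab`, `res_Om0`; if `t` is not below `nhi ν S'` take `0`); no point of `D` is seen by these `α`.
`bad_card`: two different sets of `e - 1` blocks are contained in at most one set of `e` blocks.
-/

set_option autoImplicit false

namespace Pool.Agent.GD.BE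

open Finset MvPolynomial Module Pool.Agent.H51.TB Topology

variable {cb : ℕ → ℕ} {cz J e q : ℕ} {ν : Nos J}

/-- A general statement pulled back by a surjective linear map. -/
theorem gn_comp {P X P' X' : Type} [Fintype P] [Fintype X] [Fintype P'] [Fintype X']
    (f : (P' → X' → ℂ) →ₗ[ℂ] (P → X → ℂ)) (hf : Function.Surjective f)
    {Q : (P → X → ℂ) → Prop} (h : Gn P X Q) : Gn P' X' fun p => Q (f p) := by
  classical
  obtain ⟨G, hG, h⟩ := h
  let co : P × X → P' × X' → ℂ := fun x y => f (Pi.single y.1 (Pi.single y.2 1)) x.1 x.2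
  let L : P × X → MvPolynomial (P' × X') ℂ := fun x => ∑ y, C (co x y) * MvPolynomial.X y
  have hL : ∀ (p : P' → X' → ℂ) (x : P × X),
      eval (fun y => p y.1 y.2) (L x) = f p x.1 x.2 := by
    intro p x
    have h1 : p = ∑ y : P' × X', p y.1 y.2 • (Pi.single y.1 (Pi.single y.2 1) : P' → X' → ℂ) := by
      funext a b
      rw [Finset.sum_apply, Finset.sum_apply, Finset.sum_eq_single (a, b)]
      · simp
      · rintro ⟨a', b'⟩ _ hne
        rw [Pi.smul_apply, Pi.smul_apply]
        by_cases ha : a' = a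
        · subst ha
          have hb : b' ≠ b := fun hb => hne (by rw [hb])
          rw [Pi.single_eq_same, Pi.single_eq_of_ne hb.symm, smul_zero]
        · rw [Pi.single_eq_of_ne (Ne.symm ha), Pi.zero_apply, smul_zero]
      · intro hne
        exact absurd (mem_univ _) hne
    have h2 : f p = ∑ y : P' × X', p y.1 y.2 •
        f (Pi.single y.1 (Pi.single y.2 1) : P' → X' → ℂ) := by
      conv_lhs => rw [h1]
      rw [map_sum]
      exact sum_congr rfl fun y _ => map_smul _ _ _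
    rw [h2, Finset.sum_apply, Finset.sum_apply]
    simp only [L, map_sum, map_mul, eval_C, eval_X]
    refine sum_congr rfl fun y _ => ?_
    rw [Pi.smul_apply, Pi.smul_apply, smul_eq_mul, mul_comm]
  have hev : ∀ p : P' → X' → ℂ, eval (fun y => p y.1 y.2) (aeval L G) =
      eval (fun x => f p x.1 x.2) G := by
    intro p
    have h1 : (eval (fun y : P' × X' => p y.1 y.2)).comp
        ((aeval L : MvPolynomial (P × X) ℂ →ₐ[ℂ] _) : MvPolynomial (P × X) ℂ →+* _) =
        eval (fun x => f p x.1 x.2) := by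
      apply MvPolynomial.ringHom_ext
      · intro r
        simp
      · intro x
        simp [hL]
    exact DFunLike.congr_fun h1 G
  refine ⟨aeval L G, ?_, fun p hp => ?_⟩
  · intro h0
    apply hG
    apply MvPolynomial.funext
    intro x
    rw [map_zero]
    obtain ⟨p, hp⟩ := hf fun i j => x (i, j)
    have h1 := hev p
    rw [h0, map_zero, hp] at h1
    exact h1.symm
  · rw [hev] at hp
    exact h _ hp

/-- The dependent points, their slots and the points on which they depend. -/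
structure Dpn (ν : Nos J) (q : ℕ) where
  D : Finset (PB ν q)
  slot : PB ν q → Fin J
  R : PB ν q → Finset (PB ν q)

structure Dpn.Ok (δ : Dpn ν q) : Prop where
  ne : ∀ u ∈ δ.D, (δ.R u).Nonempty
  disj : ∀ u ∈ δ.D, ∀ v ∈ δ.R u, v ∉ δ.D
  pw : ∀ u ∈ δ.D, ∀ u' ∈ δ.D, u ≠ u' → Disjoint (δ.R u) (δ.R u')

open Classical in
/-- The positions. -/
noncomputable def vis (δ : Dpn ν q) (p : PB ν q → RC cb cz J q → ℂ) (u : PB ν q) :
    RC cb cz J q → ℂ
  | Sum.inl y => if u ∈ δ.D ∧ y.1 = δ.slot u then -∑ v ∈ δ.R u, p v (Sum.inl y) else p u (Sum.inl y)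
  | Sum.inr y => p u (Sum.inr y)

/-- `α` sees the point `u`. -/
def Sees (α : Fin e ↪o Fin q) (u : PB ν q) : Prop := ∀ b ∈ rt u.1, ∃ h, α h = b

open Classical in
/-- The bad `α`. -/
noncomputable def bad (e : ℕ) (δ : Dpn ν q) : Finset (Fin e ↪o Fin q) :=
  univ.filter fun α => ∃ u ∈ δ.D, Sees α u ∧ ∃ v ∈ δ.R u, Sees α v

/-- The point seen as `x`. -/
def spt (ν : Nos J) (α : Fin e ↪o Fin q) (x : PC (nhi ν) (cor ν α)) : PB ν q :=
  ⟨x.1.1.map (emb J α), ⟨x.1.2.1, x.2⟩⟩

theorem mem_rt_map (α : Fin e ↪o Fin q) (S : Finset (Fin J ⊕ Fin e)) (b : Fin q) :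
    b ∈ rt (S.map (emb J α)) ↔ ∃ h, Sum.inr h ∈ S ∧ α h = b := by
  unfold rt
  rw [mem_filter, mem_map]
  constructor
  · rintro ⟨-, x, hx, hxb⟩
    rcases x with j | h
    · exact absurd hxb (by simp [emb])
    · exact ⟨h, hx, Sum.inr_injective hxb⟩
  · rintro ⟨h, hh, rfl⟩
    exact ⟨mem_univ _, Sum.inr h, hh, rfl⟩

theorem sees_spt (α : Fin e ↪o Fin q) (x : PC (nhi ν) (cor ν α)) : Sees α (spt ν α x) := by
  intro b hb
  obtain ⟨h, _, rfl⟩ := (mem_rt_map α x.1.1 b).1 hb
  exact ⟨h, rfl⟩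

theorem spt_injective (α : Fin e ↪o Fin q) : Function.Injective (spt ν α) := by
  rintro ⟨⟨S, t⟩, ht⟩ ⟨⟨S', t'⟩, ht'⟩ h
  have h1 : S.map (emb J α) = S'.map (emb J α) := congrArg Sigma.fst h
  have h2 : S = S' := Finset.map_injective _ h1
  subst h2
  have h3 : ((spt ν α ⟨⟨S, t⟩, ht⟩).2 : ℕ) = ((spt ν α ⟨⟨S, t'⟩, ht'⟩).2 : ℕ) := by
    rw [h]
  have h4 : t = t' := Fin.ext h3
  subst h4
  rfl

theorem pos_inl (α : Fin e ↪o Fin q) (Ω : PB ν q → RC cb cz J q → ℂ) (x : PC (nhi ν) (cor ν α))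
    (j : Fin J) (z : Fin (cb j)) :
    pos ν α Ω x ⟨Sum.inl j, z⟩ = Ω (spt ν α x) (Sum.inl ⟨j, z⟩) := rfl

theorem pos_inr (α : Fin e ↪o Fin q) (Ω : PB ν q → RC cb cz J q → ℂ) (x : PC (nhi ν) (cor ν α))
    (h : Fin e) (z : Fin cz) :
    pos ν α Ω x ⟨Sum.inr h, z⟩ = Ω (spt ν α x) (Sum.inr (α h, z)) := rfl

/-- The positions seen by `α` as a linear map of the parameters. -/
noncomputable def visL (δ : Dpn ν q) (α : Fin e ↪o Fin q) : (PB ν q → RC cb cz J q → ℂ) →ₗ[ℂ]
    (PC (nhi ν) (cor ν α) → (Σ i : Fin J ⊕ Fin e, Fin (cd cb cz i)) → ℂ) where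
  toFun p := pos ν α (vis δ p)
  map_add' p p' := by
    funext x y
    obtain ⟨i, z⟩ := y
    rcases i with j | h
    · show pos ν α (vis δ (p + p')) x ⟨Sum.inl j, z⟩ = pos ν α (vis δ p) x ⟨Sum.inl j, z⟩ +
        pos ν α (vis δ p') x ⟨Sum.inl j, z⟩
      simp only [pos_inl, vis]
      split_ifs with hc
      · simp only [Pi.add_apply, sum_add_distrib, neg_add]
      · rfl
    · rfl
  map_smul' a p := by
    funext x y
    obtain ⟨i, z⟩ := y
    rcases i with j | h
    · show pos ν α (vis δ (a • p)) x ⟨Sum.inl j, z⟩ = a * pos ν α (vis δ p) x ⟨Sum.inl j, z⟩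
      simp only [pos_inl, vis]
      split_ifs with hc
      · simp only [Pi.smul_apply, smul_eq_mul, ← mul_sum, mul_neg]
      · rfl
    · rfl

open Classical in
theorem visL_surjective (δ : Dpn ν q) (hδ : δ.Ok) (α : Fin e ↪o Fin q) (hα : α ∉ bad e δ) :
    Function.Surjective (visL (cb := cb) (cz := cz) δ α) := by
  intro y
  -- the points of the clusters which are corrected
  have hv₀ : ∀ u : PB ν q, ∃ v : PB ν q, u ∈ δ.D → v ∈ δ.R u := by
    intro u
    by_cases hu : u ∈ δ.D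
    · obtain ⟨v, hv⟩ := hδ.ne u hu
      exact ⟨v, fun _ => hv⟩
    · exact ⟨u, fun h => absurd h hu⟩
  choose v₀ hv₀ using hv₀
  -- not seen
  have hns : ∀ x : PC (nhi ν) (cor ν α), spt ν α x ∈ δ.D → ∀ v ∈ δ.R (spt ν α x),
      ¬ ∃ x', spt ν α x' = v := by
    intro x hx v hv hcon
    obtain ⟨x', rfl⟩ := hcon
    apply hα
    unfold bad
    rw [mem_filter]
    exact ⟨mem_univ _, _, hx, sees_spt α x, _, hv, sees_spt α x'⟩
  let p : PB ν q → RC cb cz J q → ℂ := fun u c =>
    if hu : ∃ x, spt ν α x = u then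
      match c with
      | Sum.inl z => y hu.choose ⟨Sum.inl z.1, z.2⟩
      | Sum.inr z => if hz : ∃ h, α h = z.1 then y hu.choose ⟨Sum.inr hz.choose, z.2⟩ else 0
    else
      match c with
      | Sum.inl z => -∑ x : PC (nhi ν) (cor ν α),
          if spt ν α x ∈ δ.D ∧ v₀ (spt ν α x) = u ∧ z.1 = δ.slot (spt ν α x) then
            y x ⟨Sum.inl z.1, z.2⟩ else 0
      | Sum.inr _ => 0
  have hch : ∀ (x : PC (nhi ν) (cor ν α)) (hu : ∃ x', spt ν α x' = spt ν α x), hu.choose = x :=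
    fun x hu => spt_injective α hu.choose_spec
  have hp1 : ∀ (x : PC (nhi ν) (cor ν α)) (z : Σ j : Fin J, Fin (cb j)),
      p (spt ν α x) (Sum.inl z) = y x ⟨Sum.inl z.1, z.2⟩ := by
    intro x z
    have hu : ∃ x', spt ν α x' = spt ν α x := ⟨x, rfl⟩
    simp only [p]
    rw [dif_pos hu, hch x hu]
  have hp2 : ∀ (x : PC (nhi ν) (cor ν α)) (h : Fin e) (z : Fin cz),
      p (spt ν α x) (Sum.inr (α h, z)) = y x ⟨Sum.inr h, z⟩ := by
    intro x h z
    have hu : ∃ x', spt ν α x' = spt ν α x := ⟨x, rfl⟩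
    have hz : ∃ h', α h' = α h := ⟨h, rfl⟩
    have hz' : hz.choose = h := α.injective hz.choose_spec
    simp only [p]
    rw [dif_pos hu, dif_pos hz, hch x hu, hz']
  refine ⟨p, ?_⟩
  funext x c
  obtain ⟨i, z⟩ := c
  rcases i with j | h
  · show vis δ p (spt ν α x) (Sum.inl ⟨j, z⟩) = y x ⟨Sum.inl j, z⟩
    unfold vis
    by_cases hc : spt ν α x ∈ δ.D ∧ j = δ.slot (spt ν α x)
    · simp only [if_pos hc]
      have h1 : ∀ v ∈ δ.R (spt ν α x), p v (Sum.inl ⟨j, z⟩) =
          if v = v₀ (spt ν α x) then -y x ⟨Sum.inl j, z⟩ else 0 := by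
        intro v hv
        have hnv := hns x hc.1 v hv
        simp only [p]
        rw [dif_neg hnv]
        by_cases hvv : v = v₀ (spt ν α x)
        · rw [if_pos hvv, sum_eq_single x]
          · rw [if_pos ⟨hc.1, hvv.symm, hc.2⟩]
          · intro x' _ hx'
            rw [if_neg]
            rintro ⟨h3, h4, -⟩
            apply hx'
            by_contra hne
            have h5 : spt ν α x' ≠ spt ν α x := fun h6 => hne (spt_injective α h6)
            have h6 := hδ.pw _ h3 _ hc.1 h5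
            rw [Finset.disjoint_left] at h6
            exact h6 (hv₀ _ h3) (by rw [h4]; exact hv)
          · intro hx'
            exact absurd (mem_univ _) hx'
        · rw [if_neg hvv, sum_eq_zero, neg_zero]
          intro x' _
          rw [if_neg]
          rintro ⟨h3, h4, -⟩
          by_cases h5 : spt ν α x' = spt ν α x
          · rw [h5] at h4
            exact hvv h4.symm
          · have h6 := hδ.pw _ h3 _ hc.1 h5
            rw [Finset.disjoint_left] at h6
            exact h6 (hv₀ _ h3) (by rw [h4]; exact hv)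
      rw [sum_congr rfl h1, sum_ite_eq', if_pos (hv₀ _ hc.1), neg_neg]
    · simp only [if_neg hc]
      exact hp1 x ⟨j, z⟩
  · show vis δ p (spt ν α x) (Sum.inr (α h, z)) = y x ⟨Sum.inr h, z⟩
    exact hp2 x h z

theorem vis_gn (δ : Dpn ν q) (hδ : δ.Ok) (α : Fin e ↪o Fin q) (hα : α ∉ bad e δ)
    (Q : (PC (nhi ν) (cor ν α) → (Σ i : Fin J ⊕ Fin e, Fin (cd cb cz i)) → ℂ) → Prop)
    (hQ : Gn (PC (nhi ν) (cor ν α)) (Σ i : Fin J ⊕ Fin e, Fin (cd cb cz i)) Q) :
    Gn (PB ν q) (RC cb cz J q) fun p => Q (pos ν α (vis δ p)) :=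
  gn_comp (visL δ α) (visL_surjective δ hδ α hα) hQ

theorem vis_cont (δ : Dpn ν q) :
    Continuous (vis δ : (PB ν q → RC cb cz J q → ℂ) → PB ν q → RC cb cz J q → ℂ) := by
  classical
  refine continuous_pi fun u => continuous_pi fun c => ?_
  have hco : ∀ (v : PB ν q) (c : RC cb cz J q),
      Continuous fun p : PB ν q → RC cb cz J q → ℂ => p v c := fun v c =>
    (continuous_apply c).comp (continuous_apply v)
  rcases c with z | z
  · by_cases hc : u ∈ δ.D ∧ z.1 = δ.slot u
    · have h1 : (fun p : PB ν q → RC cb cz J q → ℂ => vis δ p u (Sum.inl z)) =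
          fun p => -∑ v ∈ δ.R u, p v (Sum.inl z) := by
        funext p
        unfold vis
        simp only [if_pos hc]
      rw [h1]
      exact (continuous_finsetSum _ fun v _ => hco v _).neg
    · have h1 : (fun p : PB ν q → RC cb cz J q → ℂ => vis δ p u (Sum.inl z)) =
          fun p => p u (Sum.inl z) := by
        funext p
        unfold vis
        simp only [if_neg hc]
      rw [h1]
      exact hco u _
  · exact hco u _

/-- The rainbow `α`s with the labels `j < s`. -/
abbrev gb {e s q₀ : ℕ} (j : Fin s) (f : Fin e → Fin q₀) : Fin e ↪o Fin (e * (2 * s) * q₀) :=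
  Pool.Agent.V7.BE.blk (Fin.castLE (by omega) j : Fin (2 * s)) f

theorem gb_not_bad {s q₀ : ℕ} (δ : Dpn ν (e * (2 * s) * q₀))
    (h : ∀ u ∈ δ.D, ∀ (j : Fin s) (f : Fin e → Fin q₀), ¬ Sees (gb j f) u)
    (j : Fin s) (f : Fin e → Fin q₀) : gb j f ∉ bad e δ := by
  classical
  intro hmem
  unfold bad at hmem
  obtain ⟨-, u, hu, hs, -⟩ := mem_filter.1 hmem
  exact h u hu j f hs

/-- The slots of a set of blocks. -/
def lbS {s q₀ : ℕ} (S : Finset (Fin J ⊕ Fin (e * (2 * s) * q₀))) : Finset (Fin J ⊕ Fin e) :=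
  S.image (Sum.map id Pool.Agent.V7.BE.hlab)

theorem lbS_map {s q₀ : ℕ} (j : Fin s) (f : Fin e → Fin q₀) (S : Finset (Fin J ⊕ Fin e)) :
    lbS (S.map (emb J (gb j f))) = S := by
  unfold lbS
  rw [Finset.map_eq_image, Finset.image_image]
  have h1 : (Sum.map id Pool.Agent.V7.BE.hlab ∘ ⇑(emb J (gb (e := e) j f)) :
      Fin J ⊕ Fin e → Fin J ⊕ Fin e) = id := by
    funext x
    rcases x with i | h
    · rfl
    · show Sum.inr (Pool.Agent.V7.BE.hlab (gb j f h)) = Sum.inr h
      rw [Pool.Agent.V7.BE.hlab_blk]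
  rw [h1, Finset.image_id]

theorem vis_tmpl {s q₀ : ℕ} (δ : Dpn ν (e * (2 * s) * q₀))
    (h : ∀ u ∈ δ.D, ∀ (j : Fin s) (f : Fin e → Fin q₀), ¬ Sees (gb j f) u)
    (ω : Fin s → (Σ S : Finset (Fin J ⊕ Fin e), Fin (nhi ν S)) →
      (Σ i : Fin J ⊕ Fin e, Fin (cd cb cz i)) → ℂ) :
    ∃ p : PB ν (e * (2 * s) * q₀) → RC cb cz J (e * (2 * s) * q₀) → ℂ,
      ∀ (j : Fin s) (f : Fin e → Fin q₀), pos ν (gb j f) (vis δ p) = fun x => ω j x.1 := by
  classical
  rcases Nat.eq_zero_or_pos s with hs | hs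
  · subst hs
    exact ⟨0, fun j => j.elim0⟩
  have hs2 : 0 < 2 * s := by omega
  -- the label of a set of blocks
  let lb : Finset (Fin J ⊕ Fin (e * (2 * s) * q₀)) → ℕ := fun S =>
    if hS : (rt S).Nonempty then (Pool.Agent.V7.BE.slab (M := e) (q₀ := q₀) hs2
      ((rt S).min' hS) : ℕ) else 0
  have hlb : ∀ (j : Fin s) (f : Fin e → Fin q₀) (S : Finset (Fin J ⊕ Fin e)),
      (rt (S.map (emb J (gb j f)))).Nonempty → lb (S.map (emb J (gb j f))) = j := by
    intro j f S hS
    simp only [lb]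
    rw [dif_pos hS]
    obtain ⟨g, _, hg⟩ := (mem_rt_map (gb j f) S _).1 ((rt (S.map (emb J (gb j f)))).min'_mem hS)
    rw [← hg, Pool.Agent.V7.BE.slab_blk]
    rfl
  let p : PB ν (e * (2 * s) * q₀) → RC cb cz J (e * (2 * s) * q₀) → ℂ := fun u c =>
    if hu : lb u.1 < s ∧ u.2.1 < nhi ν (lbS (e := e) u.1) then
      match c with
      | Sum.inl z => ω ⟨lb u.1, hu.1⟩ ⟨lbS u.1, ⟨u.2.1, hu.2⟩⟩ ⟨Sum.inl z.1, z.2⟩
      | Sum.inr z => ω ⟨lb u.1, hu.1⟩ ⟨lbS u.1, ⟨u.2.1, hu.2⟩⟩
          ⟨Sum.inr (Pool.Agent.V7.BE.hlab z.1), z.2⟩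
    else 0
  refine ⟨p, fun j f => ?_⟩
  funext x
  have hrt : (rt (x.1.1.map (emb J (gb j f)))).Nonempty := by
    by_contra hcon
    have h1 : x.1.2.1 < nb ν (x.1.1.map (emb J (gb j f))) := x.2
    unfold nb at h1
    rw [dif_neg hcon] at h1
    exact Nat.not_lt_zero _ h1
  have hl := hlb j f x.1.1 hrt
  have hS : lbS (e := e) (x.1.1.map (emb J (gb j f))) = x.1.1 := lbS_map j f x.1.1
  have hnD : spt ν (gb j f) x ∉ δ.D := fun hD => h _ hD j f (sees_spt _ x)
  -- the value of the parameters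
  have hω : ∀ (a : ℕ) (ha : a < s) (S' : Finset (Fin J ⊕ Fin e)) (hS' : x.1.2.1 < nhi ν S'),
      a = j → S' = x.1.1 → ω ⟨a, ha⟩ ⟨S', ⟨x.1.2.1, hS'⟩⟩ = ω j x.1 := by
    intro a ha S' hS' h1 h2
    subst h2
    have h3 : (⟨a, ha⟩ : Fin s) = j := Fin.ext h1
    rw [h3]
  have hu : lb (spt ν (gb j f) x).1 < s ∧
      (spt ν (gb j f) x).2.1 < nhi ν (lbS (e := e) (spt ν (gb j f) x).1) := by
    refine ⟨?_, ?_⟩
    · show lb (x.1.1.map (emb J (gb j f))) < s
      rw [hl]
      exact j.2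
    · show x.1.2.1 < nhi ν (lbS (e := e) (x.1.1.map (emb J (gb j f))))
      rw [hS]
      exact x.1.2.2
  have hω' := hω (lb (spt ν (gb j f) x).1) hu.1 (lbS (e := e) (spt ν (gb j f) x).1) hu.2 hl hS
  funext c
  obtain ⟨i, z⟩ := c
  rcases i with i | g
  · rw [pos_inl]
    unfold vis
    simp only [if_neg fun hc : spt ν (gb j f) x ∈ δ.D ∧ i = δ.slot (spt ν (gb j f) x) =>
      hnD hc.1]
    simp only [p]
    rw [dif_pos hu]
    exact congrFun hω' ⟨Sum.inl i, z⟩
  · rw [pos_inr]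
    unfold vis
    simp only [p]
    rw [dif_pos hu]
    have h1 : Pool.Agent.V7.BE.hlab (gb j f g) = g := Pool.Agent.V7.BE.hlab_blk _ _ _
    show ω _ _ ⟨Sum.inr (Pool.Agent.V7.BE.hlab (gb j f g)), z⟩ = _
    rw [h1]
    exact congrFun hω' ⟨Sum.inr g, z⟩

theorem bad_card (δ : Dpn ν q) (h : ∀ u ∈ δ.D, ∀ v ∈ δ.R u, (rt u.1).card + 1 = e ∧
      (rt v.1).card + 1 = e ∧ rt u.1 ≠ rt v.1) :
    (bad e δ).card ≤ ∑ u ∈ δ.D, (δ.R u).card := by
  classical
  rw [← card_sigma]
  refine Finset.card_le_card_of_forall_subsingleton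
    (fun (α : Fin e ↪o Fin q) (x : Σ _ : PB ν q, PB ν q) => Sees α x.1 ∧ Sees α x.2) ?_ ?_
  · intro α hα
    unfold bad at hα
    obtain ⟨-, u, hu, hs, v, hv, hs'⟩ := mem_filter.1 hα
    exact ⟨⟨u, v⟩, mem_sigma.2 ⟨hu, hv⟩, hs, hs'⟩
  · rintro ⟨u, v⟩ huv α hα β hβ
    obtain ⟨hu, hv⟩ := mem_sigma.1 huv
    obtain ⟨h1, h2, h3⟩ := h u hu v hv
    have key : ∀ γ : Fin e ↪o Fin q, Sees γ u → Sees γ v →
        univ.map γ.toEmbedding = rt u.1 ∪ rt v.1 := by
      intro γ hγu hγv
      have h4 : rt u.1 ∪ rt v.1 ⊆ univ.map γ.toEmbedding := by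
        intro b hb
        rcases mem_union.1 hb with hb | hb
        · obtain ⟨g, rfl⟩ := hγu b hb
          exact mem_map.2 ⟨g, mem_univ _, rfl⟩
        · obtain ⟨g, rfl⟩ := hγv b hb
          exact mem_map.2 ⟨g, mem_univ _, rfl⟩
      symm
      refine Finset.eq_of_subset_of_card_le h4 ?_
      rw [card_map, card_univ, Fintype.card_fin]
      -- the union is larger than `rt u`
      have h5 : rt u.1 ⊂ rt u.1 ∪ rt v.1 := by
        refine Finset.ssubset_iff_subset_ne.2 ⟨subset_union_left, fun h6 => ?_⟩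
        have h7 : rt v.1 ⊆ rt u.1 := by
          rw [h6]
          exact subset_union_right
        exact h3 (Finset.eq_of_subset_of_card_le h7 (by omega)).symm
      have h6 := Finset.card_lt_card h5
      omega
    have h4 := key α hα.2.1 hα.2.2
    have h5 := key β hβ.2.1 hβ.2.2
    have h6 : (univ.map α.toEmbedding : Finset (Fin q)) = univ.map β.toEmbedding := h4.trans h5.symm
    have h7 : Set.range α = Set.range β := by
      have h8 := congrArg (fun s : Finset (Fin q) => (s : Set (Fin q))) h6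
      simpa using h8
    exact OrderEmbedding.range_inj.1 h7

end Pool.Agent.GD.BE
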